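import Mathlib

set_option autoImplicit false

namespace Pool.Agent.V11114.Quat

open Matrix Finset Filter Topology
open scoped Quaternion

/-- the real quaternions -/
abbrev H := Quaternion ℝ

variable {n : ℕ}

/-- The coefficients `A 0, …, A l` are those of a system `(∗)`: `A k` is hermitian for odd `k`,
skewhermitian for even `k`, and `A l` is invertible. -/
def IsSys (l n : ℕ) (A : ℕ → Matrix (Fin n) (Fin n) H) : Prop :=
  (∀ k ≤ l, Odd k → (A k)ᴴ = A k) ∧ (∀ k ≤ l, Even k → (A k)ᴴ = -A k) ∧ IsUnit (A l)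

/-- `x` solves `A_l x^(l) + ⋯ + A_1 x' + A_0 x = 0`. -/
def IsSol (l : ℕ) (A : ℕ → Matrix (Fin n) (Fin n) H) (x : ℝ → Fin n → H) : Prop :=
  ContDiff ℝ l x ∧ ∀ t, ∑ k ∈ range (l + 1), A k *ᵥ iteratedDeriv k x t = 0

/-- every solution is bounded on `ℝ` -/
def IsBdd (l : ℕ) (A : ℕ → Matrix (Fin n) (Fin n) H) : Prop :=
  ∀ x, IsSol l A x → ∃ M : ℝ, ∀ t, ‖x t‖ ≤ M

/-- stably bounded: all systems of the same kind with close coefficients are bounded -/
def StablyBdd (l : ℕ) (A : ℕ → Matrix (Fin n) (Fin n) H) : Prop :=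
  ∃ ε : ℝ, 0 < ε ∧ ∀ A' : ℕ → Matrix (Fin n) (Fin n) H, IsSys l n A' →
    (∀ k ≤ l, ∀ i j, ‖A' k i j - A k i j‖ < ε) → IsBdd l A'

/-- right multiplication of a quaternion vector by a quaternion -/
noncomputable def rm {ι : Type*} (q : H) (z : ι → H) : ι → H := fun p => z p * q

/-- `L(λ) v = ∑ A_k v λ^k` -/
noncomputable def PL (l : ℕ) (A : ℕ → Matrix (Fin n) (Fin n) H) (lam : H) (v : Fin n → H) :
    Fin n → H := ∑ k ∈ range (l + 1), A k *ᵥ rm (lam ^ k) v

/-- `L'(λ) v = ∑ k A_k v λ^(k-1)` -/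
noncomputable def PD (l : ℕ) (A : ℕ → Matrix (Fin n) (Fin n) H) (lam : H) (v : Fin n → H) :
    Fin n → H := ∑ k ∈ range (l + 1), A k *ᵥ rm ((k : H) * lam ^ (k - 1)) v

theorem mulVec_rm {ι κ : Type*} [Fintype κ] (M : Matrix ι κ H) (q : H) (z : κ → H) :
    M *ᵥ rm q z = rm q (M *ᵥ z) := by
  funext i
  unfold Matrix.mulVec dotProduct rm
  rw [Finset.sum_mul]
  exact Finset.sum_congr rfl fun j _ => by rw [mul_assoc]

theorem rm_rm {ι : Type*} (p q : H) (z : ι → H) : rm p (rm q z) = rm (q * p) z := by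
  funext i; unfold rm; rw [mul_assoc]

theorem rm_add {ι : Type*} (q : H) (z w : ι → H) : rm q (z + w) = rm q z + rm q w := by
  funext i; simp [rm, add_mul]

theorem rm_sub {ι : Type*} (q : H) (z w : ι → H) : rm q (z - w) = rm q z - rm q w := by
  funext i; simp [rm, sub_mul]

theorem rm_neg {ι : Type*} (q : H) (z : ι → H) : rm q (-z) = -rm q z := by
  funext i; simp [rm]

theorem rm_add' {ι : Type*} (p q : H) (z : ι → H) : rm (p + q) z = rm p z + rm q z := by
  funext i; simp [rm, mul_add]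

theorem rm_neg' {ι : Type*} (q : H) (z : ι → H) : rm (-q) z = -rm q z := by
  funext i; simp [rm]

theorem rm_one {ι : Type*} (z : ι → H) : rm 1 z = z := by
  funext i; simp [rm]

theorem rm_zero {ι : Type*} (q : H) : rm q (0 : ι → H) = 0 := by
  funext i; simp [rm]

theorem rm_smul {ι : Type*} (q : H) (c : ℝ) (z : ι → H) : rm q (c • z) = c • rm q z := by
  funext i; simp [rm]

theorem rm_smul' {ι : Type*} (q : H) (c : ℝ) (z : ι → H) : rm (c • q) z = c • rm q z := by
  funext i; simp [rm]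

/-- the basic solutions `(y + t v) exp(t λ)` -/
noncomputable def sol (lam : H) (y v : Fin n → H) (t : ℝ) : Fin n → H :=
  rm (NormedSpace.exp (t • lam)) (y + t • v)

theorem sol_deriv (lam : H) (y v : Fin n → H) (t : ℝ) :
    HasDerivAt (sol lam y v) (sol lam (rm lam y + v) (rm lam v) t) t := by
  rw [hasDerivAt_pi]
  intro a
  have h1 : HasDerivAt (fun s : ℝ => y a + s • v a) (v a) t := by
    have := ((hasDerivAt_id t).smul_const (v a)).const_add (y a)
    simpa using this
  have h2 := hasDerivAt_exp_smul_const' (𝕂 := ℝ) lam t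
  have h3 := h1.mul h2
  have h4 : sol lam (rm lam y + v) (rm lam v) t a
      = v a * NormedSpace.exp (t • lam) + (y a + t • v a) * (lam * NormedSpace.exp (t • lam)) := by
    unfold sol rm
    simp only [Pi.add_apply, Pi.smul_apply]
    rw [← mul_assoc, ← add_mul]
    congr 1
    rw [add_mul, smul_mul_assoc]
    abel
  rw [h4]
  exact h3

theorem sol_iter (lam : H) (y v : Fin n → H) (k : ℕ) :
    iteratedDeriv k (sol lam y v)
      = sol lam (rm (lam ^ k) y + rm ((k : H) * lam ^ (k - 1)) v) (rm (lam ^ k) v) := by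
  induction k with
  | zero =>
    rw [iteratedDeriv_zero]
    congr 1
    · funext a; simp [rm]
    · funext a; simp [rm]
  | succ k ih =>
    rw [iteratedDeriv_succ, ih]
    funext t
    rw [(sol_deriv lam _ _ t).deriv]
    congr 1
    · rw [rm_add, rm_rm, rm_rm, ← pow_succ, add_assoc, ← rm_add']
      congr 2
      cases k with
      | zero => simp
      | succ k =>
        simp only [Nat.add_sub_cancel]
        rw [mul_assoc, ← pow_succ]
        push_cast
        ring_nf
        noncomm_ring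
    · rw [rm_rm, pow_succ]

theorem sol_contDiff (lam : H) (y v : Fin n → H) (l : ℕ) : ContDiff ℝ l (sol lam y v) := by
  apply contDiff_of_differentiable_iteratedDeriv
  intro m _
  rw [sol_iter]
  exact fun t => (sol_deriv lam _ _ t).differentiableAt

theorem sol_isSol (l : ℕ) (A : ℕ → Matrix (Fin n) (Fin n) H) (lam : H) (y v : Fin n → H)
    (hv : PL l A lam v = 0) (hy : PL l A lam y + PD l A lam v = 0) : IsSol l A (sol lam y v) := by
  refine ⟨sol_contDiff lam y v l, fun t => ?_⟩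
  have h1 : ∑ k ∈ range (l + 1), A k *ᵥ iteratedDeriv k (sol lam y v) t
      = rm (NormedSpace.exp (t • lam)) ((PL l A lam y + PD l A lam v) + t • PL l A lam v) := by
    unfold PL PD
    rw [← Finset.sum_add_distrib, Finset.smul_sum, ← Finset.sum_add_distrib]
    have hrs : ∀ f : ℕ → Fin n → H, rm (NormedSpace.exp (t • lam)) (∑ k ∈ range (l + 1), f k)
        = ∑ k ∈ range (l + 1), rm (NormedSpace.exp (t • lam)) (f k) := by
      intro f
      funext a
      simp only [rm, Finset.sum_apply, Finset.sum_mul]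
    rw [hrs]
    refine Finset.sum_congr rfl fun k _ => ?_
    rw [sol_iter]
    unfold sol
    rw [mulVec_rm, Matrix.mulVec_add, Matrix.mulVec_add, Matrix.mulVec_smul]
  rw [h1, hv, hy, smul_zero, add_zero, rm_zero]

theorem norm_sol (lam : H) (y v : Fin n → H) (t : ℝ) (a : Fin n) :
    ‖sol lam y v t a‖ = ‖y a + t • v a‖ * Real.exp (t * lam.re) := by
  unfold sol rm
  rw [norm_mul, Quaternion.norm_exp]
  simp only [Pi.add_apply, Pi.smul_apply]
  congr 1
  rw [← Real.exp_eq_exp_ℝ, Real.norm_of_nonneg (Real.exp_pos _).le]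
  congr 1

/-- a Jordan chain at a purely imaginary eigenvalue gives an unbounded solution -/
theorem unbdd_chain (l : ℕ) (A : ℕ → Matrix (Fin n) (Fin n) H) (lam : H) (hlam : lam.re = 0)
    (y v : Fin n → H) (hv0 : v ≠ 0)
    (hv : PL l A lam v = 0) (hy : PL l A lam y + PD l A lam v = 0) : ¬ IsBdd l A := by
  intro hb
  obtain ⟨M, hM⟩ := hb _ (sol_isSol l A lam y v hv hy)
  obtain ⟨a, ha⟩ : ∃ a, v a ≠ 0 := Function.ne_iff.mp hv0
  have hva : 0 < ‖v a‖ := norm_pos_iff.mpr ha
  have h1 : ∀ t : ℝ, 0 ≤ t → t * ‖v a‖ ≤ M + ‖y a‖ := by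
    intro t ht
    have h2 := (norm_le_pi_norm (sol lam y v t) a).trans (hM t)
    rw [norm_sol, hlam, mul_zero, Real.exp_zero, mul_one] at h2
    have h3 : ‖t • v a‖ ≤ ‖y a + t • v a‖ + ‖y a‖ := by
      have : t • v a = (y a + t • v a) - y a := by abel
      calc ‖t • v a‖ = ‖(y a + t • v a) - y a‖ := by rw [← this]
        _ ≤ _ := norm_sub_le _ _
    rw [norm_smul, Real.norm_of_nonneg ht] at h3
    linarith
  have h2 := h1 ((|M| + ‖y a‖ + 1) / ‖v a‖) (by positivity)
  rw [div_mul_cancel₀ _ hva.ne'] at h2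
  have := le_abs_self M
  linarith

/-- an eigenvalue off the imaginary axis gives an unbounded solution -/
theorem unbdd_re (l : ℕ) (A : ℕ → Matrix (Fin n) (Fin n) H) (lam : H) (hlam : lam.re ≠ 0)
    (v : Fin n → H) (hv0 : v ≠ 0) (hv : PL l A lam v = 0) : ¬ IsBdd l A := by
  intro hb
  have hPD : PD l A lam 0 = 0 := by
    unfold PD
    refine Finset.sum_eq_zero fun k _ => ?_
    rw [rm_zero, Matrix.mulVec_zero]
  have hPL : PL l A lam 0 = 0 := by
    unfold PL
    refine Finset.sum_eq_zero fun k _ => ?_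
    rw [rm_zero, Matrix.mulVec_zero]
  obtain ⟨M, hM⟩ := hb _ (sol_isSol l A lam v 0 hPL (by rw [hv, hPD, add_zero]))
  obtain ⟨a, ha⟩ : ∃ a, v a ≠ 0 := Function.ne_iff.mp hv0
  have hva : 0 < ‖v a‖ := norm_pos_iff.mpr ha
  have h1 : ∀ s : ℝ, ‖v a‖ * Real.exp s ≤ M := by
    intro s
    have h2 := (norm_le_pi_norm (sol lam v 0 (s / lam.re)) a).trans (hM _)
    rw [norm_sol, div_mul_cancel₀ _ hlam] at h2
    simpa using h2
  have h2 := h1 (|M| / ‖v a‖)
  have h3 : |M| / ‖v a‖ + 1 ≤ Real.exp (|M| / ‖v a‖) := Real.add_one_le_exp _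
  have h4 : ‖v a‖ * (|M| / ‖v a‖ + 1) ≤ M := le_trans (by gcongr) h2
  have h5 : ‖v a‖ * (|M| / ‖v a‖ + 1) = |M| + ‖v a‖ := by field_simp
  rw [h5] at h4
  have := le_abs_self M
  linarith

end Pool.Agent.V11114.Quat
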