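import Mathlib
import Pool.Agent.V11114.Quat1

set_option autoImplicit false

namespace Pool.Agent.V11114.Quat

open Matrix Finset Filter Topology
open scoped Quaternion

variable {n : ℕ}

section unit
attribute [local instance] Matrix.linftyOpNormedRing Matrix.linftyOpNormedAlgebra

theorem isUnit_eventually (M : Matrix (Fin n) (Fin n) H) (hM : IsUnit M)
    (B : ℝ → Matrix (Fin n) (Fin n) H) (hB : ∀ i j, Tendsto (fun δ => B δ i j) (𝓝[>] 0) (𝓝 0)) :
    ∀ᶠ δ in 𝓝[>] (0 : ℝ), IsUnit (M + B δ) := by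
  haveI : CompleteSpace (Matrix (Fin n) (Fin n) H) := FiniteDimensional.complete ℝ _
  have h1 : {x : Matrix (Fin n) (Fin n) H | IsUnit x} ∈ 𝓝 M := Units.isOpen.mem_nhds hM
  have h2 : Tendsto (fun δ => M + B δ) (𝓝[>] (0 : ℝ)) (𝓝 M) := by
    have h3 : Tendsto (fun δ => B δ) (𝓝[>] (0 : ℝ)) (𝓝 0) :=
      tendsto_pi_nhds.mpr fun i => tendsto_pi_nhds.mpr fun j => hB i j
    have := h3.const_add M
    simpa using this
  exact h2 h1

end unit

theorem powaux (x : H) (k : ℕ) :
    ((k + 1 : ℕ) : H) * x ^ k = (k : H) * x ^ (k - 1) * x + x ^ k * 1 := by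
  cases k with
  | zero => simp
  | succ k =>
    show ((k + 1 + 1 : ℕ) : H) * x ^ (k + 1) = ((k + 1 : ℕ) : H) * x ^ k * x + x ^ (k + 1) * 1
    rw [mul_assoc, ← pow_succ]
    push_cast
    noncomm_ring

theorem pow_deriv (lam : H) (k : ℕ) (s : ℝ) :
    HasDerivAt (fun s : ℝ => (lam + (s : H)) ^ k) ((k : H) * (lam + (s : H)) ^ (k - 1)) s := by
  induction k with
  | zero => simpa using hasDerivAt_const s (1 : H)
  | succ k ih =>
    have h1 : HasDerivAt (fun s : ℝ => lam + (s : H)) 1 s := by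
      have h2 : HasDerivAt (fun s : ℝ => (s : H)) 1 s := by
        have h3 : (fun s : ℝ => (s : H)) = fun s => s • (1 : H) := by
          funext s; ext <;> simp
        rw [h3]
        simpa using (hasDerivAt_id s).smul_const (1 : H)
      exact h2.const_add lam
    have h2 := ih.mul h1
    have h3 : (fun s : ℝ => (lam + (s : H)) ^ (k + 1))
        = (fun s : ℝ => (lam + (s : H)) ^ k) * fun s : ℝ => lam + (s : H) := by
      funext s; simp [pow_succ]
    rw [h3]
    have h5 : ((k + 1 : ℕ) : H) * (lam + (s : H)) ^ (k + 1 - 1)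
        = (k : H) * (lam + (s : H)) ^ (k - 1) * (lam + (s : H)) + (lam + (s : H)) ^ k * 1 :=
      powaux _ k
    rw [h5]
    exact h2

theorem PL_deriv (l : ℕ) (A : ℕ → Matrix (Fin n) (Fin n) H) (lam : H) (v : Fin n → H)
    (a : Fin n) :
    HasDerivAt (fun s : ℝ => PL l A (lam + (s : H)) v a) (PD l A lam v a) 0 := by
  have h1 : ∀ q : ℕ → H, (∑ k ∈ range (l + 1), A k *ᵥ rm (q k) v) a
      = ∑ k ∈ range (l + 1), ∑ b, A k a b * (v b * q k) := by
    intro q
    rw [Finset.sum_apply]
    rfl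
  have h2 : (fun s : ℝ => PL l A (lam + (s : H)) v a)
      = fun s : ℝ => ∑ k ∈ range (l + 1), ∑ b, A k a b * (v b * (lam + (s : H)) ^ k) := by
    funext s
    exact h1 _
  have h3 : PD l A lam v a
      = ∑ k ∈ range (l + 1), ∑ b, A k a b * (v b * ((k : H) * (lam + ((0 : ℝ) : H)) ^ (k - 1))) := by
    unfold PD
    rw [h1 (fun k => (k : H) * lam ^ (k - 1))]
    simp
  rw [h2, h3]
  refine HasDerivAt.fun_sum fun k _ => HasDerivAt.fun_sum fun b _ => ?_
  exact ((pow_deriv lam k 0).const_mul (v b)).const_mul (A k a b)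

theorem star_eq_neg {q : H} (h : q.re = 0) : star q = -q := by
  ext <;> simp [h]

theorem dot_self (v : Fin n → H) : star v ⬝ᵥ v = ((∑ a, Quaternion.normSq (v a) : ℝ) : H) := by
  unfold dotProduct
  have : ∀ a, star v a * v a = ((Quaternion.normSq (v a) : ℝ) : H) := fun a => by
    rw [Pi.star_apply, Quaternion.star_mul_self]
  simp only [this]
  exact (map_sum (algebraMap ℝ H) _ _).symm

/-- the perturbation lemma -/
theorem perturb (l : ℕ) (hl : 1 ≤ l) (A : ℕ → Matrix (Fin n) (Fin n) H) (hA : IsSys l n A)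
    (lam : H) (hlam : lam.re = 0) (v : Fin n → H) (hv0 : v ≠ 0) (hv : PL l A lam v = 0)
    (hneu : (star v ⬝ᵥ PD l A lam v).re = 0) : ¬ StablyBdd l A := by
  rintro ⟨ε, hε, hS⟩
  set N : ℝ := ∑ a, Quaternion.normSq (v a) with hN
  have hN0 : 0 < N := by
    obtain ⟨a, ha⟩ : ∃ a, v a ≠ 0 := Function.ne_iff.mp hv0
    refine Finset.sum_pos' (fun b _ => Quaternion.normSq_nonneg) ⟨a, Finset.mem_univ a, ?_⟩
    exact lt_of_le_of_ne Quaternion.normSq_nonneg (Ne.symm (Quaternion.normSq_ne_zero.mpr ha))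
  have hvv : star v ⬝ᵥ v = (N : H) := dot_self v
  have hvv' : ∑ b, star (v b) * v b = (N : H) := hvv
  set r : ℝ → Fin n → H := fun δ => PL l A (lam + (δ : H)) v with hr
  have hr0 : r 0 = 0 := by simp only [hr]; simpa using hv
  have hrc : ∀ a, Tendsto (fun δ => r δ a) (𝓝[>] (0 : ℝ)) (𝓝 0) := by
    intro a
    have h1 := (PL_deriv l A lam v a).continuousAt.tendsto
    have h2 : PL l A (lam + ((0 : ℝ) : H)) v a = 0 := by
      have := congrFun hr0 a
      exact this
    rw [h2] at h1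
    exact h1.mono_left nhdsWithin_le_nhds
  set ρ : ℝ → ℝ := fun δ => (star v ⬝ᵥ r δ).re with hρ
  have hρd : HasDerivAt ρ 0 0 := by
    have h1 : HasDerivAt (fun δ => star v ⬝ᵥ r δ) (star v ⬝ᵥ PD l A lam v) 0 :=
      HasDerivAt.fun_sum fun a _ => (PL_deriv l A lam v a).const_mul (star v a)
    let L : H →L[ℝ] ℝ := LinearMap.toContinuousLinearMap
      { toFun := fun q => q.re, map_add' := fun _ _ => rfl, map_smul' := fun _ _ => rfl }
    have h2 := L.hasFDerivAt.comp_hasDerivAt (0 : ℝ) h1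
    have h3 : L (star v ⬝ᵥ PD l A lam v) = 0 := hneu
    rw [h3] at h2
    exact h2
  have hρ0 : ρ 0 = 0 := by simp only [hρ, hr0]; simp
  set s : ℝ → ℝ := fun δ => -(ρ δ) / (N * δ) with hs
  have hs0 : Tendsto s (𝓝[>] (0 : ℝ)) (𝓝 0) := by
    have h1 := hρd.tendsto_slope_zero_right
    simp only [zero_add, hρ0, sub_zero] at h1
    have h2 := h1.const_mul (-(1 / N))
    rw [mul_zero] at h2
    refine h2.congr fun δ => ?_
    simp only [hs, smul_eq_mul]
    rw [neg_mul, one_div, neg_div, ← mul_assoc, div_eq_mul_inv, mul_inv]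
    ring
  have hsδ : ∀ δ : ℝ, 0 < δ → s δ * (N * δ) = -(ρ δ) := by
    intro δ hδ
    simp only [hs]
    rw [div_mul_cancel₀]
    positivity
  set u : ℝ → Fin n → H := fun δ a => -(r δ a) - s δ • (v a * (lam + (δ : H))) with hu
  have huc : ∀ a, Tendsto (fun δ => u δ a) (𝓝[>] (0 : ℝ)) (𝓝 0) := by
    intro a
    have h1 : Tendsto (fun δ : ℝ => v a * (lam + (δ : H))) (𝓝[>] (0 : ℝ)) (𝓝 (v a * lam)) := by
      have h2 := (pow_deriv lam 1 0).continuousAt.tendsto
      simp only [pow_one] at h2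
      have h3 := (h2.mono_left (nhdsWithin_le_nhds : 𝓝[>] (0 : ℝ) ≤ 𝓝 0)).const_mul (v a)
      simpa using h3
    have h2 := (hrc a).neg.sub (hs0.smul h1)
    simpa using h2
  have hure : ∀ δ : ℝ, 0 < δ → (star v ⬝ᵥ u δ).re = 0 := by
    intro δ hδ
    have h1 : star v ⬝ᵥ u δ = -(star v ⬝ᵥ r δ) - s δ • ((star v ⬝ᵥ v) * (lam + (δ : H))) := by
      unfold dotProduct
      rw [Finset.sum_mul, Finset.smul_sum, ← Finset.sum_neg_distrib, ← Finset.sum_sub_distrib]
      refine Finset.sum_congr rfl fun a _ => ?_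
      simp only [hu]
      rw [mul_sub, mul_neg, mul_smul_comm, mul_assoc]
    rw [h1, hvv]
    have h2 : ((N : H) * (lam + (δ : H))).re = N * δ := by
      simp [hlam]
    rw [Quaternion.re_sub, Quaternion.re_neg, Quaternion.re_smul, h2, smul_eq_mul, hsδ δ hδ]
    show -(ρ δ) - -(ρ δ) = 0
    ring
  set B1 : ℝ → Matrix (Fin n) (Fin n) H := fun δ => Matrix.of fun a b =>
    (s δ / N) • (v a * star (v b)) with hB1
  set B0 : ℝ → Matrix (Fin n) (Fin n) H := fun δ => Matrix.of fun a b =>
    (1 / N) • (u δ a * star (v b) - v a * star (u δ b))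
      + (1 / N ^ 2) • (v a * (star (u δ) ⬝ᵥ v) * star (v b)) with hB0
  have hB1v : ∀ δ a, (B1 δ *ᵥ v) a = s δ • v a := by
    intro δ a
    have h1 : (B1 δ *ᵥ v) a = ∑ b, (s δ / N) • (v a * star (v b)) * v b := rfl
    rw [h1]
    have h2 : ∀ b, (s δ / N) • (v a * star (v b)) * v b = (s δ / N) • (v a * (star (v b) * v b)) := by
      intro b; rw [smul_mul_assoc, mul_assoc]
    simp only [h2]
    rw [← Finset.smul_sum, ← Finset.mul_sum, hvv', ← Quaternion.coe_commutes,
      Quaternion.coe_mul_eq_smul, smul_smul, div_mul_cancel₀ _ hN0.ne']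
  have hB0v : ∀ δ a, (B0 δ *ᵥ v) a = u δ a := by
    intro δ a
    have h1 : (B0 δ *ᵥ v) a = ∑ b, ((1 / N) • (u δ a * star (v b) - v a * star (u δ b))
      + (1 / N ^ 2) • (v a * (star (u δ) ⬝ᵥ v) * star (v b))) * v b := rfl
    rw [h1]
    have h2 : ∀ b, ((1 / N) • (u δ a * star (v b) - v a * star (u δ b))
      + (1 / N ^ 2) • (v a * (star (u δ) ⬝ᵥ v) * star (v b))) * v b
        = (1 / N) • (u δ a * (star (v b) * v b)) - (1 / N) • (v a * (star (u δ b) * v b))
          + (1 / N ^ 2) • (v a * (star (u δ) ⬝ᵥ v) * (star (v b) * v b)) := by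
      intro b
      rw [add_mul, smul_mul_assoc, smul_mul_assoc, sub_mul, smul_sub, mul_assoc, mul_assoc,
        mul_assoc (v a * (star (u δ) ⬝ᵥ v))]
    simp only [h2]
    rw [Finset.sum_add_distrib, Finset.sum_sub_distrib, ← Finset.smul_sum, ← Finset.smul_sum,
      ← Finset.smul_sum, ← Finset.mul_sum, ← Finset.mul_sum, ← Finset.mul_sum, hvv']
    have h3 : ∑ b, star (u δ b) * v b = star (u δ) ⬝ᵥ v := rfl
    rw [h3, ← Quaternion.coe_commutes, ← Quaternion.coe_commutes, Quaternion.coe_mul_eq_smul,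
      Quaternion.coe_mul_eq_smul, smul_smul, smul_smul]
    have h4 : 1 / N * N = 1 := by field_simp
    have h5 : 1 / N ^ 2 * N = 1 / N := by field_simp
    rw [h4, h5, one_smul]
    abel
  have hB1c : ∀ a b, Tendsto (fun δ => B1 δ a b) (𝓝[>] (0 : ℝ)) (𝓝 0) := by
    intro a b
    have h1 := (hs0.div_const N).smul_const (v a * star (v b))
    show Tendsto (fun δ => (s δ / N) • (v a * star (v b))) _ _
    simpa using h1
  have hB0c : ∀ a b, Tendsto (fun δ => B0 δ a b) (𝓝[>] (0 : ℝ)) (𝓝 0) := by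
    intro a b
    have hsu : ∀ b, Tendsto (fun δ => star (u δ b)) (𝓝[>] (0 : ℝ)) (𝓝 0) := by
      intro b
      have := (huc b).star
      simpa using this
    have h1 : Tendsto (fun δ => star (u δ) ⬝ᵥ v) (𝓝[>] (0 : ℝ)) (𝓝 0) := by
      have := tendsto_finsetSum (s := (Finset.univ : Finset (Fin n)))
        (f := fun b δ => star (u δ b) * v b) (fun b _ => (hsu b).mul_const (v b))
      show Tendsto (fun δ => ∑ b, star (u δ b) * v b) _ _
      simpa using this
    have h2 := ((((huc a).mul_const (star (v b))).sub ((hsu b).const_mul (v a))).const_smul (1 / N)).add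
      (((h1.const_mul (v a)).mul_const (star (v b))).const_smul (1 / N ^ 2))
    show Tendsto (fun δ => (1 / N) • (u δ a * star (v b) - v a * star (u δ b))
      + (1 / N ^ 2) • (v a * (star (u δ) ⬝ᵥ v) * star (v b))) _ _
    simpa using h2
  -- choose δ
  have hev : ∀ᶠ δ in 𝓝[>] (0 : ℝ), 0 < δ ∧ (∀ a b, ‖B1 δ a b‖ < ε) ∧ (∀ a b, ‖B0 δ a b‖ < ε) ∧
      (l = 1 → IsUnit (A 1 + B1 δ)) := by
    have e1 : ∀ᶠ δ in 𝓝[>] (0 : ℝ), ∀ a b, ‖B1 δ a b‖ < ε := by
      rw [Filter.eventually_all]; intro a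
      rw [Filter.eventually_all]; intro b
      have := (hB1c a b).norm
      rw [norm_zero] at this
      exact this.eventually_lt_const hε
    have e2 : ∀ᶠ δ in 𝓝[>] (0 : ℝ), ∀ a b, ‖B0 δ a b‖ < ε := by
      rw [Filter.eventually_all]; intro a
      rw [Filter.eventually_all]; intro b
      have := (hB0c a b).norm
      rw [norm_zero] at this
      exact this.eventually_lt_const hε
    have e3 : ∀ᶠ δ in 𝓝[>] (0 : ℝ), (l = 1 → IsUnit (A 1 + B1 δ)) := by
      rcases eq_or_ne l 1 with h | h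
      · have := isUnit_eventually (A 1) (h ▸ hA.2.2) B1 hB1c
        filter_upwards [this] with δ hδ _ using hδ
      · exact Filter.Eventually.of_forall fun δ hh => absurd hh h
    filter_upwards [self_mem_nhdsWithin, e1, e2, e3] with δ h0 h1 h2 h3
    exact ⟨h0, h1, h2, h3⟩
  obtain ⟨δ, hδ, h1, h2, h3⟩ := hev.exists
  set A' : ℕ → Matrix (Fin n) (Fin n) H := fun k =>
    A k + (if k = 0 then B0 δ else if k = 1 then B1 δ else 0) with hA'
  have hB1h : (B1 δ)ᴴ = B1 δ := by
    ext1 a b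
    rw [Matrix.conjTranspose_apply]
    simp only [hB1, Matrix.of_apply]
    rw [Quaternion.star_smul, star_mul, star_star]
  have hB0h : (B0 δ)ᴴ = -B0 δ := by
    ext1 a b
    rw [Matrix.conjTranspose_apply, Matrix.neg_apply]
    simp only [hB0, Matrix.of_apply]
    have h4 : star (star (u δ) ⬝ᵥ v) = -(star (u δ) ⬝ᵥ v) := by
      have h5 : star (star v ⬝ᵥ u δ) = star (u δ) ⬝ᵥ v := by
        unfold dotProduct
        rw [star_sum]
        exact Finset.sum_congr rfl fun b _ => by simp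
      have h6 := star_eq_neg (hure δ hδ)
      rw [← h5, star_star, h6, neg_neg]
    rw [star_add, Quaternion.star_smul, Quaternion.star_smul, star_sub, star_mul, star_mul,
      star_mul, star_mul, star_star, star_star, h4]
    have h5 : v a * (-(star (u δ) ⬝ᵥ v) * star (v b)) = -(v a * (star (u δ) ⬝ᵥ v) * star (v b)) := by
      noncomm_ring
    rw [h5, smul_neg, neg_add]
    congr 1
    rw [← smul_neg]
    congr 1
    abel
  have hsys : IsSys l n A' := by
    refine ⟨fun k hk hodd => ?_, fun k hk heven => ?_, ?_⟩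
    · simp only [hA']
      have hk0 : k ≠ 0 := by rintro rfl; simp at hodd
      rw [if_neg hk0, Matrix.conjTranspose_add, hA.1 k hk hodd]
      congr 1
      split_ifs
      · exact hB1h
      · simp
    · simp only [hA']
      have hk1 : k ≠ 1 := by rintro rfl; simp at heven
      rw [Matrix.conjTranspose_add, hA.2.1 k hk heven, neg_add]
      congr 1
      split_ifs
      · exact hB0h
      · simp
    · simp only [hA']
      have hl0 : l ≠ 0 := by omega
      rw [if_neg hl0]
      split_ifs with h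
      · rw [h]; exact h3 h
      · rw [add_zero]; exact hA.2.2
  have hclose : ∀ k ≤ l, ∀ i j, ‖A' k i j - A k i j‖ < ε := by
    intro k _ i j
    simp only [hA', Matrix.add_apply, add_sub_cancel_left]
    split_ifs
    · exact h2 i j
    · exact h1 i j
    · simpa using hε
  have hb := hS A' hsys hclose
  refine unbdd_re l A' (lam + (δ : H)) ?_ v hv0 ?_ hb
  · simp [hlam, hδ.ne']
  · have hPL : PL l A' (lam + (δ : H)) v
        = r δ + (B0 δ *ᵥ v + rm (lam + (δ : H)) (B1 δ *ᵥ v)) := by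
      have e1 : PL l A' (lam + (δ : H)) v = PL l A (lam + (δ : H)) v
          + ∑ k ∈ range (l + 1), (if k = 0 then B0 δ else if k = 1 then B1 δ else 0) *ᵥ
            rm ((lam + (δ : H)) ^ k) v := by
        unfold PL
        rw [← Finset.sum_add_distrib]
        exact Finset.sum_congr rfl fun k _ => by simp only [hA', Matrix.add_mulVec]
      rw [e1]
      congr 1
      have hsub : range 2 ⊆ range (l + 1) := Finset.range_subset_range.mpr (by omega)
      rw [← Finset.sum_subset hsub]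
      · rw [Finset.sum_range_succ, Finset.sum_range_one]
        simp only [if_true, pow_zero, pow_one, rm_one, one_ne_zero, if_false]
        rw [mulVec_rm]
      · intro k _ hk
        have : 2 ≤ k := by
          have h := hk
          simp at h
          omega
        rw [if_neg (by omega), if_neg (by omega), Matrix.zero_mulVec]
    rw [hPL]
    funext a
    have e2 : (B1 δ *ᵥ v) a * (lam + (δ : H)) = s δ • (v a * (lam + (δ : H))) := by
      rw [hB1v, smul_mul_assoc]
    show r δ a + ((B0 δ *ᵥ v) a + (B1 δ *ᵥ v) a * (lam + (δ : H))) = 0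
    rw [hB0v, e2]
    simp only [hu]
    abel

end Pool.Agent.V11114.Quat
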