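import Mathlib
import Pool.Agent.V11114.Quat2

set_option autoImplicit false

namespace Pool.Agent.V11114.Quat

open Matrix Finset Filter Topology
open scoped Quaternion

/-- The block companion matrix (rows and columns indexed by (block, position)). -/
noncomputable def comp (l n : ℕ) (A : ℕ → Matrix (Fin n) (Fin n) H) :
    Matrix (Fin l × Fin n) (Fin l × Fin n) H :=
  Matrix.of fun p q =>
    if p.1.val + 1 < l then (if q.1.val = p.1.val + 1 ∧ q.2 = p.2 then 1 else 0)
    else (-(Ring.inverse (A l) * A q.1.val)) p.2 q.2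

/-- The block matrix `G`; with blocks numbered from `0`, block `(i,j)` is
`(-1)^i A_(i+j+1)` if `i+j+1 ≤ l` and `0` otherwise. -/
noncomputable def gram (l n : ℕ) (A : ℕ → Matrix (Fin n) (Fin n) H) :
    Matrix (Fin l × Fin n) (Fin l × Fin n) H :=
  Matrix.of fun p q =>
    if p.1.val + q.1.val + 1 ≤ l then (-1) ^ p.1.val * A (p.1.val + q.1.val + 1) p.2 q.2 else 0

/-- `lam` is an eigenvalue of `M`: `M x = x lam` for some `x ≠ 0`. -/
def IsEig {ι : Type} [Fintype ι] (M : Matrix ι ι H) (lam : H) : Prop :=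
  ∃ x : ι → H, x ≠ 0 ∧ M *ᵥ x = fun p => x p * lam

/-- The root subspace of the companion matrix at `lam`. -/
def rootSub (l n : ℕ) (A : ℕ → Matrix (Fin n) (Fin n) H) (lam : H) : Set (Fin l × Fin n → H) :=
  {x | (lam.im = 0 → (comp l n A - lam.re • 1) ^ (l * n) *ᵥ x = 0) ∧
    (lam.im ≠ 0 → (comp l n A * comp l n A - (2 * lam.re) • comp l n A
      + Quaternion.normSq lam • 1) ^ (l * n) *ᵥ x = 0)}

/-- the (real) value `x* G x` -/
noncomputable def form (l n : ℕ) (A : ℕ → Matrix (Fin n) (Fin n) H) (x : Fin l × Fin n → H) : ℝ :=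
  (star x ⬝ᵥ gram l n A *ᵥ x).re

variable {l n : ℕ}

theorem comp_row {A : ℕ → Matrix (Fin n) (Fin n) H} (z : Fin l × Fin n → H) (i : Fin l)
    (h : i.val + 1 < l) (a : Fin n) : (comp l n A *ᵥ z) (i, a) = z (⟨i.val + 1, h⟩, a) := by
  unfold Matrix.mulVec dotProduct comp
  simp only [Matrix.of_apply, if_pos h]
  rw [Finset.sum_eq_single (⟨i.val + 1, h⟩, a)]
  · simp
  · rintro ⟨j, b⟩ _ hne
    rw [if_neg, zero_mul]
    rintro ⟨h1, h2⟩
    apply hne
    simp only at h1 h2
    subst h2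
    congr 1
    exact Fin.ext h1
  · intro h1; exact absurd (Finset.mem_univ _) h1

theorem comp_last {A : ℕ → Matrix (Fin n) (Fin n) H} (hA : IsUnit (A l)) (z : Fin l × Fin n → H)
    (i : Fin l) (h : i.val + 1 = l) (w : Fin n → H)
    (hw : ∀ a, (comp l n A *ᵥ z) (i, a) = w a) :
    ∑ j : Fin l, A j.val *ᵥ (fun b => z (j, b)) + A l *ᵥ w = 0 := by
  have h1 : w = -(Ring.inverse (A l) *ᵥ ∑ j : Fin l, A j.val *ᵥ (fun b => z (j, b))) := by
    funext a
    rw [← hw a]
    have h2 : (comp l n A *ᵥ z) (i, a)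
        = ∑ j : Fin l, ∑ b, (-(Ring.inverse (A l) * A j.val)) a b * z (j, b) := by
      have h3 : (comp l n A *ᵥ z) (i, a) = ∑ q : Fin l × Fin n, comp l n A (i, a) q * z q := rfl
      rw [h3, Fintype.sum_prod_type]
      refine Finset.sum_congr rfl fun j _ => Finset.sum_congr rfl fun b _ => ?_
      unfold comp
      rw [Matrix.of_apply, if_neg (by simp [h])]
    rw [h2]
    have h3 : ∀ j : Fin l, ∑ b, (-(Ring.inverse (A l) * A j.val)) a b * z (j, b)
        = -((Ring.inverse (A l) *ᵥ (A j.val *ᵥ fun b => z (j, b))) a) := by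
      intro j
      rw [Matrix.mulVec_mulVec]
      have : ((Ring.inverse (A l) * A j.val) *ᵥ fun b => z (j, b)) a
          = ∑ b, (Ring.inverse (A l) * A j.val) a b * z (j, b) := rfl
      rw [this, ← Finset.sum_neg_distrib]
      exact Finset.sum_congr rfl fun b _ => by rw [Matrix.neg_apply, neg_mul]
    simp only [h3]
    rw [Finset.sum_neg_distrib, Pi.neg_apply]
    congr 1
    rw [Matrix.mulVec_sum, Finset.sum_apply]
  rw [h1, Matrix.mulVec_neg, Matrix.mulVec_mulVec, Ring.mul_inverse_cancel _ hA,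
    Matrix.one_mulVec, add_neg_cancel]

/-- eigenvectors of the companion matrix -/
theorem eig_struct {A : ℕ → Matrix (Fin n) (Fin n) H} (hl : 0 < l) (hA : IsUnit (A l)) (lam : H)
    (x : Fin l × Fin n → H) (hx : comp l n A *ᵥ x = rm lam x) :
    (∀ (i : Fin l) (a : Fin n), x (i, a) = x (⟨0, hl⟩, a) * lam ^ i.val) ∧
      PL l A lam (fun a => x (⟨0, hl⟩, a)) = 0 := by
  have h1 : ∀ (k : ℕ) (hk : k < l) (a : Fin n), x (⟨k, hk⟩, a) = x (⟨0, hl⟩, a) * lam ^ k := by
    intro k
    induction k with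
    | zero => intro hk a; rw [pow_zero, mul_one]
    | succ k ih =>
      intro hk a
      have h2 := comp_row (A := A) x ⟨k, by omega⟩ hk a
      rw [hx] at h2
      have h3 : rm lam x (⟨k, by omega⟩, a) = x (⟨k, by omega⟩, a) * lam := rfl
      rw [← h2, h3, ih (by omega), pow_succ, mul_assoc]
  refine ⟨fun i a => h1 i.val i.2 a, ?_⟩
  have h2 := comp_last hA x ⟨l - 1, by omega⟩ (by simp; omega)
    (fun a => x (⟨0, hl⟩, a) * lam ^ l) (fun a => by
      rw [hx]
      show x (⟨l - 1, by omega⟩, a) * lam = _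
      rw [h1 (l - 1) (by omega), mul_assoc, ← pow_succ]
      congr 2
      omega)
  unfold PL
  rw [Finset.sum_range_succ, Finset.sum_range]
  rw [← h2]
  congr 1
  refine Finset.sum_congr rfl fun j _ => ?_
  congr 1
  funext b
  exact (h1 j.val j.2 b).symm

/-- Jordan chains of the companion matrix -/
theorem chain_struct {A : ℕ → Matrix (Fin n) (Fin n) H} (hl : 0 < l) (hA : IsUnit (A l)) (lam : H)
    (x y : Fin l × Fin n → H) (hx : comp l n A *ᵥ x = rm lam x)
    (hy : comp l n A *ᵥ y = rm lam y + x) :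
    PL l A lam (fun a => y (⟨0, hl⟩, a)) + PD l A lam (fun a => x (⟨0, hl⟩, a)) = 0 := by
  have hxs := (eig_struct hl hA lam x hx).1
  have h1 : ∀ (k : ℕ) (hk : k < l) (a : Fin n), y (⟨k, hk⟩, a)
      = y (⟨0, hl⟩, a) * lam ^ k + x (⟨0, hl⟩, a) * ((k : H) * lam ^ (k - 1)) := by
    intro k
    induction k with
    | zero => intro hk a; simp
    | succ k ih =>
      intro hk a
      have h2 := comp_row (A := A) y ⟨k, by omega⟩ hk a
      rw [hy] at h2
      have h3 : (rm lam y + x) (⟨k, by omega⟩, a)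
          = y (⟨k, by omega⟩, a) * lam + x (⟨k, by omega⟩, a) := rfl
      have h4 := hxs ⟨k, by omega⟩ a
      rw [← h2, h3, ih (by omega), h4]
      have h5 := powaux lam k
      have h6 : ((k + 1 : ℕ) : H) * lam ^ (k + 1 - 1)
          = (k : H) * lam ^ (k - 1) * lam + lam ^ k * 1 := h5
      rw [h6, mul_one, pow_succ, mul_add]
      simp only [add_mul, mul_assoc, add_assoc]
  have h2 := comp_last hA y ⟨l - 1, by omega⟩ (by simp; omega)
    (fun a => y (⟨0, hl⟩, a) * lam ^ l + x (⟨0, hl⟩, a) * ((l : H) * lam ^ (l - 1))) (fun a => by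
      rw [hy]
      show y (⟨l - 1, by omega⟩, a) * lam + x (⟨l - 1, by omega⟩, a) = _
      have h4 := hxs ⟨l - 1, by omega⟩ a
      rw [h1 (l - 1) (by omega), h4]
      obtain ⟨m, hm⟩ : ∃ m, l = m + 1 := ⟨l - 1, by omega⟩
      subst hm
      have h6 : ((m + 1 : ℕ) : H) * lam ^ (m + 1 - 1)
          = (m : H) * lam ^ (m - 1) * lam + lam ^ m * 1 := powaux lam m
      have h7 : m + 1 - 1 = m := rfl
      simp only [h7] at h6 ⊢
      rw [h6, mul_one, pow_succ, mul_add]
      simp only [add_mul, mul_assoc, add_assoc])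
  unfold PL PD
  rw [← Finset.sum_add_distrib, Finset.sum_range_succ, Finset.sum_range]
  rw [← h2]
  congr 1
  · refine Finset.sum_congr rfl fun j _ => ?_
    rw [← Matrix.mulVec_add]
    congr 1
    funext b
    exact (h1 j.val j.2 b).symm
  · rw [← Matrix.mulVec_add]
    rfl

theorem reindex {M : Type*} [AddCommMonoid M] (l : ℕ) (F : ℕ → ℕ → M) :
    ∑ i ∈ range l, ∑ j ∈ range l, (if i + j + 1 ≤ l then F i j else 0)
      = ∑ k ∈ range l, ∑ i ∈ range (k + 1), F i (k - i) := by
  have h1 : ∀ i ∈ range l, ∑ j ∈ range l, (if i + j + 1 ≤ l then F i j else 0)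
      = ∑ k ∈ Ico i l, F i (k - i) := by
    intro i hi
    rw [Finset.mem_range] at hi
    rw [Finset.sum_Ico_eq_sum_range, ← Finset.sum_filter]
    have : (range l).filter (fun j => i + j + 1 ≤ l) = range (l - i) := by
      ext j
      simp only [Finset.mem_filter, Finset.mem_range]
      omega
    rw [this]
    exact Finset.sum_congr rfl fun j _ => by rw [Nat.add_sub_cancel_left]
  rw [Finset.sum_congr rfl h1]
  refine Finset.sum_comm' fun i k => ?_
  simp only [Finset.mem_range, Finset.mem_Ico]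
  omega

theorem form_struct (A : ℕ → Matrix (Fin n) (Fin n) H) (lam lam' : H) (hlam : star lam = -lam)
    (v w : Fin n → H) :
    (star (fun p : Fin l × Fin n => v p.2 * lam ^ p.1.val) ⬝ᵥ
      gram l n A *ᵥ (fun p : Fin l × Fin n => w p.2 * lam' ^ p.1.val))
    = ∑ k ∈ range l, ∑ i ∈ range (k + 1),
        lam ^ i * (star v ⬝ᵥ A (k + 1) *ᵥ w) * lam' ^ (k - i) := by
  have h0 : ∀ i j, i + j + 1 ≤ l → lam ^ i * (star v ⬝ᵥ A (i + j + 1) *ᵥ w) * lam' ^ j
      = ∑ a, ∑ b, star (v a * lam ^ i) * (((-1) ^ i * A (i + j + 1) a b) * (w b * lam' ^ j)) := by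
    intro i j _
    unfold Matrix.mulVec dotProduct
    rw [Finset.mul_sum, Finset.sum_mul]
    refine Finset.sum_congr rfl fun a _ => ?_
    rw [Finset.mul_sum, Finset.mul_sum, Finset.sum_mul]
    refine Finset.sum_congr rfl fun b _ => ?_
    rw [star_mul, star_pow, hlam, Pi.star_apply, neg_pow]
    have h1 : (-1 : H) ^ i * lam ^ i * star (v a) * ((-1) ^ i * A (i + j + 1) a b * (w b * lam' ^ j))
        = (-1 : H) ^ i * ((-1) ^ i * (lam ^ i * star (v a) * (A (i + j + 1) a b * (w b * lam' ^ j)))) := by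
      have hc : ∀ q : H, q * (-1) ^ i = (-1) ^ i * q := fun q =>
        ((Commute.neg_one_left q).pow_left i).eq.symm
      calc (-1 : H) ^ i * lam ^ i * star (v a) * ((-1) ^ i * A (i + j + 1) a b * (w b * lam' ^ j))
          = (-1 : H) ^ i * ((lam ^ i * star (v a)) * (-1) ^ i) * (A (i + j + 1) a b * (w b * lam' ^ j)) := by
            noncomm_ring
        _ = _ := by rw [hc]; noncomm_ring
    rw [h1]
    have h2 : ∀ q : H, (-1 : H) ^ i * ((-1) ^ i * q) = q := by
      intro q
      rw [← mul_assoc, ← pow_add, ← two_mul, pow_mul]; simp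
    rw [h2]
    noncomm_ring
  have h1 := reindex l (fun i j => lam ^ i * (star v ⬝ᵥ A (i + j + 1) *ᵥ w) * lam' ^ j)
  have h2 : ∑ k ∈ range l, ∑ i ∈ range (k + 1),
        lam ^ i * (star v ⬝ᵥ A (k + 1) *ᵥ w) * lam' ^ (k - i)
      = ∑ k ∈ range l, ∑ i ∈ range (k + 1),
        lam ^ i * (star v ⬝ᵥ A (i + (k - i) + 1) *ᵥ w) * lam' ^ (k - i) := by
    refine Finset.sum_congr rfl fun k _ => Finset.sum_congr rfl fun i hi => ?_
    rw [Finset.mem_range] at hi
    have : i + (k - i) = k := by omega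
    rw [this]
  rw [h2, ← h1, Finset.sum_range]
  have h3 : (star (fun p : Fin l × Fin n => v p.2 * lam ^ p.1.val) ⬝ᵥ
      gram l n A *ᵥ (fun p : Fin l × Fin n => w p.2 * lam' ^ p.1.val))
      = ∑ i : Fin l, ∑ a, ∑ j : Fin l, ∑ b, star (v a * lam ^ i.val)
        * ((if i.val + j.val + 1 ≤ l then (-1) ^ i.val * A (i.val + j.val + 1) a b else 0)
          * (w b * lam' ^ j.val)) := by
    unfold Matrix.mulVec dotProduct
    rw [Fintype.sum_prod_type]
    refine Finset.sum_congr rfl fun i _ => Finset.sum_congr rfl fun a _ => ?_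
    rw [Finset.mul_sum, Fintype.sum_prod_type]
    rfl
  rw [h3]
  refine Finset.sum_congr rfl fun i _ => ?_
  rw [Finset.sum_comm, Finset.sum_range]
  refine Finset.sum_congr rfl fun j _ => ?_
  split_ifs with h
  · rw [h0 i.val j.val h]
  · simp

theorem re_cyc (a b : H) : (a * b).re = (b * a).re := by
  simp only [Quaternion.re_mul]; ring

/-- value of the form on an eigenvector -/
theorem form_eig (A : ℕ → Matrix (Fin n) (Fin n) H) (lam : H) (hlam : star lam = -lam)
    (v : Fin n → H) :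
    form l n A (fun p => v p.2 * lam ^ p.1.val) = (star v ⬝ᵥ PD l A lam v).re := by
  unfold form
  rw [form_struct A lam lam hlam v v]
  have h1 : star v ⬝ᵥ PD l A lam v
      = ∑ k ∈ range (l + 1), (star v ⬝ᵥ A k *ᵥ v) * ((k : H) * lam ^ (k - 1)) := by
    unfold PD
    have h2 : star v ⬝ᵥ (∑ k ∈ range (l + 1), A k *ᵥ rm ((k : H) * lam ^ (k - 1)) v)
        = ∑ k ∈ range (l + 1), star v ⬝ᵥ (A k *ᵥ rm ((k : H) * lam ^ (k - 1)) v) := by
      rw [dotProduct_sum]
    rw [h2]
    refine Finset.sum_congr rfl fun k _ => ?_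
    rw [mulVec_rm]
    unfold dotProduct rm
    rw [Finset.sum_mul]
    exact Finset.sum_congr rfl fun a _ => by rw [mul_assoc]
  rw [h1, Finset.sum_range_succ']
  have hresum : ∀ (s : Finset ℕ) (f : ℕ → H), (∑ k ∈ s, f k).re = ∑ k ∈ s, (f k).re := by
    intro s f
    induction s using Finset.induction_on with
    | empty => simp
    | insert a s ha ih => rw [Finset.sum_insert ha, Finset.sum_insert ha, Quaternion.re_add, ih]
  rw [Quaternion.re_add, hresum, hresum]
  have h0 : ((star v ⬝ᵥ A 0 *ᵥ v) * (((0 : ℕ) : H) * lam ^ (0 - 1))).re = 0 := by simp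
  rw [h0, add_zero]
  refine Finset.sum_congr rfl fun k _ => ?_
  rw [hresum]
  set q := star v ⬝ᵥ A (k + 1) *ᵥ v with hq
  have h2 : ∀ i ∈ range (k + 1), (lam ^ i * q * lam ^ (k - i)).re = (q * lam ^ k).re := by
    intro i hi
    rw [Finset.mem_range] at hi
    rw [mul_assoc, re_cyc, mul_assoc, ← pow_add]
    congr 3
    omega
  rw [Finset.sum_congr rfl h2, Finset.sum_const, Finset.card_range, Nat.add_sub_cancel]
  have h3 : q * (((k + 1 : ℕ) : H) * lam ^ k) = (k + 1) • (q * lam ^ k) := by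
    rw [nsmul_eq_mul, ← mul_assoc, ← mul_assoc]
    congr 1
    exact (Nat.cast_commute (k + 1) q).eq.symm
  rw [h3]
  simp

end Pool.Agent.V11114.Quat
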