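import Mathlib
import Pool.Agent.V11114.Quat3

set_option autoImplicit false

namespace Pool.Agent.V11114.Quat

open Matrix Finset Filter Topology
open scoped Quaternion

variable {l n : ℕ}

theorem star_dot (M : Matrix (Fin n) (Fin n) H) (v w : Fin n → H) :
    star (star v ⬝ᵥ M *ᵥ w) = star w ⬝ᵥ Mᴴ *ᵥ v := by
  unfold Matrix.mulVec dotProduct
  simp only [Finset.mul_sum, star_sum]
  rw [Finset.sum_comm]
  refine Finset.sum_congr rfl fun b _ => Finset.sum_congr rfl fun a _ => ?_
  simp only [Pi.star_apply, star_mul, star_star, Matrix.conjTranspose_apply]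
  rw [mul_assoc]

theorem dot_PL (A : ℕ → Matrix (Fin n) (Fin n) H) (lam : H) (v w : Fin n → H) :
    star v ⬝ᵥ PL l A lam w = ∑ k ∈ range (l + 1), (star v ⬝ᵥ A k *ᵥ w) * lam ^ k := by
  unfold PL
  rw [dotProduct_sum]
  refine Finset.sum_congr rfl fun k _ => ?_
  rw [mulVec_rm]
  unfold dotProduct rm
  rw [Finset.sum_mul]
  exact Finset.sum_congr rfl fun a _ => by rw [mul_assoc]

theorem sq_eq {lam : H} (hlam : star lam = -lam) : lam * lam = ((-Quaternion.normSq lam : ℝ) : H) := by
  have h : lam * star lam = ((Quaternion.normSq lam : ℝ) : H) := Quaternion.self_mul_star lam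
  rw [hlam, mul_neg] at h
  rw [Quaternion.coe_neg, ← h, neg_neg]

/-- eigenvectors for `λ` and `-λ` are orthogonal (real part) -/
theorem cross {A : ℕ → Matrix (Fin n) (Fin n) H} (hA : IsSys l n A) (lam : H)
    (hlam : star lam = -lam) (hlam0 : lam ≠ 0) (v w : Fin n → H) (hv : PL l A lam v = 0)
    (hw : PL l A (-lam) w = 0) :
    (star (fun p : Fin l × Fin n => v p.2 * lam ^ p.1.val) ⬝ᵥ
      gram l n A *ᵥ (fun p : Fin l × Fin n => w p.2 * (-lam) ^ p.1.val)).re = 0 := by
  rw [form_struct A lam (-lam) hlam v w]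
  set T := ∑ k ∈ range l, ∑ i ∈ range (k + 1),
        lam ^ i * (star v ⬝ᵥ A (k + 1) *ᵥ w) * (-lam) ^ (k - i) with hT
  set a : ℕ → H := fun k => star v ⬝ᵥ A k *ᵥ w with ha
  have h1 : lam * T + T * lam = ∑ k ∈ range l, (lam ^ (k + 1) * a (k + 1) - a (k + 1) * (-lam) ^ (k + 1)) := by
    rw [hT, Finset.mul_sum, Finset.sum_mul, ← Finset.sum_add_distrib]
    refine Finset.sum_congr rfl fun k _ => ?_
    rw [Finset.mul_sum, Finset.sum_mul, ← Finset.sum_add_distrib]
    have h2 := Finset.sum_range_sub (fun i => lam ^ i * a (k + 1) * (-lam) ^ (k + 1 - i)) (k + 1)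
    simp only [pow_zero, one_mul, Nat.sub_self, mul_one, Nat.sub_zero] at h2
    rw [← h2]
    refine Finset.sum_congr rfl fun i hi => ?_
    rw [Finset.mem_range] at hi
    have h3 : k + 1 - (i + 1) = k - i := by omega
    have h4 : k + 1 - i = (k - i) + 1 := by omega
    rw [h3, h4]
    have h5 : (-lam) ^ (k - i + 1) = -((-lam) ^ (k - i) * lam) := by rw [pow_succ]; simp
    rw [h5]
    simp only [ha]
    rw [pow_succ' lam i]
    noncomm_ring
  have h2 : ∑ k ∈ range l, (lam ^ (k + 1) * a (k + 1) - a (k + 1) * (-lam) ^ (k + 1))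
      = ∑ k ∈ range (l + 1), lam ^ k * a k - ∑ k ∈ range (l + 1), a k * (-lam) ^ k := by
    rw [← Finset.sum_sub_distrib, Finset.sum_range_succ']
    simp
  have h3 : ∑ k ∈ range (l + 1), a k * (-lam) ^ k = 0 := by
    rw [← dot_PL, hw, dotProduct_zero]
  have h4 : ∑ k ∈ range (l + 1), lam ^ k * a k = 0 := by
    have h5 : star (∑ k ∈ range (l + 1), lam ^ k * a k)
        = -∑ k ∈ range (l + 1), (star w ⬝ᵥ A k *ᵥ v) * lam ^ k := by
      rw [star_sum, ← Finset.sum_neg_distrib]
      refine Finset.sum_congr rfl fun k hk => ?_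
      rw [Finset.mem_range] at hk
      rw [star_mul, star_pow, hlam]
      simp only [ha]
      rw [star_dot]
      rcases Nat.even_or_odd k with h | h
      · rw [hA.2.1 k (by omega) h, h.neg_pow, Matrix.neg_mulVec, dotProduct_neg, neg_mul]
      · rw [hA.1 k (by omega) h, h.neg_pow, mul_neg]
    rw [← dot_PL, hv, dotProduct_zero, neg_zero] at h5
    exact star_eq_zero.mp h5
  rw [h2, h3, h4, sub_zero] at h1
  have h5 : lam * (lam * T + T * lam) = 0 := by rw [h1, mul_zero]
  have h6 : (lam * (lam * T + T * lam)).re = 2 * (-Quaternion.normSq lam * T.re) := by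
    rw [mul_add, Quaternion.re_add, ← mul_assoc, ← mul_assoc, re_cyc (lam * T) lam, ← mul_assoc,
      sq_eq hlam, Quaternion.coe_mul_eq_smul, Quaternion.re_smul, smul_eq_mul]
    ring
  rw [h5, Quaternion.re_zero] at h6
  have h7 : Quaternion.normSq lam ≠ 0 := Quaternion.normSq_ne_zero.mpr hlam0
  have h8 : -Quaternion.normSq lam * T.re = 0 := by linarith
  rcases mul_eq_zero.mp h8 with h9 | h9
  · exact absurd (neg_eq_zero.mp h9) h7
  · exact h9

/-- the bilinear version of the form -/
noncomputable def bil (l n : ℕ) (A : ℕ → Matrix (Fin n) (Fin n) H) (x y : Fin l × Fin n → H) : ℝ :=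
  (star x ⬝ᵥ gram l n A *ᵥ y).re

theorem form_add (A : ℕ → Matrix (Fin n) (Fin n) H) (x y : Fin l × Fin n → H) :
    form l n A (x + y) = form l n A x + form l n A y + bil l n A x y + bil l n A y x := by
  unfold form bil
  rw [star_add, Matrix.mulVec_add, add_dotProduct, dotProduct_add, dotProduct_add]
  simp only [Quaternion.re_add]
  ring

theorem bil_smul_left (A : ℕ → Matrix (Fin n) (Fin n) H) (c : ℝ) (x y : Fin l × Fin n → H) :
    bil l n A (c • x) y = c * bil l n A x y := by
  unfold bil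
  have : star (c • x) = c • star x := by
    funext p; exact Quaternion.star_smul c (x p)
  rw [this, smul_dotProduct, Quaternion.re_smul, smul_eq_mul]

theorem bil_smul_right (A : ℕ → Matrix (Fin n) (Fin n) H) (c : ℝ) (x y : Fin l × Fin n → H) :
    bil l n A x (c • y) = c * bil l n A x y := by
  unfold bil
  rw [Matrix.mulVec_smul, dotProduct_smul, Quaternion.re_smul, smul_eq_mul]

theorem form_smul (A : ℕ → Matrix (Fin n) (Fin n) H) (c : ℝ) (x : Fin l × Fin n → H) :
    form l n A (c • x) = c ^ 2 * form l n A x := by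
  have h : form l n A (c • x) = bil l n A (c • x) (c • x) := rfl
  rw [h, bil_smul_left, bil_smul_right]
  show c * (c * form l n A x) = _
  ring

/-- right multiplication by a quaternion scales the form -/
theorem form_rm (A : ℕ → Matrix (Fin n) (Fin n) H) (q : H) (x : Fin l × Fin n → H) :
    form l n A (rm q x) = Quaternion.normSq q * form l n A x := by
  unfold form
  rw [mulVec_rm]
  have h1 : star (rm q x) ⬝ᵥ rm q (gram l n A *ᵥ x)
      = star q * (star x ⬝ᵥ gram l n A *ᵥ x) * q := by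
    unfold dotProduct rm
    rw [Finset.mul_sum, Finset.sum_mul]
    refine Finset.sum_congr rfl fun p _ => ?_
    rw [Pi.star_apply, star_mul, Pi.star_apply]
    noncomm_ring
  rw [h1, re_cyc, ← mul_assoc]
  have h2 : q * star q = ((Quaternion.normSq q : ℝ) : H) := Quaternion.self_mul_star q
  rw [h2, Quaternion.coe_mul_eq_smul, Quaternion.re_smul, smul_eq_mul]

/-- a real subspace without neutral vectors is definite -/
theorem definite (A : ℕ → Matrix (Fin n) (Fin n) H) (S : Set (Fin l × Fin n → H))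
    (hadd : ∀ x ∈ S, ∀ y ∈ S, x + y ∈ S) (hsmul : ∀ (c : ℝ), ∀ x ∈ S, c • x ∈ S)
    (hne : ∀ x ∈ S, x ≠ 0 → form l n A x ≠ 0) :
    (∀ x ∈ S, x ≠ 0 → 0 < form l n A x) ∨ (∀ x ∈ S, x ≠ 0 → form l n A x < 0) := by
  by_contra hcon
  push Not at hcon
  obtain ⟨⟨x, hx, hx0, hxn⟩, ⟨y, hy, hy0, hyp⟩⟩ := hcon
  have hxn' : form l n A x < 0 := lt_of_le_of_ne hxn (hne x hx hx0)
  have hyp' : 0 < form l n A y := lt_of_le_of_ne hyp (Ne.symm (hne y hy hy0))
  set f : ℝ → ℝ := fun t => (1 - t) ^ 2 * form l n A x + t ^ 2 * form l n A y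
    + (1 - t) * t * (bil l n A x y + bil l n A y x) with hf
  have hfe : ∀ t, form l n A ((1 - t) • x + t • y) = f t := by
    intro t
    rw [form_add, form_smul, form_smul, bil_smul_left, bil_smul_right, bil_smul_left,
      bil_smul_right]
    simp only [hf]
    ring
  have hfc : ContinuousOn f (Set.Icc 0 1) := by
    apply Continuous.continuousOn
    simp only [hf]
    fun_prop
  have h0 : f 0 < 0 := by simp only [hf]; simpa using hxn'
  have h1 : 0 < f 1 := by simp only [hf]; simpa using hyp'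
  obtain ⟨t, ht, hft⟩ := intermediate_value_Icc zero_le_one hfc ⟨h0.le, h1.le⟩
  have hz : (1 - t) • x + t • y = 0 := by
    by_contra hz
    exact hne _ (hadd _ (hsmul _ x hx) _ (hsmul _ y hy)) hz ((hfe t).trans hft)
  have ht0 : t ≠ 0 := by
    intro h
    rw [h] at hft
    linarith
  have h2 : t • y = -((1 - t) • x) := eq_neg_of_add_eq_zero_right hz
  have h3 : form l n A (t • y) = form l n A ((1 - t) • x) := by
    rw [h2, ← neg_one_smul ℝ ((1 - t) • x), form_smul]
    ring
  rw [form_smul, form_smul] at h3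
  have h4 : 0 < t ^ 2 * form l n A y := by positivity
  have h5 : (1 - t) ^ 2 * form l n A x ≤ 0 := by nlinarith [sq_nonneg (1 - t)]
  linarith

theorem pow_kernel {ι : Type} [Fintype ι] [DecidableEq ι] (M : Matrix ι ι H)
    (h : ∀ z : ι → H, (M * M) *ᵥ z = 0 → M *ᵥ z = 0) (N : ℕ) (x : ι → H) (hx : M ^ N *ᵥ x = 0) :
    M *ᵥ x = 0 := by
  induction N with
  | zero =>
    rw [pow_zero, Matrix.one_mulVec] at hx
    rw [hx, Matrix.mulVec_zero]
  | succ N ih =>
    cases N with
    | zero => simpa using hx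
    | succ N =>
      apply ih
      have h1 : M ^ (N + 1 + 1) *ᵥ x = (M * M) *ᵥ (M ^ N *ᵥ x) := by
        rw [Matrix.mulVec_mulVec, ← pow_two, ← pow_add]
        congr 2
        omega
      rw [h1] at hx
      have h2 := h _ hx
      rw [Matrix.mulVec_mulVec, ← pow_succ'] at h2
      exact h2

/-- eigenspace for the fixed quaternion `lam` -/
def eigS (l n : ℕ) (A : ℕ → Matrix (Fin n) (Fin n) H) (lam : H) : Set (Fin l × Fin n → H) :=
  {x | comp l n A *ᵥ x = rm lam x}

theorem eigS_definite (hl : 0 < l) {A : ℕ → Matrix (Fin n) (Fin n) H} (hA : IsSys l n A)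
    (hS : StablyBdd l A) (lam : H) (hlam : lam.re = 0) :
    (∀ x ∈ eigS l n A lam, x ≠ 0 → 0 < form l n A x) ∨
      (∀ x ∈ eigS l n A lam, x ≠ 0 → form l n A x < 0) := by
  refine definite A _ ?_ ?_ ?_
  · intro x hx y hy
    show comp l n A *ᵥ (x + y) = rm lam (x + y)
    rw [Matrix.mulVec_add, rm_add]
    rw [show comp l n A *ᵥ x = rm lam x from hx, show comp l n A *ᵥ y = rm lam y from hy]
  · intro c x hx
    show comp l n A *ᵥ (c • x) = rm lam (c • x)
    rw [Matrix.mulVec_smul, rm_smul, show comp l n A *ᵥ x = rm lam x from hx]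
  · intro x hx hx0 hform
    obtain ⟨h1, h2⟩ := eig_struct hl hA.2.2 lam x hx
    have hxe : x = fun p : Fin l × Fin n => x (⟨0, hl⟩, p.2) * lam ^ p.1.val := by
      funext p
      exact h1 p.1 p.2
    have hv0 : (fun a => x (⟨0, hl⟩, a)) ≠ 0 := by
      intro h0
      apply hx0
      rw [hxe]
      funext p
      have := congrFun h0 p.2
      simp only [Pi.zero_apply] at this
      rw [this, zero_mul, Pi.zero_apply]
    refine perturb l hl A hA lam hlam _ hv0 h2 ?_ hS
    rw [← form_eig A lam (star_eq_neg hlam) (fun a => x (⟨0, hl⟩, a))]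
    rw [← hxe]
    exact hform

theorem chain_contra (hl : 0 < l) {A : ℕ → Matrix (Fin n) (Fin n) H} (hA : IsSys l n A)
    (hb : IsBdd l A) (lam : H) (hlam : lam.re = 0) (x y : Fin l × Fin n → H)
    (hx : comp l n A *ᵥ x = rm lam x) (hy : comp l n A *ᵥ y = rm lam y + x) : x = 0 := by
  by_contra hx0
  obtain ⟨h1, h2⟩ := eig_struct hl hA.2.2 lam x hx
  have hv0 : (fun a => x (⟨0, hl⟩, a)) ≠ 0 := by
    intro h0
    apply hx0
    funext p
    have := congrFun h0 p.2
    simp only [Pi.zero_apply] at this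
    have h3 := h1 p.1 p.2
    rw [this, zero_mul] at h3
    exact h3
  exact unbdd_chain l A lam hlam _ _ hv0 h2 (chain_struct hl hA.2.2 lam x y hx hy) hb

theorem main (hl : 1 ≤ l) {A : ℕ → Matrix (Fin n) (Fin n) H} (hA : IsSys l n A)
    (hS : StablyBdd l A) (lam : H) (hlam : IsEig (comp l n A) lam) :
    (∀ x ∈ rootSub l n A lam, x ≠ 0 → 0 < form l n A x) ∨
      (∀ x ∈ rootSub l n A lam, x ≠ 0 → form l n A x < 0) := by
  have hl0 : 0 < l := hl
  have hb : IsBdd l A := by
    obtain ⟨ε, hε, h⟩ := hS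
    exact h A hA fun k _ i j => by simpa using hε
  obtain ⟨x₀, hx₀, hx₀e⟩ := hlam
  have hx₀e' : comp l n A *ᵥ x₀ = rm lam x₀ := hx₀e
  -- real part vanishes
  have hre : lam.re = 0 := by
    by_contra hre
    obtain ⟨h1, h2⟩ := eig_struct hl0 hA.2.2 lam x₀ hx₀e'
    have hv0 : (fun a => x₀ (⟨0, hl0⟩, a)) ≠ 0 := by
      intro h0
      apply hx₀
      funext p
      have := congrFun h0 p.2
      simp only [Pi.zero_apply] at this
      have h3 := h1 p.1 p.2
      rw [this, zero_mul] at h3
      exact h3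
    exact unbdd_re l A lam hre _ hv0 h2 hb
  set C := comp l n A with hC
  by_cases him : lam.im = 0
  · -- λ = 0
    have hroot : ∀ x ∈ rootSub l n A lam, x ∈ eigS l n A 0 := by
      intro x hx
      have h1 := hx.1 him
      rw [← hC, hre, zero_smul, sub_zero] at h1
      have h2 := pow_kernel C (fun z hz => by
        have h3 : C *ᵥ (C *ᵥ z) = rm 0 (C *ᵥ z) := by
          rw [Matrix.mulVec_mulVec, hz]
          funext p; simp [rm]
        refine chain_contra hl0 hA hb 0 Quaternion.re_zero (C *ᵥ z) z h3 ?_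
        rw [← hC]
        funext p; simp [rm]) (l * n) x h1
      show comp l n A *ᵥ x = rm 0 x
      rw [← hC, h2]
      funext p; simp [rm]
    rcases eigS_definite hl0 hA hS 0 Quaternion.re_zero with h | h
    · exact Or.inl fun x hx hx0 => h x (hroot x hx) hx0
    · exact Or.inr fun x hx hx0 => h x (hroot x hx) hx0
  · -- λ not real
    set ν := Quaternion.normSq lam with hν
    have hlam0 : lam ≠ 0 := by
      intro h
      apply him
      rw [h]; ext <;> simp
    have hν0 : 0 < ν := lt_of_le_of_ne Quaternion.normSq_nonneg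
      (Ne.symm (Quaternion.normSq_ne_zero.mpr hlam0))
    set μ := √ν with hμ
    have hμ0 : 0 < μ := Real.sqrt_pos.mpr hν0
    have hμ2 : μ * μ = ν := Real.mul_self_sqrt hν0.le
    obtain ⟨κ, hκre, hκi, hκj, hκk⟩ : ∃ κ : H, κ.re = 0 ∧ κ.imI = μ ∧ κ.imJ = 0 ∧ κ.imK = 0 :=
      ⟨⟨0, μ, 0, 0⟩, rfl, rfl, rfl, rfl⟩
    obtain ⟨J, hJr, hJi, hJj, hJk⟩ : ∃ J : H, J.re = 0 ∧ J.imI = 0 ∧ J.imJ = 1 ∧ J.imK = 0 :=
      ⟨⟨0, 0, 1, 0⟩, rfl, rfl, rfl, rfl⟩
    have hκ0 : κ ≠ 0 := by
      intro h
      have : κ.imI = 0 := by rw [h]; rfl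
      rw [hκi] at this
      exact hμ0.ne' this
    have hκκ : κ * κ = ((-ν : ℝ) : H) := by
      rw [← hμ2]
      ext <;> simp [Quaternion.re_mul, Quaternion.imI_mul, Quaternion.imJ_mul,
        Quaternion.imK_mul, hκre, hκi, hκj, hκk]
    have hκJ : κ * J = -(J * κ) := by
      ext <;> simp [Quaternion.re_mul, Quaternion.imI_mul, Quaternion.imJ_mul,
        Quaternion.imK_mul, hκre, hκi, hκj, hκk, hJr, hJi, hJj, hJk]
    have hJJ : J * J = -1 := by
      ext <;> simp [Quaternion.re_mul, Quaternion.imI_mul, Quaternion.imJ_mul,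
        Quaternion.imK_mul, hJr, hJi, hJj, hJk]
    have hJn : Quaternion.normSq J = 1 := by
      rw [Quaternion.normSq_def']; simp [hJr, hJi, hJj, hJk]
    set P := C * C + ν • (1 : Matrix (Fin l × Fin n) (Fin l × Fin n) H) with hP
    have hrmν : ∀ z : Fin l × Fin n → H, rm (κ * κ) z = -(ν • z) := by
      intro z
      rw [hκκ]
      funext p
      simp only [rm, Pi.neg_apply, Pi.smul_apply]
      rw [← Quaternion.coe_commutes, Quaternion.coe_mul_eq_smul, neg_smul]
    have hPz : ∀ z, P *ᵥ z = C *ᵥ (C *ᵥ z) + ν • z := by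
      intro z
      rw [hP, Matrix.add_mulVec, Matrix.smul_mulVec, Matrix.one_mulVec, Matrix.mulVec_mulVec]
    -- (C - q)(C + q) = P for q = ± κ
    have hfac : ∀ q : H, q * q = κ * κ → ∀ z, C *ᵥ (C *ᵥ z + rm q z) - rm q (C *ᵥ z + rm q z) = P *ᵥ z := by
      intro q hq z
      rw [Matrix.mulVec_add, mulVec_rm, rm_add, rm_rm, hq, hrmν, hPz]
      abel
    -- semisimplicity
    have hss : ∀ z, (P * P) *ᵥ z = 0 → P *ᵥ z = 0 := by
      intro z hz
      rw [← Matrix.mulVec_mulVec] at hz
      set w := P *ᵥ z with hw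
      have hPcomm : ∀ (q : H) (y : Fin l × Fin n → H), P *ᵥ (C *ᵥ y + rm q y)
          = C *ᵥ (P *ᵥ y) + rm q (P *ᵥ y) := by
        intro q y
        rw [Matrix.mulVec_add, mulVec_rm, Matrix.mulVec_mulVec, Matrix.mulVec_mulVec]
        congr 2
        rw [hP, Matrix.add_mul, Matrix.mul_add, Matrix.smul_mul, Matrix.mul_smul, Matrix.one_mul,
          Matrix.mul_one, Matrix.mul_assoc]
      have hzero : ∀ q : H, q.re = 0 → q * q = κ * κ → C *ᵥ w + rm q w = 0 := by
        intro q hqre hq
        refine chain_contra hl0 hA hb q hqre (C *ᵥ w + rm q w)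
          (C *ᵥ (C *ᵥ z + rm q z) + rm q (C *ᵥ z + rm q z)) ?_ ?_
        · have h1 := hfac q hq w
          rw [hz] at h1
          exact sub_eq_zero.mp h1
        · have h1 := hfac q hq (C *ᵥ z + rm q z)
          rw [hPcomm, ← hw] at h1
          rw [← h1, ← hC]
          abel
      have h1 := hzero κ hκre rfl
      have h2 := hzero (-κ) (by rw [Quaternion.re_neg, hκre, neg_zero]) (by rw [neg_mul_neg])
      rw [rm_neg'] at h2
      have h3 : rm κ w + rm κ w = 0 := by
        calc rm κ w + rm κ w = (C *ᵥ w + rm κ w) - (C *ᵥ w + -rm κ w) := by abel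
          _ = 0 := by rw [h1, h2, sub_zero]
      funext p
      have h4 := congrFun h3 p
      have h5 : (2 : ℝ) • (w p * κ) = 0 := by
        rw [two_smul]; exact h4
      have h6 := (smul_eq_zero.mp h5).resolve_left two_ne_zero
      exact (mul_eq_zero.mp h6).resolve_right hκ0
    -- decomposition of the root subspace
    have hdec : ∀ z ∈ rootSub l n A lam, ∃ x ∈ eigS l n A κ, ∃ y ∈ eigS l n A (-κ), z = x + y := by
      intro z hz
      have h1 := hz.2 him
      rw [← hC, hre, mul_zero, zero_smul, sub_zero, ← hP] at h1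
      have h2 := pow_kernel P hss (l * n) z h1
      have hmem : ∀ q : H, q * q = κ * κ → C *ᵥ (C *ᵥ z + rm q z) = rm q (C *ᵥ z + rm q z) := by
        intro q hq
        have h3 := hfac q hq z
        rw [h2] at h3
        exact sub_eq_zero.mp h3
      have hrm : ∀ (q r : H) (x : Fin l × Fin n → H), q * r = r * q → C *ᵥ x = rm q x →
          C *ᵥ rm r x = rm q (rm r x) := by
        intro q r x hqr hx
        rw [mulVec_rm, hx, rm_rm, rm_rm, hqr]
      set c : ℝ := 1 / (2 * ν) with hc
      refine ⟨rm (c • -κ) (C *ᵥ z + rm κ z), ?_, rm (c • κ) (C *ᵥ z + rm (-κ) z), ?_, ?_⟩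
      · exact hrm κ _ _ (by rw [mul_smul_comm, smul_mul_assoc, mul_neg, neg_mul]) (hmem κ rfl)
      · exact hrm (-κ) _ _ (by rw [mul_smul_comm, smul_mul_assoc, mul_neg, neg_mul])
          (hmem (-κ) (by rw [neg_mul_neg]))
      · have h3 : rm (c • -κ) (C *ᵥ z + rm κ z) + rm (c • κ) (C *ᵥ z + rm (-κ) z)
            = -(2 * c) • rm (κ * κ) z := by
          rw [rm_smul', rm_smul', rm_neg', rm_add, rm_add, rm_rm, rm_rm, neg_mul, rm_neg']
          module
        rw [h3, hrmν, neg_smul, smul_neg, neg_neg, smul_smul]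
        have h4 : 2 * c * ν = 1 := by rw [hc]; field_simp
        rw [h4, one_smul]
    have hcross : ∀ q : H, q.re = 0 → q ≠ 0 → ∀ x ∈ eigS l n A q, ∀ y ∈ eigS l n A (-q),
        bil l n A x y = 0 := by
      intro q hqre hq0 x hx y hy
      obtain ⟨h1, h2⟩ := eig_struct hl0 hA.2.2 q x hx
      obtain ⟨h3, h4⟩ := eig_struct hl0 hA.2.2 (-q) y hy
      have hxe : x = fun p : Fin l × Fin n => x (⟨0, hl0⟩, p.2) * q ^ p.1.val := by
        funext p; exact h1 p.1 p.2
      have hye : y = fun p : Fin l × Fin n => y (⟨0, hl0⟩, p.2) * (-q) ^ p.1.val := by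
        funext p; exact h3 p.1 p.2
      have h5 := cross hA q (star_eq_neg hqre) hq0 (fun a => x (⟨0, hl0⟩, a))
        (fun a => y (⟨0, hl0⟩, a)) h2 h4
      unfold bil
      rw [hxe, hye]
      exact h5
    -- the map x ↦ x j
    have hJmap : ∀ y ∈ eigS l n A (-κ), rm J y ∈ eigS l n A κ := by
      intro y hy
      show C *ᵥ rm J y = rm κ (rm J y)
      rw [mulVec_rm, show C *ᵥ y = rm (-κ) y from hy, rm_rm, rm_rm, neg_mul, hκJ, neg_neg]
    have hJform : ∀ y, form l n A (rm J y) = form l n A y := by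
      intro y; rw [form_rm, hJn, one_mul]
    have hJ0 : ∀ y : Fin l × Fin n → H, y ≠ 0 → rm J y ≠ 0 := by
      intro y hy h0
      apply hy
      have h1 : rm J (rm J y) = -y := by rw [rm_rm, hJJ, rm_neg', rm_one]
      rw [h0, rm_zero] at h1
      exact neg_eq_zero.mp h1.symm
    have hkey : ∀ z ∈ rootSub l n A lam, ∃ x ∈ eigS l n A κ, ∃ y ∈ eigS l n A (-κ), z = x + y ∧
        form l n A z = form l n A x + form l n A (rm J y) := by
      intro z hz
      obtain ⟨x, hx, y, hy, hxy⟩ := hdec z hz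
      refine ⟨x, hx, y, hy, hxy, ?_⟩
      have h1 := hcross κ hκre hκ0 x hx y hy
      have h2 := hcross (-κ) (by rw [Quaternion.re_neg, hκre, neg_zero]) (neg_ne_zero.mpr hκ0)
        y hy x (by rw [neg_neg]; exact hx)
      rw [hxy, form_add, h1, h2, hJform]
      ring
    rcases eigS_definite hl0 hA hS κ hκre with h | h
    · left
      intro z hz hz0
      obtain ⟨x, hx, y, hy, hxy, hf⟩ := hkey z hz
      rw [hf]
      have hx1 : x = 0 ∨ 0 < form l n A x := by
        rcases eq_or_ne x 0 with h1 | h1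
        · exact Or.inl h1
        · exact Or.inr (h x hx h1)
      have hy1 : y = 0 ∨ 0 < form l n A (rm J y) := by
        rcases eq_or_ne y 0 with h1 | h1
        · exact Or.inl h1
        · exact Or.inr (h _ (hJmap y hy) (hJ0 y h1))
      have hf0 : form l n A (0 : Fin l × Fin n → H) = 0 := by simp [form]
      rcases hx1 with h1 | h1 <;> rcases hy1 with h2 | h2
      · exfalso; apply hz0; rw [hxy, h1, h2, add_zero]
      · rw [h1, hf0]; linarith
      · rw [h2, rm_zero, hf0]; linarith
      · linarith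
    · right
      intro z hz hz0
      obtain ⟨x, hx, y, hy, hxy, hf⟩ := hkey z hz
      rw [hf]
      have hx1 : x = 0 ∨ form l n A x < 0 := by
        rcases eq_or_ne x 0 with h1 | h1
        · exact Or.inl h1
        · exact Or.inr (h x hx h1)
      have hy1 : y = 0 ∨ form l n A (rm J y) < 0 := by
        rcases eq_or_ne y 0 with h1 | h1
        · exact Or.inl h1
        · exact Or.inr (h _ (hJmap y hy) (hJ0 y h1))
      have hf0 : form l n A (0 : Fin l × Fin n → H) = 0 := by simp [form]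
      rcases hx1 with h1 | h1 <;> rcases hy1 with h2 | h2
      · exfalso; apply hz0; rw [hxy, h1, h2, add_zero]
      · rw [h1, hf0]; linarith
      · rw [h2, rm_zero, hf0]; linarith
      · linarith

end Pool.Agent.V11114.Quat
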