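import Mathlib

set_option autoImplicit false

/-! Gaussian integrals of functions of exponential growth on `EuclideanSpace ℝ (Fin d)`. -/

namespace Pool.Agent.V11114.KLH

open MeasureTheory Real Set Filter Topology
open scoped RealInnerProductSpace

/-- Euclidean space -/
abbrev E (d : ℕ) : Type := EuclideanSpace ℝ (Fin d)

variable {d : ℕ}

/-- standard Gaussian density -/
noncomputable def phi (d : ℕ) (x : E d) : ℝ := (2 * π) ^ (-(d : ℝ) / 2) * exp (-(‖x‖ ^ 2 / 2))

theorem phi_pos (x : E d) : 0 < phi d x := by unfold phi; positivity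

theorem phi_cont : Continuous (phi d) := by unfold phi; fun_prop

/-- standard Gaussian measure -/
noncomputable def gam (d : ℕ) : Measure (E d) :=
  (volume : Measure (E d)).withDensity fun x => ENNReal.ofReal (phi d x)

theorem integral_gam (F : E d → ℝ) : ∫ x, F x ∂(gam d) = ∫ x, phi d x * F x := by
  unfold gam
  rw [integral_withDensity_eq_integral_toReal_smul₀]
  · refine integral_congr_ae (ae_of_all _ fun x => ?_)
    simp only [smul_eq_mul]
    rw [ENNReal.toReal_ofReal (phi_pos x).le]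
  · exact (phi_cont.measurable.ennreal_ofReal).aemeasurable
  · exact ae_of_all _ fun x => ENNReal.ofReal_lt_top

theorem integrable_gam {F : E d → ℝ} :
    Integrable F (gam d) ↔ Integrable (fun x => phi d x * F x) := by
  unfold gam
  rw [integrable_withDensity_iff_integrable_smul' (phi_cont.measurable.ennreal_ofReal)
    (ae_of_all _ fun x => ENNReal.ofReal_lt_top)]
  refine integrable_congr (ae_of_all _ fun x => ?_)
  simp only [smul_eq_mul]
  rw [ENNReal.toReal_ofReal (phi_pos x).le]

theorem base_integrable {b : ℝ} (hb : 0 < b) : Integrable fun x : E d => exp (-b * ‖x‖ ^ 2) := by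
  have h := GaussianFourier.integrable_cexp_neg_mul_sq_norm_add (V := E d) (b := (b : ℂ))
    (by simpa using hb) 0 0
  have h2 := h.re
  refine h2.congr (ae_of_all _ fun x => ?_)
  simp only [zero_mul, add_zero]
  rw [show (-(b : ℂ) * (‖x‖ : ℂ) ^ 2) = ((-b * ‖x‖ ^ 2 : ℝ) : ℂ) by push_cast; ring]
  rw [← Complex.ofReal_exp]
  exact Complex.ofReal_re _

theorem exp_norm_integrable (c : ℝ) : Integrable (fun x : E d => exp (c * ‖x‖)) (gam d) := by
  rw [integrable_gam]
  have h := (base_integrable (d := d) (b := 1 / 4) (by norm_num)).const_mul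
    ((2 * π) ^ (-(d : ℝ) / 2) * exp (c ^ 2))
  refine h.mono' ?_ (ae_of_all _ fun x => ?_)
  · exact (phi_cont.mul (by fun_prop)).aestronglyMeasurable
  · have h1 := phi_pos x
    rw [Real.norm_of_nonneg (by positivity)]
    unfold phi
    rw [mul_assoc, mul_assoc, ← exp_add, ← exp_add]
    apply mul_le_mul_of_nonneg_left _ (by positivity)
    apply exp_le_exp.2
    nlinarith [sq_nonneg (c - ‖x‖ / 2)]

theorem gam_univ : (gam d) univ = 1 := by
  unfold gam
  rw [withDensity_apply _ MeasurableSet.univ, Measure.restrict_univ,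
    ← ofReal_integral_eq_lintegral_ofReal]
  · have h := GaussianFourier.integral_rexp_neg_mul_sq_norm (V := E d) (b := 1 / 2) (by norm_num)
    have h2 : ∫ x : E d, phi d x = 1 := by
      unfold phi
      rw [integral_const_mul]
      have h3 : ∫ a : E d, exp (-(‖a‖ ^ 2 / 2)) = (2 * π) ^ ((d : ℝ) / 2) := by
        have h4 : (π / (1 / 2) : ℝ) = 2 * π := by ring
        rw [h4, finrank_euclideanSpace_fin] at h
        rw [← h]
        refine integral_congr_ae (ae_of_all _ fun x => ?_)
        simp only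
        congr 1
        ring
      rw [h3, ← Real.rpow_add (by positivity)]
      have : -(d : ℝ) / 2 + (d : ℝ) / 2 = 0 := by ring
      rw [this, Real.rpow_zero]
    rw [h2, ENNReal.ofReal_one]
  · have := (exp_norm_integrable (d := d) 0)
    rw [integrable_gam] at this
    simpa using this
  · exact ae_of_all _ fun x => (phi_pos x).le

instance : IsProbabilityMeasure (gam d) := ⟨gam_univ⟩

theorem integral_exp_inner (w : E d) : ∫ x, exp ⟪x, w⟫ ∂(gam d) = exp (‖w‖ ^ 2 / 2) := by
  rw [integral_gam]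
  have h1 : ∀ x : E d, phi d x * exp ⟪x, w⟫ = exp (‖w‖ ^ 2 / 2) * phi d (x - w) := by
    intro x
    unfold phi
    rw [mul_comm (exp (‖w‖ ^ 2 / 2)), mul_assoc, mul_assoc, ← exp_add, ← exp_add, norm_sub_sq_real]
    congr 2
    ring
  simp only [h1]
  rw [integral_const_mul, integral_sub_right_eq_self (fun x => phi d x) w]
  have h2 : ∫ x : E d, phi d x = 1 := by
    have := integral_gam (d := d) fun _ => 1
    simp only [mul_one] at this
    rw [← this]
    simp
  rw [h2, mul_one]

/-- continuous functions of exponential growth -/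
def Gr (f : E d → ℝ) : Prop := Continuous f ∧ ∃ C c : ℝ, 0 ≤ C ∧ 0 ≤ c ∧ ∀ x, |f x| ≤ C * exp (c * ‖x‖)

theorem Gr.integrable {f : E d → ℝ} (h : Gr f) : Integrable f (gam d) := by
  obtain ⟨hc, C, c, hC, -, hb⟩ := h
  exact ((exp_norm_integrable c).const_mul C).mono' hc.aestronglyMeasurable
    (ae_of_all _ fun x => by rw [Real.norm_eq_abs]; exact hb x)

theorem Gr.mul {f g : E d → ℝ} (hf : Gr f) (hg : Gr g) : Gr fun x => f x * g x := by
  obtain ⟨hc, C, c, hC, hc0, hb⟩ := hf
  obtain ⟨hc', C', c', hC', hc0', hb'⟩ := hg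
  refine ⟨hc.mul hc', C * C', c + c', by positivity, by positivity, fun x => ?_⟩
  rw [abs_mul]
  calc |f x| * |g x| ≤ (C * exp (c * ‖x‖)) * (C' * exp (c' * ‖x‖)) :=
        mul_le_mul (hb x) (hb' x) (abs_nonneg _) (by positivity)
    _ = C * C' * (exp (c * ‖x‖) * exp (c' * ‖x‖)) := by ring
    _ = _ := by rw [← exp_add, add_mul]

theorem Gr.pow {f : E d → ℝ} (hf : Gr f) (n : ℕ) : Gr fun x => f x ^ n := by
  induction n with
  | zero =>
    refine ⟨by simpa using continuous_const, 1, 0, by norm_num, le_rfl, fun x => ?_⟩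
    simp
  | succ n ih => simpa only [pow_succ] using ih.mul hf

theorem Gr.of_le {f g : E d → ℝ} (hf : Continuous f) (hg : Gr g) (h : ∀ x, |f x| ≤ |g x|) :
    Gr f := by
  obtain ⟨-, C, c, hC, hc0, hb⟩ := hg
  exact ⟨hf, C, c, hC, hc0, fun x => (h x).trans (hb x)⟩

theorem Gr.abs {f : E d → ℝ} (hf : Gr f) : Gr fun x => |f x| :=
  Gr.of_le hf.1.abs hf fun x => by rw [abs_abs]

theorem Gr.add {f g : E d → ℝ} (hf : Gr f) (hg : Gr g) : Gr fun x => f x + g x := by
  obtain ⟨hc, C, c, hC, hc0, hb⟩ := hf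
  obtain ⟨hc', C', c', hC', hc0', hb'⟩ := hg
  refine ⟨hc.add hc', C + C', max c c', by positivity, le_max_of_le_left hc0, fun x => ?_⟩
  have h1 : exp (c * ‖x‖) ≤ exp (max c c' * ‖x‖) :=
    exp_le_exp.2 (mul_le_mul_of_nonneg_right (le_max_left _ _) (norm_nonneg _))
  have h2 : exp (c' * ‖x‖) ≤ exp (max c c' * ‖x‖) :=
    exp_le_exp.2 (mul_le_mul_of_nonneg_right (le_max_right _ _) (norm_nonneg _))
  calc |f x + g x| ≤ |f x| + |g x| := abs_add_le _ _
    _ ≤ C * exp (c * ‖x‖) + C' * exp (c' * ‖x‖) := add_le_add (hb x) (hb' x)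
    _ ≤ C * exp (max c c' * ‖x‖) + C' * exp (max c c' * ‖x‖) := by gcongr
    _ = _ := by ring

theorem Gr.const_mul {f : E d → ℝ} (hf : Gr f) (a : ℝ) : Gr fun x => a * f x := by
  have : Gr fun _ : E d => a := ⟨continuous_const, |a|, 0, abs_nonneg _, le_rfl, fun x => by simp⟩
  exact this.mul hf

theorem Gr.sub {f g : E d → ℝ} (hf : Gr f) (hg : Gr g) : Gr fun x => f x - g x := by
  have := hf.add (hg.const_mul (-1))
  simpa only [neg_one_mul, ← sub_eq_add_neg] using this

/-- Cauchy-Schwarz -/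
theorem cs {f g : E d → ℝ} (hf : Gr f) (hg : Gr g) :
    (∫ x, f x * g x ∂(gam d)) ^ 2 ≤ (∫ x, f x ^ 2 ∂(gam d)) * ∫ x, g x ^ 2 ∂(gam d) := by
  set a := ∫ x, f x ^ 2 ∂(gam d) with ha
  set b := ∫ x, f x * g x ∂(gam d) with hb
  set c := ∫ x, g x ^ 2 ∂(gam d) with hc
  have h : ∀ t : ℝ, 0 ≤ c * (t * t) + (-2 * b) * t + a := by
    intro t
    have h1 : ∫ x, (f x - t * g x) ^ 2 ∂(gam d) = c * (t * t) + (-2 * b) * t + a := by
      have h2 : ∀ x, (f x - t * g x) ^ 2 = f x ^ 2 + ((-2 * t) * (f x * g x) + (t * t) * g x ^ 2) :=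
        fun x => by ring
      simp only [h2]
      rw [integral_add (hf.pow 2).integrable
        ((((hf.mul hg).const_mul (-2 * t)).add ((hg.pow 2).const_mul (t * t))).integrable),
        integral_add ((hf.mul hg).const_mul (-2 * t)).integrable
          ((hg.pow 2).const_mul (t * t)).integrable, integral_const_mul, integral_const_mul]
      ring
    rw [← h1]
    exact integral_nonneg fun x => sq_nonneg _
  have := discrim_le_zero h
  unfold discrim at this
  nlinarith

end Pool.Agent.V11114.KLH
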