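import Mathlib
import Pool.Agent.V11114.KLH1

set_option autoImplicit false

/-! The functions `Y_u` and a positive definite kernel inequality. -/

namespace Pool.Agent.V11114.KLH

open MeasureTheory Real Set Filter Topology
open scoped RealInnerProductSpace

variable {d : ℕ} {Ω : Type*} [MeasurableSpace Ω]

/-- signed data: a bounded weight `s` and a bounded vector `Z` on a finite measure space -/
structure Dat (μ : Measure Ω) (s : Ω → ℝ) (Z : Ω → E d) (M : ℝ) : Prop where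
  hs : Measurable s
  hs1 : ∀ ω, |s ω| ≤ 1
  hZ : Measurable Z
  hZM : ∀ ω, ‖Z ω‖ ≤ M
  fin : IsFiniteMeasure μ

/-- `∫ s exp(u x·Z - u²|Z|²/2)` -/
noncomputable def Y (μ : Measure Ω) (s : Ω → ℝ) (Z : Ω → E d) (u : ℝ) (x : E d) : ℝ :=
  ∫ ω, s ω * exp (u * ⟪x, Z ω⟫ - u ^ 2 * ‖Z ω‖ ^ 2 / 2) ∂μ

/-- `∬ s s' exp(t Z·Z')` -/
noncomputable def A (μ : Measure Ω) (s : Ω → ℝ) (Z : Ω → E d) (t : ℝ) : ℝ :=
  ∫ p : Ω × Ω, s p.1 * s p.2 * exp (t * ⟪Z p.1, Z p.2⟫) ∂(μ.prod μ)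

variable {μ : Measure Ω} {s : Ω → ℝ} {Z : Ω → E d} {M : ℝ}

theorem Dat.M0 (h : Dat μ s Z M) [Nonempty Ω] : 0 ≤ M :=
  (norm_nonneg _).trans (h.hZM (Classical.arbitrary Ω))

theorem exp_bd (h : Dat μ s Z M) (u : ℝ) (x : E d) (ω : Ω) :
    exp (u * ⟪x, Z ω⟫ - u ^ 2 * ‖Z ω‖ ^ 2 / 2) ≤ exp (|u| * M * ‖x‖) := by
  apply exp_le_exp.2
  have h1 : |⟪x, Z ω⟫| ≤ ‖x‖ * M :=
    (abs_real_inner_le_norm x (Z ω)).trans (mul_le_mul_of_nonneg_left (h.hZM ω) (norm_nonneg _))
  have h2 : u * ⟪x, Z ω⟫ ≤ |u| * (‖x‖ * M) := by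
    calc u * ⟪x, Z ω⟫ ≤ |u * ⟪x, Z ω⟫| := le_abs_self _
      _ = |u| * |⟪x, Z ω⟫| := abs_mul _ _
      _ ≤ _ := mul_le_mul_of_nonneg_left h1 (abs_nonneg _)
  have h3 : 0 ≤ u ^ 2 * ‖Z ω‖ ^ 2 / 2 := by positivity
  nlinarith

theorem Y_meas_aux (h : Dat μ s Z M) (u : ℝ) :
    Measurable fun q : E d × Ω => s q.2 * exp (u * ⟪q.1, Z q.2⟫ - u ^ 2 * ‖Z q.2‖ ^ 2 / 2) := by
  have h1 := h.hs
  have h2 := h.hZ
  have h3 : Measurable fun q : E d × Ω => Z q.2 := h2.comp measurable_snd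
  have h4 : Measurable fun q : E d × Ω => ⟪q.1, Z q.2⟫ := measurable_fst.inner h3
  have h5 : Measurable fun q : E d × Ω => ‖Z q.2‖ := h3.norm
  fun_prop

theorem Y_gr (h : Dat μ s Z M) (u : ℝ) : Gr (Y μ s Z u) := by
  haveI := h.fin
  have hb : ∀ x ω, ‖s ω * exp (u * ⟪x, Z ω⟫ - u ^ 2 * ‖Z ω‖ ^ 2 / 2)‖ ≤
      exp (|u| * |M| * ‖x‖) := by
    intro x ω
    rw [norm_mul, Real.norm_eq_abs, Real.norm_of_nonneg (exp_pos _).le]
    have h1 := exp_bd h u x ω
    have h2 : exp (|u| * M * ‖x‖) ≤ exp (|u| * |M| * ‖x‖) := by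
      apply exp_le_exp.2
      gcongr
      exact le_abs_self M
    calc |s ω| * exp (u * ⟪x, Z ω⟫ - u ^ 2 * ‖Z ω‖ ^ 2 / 2)
        ≤ 1 * exp (|u| * |M| * ‖x‖) :=
          mul_le_mul (h.hs1 ω) (h1.trans h2) (exp_pos _).le zero_le_one
      _ = _ := one_mul _
  refine ⟨?_, μ.real univ, |u| * |M|, measureReal_nonneg, by positivity, fun x => ?_⟩
  · rw [continuous_iff_continuousAt]
    intro x₀
    refine continuousAt_of_dominated (bound := fun _ => exp (|u| * |M| * (‖x₀‖ + 1))) ?_ ?_ ?_ ?_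
    · refine Eventually.of_forall fun x => ?_
      exact ((Y_meas_aux h u).comp (measurable_const.prodMk measurable_id)).aestronglyMeasurable
    · filter_upwards [Metric.ball_mem_nhds x₀ one_pos] with x hx
      refine ae_of_all _ fun ω => (hb x ω).trans ?_
      apply exp_le_exp.2
      have : ‖x‖ ≤ ‖x₀‖ + 1 := by
        have h3 := norm_add_le x₀ (x - x₀)
        rw [add_sub_cancel] at h3
        have h4 : ‖x - x₀‖ < 1 := by rwa [← dist_eq_norm]
        linarith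
      gcongr
    · exact integrable_const _
    · refine ae_of_all _ fun ω => ?_
      exact Continuous.continuousAt (by fun_prop)
  · have := norm_integral_le_of_norm_le_const (μ := μ) (ae_of_all _ (hb x))
    rw [Real.norm_eq_abs] at this
    unfold Y
    linarith

/-- Fubini for the Gaussian measure against a finite measure -/
theorem fub {Ω' : Type*} [MeasurableSpace Ω'] (ν : Measure Ω') [IsFiniteMeasure ν]
    (G : E d → Ω' → ℝ) (hG : Measurable (Function.uncurry G)) (C c : ℝ)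
    (hb : ∀ x ω, |G x ω| ≤ C * exp (c * ‖x‖)) :
    ∫ x, ∫ ω, G x ω ∂ν ∂(gam d) = ∫ ω, ∫ x, G x ω ∂(gam d) ∂ν := by
  apply integral_integral_swap
  have h1 : Integrable (fun q : E d × Ω' => (C * exp (c * ‖q.1‖)) * 1) ((gam d).prod ν) :=
    ((exp_norm_integrable c).const_mul C).mul_prod (integrable_const 1)
  refine h1.mono' hG.aestronglyMeasurable (ae_of_all _ fun q => ?_)
  rw [Real.norm_eq_abs, mul_one]
  exact hb q.1 q.2

theorem Y_mul (h : Dat μ s Z M) (u v : ℝ) :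
    ∫ x, Y μ s Z u x * Y μ s Z v x ∂(gam d) = A μ s Z (u * v) := by
  haveI := h.fin
  have h1 : ∀ x, Y μ s Z u x * Y μ s Z v x = ∫ p : Ω × Ω,
      (s p.1 * exp (u * ⟪x, Z p.1⟫ - u ^ 2 * ‖Z p.1‖ ^ 2 / 2)) *
      (s p.2 * exp (v * ⟪x, Z p.2⟫ - v ^ 2 * ‖Z p.2‖ ^ 2 / 2)) ∂(μ.prod μ) := fun x => by
    unfold Y
    rw [← integral_prod_mul]
  simp only [h1]
  rw [fub (μ.prod μ) _ ?_ 1 ((|u| + |v|) * M) ?_]
  · unfold A
    refine integral_congr_ae (ae_of_all _ fun p => ?_)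
    simp only
    have h2 : ∀ x, (s p.1 * exp (u * ⟪x, Z p.1⟫ - u ^ 2 * ‖Z p.1‖ ^ 2 / 2)) *
        (s p.2 * exp (v * ⟪x, Z p.2⟫ - v ^ 2 * ‖Z p.2‖ ^ 2 / 2)) =
        (s p.1 * s p.2 * exp (-(u ^ 2 * ‖Z p.1‖ ^ 2 / 2) - v ^ 2 * ‖Z p.2‖ ^ 2 / 2)) *
          exp ⟪x, u • Z p.1 + v • Z p.2⟫ := by
      intro x
      rw [inner_add_right, real_inner_smul_right, real_inner_smul_right]
      rw [show ∀ a b c e : ℝ, a * exp b * (c * exp e) = a * c * (exp b * exp e) by intros; ring,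
        ← exp_add, mul_assoc (s p.1 * s p.2), ← exp_add]
      congr 2
      ring
    simp only [h2]
    rw [integral_const_mul, integral_exp_inner, mul_assoc, ← exp_add]
    congr 2
    rw [norm_add_sq_real, norm_smul, norm_smul, real_inner_smul_left, real_inner_smul_right,
      mul_pow, mul_pow, Real.norm_eq_abs, Real.norm_eq_abs, sq_abs, sq_abs]
    ring
  · have e1 : Measurable fun q : E d × (Ω × Ω) => ((q.1, q.2.1) : E d × Ω) := by fun_prop
    have e2 : Measurable fun q : E d × (Ω × Ω) => ((q.1, q.2.2) : E d × Ω) := by fun_prop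
    exact ((Y_meas_aux h u).comp e1).mul ((Y_meas_aux h v).comp e2)
  · intro x p
    rw [abs_mul, abs_mul, abs_mul, abs_of_pos (exp_pos _), abs_of_pos (exp_pos _), one_mul]
    have h3 := exp_bd h u x p.1
    have h4 := exp_bd h v x p.2
    have h5 : (|u| + |v|) * M * ‖x‖ = |u| * M * ‖x‖ + |v| * M * ‖x‖ := by ring
    rw [h5, exp_add]
    apply mul_le_mul _ _ (by positivity) (exp_pos _).le
    · calc |s p.1| * _ ≤ 1 * exp (|u| * M * ‖x‖) :=
          mul_le_mul (h.hs1 _) h3 (exp_pos _).le zero_le_one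
        _ = _ := one_mul _
    · calc |s p.2| * _ ≤ 1 * exp (|v| * M * ‖x‖) :=
          mul_le_mul (h.hs1 _) h4 (exp_pos _).le zero_le_one
        _ = _ := one_mul _

theorem A_nonneg (h : Dat μ s Z M) {t : ℝ} (ht : 0 ≤ t) : 0 ≤ A μ s Z t := by
  have := Y_mul h (√t) (√t)
  rw [Real.mul_self_sqrt ht] at this
  rw [← this]
  exact integral_nonneg fun x => mul_self_nonneg _

theorem A_logconvex (h : Dat μ s Z M) {u v : ℝ} (hu : 0 ≤ u) (hv : 0 ≤ v) :
    A μ s Z (u * v) ^ 2 ≤ A μ s Z (u ^ 2) * A μ s Z (v ^ 2) := by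
  rw [← Y_mul h u v, sq u, sq v, ← Y_mul h u u, ← Y_mul h v v]
  have := cs (Y_gr h u) (Y_gr h v)
  simpa only [sq] using this

theorem A_three (h : Dat μ s Z M) : A μ s Z 3 ^ 10 ≤ A μ s Z 1 ^ 9 * A μ s Z (3 ^ 10) := by
  have hA : ∀ j : ℕ, 0 ≤ A μ s Z (3 ^ j) := fun j => A_nonneg h (by positivity)
  have hc : ∀ j : ℕ, A μ s Z (3 ^ (j + 1)) ^ 2 ≤ A μ s Z (3 ^ j) * A μ s Z (3 ^ (j + 2)) := by
    intro j
    have := A_logconvex h (u := √3 ^ j) (v := √3 ^ (j + 2)) (by positivity) (by positivity)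
    have e : (√3 : ℝ) ^ 2 = 3 := Real.sq_sqrt (by norm_num)
    have e1 : (√3 : ℝ) ^ j * √3 ^ (j + 2) = 3 ^ (j + 1) := by
      rw [← pow_add, show j + (j + 2) = 2 * (j + 1) by ring, pow_mul, e]
    have e2 : ((√3 : ℝ) ^ j) ^ 2 = 3 ^ j := by rw [← pow_mul, mul_comm, pow_mul, e]
    have e3 : ((√3 : ℝ) ^ (j + 2)) ^ 2 = 3 ^ (j + 2) := by rw [← pow_mul, mul_comm, pow_mul, e]
    rwa [e1, e2, e3] at this
  set a : ℕ → ℝ := fun j => A μ s Z (3 ^ j) with ha
  have key : ∀ m : ℕ, a 1 ^ (m + 1) ≤ a 0 ^ m * a (m + 1) := by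
    rcases (hA 0).eq_or_lt with h0 | h0
    · -- a 0 = 0
      have h1 : a 1 = 0 := by
        have := hc 0
        have h2 : a 1 ^ 2 ≤ a 0 * a 2 := this
        have h3 : a 0 = 0 := h0.symm
        rw [h3, zero_mul] at h2
        nlinarith [hA 1]
      intro m
      rw [h1, zero_pow (Nat.succ_ne_zero m)]
      exact mul_nonneg (pow_nonneg (hA 0) _) (hA _)
    · rcases (hA 1).eq_or_lt with h1 | h1
      · intro m
        have h1' : a 1 = 0 := h1.symm
        rw [h1', zero_pow (Nat.succ_ne_zero m)]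
        exact mul_nonneg (pow_nonneg (hA 0) _) (hA _)
      · -- all positive, ratios increase
        have hstep : ∀ j, 0 < a j ∧ 0 < a (j + 1) ∧ a 1 * a j ≤ a 0 * a (j + 1) := by
          intro j
          induction j with
          | zero => exact ⟨h0, h1, by rw [mul_comm]⟩
          | succ j ih =>
            obtain ⟨i1, i2, i3⟩ := ih
            have h2 : a (j + 1) ^ 2 ≤ a j * a (j + 2) := hc j
            have h3 : 0 < a (j + 2) := by
              by_contra hcon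
              push Not at hcon
              have : a j * a (j + 2) ≤ 0 := mul_nonpos_of_nonneg_of_nonpos i1.le hcon
              nlinarith
            refine ⟨i2, h3, ?_⟩
            have h4 : (a 1 * a (j + 1)) * a j ≤ (a 0 * a (j + 1 + 1)) * a j := by
              calc (a 1 * a (j + 1)) * a j = (a 1 * a j) * a (j + 1) := by ring
                _ ≤ (a 0 * a (j + 1)) * a (j + 1) := mul_le_mul_of_nonneg_right i3 i2.le
                _ = a 0 * a (j + 1) ^ 2 := by ring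
                _ ≤ a 0 * (a j * a (j + 2)) := mul_le_mul_of_nonneg_left h2 h0.le
                _ = _ := by ring
            exact le_of_mul_le_mul_right h4 i1
        intro m
        induction m with
        | zero => simp
        | succ m ih =>
          calc a 1 ^ (m + 1 + 1) = a 1 ^ (m + 1) * a 1 := pow_succ _ _
            _ ≤ (a 0 ^ m * a (m + 1)) * a 1 := mul_le_mul_of_nonneg_right ih h1.le
            _ = a 0 ^ m * (a 1 * a (m + 1)) := by ring
            _ ≤ a 0 ^ m * (a 0 * a (m + 1 + 1)) :=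
              mul_le_mul_of_nonneg_left (hstep (m + 1)).2.2 (pow_nonneg h0.le _)
            _ = _ := by rw [pow_succ]; ring
  have := key 9
  simpa [ha] using this

end Pool.Agent.V11114.KLH
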