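import Mathlib
import Pool.Agent.V11114.KLH2

set_option autoImplicit false

/-! The fourth moment bound `E Y⁴ ≤ A(3)²`. -/

namespace Pool.Agent.V11114.KLH

open MeasureTheory Real Set Filter Topology
open scoped RealInnerProductSpace

variable {d : ℕ} {Ω : Type*} [MeasurableSpace Ω]

/-- bounded measurable functions -/
def Bm {Ω' : Type*} [MeasurableSpace Ω'] (f : Ω' → ℝ) : Prop := Measurable f ∧ ∃ C : ℝ, ∀ ω, |f ω| ≤ C

section
variable {Ω' : Type*} [MeasurableSpace Ω']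

theorem Bm.integrable {f : Ω' → ℝ} (h : Bm f) (ν : Measure Ω') [IsFiniteMeasure ν] :
    Integrable f ν := by
  obtain ⟨hm, C, hC⟩ := h
  exact Integrable.of_bound hm.aestronglyMeasurable C (ae_of_all _ fun ω => by
    rw [Real.norm_eq_abs]; exact hC ω)

theorem Bm.mul {f g : Ω' → ℝ} (hf : Bm f) (hg : Bm g) : Bm fun ω => f ω * g ω := by
  obtain ⟨hm, C, hC⟩ := hf
  obtain ⟨hm', C', hC'⟩ := hg
  refine ⟨hm.mul hm', C * C', fun ω => ?_⟩
  rw [abs_mul]
  exact mul_le_mul (hC ω) (hC' ω) (abs_nonneg _) ((abs_nonneg _).trans (hC ω))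

theorem Bm.sum {ι : Type*} (t : Finset ι) {f : ι → Ω' → ℝ} (hf : ∀ i, Bm (f i)) :
    Bm fun ω => ∑ i ∈ t, f i ω := by
  classical
  induction t using Finset.induction_on with
  | empty => exact ⟨by simp, 0, fun ω => by simp⟩
  | insert i t hi ih =>
    obtain ⟨hm, C, hC⟩ := hf i
    obtain ⟨hm', C', hC'⟩ := ih
    refine ⟨?_, C + C', fun ω => ?_⟩
    · simp only [Finset.sum_insert hi]
      exact hm.add hm'
    · show |∑ i ∈ insert i t, f i ω| ≤ C + C'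
      rw [Finset.sum_insert hi]
      exact (abs_add_le _ _).trans (add_le_add (hC ω) (hC' ω))

theorem Bm.comp {Ω'' : Type*} [MeasurableSpace Ω''] {f : Ω' → ℝ} (hf : Bm f) {g : Ω'' → Ω'}
    (hg : Measurable g) : Bm fun ω => f (g ω) := by
  obtain ⟨hm, C, hC⟩ := hf
  exact ⟨hm.comp hg, C, fun ω => hC _⟩
end

/-- the four point function of a kernel -/
def Lf (s : Ω → ℝ) (W : Ω → Ω → ℝ) (P : (Ω × Ω) × (Ω × Ω)) : ℝ :=
  ((s P.1.1 * s P.1.2 * W P.1.1 P.1.2) * (s P.2.1 * s P.2.2 * W P.2.1 P.2.2)) *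
    ((W P.1.1 P.2.1 * W P.1.2 P.2.2) * (W P.1.1 P.2.2 * W P.1.2 P.2.1))

theorem sum4 {I : Type*} [Fintype I] (α β γ δ : I → ℝ) :
    ((∑ a, α a) * (∑ a, β a)) * ((∑ a, γ a) * (∑ a, δ a)) =
      ∑ q : (I × I) × (I × I), (α q.1.1 * β q.1.2) * (γ q.2.1 * δ q.2.2) := by
  have h1 : (∑ a, α a) * (∑ a, β a) = ∑ p : I × I, α p.1 * β p.2 := by
    rw [Fintype.sum_mul_sum, Fintype.sum_prod_type]
  have h2 : (∑ a, γ a) * (∑ a, δ a) = ∑ p : I × I, γ p.1 * δ p.2 := by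
    rw [Fintype.sum_mul_sum, Fintype.sum_prod_type]
  rw [h1, h2, Fintype.sum_mul_sum]
  exact (Fintype.sum_prod_type (fun q : (I × I) × (I × I) =>
    (α q.1.1 * β q.1.2) * (γ q.2.1 * δ q.2.2))).symm

theorem Lf_meas {s : Ω → ℝ} (hs : Measurable s) {W : Ω → Ω → ℝ}
    (hW : Measurable fun p : Ω × Ω => W p.1 p.2) : Measurable (Lf s W) := by
  have m11 : Measurable fun P : (Ω × Ω) × (Ω × Ω) => P.1.1 := by fun_prop
  have m12 : Measurable fun P : (Ω × Ω) × (Ω × Ω) => P.1.2 := by fun_prop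
  have m21 : Measurable fun P : (Ω × Ω) × (Ω × Ω) => P.2.1 := by fun_prop
  have m22 : Measurable fun P : (Ω × Ω) × (Ω × Ω) => P.2.2 := by fun_prop
  have e1 : Measurable fun P : (Ω × Ω) × (Ω × Ω) => W P.1.1 P.1.2 := hW.comp (m11.prodMk m12)
  have e2 : Measurable fun P : (Ω × Ω) × (Ω × Ω) => W P.2.1 P.2.2 := hW.comp (m21.prodMk m22)
  have e3 : Measurable fun P : (Ω × Ω) × (Ω × Ω) => W P.1.1 P.2.1 := hW.comp (m11.prodMk m21)
  have e4 : Measurable fun P : (Ω × Ω) × (Ω × Ω) => W P.1.2 P.2.2 := hW.comp (m12.prodMk m22)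
  have e5 : Measurable fun P : (Ω × Ω) × (Ω × Ω) => W P.1.1 P.2.2 := hW.comp (m11.prodMk m22)
  have e6 : Measurable fun P : (Ω × Ω) × (Ω × Ω) => W P.1.2 P.2.1 := hW.comp (m12.prodMk m21)
  have s1 := hs.comp m11
  have s2 := hs.comp m12
  have s3 := hs.comp m21
  have s4 := hs.comp m22
  have := ((((s1.mul s2).mul e1).mul ((s3.mul s4).mul e2)).mul ((e3.mul e4).mul (e5.mul e6)))
  exact this

theorem Lf_bd {s : Ω → ℝ} (hs1 : ∀ ω, |s ω| ≤ 1) {W : Ω → Ω → ℝ} {B : ℝ}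
    (hK : ∀ x y, |W x y| ≤ B) (P : (Ω × Ω) × (Ω × Ω)) : |Lf s W P| ≤ B ^ 6 := by
  have hB0 : 0 ≤ B := (abs_nonneg _).trans (hK P.1.1 P.1.1)
  unfold Lf
  simp only [abs_mul]
  have q1 : |s P.1.1| * |s P.1.2| * |W P.1.1 P.1.2| ≤ B := by
    calc _ ≤ 1 * 1 * B := by
          apply mul_le_mul _ (hK _ _) (abs_nonneg _) (by norm_num)
          exact mul_le_mul (hs1 _) (hs1 _) (abs_nonneg _) (by norm_num)
      _ = B := by ring
  have q2 : |s P.2.1| * |s P.2.2| * |W P.2.1 P.2.2| ≤ B := by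
    calc _ ≤ 1 * 1 * B := by
          apply mul_le_mul _ (hK _ _) (abs_nonneg _) (by norm_num)
          exact mul_le_mul (hs1 _) (hs1 _) (abs_nonneg _) (by norm_num)
      _ = B := by ring
  calc _ ≤ (B * B) * ((B * B) * (B * B)) := by
        apply mul_le_mul
        · exact mul_le_mul q1 q2 (by positivity) hB0
        · apply mul_le_mul
          · exact mul_le_mul (hK _ _) (hK _ _) (abs_nonneg _) hB0
          · exact mul_le_mul (hK _ _) (hK _ _) (abs_nonneg _) hB0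
          · positivity
          · positivity
        · positivity
        · positivity
    _ = B ^ 6 := by ring

theorem Lf_lim {s : Ω → ℝ} {W : Ω → Ω → ℝ} {Wn : ℕ → Ω → Ω → ℝ}
    (t : ∀ x y, Tendsto (fun n => Wn n x y) atTop (𝓝 (W x y))) (P : (Ω × Ω) × (Ω × Ω)) :
    Tendsto (fun n => Lf s (Wn n) P) atTop (𝓝 (Lf s W P)) := by
  unfold Lf
  have c1 := t P.1.1 P.1.2
  have c2 := t P.2.1 P.2.2
  have c3 := t P.1.1 P.2.1
  have c4 := t P.1.2 P.2.2
  have c5 := t P.1.1 P.2.2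
  have c6 := t P.1.2 P.2.1
  exact ((c1.const_mul (s P.1.1 * s P.1.2)).mul (c2.const_mul (s P.2.1 * s P.2.2))).mul
    ((c3.mul c4).mul (c5.mul c6))

theorem kernel_ineq {I : Type*} [Fintype I] (μ : Measure Ω) [IsFiniteMeasure μ] (s : Ω → ℝ)
    (hs : Bm s) (F : I → Ω → ℝ) (hF : ∀ a, Bm (F a)) (W : Ω → Ω → ℝ)
    (hW : ∀ x y, W x y = ∑ a, F a x * F a y) :
    ∫ P, Lf s W P ∂((μ.prod μ).prod (μ.prod μ)) ≤
      (∫ p : Ω × Ω, s p.1 * s p.2 * (W p.1 p.2) ^ 3 ∂(μ.prod μ)) ^ 2 := by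
  classical
  have m1 : Measurable (Prod.fst : Ω × Ω → Ω) := measurable_fst
  have m2 : Measurable (Prod.snd : Ω × Ω → Ω) := measurable_snd
  set J : I → I → I → ℝ := fun a b c => ∫ ω, s ω * F a ω * F b ω * F c ω ∂μ with hJ
  set H : (I × I) × (I × I) → ℝ := fun q => ∫ p : Ω × Ω, (s p.1 * s p.2 * W p.1 p.2) *
    ((F q.1.1 p.1 * F q.1.2 p.2) * (F q.2.1 p.1 * F q.2.2 p.2)) ∂(μ.prod μ) with hH
  have hWm : Bm fun p : Ω × Ω => W p.1 p.2 := by
    simp only [hW]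
    exact Bm.sum Finset.univ fun a => ((hF a).comp m1).mul ((hF a).comp m2)
  have hG : Bm fun p : Ω × Ω => s p.1 * s p.2 * W p.1 p.2 := ((hs.comp m1).mul (hs.comp m2)).mul hWm
  have hq : ∀ a b c e : I, Bm fun p : Ω × Ω => (s p.1 * s p.2 * W p.1 p.2) *
      ((F a p.1 * F b p.2) * (F c p.1 * F e p.2)) := fun a b c e =>
    hG.mul ((((hF a).comp m1).mul ((hF b).comp m2)).mul (((hF c).comp m1).mul ((hF e).comp m2)))
  -- step A
  have hA : ∫ P, Lf s W P ∂((μ.prod μ).prod (μ.prod μ)) =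
      ∑ q : (I × I) × (I × I), H q * H (q.1, (q.2.2, q.2.1)) := by
    have h1 : ∀ P : (Ω × Ω) × (Ω × Ω), Lf s W P = ∑ q : (I × I) × (I × I),
        ((s P.1.1 * s P.1.2 * W P.1.1 P.1.2) *
          ((F q.1.1 P.1.1 * F q.1.2 P.1.2) * (F q.2.1 P.1.1 * F q.2.2 P.1.2))) *
        ((s P.2.1 * s P.2.2 * W P.2.1 P.2.2) *
          ((F q.1.1 P.2.1 * F q.1.2 P.2.2) * (F q.2.2 P.2.1 * F q.2.1 P.2.2))) := by
      intro P
      unfold Lf
      rw [hW P.1.1 P.2.1, hW P.1.2 P.2.2, hW P.1.1 P.2.2, hW P.1.2 P.2.1, sum4, Finset.mul_sum]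
      exact Finset.sum_congr rfl fun q _ => by ring
    simp only [h1]
    rw [integral_finset_sum]
    · refine Finset.sum_congr rfl fun q _ => ?_
      rw [hH]
      exact integral_prod_mul (μ := μ.prod μ) (ν := μ.prod μ)
        (fun p : Ω × Ω => (s p.1 * s p.2 * W p.1 p.2) *
          ((F q.1.1 p.1 * F q.1.2 p.2) * (F q.2.1 p.1 * F q.2.2 p.2)))
        (fun p : Ω × Ω => (s p.1 * s p.2 * W p.1 p.2) *
          ((F q.1.1 p.1 * F q.1.2 p.2) * (F q.2.2 p.1 * F q.2.1 p.2)))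
    · intro q _
      exact (((hq q.1.1 q.1.2 q.2.1 q.2.2).comp measurable_fst).mul
        ((hq q.1.1 q.1.2 q.2.2 q.2.1).comp measurable_snd)).integrable _
  -- step B
  have hB : ∀ q, H q = ∑ b, J q.1.1 b q.2.1 * J q.1.2 b q.2.2 := by
    intro q
    have h1 : ∀ p : Ω × Ω, (s p.1 * s p.2 * W p.1 p.2) *
        ((F q.1.1 p.1 * F q.1.2 p.2) * (F q.2.1 p.1 * F q.2.2 p.2)) = ∑ b,
        (s p.1 * F q.1.1 p.1 * F b p.1 * F q.2.1 p.1) *
        (s p.2 * F q.1.2 p.2 * F b p.2 * F q.2.2 p.2) := by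
      intro p
      rw [hW, Finset.mul_sum, Finset.sum_mul]
      exact Finset.sum_congr rfl fun b _ => by ring
    rw [hH]
    simp only [h1]
    rw [integral_finset_sum]
    · refine Finset.sum_congr rfl fun b _ => ?_
      rw [hJ]
      exact integral_prod_mul (μ := μ) (ν := μ)
        (fun ω => s ω * F q.1.1 ω * F b ω * F q.2.1 ω)
        (fun ω => s ω * F q.1.2 ω * F b ω * F q.2.2 ω)
    · intro b _
      exact (((((hs.mul (hF q.1.1)).mul (hF b)).mul (hF q.2.1)).comp m1).mul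
        ((((hs.mul (hF q.1.2)).mul (hF b)).mul (hF q.2.2)).comp m2)).integrable _
  -- step C
  have hC : ∫ p : Ω × Ω, s p.1 * s p.2 * (W p.1 p.2) ^ 3 ∂(μ.prod μ) =
      ∑ a, ∑ c, ∑ b, J a b c ^ 2 := by
    have h1 : ∀ p : Ω × Ω, s p.1 * s p.2 * (W p.1 p.2) ^ 3 = ∑ a, ∑ c, ∑ b,
        (s p.1 * F a p.1 * F b p.1 * F c p.1) * (s p.2 * F a p.2 * F b p.2 * F c p.2) := by
      intro p
      have e : (W p.1 p.2) ^ 3 = (∑ a, F a p.1 * F a p.2) * ((∑ c, F c p.1 * F c p.2) *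
          (∑ b, F b p.1 * F b p.2)) := by rw [hW]; ring
      rw [e, Fintype.sum_mul_sum, Fintype.sum_mul_sum, Finset.mul_sum]
      refine Finset.sum_congr rfl fun a _ => ?_
      rw [Finset.mul_sum]
      refine Finset.sum_congr rfl fun c _ => ?_
      rw [Finset.mul_sum, Finset.mul_sum]
      exact Finset.sum_congr rfl fun b _ => by ring
    simp only [h1]
    have hb : ∀ a b c, Bm fun p : Ω × Ω =>
        (s p.1 * F a p.1 * F b p.1 * F c p.1) * (s p.2 * F a p.2 * F b p.2 * F c p.2) :=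
      fun a b c => ((((hs.mul (hF a)).mul (hF b)).mul (hF c)).comp m1).mul
        ((((hs.mul (hF a)).mul (hF b)).mul (hF c)).comp m2)
    rw [integral_finset_sum _ fun a _ => (Bm.sum _ fun c => Bm.sum _ fun b => hb a b c).integrable _]
    refine Finset.sum_congr rfl fun a _ => ?_
    rw [integral_finset_sum _ fun c _ => (Bm.sum _ fun b => hb a b c).integrable _]
    refine Finset.sum_congr rfl fun c _ => ?_
    rw [integral_finset_sum _ fun b _ => (hb a b c).integrable _]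
    refine Finset.sum_congr rfl fun b _ => ?_
    rw [hJ, sq]
    exact integral_prod_mul (μ := μ) (ν := μ)
      (fun ω => s ω * F a ω * F b ω * F c ω) (fun ω => s ω * F a ω * F b ω * F c ω)
  rw [hA, hC]
  -- AM-GM
  have hD : ∑ q : (I × I) × (I × I), H q * H (q.1, (q.2.2, q.2.1)) ≤ ∑ q, H q ^ 2 := by
    have h1 : ∑ q : (I × I) × (I × I), H (q.1, (q.2.2, q.2.1)) ^ 2 = ∑ q, H q ^ 2 := by
      let e : (I × I) × (I × I) ≃ (I × I) × (I × I) :=
        (Equiv.refl (I × I)).prodCongr (Equiv.prodComm I I)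
      exact Equiv.sum_comp e fun q => H q ^ 2
    have h2 : ∑ q : (I × I) × (I × I), H q * H (q.1, (q.2.2, q.2.1)) ≤
        ∑ q : (I × I) × (I × I), (H q ^ 2 + H (q.1, (q.2.2, q.2.1)) ^ 2) / 2 :=
      Finset.sum_le_sum fun q _ => by nlinarith [sq_nonneg (H q - H (q.1, (q.2.2, q.2.1)))]
    refine h2.trans (le_of_eq ?_)
    rw [← Finset.sum_div, Finset.sum_add_distrib, h1]
    ring
  refine hD.trans ?_
  have hE : ∀ q : (I × I) × (I × I), H q ^ 2 ≤
      (∑ b, J q.1.1 b q.2.1 ^ 2) * ∑ b, J q.1.2 b q.2.2 ^ 2 := fun q => by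
    rw [hB q]
    exact Finset.sum_mul_sq_le_sq_mul_sq _ _ _
  refine (Finset.sum_le_sum fun q _ => hE q).trans (le_of_eq ?_)
  rw [Fintype.sum_prod_type]
  simp only [Fintype.sum_prod_type]
  set N : I → I → ℝ := fun a c => ∑ b, J a b c ^ 2 with hN
  show ∑ a, ∑ a', ∑ c, ∑ c', N a c * N a' c' = (∑ a, ∑ c, N a c) ^ 2
  rw [sq, Fintype.sum_mul_sum]
  refine Finset.sum_congr rfl fun a _ => Finset.sum_congr rfl fun a' _ => ?_
  rw [Fintype.sum_mul_sum]

/-! ### truncated exponential kernel -/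

/-- truncated exponential series -/
noncomputable def Kn (n : ℕ) (t : ℝ) : ℝ := ∑ k ∈ Finset.range n, t ^ k / (k.factorial : ℝ)

theorem Kn_abs (n : ℕ) (t : ℝ) : |Kn n t| ≤ exp |t| := by
  unfold Kn
  refine (Finset.abs_sum_le_sum_abs _ _).trans ?_
  have h1 : ∀ k ∈ Finset.range n, |t ^ k / (k.factorial : ℝ)| = |t| ^ k / (k.factorial : ℝ) := by
    intro k _
    rw [abs_div, abs_pow, Nat.abs_cast]
  rw [Finset.sum_congr rfl h1]
  exact Real.sum_le_exp_of_nonneg (abs_nonneg t) n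

theorem Kn_tendsto (t : ℝ) : Tendsto (fun n => Kn n t) atTop (𝓝 (exp t)) := by
  have h := NormedSpace.expSeries_div_hasSum_exp (𝔸 := ℝ) t
  rw [← Real.exp_eq_exp_ℝ] at h
  exact h.tendsto_sum_nat

/-- index set of the features -/
abbrev Ix (d n : ℕ) : Type := Σ k : Fin n, (Fin (k : ℕ) → Fin d)

/-- features -/
noncomputable def Fe {n : ℕ} (a : Ix d n) (z : E d) : ℝ :=
  (∏ i, z (a.2 i)) / √((a.1 : ℕ).factorial : ℝ)

theorem Kn_features (n : ℕ) (z w : E d) :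
    Kn n ⟪z, w⟫ = ∑ a : Ix d n, Fe a z * Fe a w := by
  unfold Kn
  rw [Fintype.sum_sigma, ← Fin.sum_univ_eq_sum_range (fun k => ⟪z, w⟫ ^ k / (k.factorial : ℝ)) n]
  refine Finset.sum_congr rfl fun k _ => ?_
  have h1 : ⟪z, w⟫ = ∑ j, z j * w j := by
    rw [PiLp.inner_apply]
    exact Finset.sum_congr rfl fun j _ => by
      simp [mul_comm]
  rw [h1, Fintype.sum_pow, Finset.sum_div]
  refine Finset.sum_congr rfl fun α _ => ?_
  unfold Fe
  rw [Finset.prod_mul_distrib, div_mul_div_comm, Real.mul_self_sqrt (Nat.cast_nonneg _)]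

theorem Fe_meas {n : ℕ} (a : Ix d n) : Measurable (Fe a) := by
  unfold Fe
  fun_prop

theorem coord_le (z : E d) (i : Fin d) : |z i| ≤ ‖z‖ := by
  have := EuclideanSpace.norm_sq_eq z
  have h1 : |z i| ^ 2 ≤ ‖z‖ ^ 2 := by
    rw [this]
    have : |z i| ^ 2 = ‖z i‖ ^ 2 := by rw [Real.norm_eq_abs]
    rw [this]
    exact Finset.single_le_sum (f := fun i => ‖z i‖ ^ 2) (fun _ _ => sq_nonneg _) (Finset.mem_univ i)
  exact (pow_le_pow_iff_left₀ (abs_nonneg _) (norm_nonneg z) two_ne_zero).1 h1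

variable {μ : Measure Ω} {s : Ω → ℝ} {Z : Ω → E d} {M : ℝ}

theorem Fe_Bm (h : Dat μ s Z M) {n : ℕ} (a : Ix d n) : Bm fun ω => Fe a (Z ω) := by
  refine ⟨(Fe_meas a).comp h.hZ, |M| ^ (a.1 : ℕ) / √((a.1 : ℕ).factorial : ℝ), fun ω => ?_⟩
  unfold Fe
  rw [abs_div, abs_of_nonneg (Real.sqrt_nonneg _), Finset.abs_prod]
  apply div_le_div_of_nonneg_right _ (Real.sqrt_nonneg _)
  calc ∏ i, |Z ω (a.2 i)| ≤ ∏ _i : Fin (a.1 : ℕ), |M| :=
        Finset.prod_le_prod (fun _ _ => abs_nonneg _) fun i _ =>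
          (coord_le _ _).trans ((h.hZM ω).trans (le_abs_self M))
    _ = _ := by rw [Finset.prod_const, Finset.card_univ, Fintype.card_fin]

theorem inner_bd (h : Dat μ s Z M) (x y : Ω) : |⟪Z x, Z y⟫| ≤ M ^ 2 := by
  have h1 := h.hZM x
  have h2 := h.hZM y
  calc |⟪Z x, Z y⟫| ≤ ‖Z x‖ * ‖Z y‖ := abs_real_inner_le_norm _ _
    _ ≤ M * M := mul_le_mul h1 h2 (norm_nonneg _) ((norm_nonneg _).trans h1)
    _ = M ^ 2 := (sq M).symm

theorem kernel_exp (h : Dat μ s Z M) :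
    ∫ P, Lf s (fun x y => exp ⟪Z x, Z y⟫) P ∂((μ.prod μ).prod (μ.prod μ)) ≤ A μ s Z 3 ^ 2 := by
  haveI := h.fin
  have hs : Bm s := ⟨h.hs, 1, h.hs1⟩
  set B := exp (M ^ 2) with hB
  have hB0 : 0 < B := exp_pos _
  have hK : ∀ n x y, |Kn n ⟪Z x, Z y⟫| ≤ B := fun n x y =>
    (Kn_abs n _).trans (exp_le_exp.2 (inner_bd h x y))
  have hmeasZ : Measurable fun p : Ω × Ω => ⟪Z p.1, Z p.2⟫ :=
    (h.hZ.comp measurable_fst).inner (h.hZ.comp measurable_snd)
  have hKm : ∀ n, Measurable fun p : Ω × Ω => Kn n ⟪Z p.1, Z p.2⟫ := by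
    intro n
    unfold Kn
    fun_prop
  have hineq : ∀ n, ∫ P, Lf s (fun x y => Kn n ⟪Z x, Z y⟫) P ∂((μ.prod μ).prod (μ.prod μ)) ≤
      (∫ p : Ω × Ω, s p.1 * s p.2 * (Kn n ⟪Z p.1, Z p.2⟫) ^ 3 ∂(μ.prod μ)) ^ 2 := fun n =>
    kernel_ineq μ s hs (fun (a : Ix d n) ω => Fe a (Z ω)) (fun a => Fe_Bm h a) _
      fun x y => Kn_features n (Z x) (Z y)
  have hlim1 : Tendsto (fun n => ∫ P, Lf s (fun x y => Kn n ⟪Z x, Z y⟫) P
      ∂((μ.prod μ).prod (μ.prod μ))) atTop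
      (𝓝 (∫ P, Lf s (fun x y => exp ⟪Z x, Z y⟫) P ∂((μ.prod μ).prod (μ.prod μ)))) := by
    refine tendsto_integral_of_dominated_convergence (fun _ => B ^ 6) ?_ (integrable_const _) ?_ ?_
    · intro n
      exact (Lf_meas h.hs (W := fun x y => Kn n ⟪Z x, Z y⟫) (hKm n)).aestronglyMeasurable
    · intro n
      exact ae_of_all _ fun P => Lf_bd h.hs1 (hK n) P
    · exact ae_of_all _ fun P => Lf_lim (fun x y => Kn_tendsto ⟪Z x, Z y⟫) P
  have hlim2 : Tendsto (fun n => ∫ p : Ω × Ω, s p.1 * s p.2 * (Kn n ⟪Z p.1, Z p.2⟫) ^ 3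
      ∂(μ.prod μ)) atTop (𝓝 (A μ s Z 3)) := by
    have e : A μ s Z 3 = ∫ p : Ω × Ω, s p.1 * s p.2 * (exp ⟪Z p.1, Z p.2⟫) ^ 3 ∂(μ.prod μ) := by
      unfold A
      refine integral_congr_ae (ae_of_all _ fun p => ?_)
      simp only
      rw [← exp_nat_mul]
      norm_num
    rw [e]
    refine tendsto_integral_of_dominated_convergence (fun _ => B ^ 3) ?_ (integrable_const _) ?_ ?_
    · intro n
      exact (((h.hs.comp measurable_fst).mul (h.hs.comp measurable_snd)).mul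
        ((hKm n).pow_const 3)).aestronglyMeasurable
    · intro n
      refine ae_of_all _ fun p => ?_
      rw [norm_mul, norm_mul, norm_pow, Real.norm_eq_abs, Real.norm_eq_abs, Real.norm_eq_abs]
      calc |s p.1| * |s p.2| * |Kn n ⟪Z p.1, Z p.2⟫| ^ 3 ≤ 1 * 1 * B ^ 3 := by
            apply mul_le_mul _ (pow_le_pow_left₀ (abs_nonneg _) (hK n _ _) 3) (by positivity)
              (by norm_num)
            exact mul_le_mul (h.hs1 _) (h.hs1 _) (abs_nonneg _) (by norm_num)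
        _ = B ^ 3 := by ring
    · exact ae_of_all _ fun p => tendsto_const_nhds.mul ((Kn_tendsto _).pow 3)
  exact le_of_tendsto_of_tendsto' hlim1 (hlim2.pow 2) hineq

theorem fourth (h : Dat μ s Z M) : ∫ x, Y μ s Z 1 x ^ 4 ∂(gam d) ≤ A μ s Z 3 ^ 2 := by
  haveI := h.fin
  refine le_trans (le_of_eq ?_) (kernel_exp h)
  obtain ⟨e, he⟩ : ∃ e : E d → Ω → ℝ, e = fun x ω =>
    s ω * exp (1 * ⟪x, Z ω⟫ - 1 ^ 2 * ‖Z ω‖ ^ 2 / 2) := ⟨_, rfl⟩
  have hY : ∀ x, Y μ s Z 1 x = ∫ ω, e x ω ∂μ := fun x => by rw [he]; rfl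
  have h1 : ∀ x, Y μ s Z 1 x ^ 4 = ∫ P : (Ω × Ω) × (Ω × Ω), (e x P.1.1 * e x P.1.2) *
      (e x P.2.1 * e x P.2.2) ∂((μ.prod μ).prod (μ.prod μ)) := by
    intro x
    have h2 : Y μ s Z 1 x * Y μ s Z 1 x = ∫ p : Ω × Ω, e x p.1 * e x p.2 ∂(μ.prod μ) := by
      rw [hY]
      exact (integral_prod_mul (μ := μ) (ν := μ) (e x) (e x)).symm
    have h3 : Y μ s Z 1 x ^ 4 = (Y μ s Z 1 x * Y μ s Z 1 x) * (Y μ s Z 1 x * Y μ s Z 1 x) := by
      ring
    rw [h3, h2]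
    exact (integral_prod_mul (μ := μ.prod μ) (ν := μ.prod μ) (fun p : Ω × Ω => e x p.1 * e x p.2)
      (fun p : Ω × Ω => e x p.1 * e x p.2)).symm
  simp only [h1]
  have hem : Measurable (Function.uncurry e) := by rw [he]; exact Y_meas_aux h 1
  have heb : ∀ x ω, |e x ω| ≤ exp (M * ‖x‖) := by
    intro x ω
    rw [he]
    simp only
    rw [abs_mul, abs_of_pos (exp_pos _)]
    have h3 := exp_bd h 1 x ω
    have h4 : exp (|(1:ℝ)| * M * ‖x‖) = exp (M * ‖x‖) := by rw [abs_one, one_mul]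
    rw [h4] at h3
    calc |s ω| * _ ≤ 1 * exp (M * ‖x‖) := mul_le_mul (h.hs1 _) h3 (exp_pos _).le zero_le_one
      _ = _ := one_mul _
  rw [fub ((μ.prod μ).prod (μ.prod μ)) _ ?_ 1 (4 * M) ?_]
  · refine integral_congr_ae (ae_of_all _ fun P => ?_)
    simp only
    unfold Lf
    have h2 : ∀ x, (e x P.1.1 * e x P.1.2) * (e x P.2.1 * e x P.2.2) =
        (s P.1.1 * s P.1.2 * (s P.2.1 * s P.2.2) * exp (-(‖Z P.1.1‖ ^ 2 / 2) - ‖Z P.1.2‖ ^ 2 / 2
          - ‖Z P.2.1‖ ^ 2 / 2 - ‖Z P.2.2‖ ^ 2 / 2)) *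
          exp ⟪x, (Z P.1.1 + Z P.1.2) + (Z P.2.1 + Z P.2.2)⟫ := by
      intro x
      rw [he]
      simp only
      rw [inner_add_right, inner_add_right, inner_add_right]
      rw [show ∀ a b c f a' b' c' f' : ℝ, (a * b * (c * f)) * (a' * b' * (c' * f')) =
        (a * c * (a' * c')) * ((b * f) * (b' * f')) by intros; ring]
      rw [← exp_add, ← exp_add, ← exp_add, mul_assoc (s P.1.1 * s P.1.2 * (s P.2.1 * s P.2.2)),
        ← exp_add]
      congr 2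
      ring
    simp only [h2]
    rw [integral_const_mul, integral_exp_inner, mul_assoc, ← exp_add]
    rw [show ∀ a b c f a' b' u v w t : ℝ, ((a * b * c) * (a' * b' * f)) * ((u * v) * (w * t)) =
        (a * b * (a' * b')) * ((c * f) * ((u * v) * (w * t))) by intros; ring]
    rw [← exp_add, ← exp_add, ← exp_add, ← exp_add, ← exp_add]
    congr 2
    rw [norm_add_sq_real, norm_add_sq_real (Z P.1.1), norm_add_sq_real (Z P.2.1), inner_add_left,
      inner_add_right, inner_add_right]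
    ring
  · have e1 : ∀ f : (Ω × Ω) × (Ω × Ω) → Ω, Measurable f →
        Measurable fun q : E d × ((Ω × Ω) × (Ω × Ω)) => e q.1 (f q.2) := fun f hf =>
      hem.comp (measurable_fst.prodMk (hf.comp measurable_snd))
    exact ((e1 (fun P => P.1.1) (by fun_prop)).mul (e1 (fun P => P.1.2) (by fun_prop))).mul
      ((e1 (fun P => P.2.1) (by fun_prop)).mul (e1 (fun P => P.2.2) (by fun_prop)))
  · intro x P
    rw [abs_mul, abs_mul, abs_mul]
    calc _ ≤ (exp (M * ‖x‖) * exp (M * ‖x‖)) * (exp (M * ‖x‖) * exp (M * ‖x‖)) := by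
          apply mul_le_mul
          · exact mul_le_mul (heb _ _) (heb _ _) (abs_nonneg _) (exp_pos _).le
          · exact mul_le_mul (heb _ _) (heb _ _) (abs_nonneg _) (exp_pos _).le
          · positivity
          · positivity
      _ = _ := by
          rw [← exp_add, ← exp_add, one_mul]
          congr 1
          ring

end Pool.Agent.V11114.KLH
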