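import Mathlib
import Pool.Agent.V11114.KLH3

set_option autoImplicit false

/-! The main inequality for likelihood ratios. -/

namespace Pool.Agent.V11114.KLH

open MeasureTheory Real Set Filter Topology
open scoped RealInnerProductSpace

variable {d : ℕ}

/-- truncation to the ball -/
noncomputable def tr (M : ℝ) (z : E d) : E d := if ‖z‖ ≤ M then z else 0

theorem tr_meas (M : ℝ) : Measurable (tr (d := d) M) :=
  Measurable.ite (measurableSet_le measurable_norm measurable_const) measurable_id measurable_const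

theorem tr_le {M : ℝ} (hM : 0 ≤ M) (z : E d) : ‖tr M z‖ ≤ M := by
  unfold tr
  split_ifs with h
  · exact h
  · simpa using hM

/-- the likelihood ratio of the mixture with respect to the Gaussian measure -/
noncomputable def D (M : ℝ) (η : Measure (E d)) (x : E d) : ℝ := Y η (fun _ => 1) (tr M) 1 x

theorem dat1 {M : ℝ} (hM : 0 ≤ M) (η : Measure (E d)) [IsProbabilityMeasure η] :
    Dat η (fun _ => 1) (tr M) M where
  hs := measurable_const
  hs1 := fun _ => by simp
  hZ := tr_meas M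
  hZM := tr_le hM
  fin := inferInstance

theorem A_le {Ω : Type*} [MeasurableSpace Ω] {μ : Measure Ω} {s : Ω → ℝ} {Z : Ω → E d} {M : ℝ}
    (h : Dat μ s Z M) {t : ℝ} (ht : 0 ≤ t) : A μ s Z t ≤ μ.real univ ^ 2 * exp (t * M ^ 2) := by
  haveI := h.fin
  unfold A
  have hb : ∀ p : Ω × Ω, ‖s p.1 * s p.2 * exp (t * ⟪Z p.1, Z p.2⟫)‖ ≤ exp (t * M ^ 2) := by
    intro p
    rw [norm_mul, norm_mul, Real.norm_of_nonneg (exp_pos _).le, Real.norm_eq_abs, Real.norm_eq_abs]
    calc |s p.1| * |s p.2| * exp (t * ⟪Z p.1, Z p.2⟫) ≤ 1 * 1 * exp (t * M ^ 2) := by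
          apply mul_le_mul _ _ (exp_pos _).le (by norm_num)
          · exact mul_le_mul (h.hs1 _) (h.hs1 _) (abs_nonneg _) (by norm_num)
          · apply exp_le_exp.2
            exact mul_le_mul_of_nonneg_left ((le_abs_self _).trans (inner_bd h _ _)) ht
      _ = _ := by ring
  have := norm_integral_le_of_norm_le_const (μ := μ.prod μ) (ae_of_all _ hb)
  have h2 : (μ.prod μ).real univ = μ.real univ ^ 2 := by
    rw [← univ_prod_univ, measureReal_prod_prod, sq]
  rw [h2] at this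
  calc _ ≤ ‖∫ p : Ω × Ω, s p.1 * s p.2 * exp (t * ⟪Z p.1, Z p.2⟫) ∂(μ.prod μ)‖ := le_norm_self _
    _ ≤ _ := by linarith

theorem Y_int {Ω : Type*} [MeasurableSpace Ω] {μ : Measure Ω} {s : Ω → ℝ} {Z : Ω → E d} {M : ℝ}
    (h : Dat μ s Z M) : ∫ x, Y μ s Z 1 x ∂(gam d) = ∫ ω, s ω ∂μ := by
  haveI := h.fin
  unfold Y
  rw [fub μ _ (Y_meas_aux h 1) 1 M ?_]
  · refine integral_congr_ae (ae_of_all _ fun ω => ?_)
    simp only
    have h2 : ∀ x, s ω * exp (1 * ⟪x, Z ω⟫ - 1 ^ 2 * ‖Z ω‖ ^ 2 / 2) =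
        (s ω * exp (-(‖Z ω‖ ^ 2 / 2))) * exp ⟪x, Z ω⟫ := by
      intro x
      rw [mul_assoc, ← exp_add]
      congr 2
      ring
    simp only [h2]
    rw [integral_const_mul, integral_exp_inner, mul_assoc, ← exp_add]
    simp
  · intro x ω
    rw [abs_mul, abs_of_pos (exp_pos _)]
    have h3 := exp_bd h 1 x ω
    have h4 : exp (|(1:ℝ)| * M * ‖x‖) = exp (M * ‖x‖) := by rw [abs_one, one_mul]
    rw [h4] at h3
    exact mul_le_mul (h.hs1 _) h3 (exp_pos _).le zero_le_one

theorem D_gr {M : ℝ} (hM : 0 ≤ M) (η : Measure (E d)) [IsProbabilityMeasure η] : Gr (D M η) :=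
  Y_gr (dat1 hM η) 1

theorem D_int {M : ℝ} (hM : 0 ≤ M) (η : Measure (E d)) [IsProbabilityMeasure η] :
    ∫ x, D M η x ∂(gam d) = 1 := by
  have := Y_int (dat1 hM η)
  unfold D
  rw [this]
  simp

theorem D_sq {M : ℝ} (hM : 0 ≤ M) (η : Measure (E d)) [IsProbabilityMeasure η] :
    ∫ x, D M η x ^ 2 ∂(gam d) ≤ exp (M ^ 2) := by
  have h1 := Y_mul (dat1 hM η) 1 1
  have h2 := A_le (dat1 hM η) (t := 1 * 1) (by norm_num)
  have h3 : ∫ x, D M η x ^ 2 ∂(gam d) = ∫ x, Y η (fun _ => 1) (tr M) 1 x *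
    Y η (fun _ => 1) (tr M) 1 x ∂(gam d) := integral_congr_ae (ae_of_all _ fun x => by
      simp only [D, sq])
  rw [h3, h1]
  refine h2.trans (le_of_eq ?_)
  simp

/-- Jensen -/
theorem D_lower {M : ℝ} (hM : 0 ≤ M) (η : Measure (E d)) [IsProbabilityMeasure η] :
    ∃ m : E d, ‖m‖ ≤ M ∧ ∀ x, exp (⟪x, m⟫ - M ^ 2 / 2) ≤ D M η x := by
  have hZi : Integrable (tr (d := d) M) η :=
    Integrable.of_bound (tr_meas M).aestronglyMeasurable M (ae_of_all _ (tr_le hM))
  refine ⟨∫ z, tr M z ∂η, ?_, fun x => ?_⟩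
  · have := norm_integral_le_of_norm_le_const (μ := η) (ae_of_all _ (tr_le (d := d) hM))
    simpa using this
  · have hi : Integrable (fun z => 1 * ⟪x, tr M z⟫ - 1 ^ 2 * ‖tr M z‖ ^ 2 / 2) η := by
      have h1 : Integrable (fun z => ⟪x, tr M z⟫) η := hZi.const_inner x
      have h2 : Integrable (fun z => ‖tr (d := d) M z‖ ^ 2) η := by
        refine Integrable.of_bound ((tr_meas M).norm.pow_const 2).aestronglyMeasurable (M ^ 2)
          (ae_of_all _ fun z => ?_)
        rw [Real.norm_of_nonneg (sq_nonneg _)]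
        exact pow_le_pow_left₀ (norm_nonneg _) (tr_le hM z) 2
      have h3 : Integrable (fun z => ⟪x, tr M z⟫ - ‖tr (d := d) M z‖ ^ 2 / 2) η :=
        h1.sub (h2.div_const 2)
      simpa using h3
    have hie : Integrable (fun z => exp (1 * ⟪x, tr M z⟫ - 1 ^ 2 * ‖tr M z‖ ^ 2 / 2)) η := by
      refine Integrable.of_bound ?_ (exp (|(1:ℝ)| * M * ‖x‖)) (ae_of_all _ fun z => ?_)
      · have := ((Y_meas_aux (dat1 hM η) 1).comp
          (measurable_const.prodMk measurable_id : Measurable fun z : E d => (x, z)))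
        have h3 := this.aestronglyMeasurable (μ := η)
        refine h3.congr (ae_of_all _ fun z => ?_)
        simp
      · rw [Real.norm_of_nonneg (exp_pos _).le]
        exact exp_bd (dat1 hM η) 1 x z
    have hj := ConvexOn.map_integral_le (μ := η) (g := exp) convexOn_exp
      continuous_exp.continuousOn isClosed_univ (ae_of_all _ fun _ => mem_univ _) hi hie
    have h4 : D M η x = ∫ z, exp (1 * ⟪x, tr M z⟫ - 1 ^ 2 * ‖tr M z‖ ^ 2 / 2) ∂η := by
      unfold D Y
      refine integral_congr_ae (ae_of_all _ fun z => ?_)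
      simp only [one_mul]
    rw [h4]
    refine le_trans ?_ hj
    apply exp_le_exp.2
    have h5 : ⟪x, ∫ z, tr M z ∂η⟫ = ∫ z, ⟪x, tr M z⟫ ∂η := (integral_inner hZi x).symm
    rw [h5]
    have h6 : ∫ z, ⟪x, tr M z⟫ ∂η - M ^ 2 / 2 = ∫ z, (⟪x, tr M z⟫ - M ^ 2 / 2) ∂η := by
      rw [integral_sub (hZi.const_inner x) (integrable_const _)]
      simp
    rw [h6]
    refine integral_mono ((hZi.const_inner x).sub (integrable_const _)) hi fun z => ?_
    simp only
    have := pow_le_pow_left₀ (norm_nonneg _) (tr_le hM z) 2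
    linarith

end Pool.Agent.V11114.KLH
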