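import Mathlib
import Pool.Agent.V11114.KLH4

set_option autoImplicit false

/-! The main inequality for likelihood ratios. -/

namespace Pool.Agent.V11114.KLH

open MeasureTheory Real Set Filter Topology
open scoped RealInnerProductSpace

variable {d : ℕ}

theorem Gr.sqrt {f : E d → ℝ} (hf : Gr f) : Gr fun x => √(f x) := by
  obtain ⟨hc, C, c, hC, hc0, hb⟩ := hf
  refine ⟨hc.sqrt, √C, c / 2, Real.sqrt_nonneg _, by positivity, fun x => ?_⟩
  rw [abs_of_nonneg (Real.sqrt_nonneg _)]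
  have h1 : √(f x) ≤ √(C * exp (c * ‖x‖)) := Real.sqrt_le_sqrt ((le_abs_self _).trans (hb x))
  refine h1.trans (le_of_eq ?_)
  rw [Real.sqrt_mul hC]
  congr 1
  rw [Real.sqrt_eq_iff_mul_self_eq (exp_pos _).le (exp_pos _).le, ← exp_add]
  congr 1
  ring

theorem Gr.mono {f g : E d → ℝ} (hf : Gr f) (hg : Gr g) (h : ∀ x, f x ≤ g x) :
    ∫ x, f x ∂(gam d) ≤ ∫ x, g x ∂(gam d) :=
  integral_mono hf.integrable hg.integrable h

theorem pointwise {a b : ℝ} (ha : 0 < a) (hb : 0 < b) :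
    (a - b) ^ 2 * b⁻¹ ≤ 6 * (√a - √b) ^ 2 + |a - b| ^ 3 * (b⁻¹) ^ 2 := by
  set p := √a with hp
  set q := √b with hq
  have hp0 : 0 < p := Real.sqrt_pos.2 ha
  have hq0 : 0 < q := Real.sqrt_pos.2 hb
  have ha' : a = p ^ 2 := (Real.sq_sqrt ha.le).symm
  have hb' : b = q ^ 2 := (Real.sq_sqrt hb.le).symm
  rw [ha', hb']
  obtain ⟨r, hr⟩ : ∃ r, p = r * q := ⟨p / q, by field_simp⟩
  have hr0 : 0 < r := by
    by_contra hcon
    push Not at hcon
    have : r * q ≤ 0 := mul_nonpos_of_nonpos_of_nonneg hcon hq0.le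
    linarith
  rw [hr]
  have e1 : ((r * q) ^ 2 - q ^ 2) ^ 2 * (q ^ 2)⁻¹ = q ^ 2 * ((r - 1) ^ 2 * (r + 1) ^ 2) := by
    field_simp
    ring
  have e2 : |(r * q) ^ 2 - q ^ 2| ^ 3 * ((q ^ 2)⁻¹) ^ 2 =
      q ^ 2 * (|r - 1| ^ 3 * (r + 1) ^ 3) := by
    have : (r * q) ^ 2 - q ^ 2 = q ^ 2 * ((r - 1) * (r + 1)) := by ring
    rw [this, abs_mul, abs_mul, abs_of_pos (by positivity : 0 < q ^ 2),
      abs_of_pos (by linarith : 0 < r + 1)]
    field_simp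
  have e3 : 6 * (r * q - q) ^ 2 = q ^ 2 * (6 * (r - 1) ^ 2) := by ring
  rw [e1, e2, e3, ← mul_add]
  apply mul_le_mul_of_nonneg_left _ (by positivity)
  have e4 : |r - 1| ^ 3 = (r - 1) ^ 2 * |r - 1| := by
    rw [← sq_abs (r - 1)]; ring
  rw [e4, show 6 * (r - 1) ^ 2 + (r - 1) ^ 2 * |r - 1| * (r + 1) ^ 3 =
    (r - 1) ^ 2 * (6 + |r - 1| * (r + 1) ^ 3) by ring]
  apply mul_le_mul_of_nonneg_left _ (sq_nonneg _)
  by_cases h : (r + 1) ^ 2 ≤ 6
  · have : 0 ≤ |r - 1| * (r + 1) ^ 3 := by positivity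
    linarith
  · push Not at h
    have h1 : 2.4 < r + 1 := by
      by_contra hcon
      push Not at hcon
      nlinarith
    have h2 : |r - 1| = r - 1 := abs_of_pos (by linarith)
    rw [h2]
    have h3 : 1 - 6 / (r + 1) ^ 2 ≤ (r - 1) * (r + 1) := by
      have : 0 < 6 / (r + 1) ^ 2 := by positivity
      nlinarith
    have h4 : (r + 1) ^ 2 * (1 - 6 / (r + 1) ^ 2) ≤ (r + 1) ^ 2 * ((r - 1) * (r + 1)) :=
      mul_le_mul_of_nonneg_left h3 (by positivity)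
    have h5 : (r + 1) ^ 2 * (1 - 6 / (r + 1) ^ 2) = (r + 1) ^ 2 - 6 := by
      field_simp
    nlinarith

/-- the data needed for the comparison -/
structure Cmp (P Q : E d → ℝ) (M a0 a1 B : ℝ) : Prop where
  gP : Gr P
  gQ : Gr Q
  gW : Gr fun x => (Q x)⁻¹
  pP : ∀ x, 0 < P x
  pQ : ∀ x, 0 < Q x
  ha0 : ∫ x, (P x - Q x) ^ 2 ∂(gam d) = a0
  ha1 : 0 ≤ a1
  h4 : ∫ x, (P x - Q x) ^ 4 ∂(gam d) ≤ a1 ^ 2
  hB : a1 ^ 10 ≤ a0 ^ 9 * B
  hBpos : 0 < B
  ha1u : a1 ≤ 4 * exp (3 * M ^ 2)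
  hP2 : ∫ x, P x ^ 2 ∂(gam d) ≤ exp (M ^ 2)
  hQ2 : ∫ x, Q x ^ 2 ∂(gam d) ≤ exp (M ^ 2)
  hW2 : ∫ x, ((Q x)⁻¹) ^ 2 ∂(gam d) ≤ exp (3 * M ^ 2)
  hW8 : ∫ x, ((Q x)⁻¹) ^ 8 ∂(gam d) ≤ exp (36 * M ^ 2)

/-- the constant -/
noncomputable def eps (M B : ℝ) : ℝ := 1 / (16 * exp (36 * M ^ 2) * exp (2 * M ^ 2) * B)

theorem main_ineq {P Q : E d → ℝ} {M a0 a1 B : ℝ} (h : Cmp P Q M a0 a1 B) :
    ∫ x, (P x - Q x) ^ 2 * (Q x)⁻¹ ∂(gam d) ≤
      (12 + 64 * exp (8 * M ^ 2) / eps M B ^ 2) * ∫ x, (√(P x) - √(Q x)) ^ 2 ∂(gam d) := by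
  have gX : Gr fun x => P x - Q x := h.gP.sub h.gQ
  have gX2 : Gr fun x => (P x - Q x) ^ 2 := gX.pow 2
  have gsP : Gr fun x => √(P x) := h.gP.sqrt
  have gsQ : Gr fun x => √(Q x) := h.gQ.sqrt
  have gsW : Gr fun x => √((Q x)⁻¹) := h.gW.sqrt
  have gh : Gr fun x => √(P x) - √(Q x) := gsP.sub gsQ
  have gk : Gr fun x => √(P x) + √(Q x) := gsP.add gsQ
  set x0 := ∫ x, (P x - Q x) ^ 2 * (Q x)⁻¹ ∂(gam d) with hx0
  set H := ∫ x, (√(P x) - √(Q x)) ^ 2 ∂(gam d) with hH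
  set X4 := ∫ x, (P x - Q x) ^ 4 ∂(gam d) with hX4
  have hX4' : ∫ x, ((P x - Q x) ^ 2) ^ 2 ∂(gam d) = X4 :=
    integral_congr_ae (ae_of_all _ fun x => by simp only; ring)
  have hx00 : 0 ≤ x0 := integral_nonneg fun x => mul_nonneg (sq_nonneg _) (inv_pos.2 (h.pQ x)).le
  have hH0 : 0 ≤ H := integral_nonneg fun x => sq_nonneg _
  have hX40 : 0 ≤ X4 := integral_nonneg fun x => by positivity
  have ha00 : 0 ≤ a0 := by rw [← h.ha0]; exact integral_nonneg fun x => sq_nonneg _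
  have ha1 := h.ha1
  -- (1) a0² ≤ x0 a1 e^{M²/2}
  have i1 : a0 ^ 2 ≤ x0 * ∫ x, (P x - Q x) ^ 2 * Q x ∂(gam d) := by
    have := cs (f := fun x => (P x - Q x) * √((Q x)⁻¹)) (g := fun x => (P x - Q x) * √(Q x))
      (gX.mul gsW) (gX.mul gsQ)
    have e1 : ∀ x, (P x - Q x) * √((Q x)⁻¹) * ((P x - Q x) * √(Q x)) = (P x - Q x) ^ 2 := by
      intro x
      have h1 := h.pQ x
      have h2 : √((Q x)⁻¹) * √(Q x) = 1 := by
        rw [← Real.sqrt_mul (inv_pos.2 h1).le, inv_mul_cancel₀ h1.ne', Real.sqrt_one]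
      calc _ = (P x - Q x) ^ 2 * (√((Q x)⁻¹) * √(Q x)) := by ring
        _ = _ := by rw [h2, mul_one]
    have e2 : ∀ x, ((P x - Q x) * √((Q x)⁻¹)) ^ 2 = (P x - Q x) ^ 2 * (Q x)⁻¹ := by
      intro x
      rw [mul_pow, Real.sq_sqrt (inv_pos.2 (h.pQ x)).le]
    have e3 : ∀ x, ((P x - Q x) * √(Q x)) ^ 2 = (P x - Q x) ^ 2 * Q x := by
      intro x
      rw [mul_pow, Real.sq_sqrt (h.pQ x).le]
    simp only [e1, e2, e3] at this
    rwa [h.ha0] at this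
  have i2 : (∫ x, (P x - Q x) ^ 2 * Q x ∂(gam d)) ^ 2 ≤ a1 ^ 2 * exp (M ^ 2) := by
    have := cs (f := fun x => (P x - Q x) ^ 2) (g := Q) gX2 h.gQ
    rw [hX4'] at this
    exact this.trans (mul_le_mul h.h4 h.hQ2 (integral_nonneg fun x => sq_nonneg _) (by positivity))
  have sqe : ∀ t : ℝ, exp t = exp (t / 2) ^ 2 := fun t => by
    rw [← exp_nat_mul]; congr 1; push_cast; ring
  have i3 : ∫ x, (P x - Q x) ^ 2 * Q x ∂(gam d) ≤ a1 * exp (M ^ 2 / 2) := by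
    rw [sqe (M ^ 2), ← mul_pow] at i2
    exact (le_abs_self _).trans (abs_le_of_sq_le_sq i2 (by positivity))
  have i4 : a0 ^ 2 ≤ x0 * (a1 * exp (M ^ 2 / 2)) :=
    i1.trans (mul_le_mul_of_nonneg_left i3 hx00)
  -- (2) T
  set T := ∫ x, |P x - Q x| ^ 3 * ((Q x)⁻¹) ^ 2 ∂(gam d) with hT
  have hT0 : 0 ≤ T := integral_nonneg fun x => by positivity
  have j1 : T ^ 2 ≤ X4 * ∫ x, (P x - Q x) ^ 2 * ((Q x)⁻¹) ^ 4 ∂(gam d) := by
    have := cs (f := fun x => (P x - Q x) ^ 2) (g := fun x => |P x - Q x| * ((Q x)⁻¹) ^ 2)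
      gX2 (gX.abs.mul (h.gW.pow 2))
    have e1 : ∀ x, (P x - Q x) ^ 2 * (|P x - Q x| * ((Q x)⁻¹) ^ 2) =
        |P x - Q x| ^ 3 * ((Q x)⁻¹) ^ 2 := by
      intro x
      rw [← sq_abs (P x - Q x)]; ring
    have e2 : ∀ x, (|P x - Q x| * ((Q x)⁻¹) ^ 2) ^ 2 = (P x - Q x) ^ 2 * ((Q x)⁻¹) ^ 4 := by
      intro x
      rw [mul_pow, sq_abs]; ring
    simp only [e1, e2] at this
    rwa [hX4'] at this
  have j2 : (∫ x, (P x - Q x) ^ 2 * ((Q x)⁻¹) ^ 4 ∂(gam d)) ^ 2 ≤ X4 * exp (36 * M ^ 2) := by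
    have := cs (f := fun x => (P x - Q x) ^ 2) (g := fun x => ((Q x)⁻¹) ^ 4) gX2 (h.gW.pow 4)
    rw [hX4'] at this
    have e1 : ∫ x, (((Q x)⁻¹) ^ 4) ^ 2 ∂(gam d) = ∫ x, ((Q x)⁻¹) ^ 8 ∂(gam d) :=
      integral_congr_ae (ae_of_all _ fun x => by simp only; ring)
    rw [e1] at this
    exact this.trans (mul_le_mul_of_nonneg_left h.hW8 hX40)
  have j3 : T ^ 4 ≤ a1 ^ 6 * exp (36 * M ^ 2) := by
    have k1 : (T ^ 2) ^ 2 ≤ (X4 * ∫ x, (P x - Q x) ^ 2 * ((Q x)⁻¹) ^ 4 ∂(gam d)) ^ 2 :=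
      pow_le_pow_left₀ (sq_nonneg _) j1 2
    calc T ^ 4 = (T ^ 2) ^ 2 := by ring
      _ ≤ _ := k1
      _ = X4 ^ 2 * (∫ x, (P x - Q x) ^ 2 * ((Q x)⁻¹) ^ 4 ∂(gam d)) ^ 2 := by ring
      _ ≤ X4 ^ 2 * (X4 * exp (36 * M ^ 2)) := mul_le_mul_of_nonneg_left j2 (sq_nonneg _)
      _ = X4 ^ 3 * exp (36 * M ^ 2) := by ring
      _ ≤ (a1 ^ 2) ^ 3 * exp (36 * M ^ 2) := by
          apply mul_le_mul_of_nonneg_right _ (exp_pos _).le
          exact pow_le_pow_left₀ hX40 h.h4 3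
      _ = _ := by ring
  -- (3) x0 ≤ 6 H + T
  have k1 : x0 ≤ 6 * H + T := by
    have : x0 ≤ ∫ x, (6 * (√(P x) - √(Q x)) ^ 2 + |P x - Q x| ^ 3 * ((Q x)⁻¹) ^ 2) ∂(gam d) :=
      Gr.mono (gX2.mul h.gW) (((gh.pow 2).const_mul 6).add ((gX.abs.pow 3).mul (h.gW.pow 2)))
        fun x => pointwise (h.pP x) (h.pQ x)
    rw [integral_add ((gh.pow 2).const_mul 6).integrable
      ((gX.abs.pow 3).mul (h.gW.pow 2)).integrable, integral_const_mul] at this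
    exact this
  -- (4) x0² ≤ a1² e^{3M²}
  have l1 : x0 ≤ a1 * exp (3 * M ^ 2 / 2) := by
    have := cs (f := fun x => (P x - Q x) ^ 2) (g := fun x => (Q x)⁻¹) gX2 h.gW
    rw [hX4'] at this
    have l2 : x0 ^ 2 ≤ a1 ^ 2 * exp (3 * M ^ 2) :=
      this.trans (mul_le_mul h.h4 h.hW2 (integral_nonneg fun x => sq_nonneg _) (by positivity))
    rw [sqe (3 * M ^ 2), ← mul_pow] at l2
    exact (le_abs_self _).trans (abs_le_of_sq_le_sq l2 (by positivity))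
  -- (5) a0² ≤ 4 a1 e^{M²/2} H
  have m1 : a0 ^ 2 ≤ H * ∫ x, (P x - Q x) ^ 2 * (√(P x) + √(Q x)) ^ 2 ∂(gam d) := by
    have := cs (f := fun x => √(P x) - √(Q x)) (g := fun x => (P x - Q x) * (√(P x) + √(Q x)))
      gh (gX.mul gk)
    have e1 : ∀ x, (√(P x) - √(Q x)) * ((P x - Q x) * (√(P x) + √(Q x))) = (P x - Q x) ^ 2 := by
      intro x
      have h1 : (√(P x) - √(Q x)) * (√(P x) + √(Q x)) = P x - Q x := by
        have e1 := Real.sq_sqrt (h.pP x).le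
        have e2 := Real.sq_sqrt (h.pQ x).le
        calc _ = √(P x) ^ 2 - √(Q x) ^ 2 := by ring
          _ = _ := by rw [e1, e2]
      calc _ = (P x - Q x) * ((√(P x) - √(Q x)) * (√(P x) + √(Q x))) := by ring
        _ = _ := by rw [h1]; ring
    have e2 : ∀ x, ((P x - Q x) * (√(P x) + √(Q x))) ^ 2 =
        (P x - Q x) ^ 2 * (√(P x) + √(Q x)) ^ 2 := fun x => mul_pow _ _ _
    simp only [e1, e2] at this
    rwa [h.ha0] at this
  have gS : Gr fun x => P x + Q x := h.gP.add h.gQ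
  have m2 : ∫ x, (P x - Q x) ^ 2 * (√(P x) + √(Q x)) ^ 2 ∂(gam d) ≤
      2 * ∫ x, (P x - Q x) ^ 2 * (P x + Q x) ∂(gam d) := by
    rw [← integral_const_mul]
    refine Gr.mono (gX2.mul (gk.pow 2)) ((gX2.mul gS).const_mul 2) fun x => ?_
    have e1 := Real.sq_sqrt (h.pP x).le
    have e2 := Real.sq_sqrt (h.pQ x).le
    have e3 : (√(P x) + √(Q x)) ^ 2 ≤ 2 * (P x + Q x) := by
      nlinarith [sq_nonneg (√(P x) - √(Q x))]
    calc _ ≤ (P x - Q x) ^ 2 * (2 * (P x + Q x)) := mul_le_mul_of_nonneg_left e3 (sq_nonneg _)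
      _ = _ := by ring
  have m3 : ∫ x, (P x + Q x) ^ 2 ∂(gam d) ≤ 4 * exp (M ^ 2) := by
    have : ∫ x, (P x + Q x) ^ 2 ∂(gam d) ≤ ∫ x, (2 * P x ^ 2 + 2 * Q x ^ 2) ∂(gam d) :=
      Gr.mono (gS.pow 2) (((h.gP.pow 2).const_mul 2).add ((h.gQ.pow 2).const_mul 2)) fun x => by
        nlinarith [sq_nonneg (P x - Q x)]
    rw [integral_add ((h.gP.pow 2).const_mul 2).integrable ((h.gQ.pow 2).const_mul 2).integrable,
      integral_const_mul, integral_const_mul] at this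
    have := h.hP2
    have := h.hQ2
    linarith
  have m4 : ∫ x, (P x - Q x) ^ 2 * (P x + Q x) ∂(gam d) ≤ a1 * (2 * exp (M ^ 2 / 2)) := by
    have := cs (f := fun x => (P x - Q x) ^ 2) (g := fun x => P x + Q x) gX2 gS
    rw [hX4'] at this
    have l2 := this.trans (mul_le_mul h.h4 m3 (integral_nonneg fun x => sq_nonneg _) (by positivity))
    rw [sqe (M ^ 2), show a1 ^ 2 * (4 * exp (M ^ 2 / 2) ^ 2) = (a1 * (2 * exp (M ^ 2 / 2))) ^ 2 by
      ring] at l2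
    exact (le_abs_self _).trans (abs_le_of_sq_le_sq l2 (by positivity))
  have m5 : a0 ^ 2 ≤ H * (4 * a1 * exp (M ^ 2 / 2)) := by
    refine m1.trans (mul_le_mul_of_nonneg_left ?_ hH0)
    linarith
  -- conclusion
  have heps : 0 < eps M B := by
    have := h.hBpos
    unfold eps
    positivity
  by_cases hc : a0 ≤ eps M B
  · have hT2 : T ≤ x0 / 2 := by
      have key : T ^ 4 ≤ (x0 / 2) ^ 4 := by
        rcases ha1.eq_or_lt with h0 | h0
        · rw [← h0] at j3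
          have : T ^ 4 ≤ 0 := by simpa using j3
          exact this.trans (by positivity)
        · -- a1 > 0
          have n1 : a0 ^ 8 ≤ x0 ^ 4 * (a1 ^ 4 * exp (2 * M ^ 2)) := by
            have := pow_le_pow_left₀ (sq_nonneg _) i4 4
            calc a0 ^ 8 = (a0 ^ 2) ^ 4 := by ring
              _ ≤ _ := this
              _ = x0 ^ 4 * (a1 ^ 4 * exp (M ^ 2 / 2) ^ 4) := by ring
              _ = _ := by
                rw [← exp_nat_mul]
                congr 3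
                push_cast
                ring
          have n2 : a0 * (16 * exp (36 * M ^ 2) * exp (2 * M ^ 2) * B) ≤ 1 := by
            have hp : 0 < 16 * exp (36 * M ^ 2) * exp (2 * M ^ 2) * B := by
              have := h.hBpos; positivity
            calc _ ≤ eps M B * (16 * exp (36 * M ^ 2) * exp (2 * M ^ 2) * B) :=
                  mul_le_mul_of_nonneg_right hc hp.le
              _ = 1 := by
                have hB0 := h.hBpos.ne'
                unfold eps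
                field_simp
          have n3 : 16 * exp (2 * M ^ 2) * a1 ^ 4 * T ^ 4 ≤ a0 ^ 8 := by
            calc 16 * exp (2 * M ^ 2) * a1 ^ 4 * T ^ 4
                ≤ 16 * exp (2 * M ^ 2) * a1 ^ 4 * (a1 ^ 6 * exp (36 * M ^ 2)) :=
                  mul_le_mul_of_nonneg_left j3 (by positivity)
              _ = (16 * exp (36 * M ^ 2) * exp (2 * M ^ 2)) * a1 ^ 10 := by ring
              _ ≤ (16 * exp (36 * M ^ 2) * exp (2 * M ^ 2)) * (a0 ^ 9 * B) :=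
                  mul_le_mul_of_nonneg_left h.hB (by positivity)
              _ = a0 ^ 8 * (a0 * (16 * exp (36 * M ^ 2) * exp (2 * M ^ 2) * B)) := by ring
              _ ≤ a0 ^ 8 * 1 := mul_le_mul_of_nonneg_left n2 (by positivity)
              _ = a0 ^ 8 := mul_one _
          have n4 : (exp (2 * M ^ 2) * a1 ^ 4) * (16 * T ^ 4) ≤ (exp (2 * M ^ 2) * a1 ^ 4) * x0 ^ 4 := by
            linarith
          have n5 := le_of_mul_le_mul_left n4 (by positivity)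
          calc T ^ 4 ≤ x0 ^ 4 / 16 := by linarith
            _ = _ := by ring
      exact (pow_le_pow_iff_left₀ hT0 (by positivity) (by norm_num : (4:ℕ) ≠ 0)).1 key
    have hx12 : x0 ≤ 12 * H := by linarith
    have : 0 ≤ 64 * exp (8 * M ^ 2) / eps M B ^ 2 * H := by positivity
    linarith
  · push Not at hc
    -- a0 > eps
    have ha0p : 0 < a0 := heps.trans hc
    have ha1p : 0 < a1 := by
      rcases ha1.eq_or_lt with h0 | h0
      · rw [← h0] at i4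
        have : a0 ^ 2 ≤ 0 := by simpa using i4
        have : 0 < a0 ^ 2 := by positivity
        linarith
      · exact h0
    have hx : x0 * eps M B ^ 2 ≤ 64 * exp (8 * M ^ 2) * H := by
      have o1 : eps M B ^ 2 ≤ a0 ^ 2 := pow_le_pow_left₀ heps.le hc.le 2
      have o2 : a1 ^ 2 ≤ (4 * exp (3 * M ^ 2)) ^ 2 := pow_le_pow_left₀ ha1 h.ha1u 2
      calc x0 * eps M B ^ 2 ≤ (a1 * exp (3 * M ^ 2 / 2)) * (H * (4 * a1 * exp (M ^ 2 / 2))) :=
            mul_le_mul l1 (o1.trans m5) (sq_nonneg _) (by positivity)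
        _ = (4 * H * (exp (3 * M ^ 2 / 2) * exp (M ^ 2 / 2))) * a1 ^ 2 := by ring
        _ ≤ (4 * H * (exp (3 * M ^ 2 / 2) * exp (M ^ 2 / 2))) * (4 * exp (3 * M ^ 2)) ^ 2 :=
            mul_le_mul_of_nonneg_left o2 (by positivity)
        _ = 64 * ((exp (3 * M ^ 2 / 2) * exp (M ^ 2 / 2)) * (exp (3 * M ^ 2)) ^ 2) * H := by ring
        _ = 64 * exp (8 * M ^ 2) * H := by
            rw [← exp_nat_mul, ← exp_add, ← exp_add]
            congr 3
            push_cast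
            ring
    have hx2 : x0 ≤ 64 * exp (8 * M ^ 2) / eps M B ^ 2 * H := by
      rw [div_mul_eq_mul_div, le_div_iff₀ (by positivity)]
      exact hx
    linarith

end Pool.Agent.V11114.KLH
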