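import Mathlib
import Pool.Agent.Helper209.CX.K04

set_option autoImplicit false

namespace Pool.Agent.V11114.Cost

open Matrix Finset

/-- Schur triangularisation -/
theorem schur {n : ℕ} (K : Matrix (Fin n) (Fin n) ℂ) :
    ∃ U : Matrix (Fin n) (Fin n) ℂ, Uᴴ * U = 1 ∧ U * Uᴴ = 1 ∧
      (∀ i j, j < i → (Uᴴ * K * U) i j = 0) ∧ ∀ i, (Uᴴ * K * U) i i ∈ spectrum ℂ K := by
  obtain ⟨b, -, ho, htri, -, heig⟩ := Pool.Agent.Helper209.CX.K04.d4_schur_aux (fun _ => True) n
    (EuclideanSpace ℂ (Fin n)) (by simp) (Matrix.toEuclideanLin K)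
  let U : Matrix (Fin n) (Fin n) ℂ := fun x g => b g x
  have hUU : Uᴴ * U = 1 := by
    ext g g'
    rw [Matrix.mul_apply, Matrix.one_apply]
    have := orthonormal_iff_ite.1 ho g g'
    rw [← this, PiLp.inner_apply]
    exact Finset.sum_congr rfl fun x _ => mul_comm _ _
  have hUU' : U * Uᴴ = 1 := mul_eq_one_comm.1 hUU
  have hM : ∀ g g', (Uᴴ * K * U) g g' = inner ℂ (b g) (Matrix.toEuclideanLin K (b g')) := by
    intro g g'
    simp only [Matrix.mul_apply, PiLp.inner_apply, Matrix.toLpLin_apply]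
    simp only [Matrix.mulVec, dotProduct, Finset.sum_mul]
    rw [Finset.sum_comm]
    refine Finset.sum_congr rfl fun x _ => ?_
    show _ = (∑ y, K x y * (b g') y) * (starRingEnd ℂ) (b g x)
    rw [Finset.sum_mul]
    refine Finset.sum_congr rfl fun y _ => ?_
    show (starRingEnd ℂ) (b g x) * K x y * (b g' y) = _
    ring
  refine ⟨U, hUU, hUU', fun i j hij => by rw [hM]; exact htri i j hij, fun i => ?_⟩
  rw [hM]
  obtain ⟨w, hw0, hw⟩ := heig i
  rw [← Matrix.spectrum_toEuclideanLin]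
  exact Module.End.hasEigenvalue_of_hasEigenvector (x := w)
    ⟨Module.End.mem_eigenspace_iff.mpr hw, hw0⟩ |>.mem_spectrum

/-- squared Frobenius norm -/
noncomputable def fro {n : ℕ} (Z : Matrix (Fin n) (Fin n) ℂ) : ℝ := ∑ i, ∑ j, Complex.normSq (Z i j)

theorem fro_nonneg {n : ℕ} (Z : Matrix (Fin n) (Fin n) ℂ) : 0 ≤ fro Z :=
  Finset.sum_nonneg fun _ _ => Finset.sum_nonneg fun _ _ => Complex.normSq_nonneg _

/-- quadratic form estimate for an almost diagonal matrix -/
theorem quad {n : ℕ} (P : Matrix (Fin n) (Fin n) ℂ) (δ η : ℝ) (hη : 0 ≤ η)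
    (hdiag : ∀ i, (P i i).re ≤ -δ) (hoff : ∀ i j, i ≠ j → ‖P i j‖ ≤ η) (z : Fin n → ℂ) :
    (∑ i, star (z i) * (∑ j, P i j * z j)).re
      ≤ (-δ + n * η) * ∑ i, Complex.normSq (z i) := by
  have h1 : ∀ i j, (star (z i) * (P i j * z j)).re
      ≤ (if i = j then -δ * Complex.normSq (z i) else 0) + η * (‖z i‖ * ‖z j‖) := by
    intro i j
    split_ifs with h
    · subst h
      have e1 : (star (z i) * (P i i * z i)).re = (P i i).re * Complex.normSq (z i) := by
        have : star (z i) * (P i i * z i) = P i i * (Complex.normSq (z i) : ℂ) := by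
          rw [Complex.normSq_eq_conj_mul_self]
          simp only [Complex.star_def]
          ring
        rw [this, Complex.re_mul_ofReal]
      rw [e1]
      have e2 : (P i i).re * Complex.normSq (z i) ≤ -δ * Complex.normSq (z i) :=
        mul_le_mul_of_nonneg_right (hdiag i) (Complex.normSq_nonneg _)
      have e3 : 0 ≤ η * (‖z i‖ * ‖z i‖) := by positivity
      linarith
    · rw [zero_add]
      refine le_trans (Complex.re_le_norm _) ?_
      rw [norm_mul, norm_mul, norm_star]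
      have := hoff i j h
      calc ‖z i‖ * (‖P i j‖ * ‖z j‖) = ‖P i j‖ * (‖z i‖ * ‖z j‖) := by ring
        _ ≤ η * (‖z i‖ * ‖z j‖) := by gcongr
  have h2 : (∑ i, star (z i) * (∑ j, P i j * z j)).re
      = ∑ i, ∑ j, (star (z i) * (P i j * z j)).re := by
    rw [Complex.re_sum]
    refine Finset.sum_congr rfl fun i _ => ?_
    rw [Finset.mul_sum, Complex.re_sum]
  rw [h2]
  have h3 : ∑ i, ∑ j, (star (z i) * (P i j * z j)).re
      ≤ ∑ i, ∑ j, ((if i = j then -δ * Complex.normSq (z i) else 0) + η * (‖z i‖ * ‖z j‖)) :=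
    Finset.sum_le_sum fun i _ => Finset.sum_le_sum fun j _ => h1 i j
  refine le_trans h3 ?_
  have h4 : ∑ i, ∑ j, ((if i = j then -δ * Complex.normSq (z i) else 0) + η * (‖z i‖ * ‖z j‖))
      = -δ * ∑ i, Complex.normSq (z i) + η * (∑ i, ‖z i‖) ^ 2 := by
    simp only [Finset.sum_add_distrib]
    congr 1
    · simp [Finset.mul_sum]
    · rw [sq, Finset.sum_mul_sum, Finset.mul_sum]
      exact Finset.sum_congr rfl fun i _ => by rw [Finset.mul_sum]
  rw [h4]
  have h5 : (∑ i, ‖z i‖) ^ 2 ≤ n * ∑ i, ‖z i‖ ^ 2 := by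
    have := sq_sum_le_card_mul_sum_sq (s := (Finset.univ : Finset (Fin n))) (f := fun i => ‖z i‖)
    simpa using this
  have h6 : ∑ i, ‖z i‖ ^ 2 = ∑ i, Complex.normSq (z i) :=
    Finset.sum_congr rfl fun i _ => by rw [Complex.normSq_eq_norm_sq]
  rw [h6] at h5
  have h7 : η * (∑ i, ‖z i‖) ^ 2 ≤ η * (n * ∑ i, Complex.normSq (z i)) := by gcongr
  linarith

/-- Lyapunov function of a stable matrix -/
theorem lyap {n : ℕ} (M : Matrix (Fin n) (Fin n) ℂ) (hM : ∀ l ∈ spectrum ℂ M, l.re < 0) :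
    ∃ (V W : Matrix (Fin n) (Fin n) ℂ) (δ : ℝ), V * W = 1 ∧ W * V = 1 ∧ 0 < δ ∧
      ∀ z : Fin n → ℂ, (∑ i, star (z i) * (∑ j, (V * M * W) i j * z j)).re
        ≤ -δ * ∑ i, Complex.normSq (z i) := by
  obtain ⟨U, hU1, hU2, htri, hdiag⟩ := schur M
  set S := Uᴴ * M * U with hS
  -- uniform gap
  obtain ⟨δ, hδ, hgap⟩ : ∃ δ : ℝ, 0 < δ ∧ ∀ i, (S i i).re ≤ -(2 * δ) := by
    rcases isEmpty_or_nonempty (Fin n) with h | h
    · exact ⟨1, one_pos, fun i => h.elim i⟩
    · obtain ⟨i₀, hi₀⟩ := Finite.exists_max (fun i => (S i i).re)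
      refine ⟨-(S i₀ i₀).re / 2, ?_, fun i => ?_⟩
      · have := hM _ (hdiag i₀)
        linarith
      · have := hi₀ i
        linarith
  obtain ⟨C, hC0, hC⟩ : ∃ C : ℝ, 0 ≤ C ∧ ∀ i j, ‖S i j‖ ≤ C := by
    refine ⟨∑ i, ∑ j, ‖S i j‖, by positivity, fun i j => ?_⟩
    refine le_trans ?_ (Finset.single_le_sum (f := fun i => ∑ j, ‖S i j‖)
      (fun _ _ => by positivity) (Finset.mem_univ i))
    exact Finset.single_le_sum (f := fun j => ‖S i j‖) (fun _ _ => norm_nonneg _)
      (Finset.mem_univ j)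
  obtain ⟨κ, hκ1, hκ⟩ : ∃ κ : ℝ, 1 ≤ κ ∧ n * (C / κ) ≤ δ := by
    refine ⟨1 + n * C / δ, ?_, ?_⟩
    · have : 0 ≤ n * C / δ := by positivity
      linarith
    · have h0 : 0 < 1 + n * C / δ := by positivity
      rw [mul_div_assoc', div_le_iff₀ h0]
      have : δ * (1 + n * C / δ) = δ + n * C := by field_simp
      rw [this]; linarith
  have hκ0 : 0 < κ := by linarith
  set D : Matrix (Fin n) (Fin n) ℂ := Matrix.diagonal fun i => (κ : ℂ) ^ i.val with hD
  set D' : Matrix (Fin n) (Fin n) ℂ := Matrix.diagonal fun i => ((κ : ℂ) ^ i.val)⁻¹ with hD'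
  have hκc : (κ : ℂ) ≠ 0 := by exact_mod_cast hκ0.ne'
  have hDD : D * D' = 1 := by
    rw [hD, hD', Matrix.diagonal_mul_diagonal, ← Matrix.diagonal_one]
    congr 1
    funext i
    exact mul_inv_cancel₀ (pow_ne_zero _ hκc)
  have hDD' : D' * D = 1 := mul_eq_one_comm.mp hDD
  refine ⟨D * Uᴴ, U * D', δ, ?_, ?_, hδ, ?_⟩
  · calc D * Uᴴ * (U * D') = D * (Uᴴ * U) * D' := by simp only [Matrix.mul_assoc]
      _ = 1 := by rw [hU1, Matrix.mul_one, hDD]
  · calc U * D' * (D * Uᴴ) = U * (D' * D) * Uᴴ := by simp only [Matrix.mul_assoc]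
      _ = 1 := by rw [hDD', Matrix.mul_one, hU2]
  · intro z
    have hP : D * Uᴴ * M * (U * D') = D * S * D' := by
      rw [hS]; simp only [Matrix.mul_assoc]
    rw [hP]
    have hent : ∀ i j, (D * S * D') i j = (κ : ℂ) ^ i.val * S i j * ((κ : ℂ) ^ j.val)⁻¹ := by
      intro i j
      rw [hD', Matrix.mul_diagonal, hD, Matrix.diagonal_mul]
    refine le_trans (quad (D * S * D') (2 * δ) (C / κ) (by positivity) ?_ ?_ z) ?_
    · intro i
      rw [hent]
      have : (κ : ℂ) ^ i.val * S i i * ((κ : ℂ) ^ i.val)⁻¹ = S i i := by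
        have := pow_ne_zero i.val hκc
        field_simp
      rw [this]
      exact hgap i
    · intro i j hij
      rw [hent]
      rcases lt_or_gt_of_ne hij with h | h
      · rw [norm_mul, norm_mul, norm_inv, norm_pow, norm_pow, Complex.norm_real,
          Real.norm_of_nonneg hκ0.le]
        obtain ⟨d, hd⟩ : ∃ d, j.val = i.val + 1 + d := ⟨j.val - (i.val + 1), by
          have : i.val < j.val := h
          omega⟩
        rw [hd, pow_add, pow_add, pow_one]
        have h1 : 0 < κ ^ i.val := by positivity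
        have h2 : 1 ≤ κ ^ d := one_le_pow₀ hκ1
        have e : κ ^ i.val * ‖S i j‖ * (κ ^ i.val * κ * κ ^ d)⁻¹ = ‖S i j‖ / κ / κ ^ d := by
          field_simp
        rw [e]
        calc ‖S i j‖ / κ / κ ^ d ≤ ‖S i j‖ / κ / 1 := by gcongr
          _ = ‖S i j‖ / κ := div_one _
          _ ≤ C / κ := by gcongr; exact hC i j
      · rw [htri i j h]
        simp only [mul_zero, zero_mul, norm_zero]
        positivity
    · have h0 : 0 ≤ ∑ i, Complex.normSq (z i) := Finset.sum_nonneg fun _ _ => Complex.normSq_nonneg _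
      have h1 : -(2 * δ) + n * (C / κ) ≤ -δ := by linarith
      exact mul_le_mul_of_nonneg_right h1 h0

end Pool.Agent.V11114.Cost
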