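import Mathlib
import Pool.Agent.V11114.CostA

set_option autoImplicit false

namespace Pool.Agent.V11114.Cost

open Matrix Finset MeasureTheory Filter Topology NormedSpace
open scoped Matrix.Norms.L2Operator

variable {n : ℕ}

theorem norm_le_fro : ∃ C : ℝ, 0 ≤ C ∧ ∀ Z : Matrix (Fin n) (Fin n) ℂ, ‖Z‖ ^ 2 ≤ C * fro Z := by
  obtain ⟨c, hc0, hc⟩ : ∃ c : ℝ, 0 ≤ c ∧ ∀ Z : Matrix (Fin n) (Fin n) ℂ, ‖Z‖ ≤ c * √(fro Z) := by
    refine ⟨∑ i, ∑ j, ‖(Matrix.single i j 1 : Matrix (Fin n) (Fin n) ℂ)‖, by positivity,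
      fun Z => ?_⟩
    have h1 : ∀ i j, ‖Z i j‖ ≤ √(fro Z) := by
      intro i j
      apply Real.le_sqrt_of_sq_le
      rw [← Complex.normSq_eq_norm_sq]
      unfold fro
      refine le_trans ?_ (Finset.single_le_sum (f := fun i => ∑ j, Complex.normSq (Z i j))
        (fun _ _ => Finset.sum_nonneg fun _ _ => Complex.normSq_nonneg _) (Finset.mem_univ i))
      exact Finset.single_le_sum (f := fun j => Complex.normSq (Z i j))
        (fun _ _ => Complex.normSq_nonneg _) (Finset.mem_univ j)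
    conv_lhs => rw [Matrix.matrix_eq_sum_single Z]
    rw [Finset.sum_mul]
    refine le_trans (norm_sum_le _ _) (Finset.sum_le_sum fun i _ => ?_)
    rw [Finset.sum_mul]
    refine le_trans (norm_sum_le _ _) (Finset.sum_le_sum fun j _ => ?_)
    have : (Matrix.single i j (Z i j) : Matrix (Fin n) (Fin n) ℂ)
        = Z i j • Matrix.single i j 1 := by
      rw [Matrix.smul_single]; simp
    rw [this, norm_smul, mul_comm]
    gcongr
    exact h1 i j
  refine ⟨c ^ 2, by positivity, fun Z => ?_⟩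
  have h := hc Z
  calc ‖Z‖ ^ 2 ≤ (c * √(fro Z)) ^ 2 := by gcongr
    _ = c ^ 2 * fro Z := by rw [mul_pow, Real.sq_sqrt (fro_nonneg Z)]

theorem entry_deriv (Z : ℝ → Matrix (Fin n) (Fin n) ℂ) (Z' : Matrix (Fin n) (Fin n) ℂ) (t : ℝ)
    (h : HasDerivAt Z Z' t) (i j : Fin n) : HasDerivAt (fun s => Z s i j) (Z' i j) t := by
  let L : Matrix (Fin n) (Fin n) ℂ →L[ℝ] ℂ :=
    LinearMap.toContinuousLinearMap (Matrix.entryLinearMap ℝ ℂ i j)
  exact L.hasFDerivAt.comp_hasDerivAt t h

/-- exponential decay -/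
theorem decay (M : Matrix (Fin n) (Fin n) ℂ) (hM : ∀ l ∈ spectrum ℂ M, l.re < 0) :
    ∃ C δ : ℝ, 0 < δ ∧ 0 ≤ C ∧ ∀ t : ℝ, 0 ≤ t → ‖exp (t • M)‖ ^ 2 ≤ C * Real.exp (-(2 * δ) * t) := by
  obtain ⟨V, W, δ, hVW, hWV, hδ, hq⟩ := lyap M hM
  obtain ⟨C, hC0, hC⟩ := norm_le_fro (n := n)
  set Z : ℝ → Matrix (Fin n) (Fin n) ℂ := fun t => V * exp (t • M) with hZ
  have hZd : ∀ t, HasDerivAt Z (V * M * W * Z t) t := by
    intro t
    have h1 := (hasDerivAt_exp_smul_const' (𝕂 := ℝ) M t).const_mul V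
    have h2 : V * (M * exp (t • M)) = V * M * W * Z t := by
      simp only [hZ]
      calc V * (M * exp (t • M)) = V * M * 1 * exp (t • M) := by noncomm_ring
        _ = V * M * W * (V * exp (t • M)) := by rw [← hWV]; noncomm_ring
    rw [h2] at h1
    exact h1
  set g : ℝ → ℝ := fun t => fro (Z t) with hg
  have hgd : ∀ t, HasDerivAt g (∑ i, ∑ j, 2 * (star (Z t i j) * (V * M * W * Z t) i j).re) t := by
    intro t
    have h1 : ∀ i j, HasDerivAt (fun s => Complex.normSq (Z s i j))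
        (2 * (star (Z t i j) * (V * M * W * Z t) i j).re) t := by
      intro i j
      have h2 := entry_deriv Z _ t (hZd t) i j
      have h3 : HasDerivAt (fun s => ‖Z s i j‖ ^ 2)
        (2 * inner ℝ (Z t i j) ((V * M * W * Z t) i j)) t := h2.norm_sq
      have h4 : (fun s => Complex.normSq (Z s i j)) = fun s => ‖Z s i j‖ ^ 2 := by
        funext s; rw [Complex.normSq_eq_norm_sq]
      rw [h4]
      have h5 : (star (Z t i j) * (V * M * W * Z t) i j).re
          = inner ℝ (Z t i j) ((V * M * W * Z t) i j) := by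
        rw [Complex.inner]
        rw [mul_comm]
        simp [mul_comm]
      rw [h5]
      exact h3
    show HasDerivAt (fun s => fro (Z s)) _ t
    unfold fro
    exact HasDerivAt.fun_sum fun i _ => HasDerivAt.fun_sum fun j _ => h1 i j
  have hg' : ∀ t, (∑ i, ∑ j, 2 * (star (Z t i j) * (V * M * W * Z t) i j).re) ≤ -(2 * δ) * g t := by
    intro t
    rw [Finset.sum_comm]
    have h1 : ∀ j, ∑ i, 2 * (star (Z t i j) * (V * M * W * Z t) i j).re
        ≤ -(2 * δ) * ∑ i, Complex.normSq (Z t i j) := by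
      intro j
      have h2 := hq (fun i => Z t i j)
      have h3 : ∑ i, 2 * (star (Z t i j) * (V * M * W * Z t) i j).re
          = 2 * (∑ i, star (Z t i j) * (∑ k, (V * M * W) i k * Z t k j)).re := by
        rw [Complex.re_sum, Finset.mul_sum]
        rfl
      rw [h3]
      linarith
    refine le_trans (Finset.sum_le_sum fun j _ => h1 j) ?_
    rw [← Finset.mul_sum, Finset.sum_comm]
    exact le_rfl
  have hanti : AntitoneOn (fun t => g t * Real.exp (2 * δ * t)) (Set.Ici 0) := by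
    have hd : ∀ t, HasDerivAt (fun t => g t * Real.exp (2 * δ * t))
        ((∑ i, ∑ j, 2 * (star (Z t i j) * (V * M * W * Z t) i j).re) * Real.exp (2 * δ * t)
          + g t * (Real.exp (2 * δ * t) * (2 * δ))) t := by
      intro t
      refine (hgd t).mul ?_
      have := ((hasDerivAt_id t).const_mul (2 * δ)).exp
      simpa using this
    apply antitoneOn_of_deriv_nonpos (convex_Ici 0)
    · exact fun t _ => (hd t).continuousAt.continuousWithinAt
    · exact fun t _ => (hd t).differentiableAt.differentiableWithinAt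
    · intro t _
      rw [(hd t).deriv]
      have h1 := hg' t
      have h2 : 0 < Real.exp (2 * δ * t) := Real.exp_pos _
      nlinarith
  refine ⟨‖W‖ ^ 2 * (C * g 0), δ, hδ, by have := fro_nonneg (Z 0); positivity, fun t ht => ?_⟩
  have h1 : g t * Real.exp (2 * δ * t) ≤ g 0 := by
    have := hanti (Set.mem_Ici.mpr le_rfl) (Set.mem_Ici.mpr ht) ht
    simpa using this
  have h2 : g t ≤ g 0 * Real.exp (-(2 * δ) * t) := by
    have h3 : Real.exp (2 * δ * t) * Real.exp (-(2 * δ) * t) = 1 := by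
      rw [← Real.exp_add]; simp
    calc g t = (g t * Real.exp (2 * δ * t)) * Real.exp (-(2 * δ) * t) := by
            rw [mul_assoc, h3, mul_one]
      _ ≤ g 0 * Real.exp (-(2 * δ) * t) := by
            have := Real.exp_pos (-(2 * δ) * t)
            gcongr
  have h4 : exp (t • M) = W * Z t := by
    simp only [hZ]
    rw [← Matrix.mul_assoc, hWV, Matrix.one_mul]
  rw [h4]
  calc ‖W * Z t‖ ^ 2 ≤ (‖W‖ * ‖Z t‖) ^ 2 := by
          gcongr
          exact norm_mul_le _ _
    _ = ‖W‖ ^ 2 * ‖Z t‖ ^ 2 := by ring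
    _ ≤ ‖W‖ ^ 2 * (C * g t) := by
          gcongr
          exact hC (Z t)
    _ ≤ ‖W‖ ^ 2 * (C * (g 0 * Real.exp (-(2 * δ) * t))) := by gcongr
    _ = _ := by ring

end Pool.Agent.V11114.Cost
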