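import Mathlib
import Pool.Agent.V11114.CostB

set_option autoImplicit false

namespace Pool.Agent.V11114.Cost

open Matrix Finset MeasureTheory Filter Topology NormedSpace
open scoped Matrix.Norms.L2Operator ComplexOrder

variable {n : ℕ}

/-- the integrand -/
noncomputable def FF (M : Matrix (Fin n) (Fin n) ℂ) (t : ℝ) : Matrix (Fin n) (Fin n) ℂ :=
  exp (t • Mᴴ) * exp (t • M)

/-- the cost matrix -/
noncomputable def XX (M : Matrix (Fin n) (Fin n) ℂ) : Matrix (Fin n) (Fin n) ℂ :=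
  ∫ t in Set.Ioi (0 : ℝ), exp (t • Mᴴ) * exp (t • M)

theorem FF_eq (M : Matrix (Fin n) (Fin n) ℂ) (t : ℝ) :
    FF M t = (exp (t • M))ᴴ * exp (t • M) := by
  unfold FF
  rw [← Matrix.exp_conjTranspose, Matrix.conjTranspose_smul]
  simp

theorem FF_norm (M : Matrix (Fin n) (Fin n) ℂ) (hM : ∀ l ∈ spectrum ℂ M, l.re < 0) :
    ∃ C δ : ℝ, 0 < δ ∧ 0 ≤ C ∧ ∀ t : ℝ, 0 ≤ t → ‖FF M t‖ ≤ C * Real.exp (-(2 * δ) * t) := by
  obtain ⟨C, δ, hδ, hC, h⟩ := decay M hM
  refine ⟨C, δ, hδ, hC, fun t ht => ?_⟩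
  rw [FF_eq]
  refine le_trans (norm_mul_le _ _) ?_
  rw [Matrix.l2_opNorm_conjTranspose, ← sq]
  exact h t ht

theorem FF_deriv (M : Matrix (Fin n) (Fin n) ℂ) (t : ℝ) :
    HasDerivAt (FF M) (Mᴴ * FF M t + FF M t * M) t := by
  have h1 := hasDerivAt_exp_smul_const' (𝕂 := ℝ) Mᴴ t
  have h2 := hasDerivAt_exp_smul_const (𝕂 := ℝ) M t
  have h3 := h1.mul h2
  have h4 : Mᴴ * exp (t • Mᴴ) * exp (t • M) + exp (t • Mᴴ) * (exp (t • M) * M)
      = Mᴴ * FF M t + FF M t * M := by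
    unfold FF
    noncomm_ring
  rw [h4] at h3
  exact h3

theorem FF_int (M : Matrix (Fin n) (Fin n) ℂ) (hM : ∀ l ∈ spectrum ℂ M, l.re < 0) :
    IntegrableOn (FF M) (Set.Ioi 0) := by
  obtain ⟨C, δ, hδ, hC, h⟩ := FF_norm M hM
  have hc : Continuous (FF M) := continuous_iff_continuousAt.mpr fun t => (FF_deriv M t).continuousAt
  have h1 : IntegrableOn (fun t : ℝ => C * Real.exp (-(2 * δ) * t)) (Set.Ioi 0) :=
    (exp_neg_integrableOn_Ioi 0 (by positivity : (0 : ℝ) < 2 * δ)).const_mul C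
  refine Integrable.mono' h1 hc.aestronglyMeasurable ?_
  refine (ae_restrict_iff' measurableSet_Ioi).mpr (Eventually.of_forall fun t ht => ?_)
  exact h t (le_of_lt ht)

theorem FF_tendsto (M : Matrix (Fin n) (Fin n) ℂ) (hM : ∀ l ∈ spectrum ℂ M, l.re < 0) :
    Tendsto (FF M) atTop (𝓝 0) := by
  obtain ⟨C, δ, hδ, hC, h⟩ := FF_norm M hM
  have h1 : Tendsto (fun t : ℝ => C * Real.exp (-(2 * δ) * t)) atTop (𝓝 0) := by
    have h2 : Tendsto (fun t : ℝ => Real.exp (-(2 * δ) * t)) atTop (𝓝 0) := by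
      refine Real.tendsto_exp_atBot.comp ?_
      exact tendsto_id.const_mul_atTop_of_neg (by linarith)
    simpa using h2.const_mul C
  refine squeeze_zero_norm' ?_ h1
  filter_upwards [eventually_ge_atTop 0] with t ht
  exact h t ht

/-- Lyapunov equation -/
theorem lyapEq (M : Matrix (Fin n) (Fin n) ℂ) (hM : ∀ l ∈ spectrum ℂ M, l.re < 0) :
    Mᴴ * XX M + XX M * M = -1 := by
  let L : Matrix (Fin n) (Fin n) ℂ →L[ℝ] Matrix (Fin n) (Fin n) ℂ :=
    ContinuousLinearMap.mul ℝ (Matrix (Fin n) (Fin n) ℂ) Mᴴ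
      + (ContinuousLinearMap.mul ℝ (Matrix (Fin n) (Fin n) ℂ)).flip M
  have hL : ∀ Z, L Z = Mᴴ * Z + Z * M := fun Z => rfl
  have h1 : ∫ t in Set.Ioi (0 : ℝ), L (FF M t) = L (XX M) :=
    L.integral_comp_comm (FF_int M hM)
  have h2 : ∫ t in Set.Ioi (0 : ℝ), L (FF M t) = 0 - FF M 0 := by
    refine integral_Ioi_of_hasDerivAt_of_tendsto' (fun t _ => FF_deriv M t) ?_ (FF_tendsto M hM)
    exact L.integrable_comp (FF_int M hM)
  rw [← hL, ← h1, h2, FF_eq]
  simp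

theorem XX_psd (M : Matrix (Fin n) (Fin n) ℂ) (hM : ∀ l ∈ spectrum ℂ M, l.re < 0) :
    (XX M).PosSemidef := by
  have hherm : (XX M).IsHermitian := by
    let L : Matrix (Fin n) (Fin n) ℂ →L[ℝ] Matrix (Fin n) (Fin n) ℂ :=
      LinearMap.toContinuousLinearMap
        { toFun := fun Z => Zᴴ
          map_add' := fun a b => Matrix.conjTranspose_add a b
          map_smul' := fun r a => by simp [Matrix.conjTranspose_smul] }
    have hL : ∀ Z, L Z = Zᴴ := fun Z => rfl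
    have h1 : ∫ t in Set.Ioi (0 : ℝ), L (FF M t) = L (XX M) :=
      L.integral_comp_comm (FF_int M hM)
    have h2 : ∀ t, L (FF M t) = FF M t := by
      intro t
      rw [hL, FF_eq, Matrix.conjTranspose_mul, Matrix.conjTranspose_conjTranspose]
    simp only [h2] at h1
    rw [hL] at h1
    exact h1.symm
  refine Matrix.PosSemidef.of_dotProduct_mulVec_nonneg hherm fun v => ?_
  let L : Matrix (Fin n) (Fin n) ℂ →L[ℝ] ℂ :=
      LinearMap.toContinuousLinearMap
        { toFun := fun Z => star v ⬝ᵥ Z *ᵥ v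
          map_add' := fun a b => by rw [Matrix.add_mulVec, dotProduct_add]
          map_smul' := fun r a => by
            rw [Matrix.smul_mulVec, dotProduct_smul]; rfl }
  have hL : ∀ Z, L Z = star v ⬝ᵥ Z *ᵥ v := fun Z => rfl
  have h1 : ∫ t in Set.Ioi (0 : ℝ), L (FF M t) = L (XX M) :=
      L.integral_comp_comm (FF_int M hM)
  rw [← hL, ← h1]
  refine integral_nonneg fun t => ?_
  rw [hL, FF_eq, ← Matrix.mulVec_mulVec, Matrix.dotProduct_mulVec, ← Matrix.star_mulVec]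
  exact dotProduct_star_self_nonneg _

end Pool.Agent.V11114.Cost
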