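import Mathlib
import Pool.Agent.V11114.CostC

set_option autoImplicit false

namespace Pool.Agent.V11114.Cost

open Matrix Finset MeasureTheory Filter Topology NormedSpace
open scoped Matrix.Norms.L2Operator ComplexOrder

variable {n m : ℕ}

/-- squared Euclidean norm -/
noncomputable def ns {k : ℕ} (u : Fin k → ℂ) : ℝ := ∑ i, Complex.normSq (u i)

theorem ns_nonneg {k : ℕ} (u : Fin k → ℂ) : 0 ≤ ns u :=
  Finset.sum_nonneg fun _ _ => Complex.normSq_nonneg _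

theorem ns_eq {k : ℕ} (u : Fin k → ℂ) : ns u = ‖(WithLp.toLp 2 u : EuclideanSpace ℂ (Fin k))‖ ^ 2 := by
  rw [EuclideanSpace.norm_sq_eq]
  exact Finset.sum_congr rfl fun i _ => Complex.normSq_eq_norm_sq _

theorem ns_dot {k : ℕ} (u : Fin k → ℂ) : star u ⬝ᵥ u = (ns u : ℂ) := by
  unfold ns
  rw [Complex.ofReal_sum]
  refine Finset.sum_congr rfl fun i _ => ?_
  rw [Complex.normSq_eq_conj_mul_self]
  rfl

theorem ns_pos {k : ℕ} (u : Fin k → ℂ) (hu : u ≠ 0) : 0 < ns u := by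
  rcases (ns_nonneg u).lt_or_eq with h | h
  · exact h
  · exfalso
    apply hu
    funext i
    have := (Finset.sum_eq_zero_iff_of_nonneg (s := Finset.univ)
      (f := fun i => Complex.normSq (u i)) (fun _ _ => Complex.normSq_nonneg _)).mp h.symm i
      (Finset.mem_univ i)
    simpa using this

theorem cs {k : ℕ} (u v : Fin k → ℂ) : ‖star u ⬝ᵥ v‖ ^ 2 ≤ ns u * ns v := by
  have h := norm_inner_le_norm (𝕜 := ℂ) (WithLp.toLp 2 u : EuclideanSpace ℂ (Fin k)) (WithLp.toLp 2 v)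
  have h2 : inner ℂ (WithLp.toLp 2 u : EuclideanSpace ℂ (Fin k)) (WithLp.toLp 2 v) = star u ⬝ᵥ v := by
    rw [EuclideanSpace.inner_eq_star_dotProduct, dotProduct_comm]
  rw [h2] at h
  rw [ns_eq, ns_eq, ← mul_pow]
  gcongr

theorem ns_mulVec {k l : ℕ} (Z : Matrix (Fin k) (Fin l) ℂ) (u : Fin l → ℂ) :
    ns (Z *ᵥ u) ≤ ‖Z‖ ^ 2 * ns u := by
  have h := Matrix.l2_opNorm_mulVec Z (WithLp.toLp 2 u)
  rw [ns_eq, ns_eq, ← mul_pow]
  gcongr
  exact h

/-- diagonal of KᴴK -/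
theorem fro_diag (K : Matrix (Fin n) (Fin n) ℂ) : ∑ i, ((Kᴴ * K) i i).re = fro K := by
  unfold fro
  rw [Finset.sum_comm]
  refine Finset.sum_congr rfl fun i _ => ?_
  rw [Matrix.mul_apply, Complex.re_sum]
  refine Finset.sum_congr rfl fun j _ => ?_
  rw [Matrix.conjTranspose_apply, Complex.star_def, ← Complex.normSq_eq_conj_mul_self,
    Complex.ofReal_re]

theorem fro_off (K : Matrix (Fin n) (Fin n) ℂ) (i j : Fin n) : ‖(Kᴴ * K) i j‖ ≤ fro K := by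
  have hcol : ∀ j, ns (fun k => K k j) ≤ fro K := by
    intro j
    unfold fro ns
    refine Finset.sum_le_sum fun k _ => ?_
    exact Finset.single_le_sum (f := fun j => Complex.normSq (K k j))
        (fun _ _ => Complex.normSq_nonneg _) (Finset.mem_univ j)
  have h : ‖(Kᴴ * K) i j‖ ^ 2 ≤ fro K ^ 2 := by
    have h1 : (Kᴴ * K) i j = star (fun k => K k i) ⬝ᵥ (fun k => K k j) := rfl
    rw [h1]
    refine le_trans (cs _ _) ?_
    rw [sq]
    exact mul_le_mul (hcol i) (hcol j) (ns_nonneg _) (fro_nonneg _)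
  exact (pow_le_pow_iff_left₀ (norm_nonneg _) (fro_nonneg _) two_ne_zero).mp h

/-- |z* S z| bound from an entrywise bound -/
theorem form_bound (S : Matrix (Fin n) (Fin n) ℂ) (c : ℝ) (hc : 0 ≤ c) (h : ∀ i j, ‖S i j‖ ≤ c)
    (z : Fin n → ℂ) : ‖star z ⬝ᵥ S *ᵥ z‖ ≤ n * c * ns z := by
  have h1 : ‖star z ⬝ᵥ S *ᵥ z‖ ≤ ∑ i, ∑ j, c * (‖z i‖ * ‖z j‖) := by
    unfold dotProduct
    refine le_trans (norm_sum_le _ _) (Finset.sum_le_sum fun i _ => ?_)
    rw [Pi.star_apply, norm_mul, norm_star]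
    have h2 : ‖(S *ᵥ z) i‖ ≤ ∑ j, c * ‖z j‖ := by
      unfold Matrix.mulVec dotProduct
      refine le_trans (norm_sum_le _ _) (Finset.sum_le_sum fun j _ => ?_)
      rw [norm_mul]
      have := h i j
      gcongr
    calc ‖z i‖ * ‖(S *ᵥ z) i‖ ≤ ‖z i‖ * ∑ j, c * ‖z j‖ := by gcongr
      _ = _ := by
        rw [Finset.mul_sum]
        exact Finset.sum_congr rfl fun j _ => by ring
  have h2 : ∑ i, ∑ j, c * (‖z i‖ * ‖z j‖) = c * (∑ i, ‖z i‖) ^ 2 := by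
    rw [sq, Finset.sum_mul_sum, Finset.mul_sum]
    exact Finset.sum_congr rfl fun i _ => by rw [Finset.mul_sum]
  have h5 : (∑ i, ‖z i‖) ^ 2 ≤ n * ∑ i, ‖z i‖ ^ 2 := by
    have := sq_sum_le_card_mul_sum_sq (s := (Finset.univ : Finset (Fin n))) (f := fun i => ‖z i‖)
    simpa using this
  have h6 : ∑ i, ‖z i‖ ^ 2 = ns z :=
    Finset.sum_congr rfl fun i _ => by rw [Complex.normSq_eq_norm_sq]
  rw [h2] at h1
  rw [h6] at h5
  calc _ ≤ _ := h1
    _ ≤ c * (n * ns z) := by gcongr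
    _ = _ := by ring

/-- invertibility of the square root of a Lyapunov solution -/
theorem root_inv (M R : Matrix (Fin n) (Fin n) ℂ) (h : Mᴴ * (Rᴴ * R) + Rᴴ * R * M = -1) :
    ∃ R' : Matrix (Fin n) (Fin n) ℂ, R * R' = 1 ∧ R' * R = 1 := by
  have hinj : Function.Injective R.mulVec := by
    intro a b hab
    have h0 : R *ᵥ (a - b) = 0 := by rw [Matrix.mulVec_sub, sub_eq_zero]; exact hab
    set u := a - b with hu
    have h1 : (Rᴴ * R) *ᵥ u = 0 := by rw [← Matrix.mulVec_mulVec, h0, Matrix.mulVec_zero]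
    have h2 : star u ⬝ᵥ (Mᴴ * (Rᴴ * R) + Rᴴ * R * M) *ᵥ u = 0 := by
      rw [Matrix.add_mulVec, dotProduct_add, ← Matrix.mulVec_mulVec, h1, Matrix.mulVec_zero,
        dotProduct_zero, zero_add, ← Matrix.mulVec_mulVec, ← Matrix.mulVec_mulVec,
        Matrix.dotProduct_mulVec, ← Matrix.star_mulVec, h0]
      simp
    rw [h] at h2
    rw [Matrix.neg_mulVec, Matrix.one_mulVec, dotProduct_neg, ns_dot, neg_eq_zero] at h2
    by_contra hne
    have h3 : u ≠ 0 := sub_ne_zero.mpr hne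
    have h4 := ns_pos u h3
    have : ns u = 0 := by exact_mod_cast h2
    linarith
  obtain ⟨R', hR'⟩ := (Matrix.mulVec_injective_iff_isUnit.mp hinj).exists_right_inv
  exact ⟨R', hR', mul_eq_one_comm.mp hR'⟩

section
open scoped MatrixOrder
theorem exists_root (X : Matrix (Fin n) (Fin n) ℂ) (hX : X.PosSemidef) :
    ∃ R : Matrix (Fin n) (Fin n) ℂ, X = Rᴴ * R := by
  have h := hX.nonneg
  rw [CStarAlgebra.nonneg_iff_eq_star_mul_self] at h
  exact h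
end

/-- the key estimate -/
theorem key (M X T : Matrix (Fin n) (Fin n) ℂ) (γ : ℝ) (hγ : 0 < γ)
    (hst : ∀ l ∈ spectrum ℂ M, l.re ≤ -γ) (hMT : M * T = 1) (hTM : T * M = 1)
    (hX : X.PosSemidef) (hL : Mᴴ * X + X * M = -1) (u : Fin n → ℂ) :
    ns (T *ᵥ u) ≤ 4 * n ^ 2 / γ * (‖X‖ * ns u) := by
  obtain ⟨R, rfl⟩ := exists_root X hX
  obtain ⟨R', hRR', hR'R⟩ := root_inv M R hL
  -- equation for T
  have hTeq : Rᴴ * R * T + Tᴴ * (Rᴴ * R) = -(Tᴴ * T) := by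
    have h1 : Tᴴ * (Mᴴ * (Rᴴ * R) + Rᴴ * R * M) * T = -(Tᴴ * T) := by
      rw [hL]; noncomm_ring
    have h2 : Tᴴ * Mᴴ = 1 := by
      rw [← Matrix.conjTranspose_mul, hMT, Matrix.conjTranspose_one]
    have h3 : Tᴴ * (Mᴴ * (Rᴴ * R) + Rᴴ * R * M) * T
        = (Tᴴ * Mᴴ) * (Rᴴ * R) * T + Tᴴ * (Rᴴ * R) * (M * T) := by noncomm_ring
    rw [h3, h2, hMT, Matrix.one_mul, Matrix.mul_one] at h1
    exact h1
  set N := R * T * R' with hN
  obtain ⟨U, hU1, hU2, htri, hdiag⟩ := schur N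
  set S := Uᴴ * N * U with hS
  set K := T * R' * U with hK
  have hRRh : R'ᴴ * Rᴴ = 1 := by
    rw [← Matrix.conjTranspose_mul, hRR', Matrix.conjTranspose_one]
  have hSK : S + Sᴴ = -(Kᴴ * K) := by
    have h1 : Uᴴ * R'ᴴ * (Rᴴ * R * T + Tᴴ * (Rᴴ * R)) * R' * U = -(Kᴴ * K) := by
      rw [hTeq, hK]
      simp only [Matrix.conjTranspose_mul, Matrix.mul_neg, Matrix.neg_mul, Matrix.mul_assoc]
    have h2 : Uᴴ * R'ᴴ * (Rᴴ * R * T + Tᴴ * (Rᴴ * R)) * R' * U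
        = Uᴴ * (R'ᴴ * Rᴴ) * R * T * R' * U + Uᴴ * R'ᴴ * Tᴴ * Rᴴ * (R * R') * U := by
      noncomm_ring
    rw [h2, hRRh, hRR'] at h1
    rw [← h1, hS, hN]
    simp only [Matrix.conjTranspose_mul, Matrix.conjTranspose_conjTranspose, Matrix.mul_one,
      Matrix.mul_assoc]
  -- diagonal entries
  have hSd : ∀ i, ‖S i i‖ ≤ 1 / γ := by
    intro i
    have h1 : S i i ∈ spectrum ℂ T := by
      have h2 := hdiag i
      have h3 : spectrum ℂ N = spectrum ℂ T := by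
        let w : (Matrix (Fin n) (Fin n) ℂ)ˣ := ⟨R, R', hRR', hR'R⟩
        exact spectrum.units_conjugate (u := w) (a := T)
      rwa [h3] at h2
    have h2 : S i i ≠ 0 := by
      intro h0
      rw [h0] at h1
      exact (spectrum.zero_notMem_iff (R := ℂ)).mpr (IsUnit.of_mul_eq_one M hTM) h1
    have h3 : (S i i)⁻¹ ∈ spectrum ℂ M := by
      let w : (Matrix (Fin n) (Fin n) ℂ)ˣ := ⟨T, M, hTM, hMT⟩
      have := spectrum.inv_mem_iff (R := ℂ) (r := Units.mk0 _ h2) (a := w)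
      exact this.mp h1
    have h4 := hst _ h3
    have h5 : γ ≤ ‖(S i i)⁻¹‖ := by
      have := Complex.abs_re_le_norm ((S i i)⁻¹)
      have h6 := neg_le_abs ((S i i)⁻¹).re
      linarith
    rw [norm_inv] at h5
    have h6 : 0 < ‖S i i‖ := norm_pos_iff.mpr h2
    rw [le_div_iff₀ hγ]
    calc ‖S i i‖ * γ ≤ ‖S i i‖ * ‖S i i‖⁻¹ := by gcongr
      _ = 1 := mul_inv_cancel₀ h6.ne'
  have hfro : fro K ≤ 2 * n / γ := by
    rw [← fro_diag]
    have h1 : ∀ i, ((Kᴴ * K) i i).re = -(2 * (S i i).re) := by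
      intro i
      have h2 : (Kᴴ * K) i i = -(S i i + Sᴴ i i) := by
        have := congrFun (congrFun hSK i) i
        rw [Matrix.add_apply, Matrix.neg_apply] at this
        rw [this, neg_neg]
      rw [h2, Matrix.conjTranspose_apply, Complex.neg_re, Complex.add_re, Complex.star_def,
        Complex.conj_re]
      ring
    have h2 : ∀ i, ((Kᴴ * K) i i).re ≤ 2 * (1 / γ) := by
      intro i
      rw [h1]
      have h3 := Complex.abs_re_le_norm (S i i)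
      have h4 := neg_le_abs (S i i).re
      have h5 := hSd i
      linarith
    refine le_trans (Finset.sum_le_sum fun i _ => h2 i) ?_
    rw [Finset.sum_const, Finset.card_univ, Fintype.card_fin, nsmul_eq_mul]
    apply le_of_eq
    ring
  have hSb : ∀ i j, ‖S i j‖ ≤ 2 * n / γ := by
    intro i j
    rcases eq_or_ne i j with rfl | hij
    · refine le_trans (hSd i) ?_
      have : (1 : ℝ) ≤ n := by
        have := i.pos
        exact_mod_cast this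
      rw [div_le_div_iff_of_pos_right hγ]
      linarith
    · rcases lt_or_gt_of_ne hij with h | h
      · have h1 := congrFun (congrFun hSK i) j
        rw [Matrix.add_apply, Matrix.neg_apply, Matrix.conjTranspose_apply, htri j i h, star_zero,
          add_zero] at h1
        rw [h1, norm_neg]
        exact le_trans (fro_off K i j) hfro
      · rw [htri i j h, norm_zero]
        positivity
  -- conclusion
  have h1 : (ns (T *ᵥ u) : ℂ) = -(star (R *ᵥ u) ⬝ᵥ N *ᵥ (R *ᵥ u)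
      + star (star (R *ᵥ u) ⬝ᵥ N *ᵥ (R *ᵥ u))) := by
    have h2 : star u ⬝ᵥ (Rᴴ * R * T + Tᴴ * (Rᴴ * R)) *ᵥ u = -(ns (T *ᵥ u) : ℂ) := by
      rw [hTeq, Matrix.neg_mulVec, dotProduct_neg, ← ns_dot, ← Matrix.mulVec_mulVec,
        Matrix.dotProduct_mulVec, ← Matrix.star_mulVec]
    have h3 : star (R *ᵥ u) ⬝ᵥ N *ᵥ (R *ᵥ u) = star u ⬝ᵥ (Rᴴ * R * T) *ᵥ u := by
      rw [Matrix.mulVec_mulVec, hN, Matrix.star_mulVec, ← Matrix.dotProduct_mulVec,
        Matrix.mulVec_mulVec]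
      congr 2
      calc Rᴴ * (R * T * R' * R) = Rᴴ * (R * T * (R' * R)) := by simp only [Matrix.mul_assoc]
        _ = _ := by rw [hR'R, Matrix.mul_one, Matrix.mul_assoc]
    have h4 : star (star u ⬝ᵥ (Rᴴ * R * T) *ᵥ u) = star u ⬝ᵥ (Tᴴ * (Rᴴ * R)) *ᵥ u := by
      rw [Matrix.star_dotProduct, star_star, Matrix.star_mulVec, ← Matrix.dotProduct_mulVec]
      congr 2
      simp only [Matrix.conjTranspose_mul, Matrix.conjTranspose_conjTranspose]
    rw [h3, h4, ← dotProduct_add, ← Matrix.add_mulVec, h2, neg_neg]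
  have h2 : ns (T *ᵥ u) ≤ 2 * ‖star (R *ᵥ u) ⬝ᵥ N *ᵥ (R *ᵥ u)‖ := by
    have h3 : ns (T *ᵥ u) = ‖(ns (T *ᵥ u) : ℂ)‖ := by
      rw [Complex.norm_real, Real.norm_of_nonneg (ns_nonneg _)]
    rw [h3, h1, norm_neg]
    refine le_trans (norm_add_le _ _) ?_
    rw [norm_star]
    linarith
  set z := Uᴴ *ᵥ (R *ᵥ u) with hz
  have hUz : U *ᵥ z = R *ᵥ u := by
    rw [hz, Matrix.mulVec_mulVec, hU2, Matrix.one_mulVec]
  clear_value z
  have h3 : star (R *ᵥ u) ⬝ᵥ N *ᵥ (R *ᵥ u) = star z ⬝ᵥ S *ᵥ z := by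
    rw [← hUz, Matrix.mulVec_mulVec, Matrix.star_mulVec, ← Matrix.dotProduct_mulVec,
      Matrix.mulVec_mulVec, ← Matrix.mul_assoc Uᴴ N U]
  have h4 : ns z = ns (R *ᵥ u) := by
    have h5 : (ns z : ℂ) = ns (R *ᵥ u) := by
      rw [← ns_dot, ← ns_dot, ← hUz, Matrix.star_mulVec, ← Matrix.dotProduct_mulVec,
        Matrix.mulVec_mulVec, hU1, Matrix.one_mulVec]
    exact_mod_cast h5
  have h5 : ns (R *ᵥ u) ≤ ‖Rᴴ * R‖ * ns u := by
    have h6 := ns_mulVec R u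
    rw [Matrix.l2_opNorm_conjTranspose_mul_self, ← sq]
    exact h6
  have h6 := form_bound S (2 * n / γ) (by positivity) hSb z
  rw [h3] at h2
  rw [h4] at h6
  calc ns (T *ᵥ u) ≤ 2 * (n * (2 * n / γ) * ns (R *ᵥ u)) := by linarith
    _ = 4 * n ^ 2 / γ * ns (R *ᵥ u) := by ring
    _ ≤ _ := by gcongr

theorem main_bound (A : Matrix (Fin n) (Fin n) ℂ) (B : Matrix (Fin n) (Fin m) ℂ)
    (F : Matrix (Fin m) (Fin n) ℂ) (hmn : m < n) (γ : ℝ) (hγ : 0 < γ)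
    (hst : ∀ l ∈ spectrum ℂ (A - B * F), l.re ≤ -γ) :
    γ ≤ 4 * n ^ 2 * ‖A‖ ^ 2 * ‖XX (A - B * F)‖ := by
  set M := A - B * F with hM
  have hst' : ∀ l ∈ spectrum ℂ M, l.re < 0 := fun l hl => by have := hst l hl; linarith
  obtain ⟨T, hMT⟩ : ∃ T, M * T = 1 := by
    have h0 : (0 : ℂ) ∉ spectrum ℂ M := fun h => by have := hst' 0 h; simp at this
    exact ((spectrum.zero_notMem_iff ℂ).mp h0).exists_right_inv
  have hTM : T * M = 1 := mul_eq_one_comm.mp hMT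
  obtain ⟨v, hv0, hv⟩ : ∃ v : Fin n → ℂ, v ≠ 0 ∧ Bᴴ *ᵥ v = 0 := by
    have : LinearMap.ker (Matrix.toLin' Bᴴ) ≠ ⊥ := by
      apply LinearMap.ker_ne_bot_of_finrank_lt
      simpa using hmn
    obtain ⟨v, hv, hv0⟩ := (Submodule.ne_bot_iff _).mp this
    exact ⟨v, hv0, by simpa using hv⟩
  have h1 : Mᴴ *ᵥ v = Aᴴ *ᵥ v := by
    rw [hM, Matrix.conjTranspose_sub, Matrix.sub_mulVec, Matrix.conjTranspose_mul,
      ← Matrix.mulVec_mulVec, hv, Matrix.mulVec_zero, sub_zero]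
  have h2 : (ns v : ℂ) = star (T *ᵥ v) ⬝ᵥ (Aᴴ *ᵥ v) := by
    rw [← h1, Matrix.star_mulVec, ← Matrix.dotProduct_mulVec, Matrix.mulVec_mulVec,
      ← Matrix.conjTranspose_mul, hMT, Matrix.conjTranspose_one, Matrix.one_mulVec, ns_dot]
  have h3 := cs (T *ᵥ v) (Aᴴ *ᵥ v)
  rw [← h2, Complex.norm_real, Real.norm_of_nonneg (ns_nonneg _)] at h3
  have h4 := key M (XX M) T γ hγ hst hMT hTM (XX_psd M hst') (lyapEq M hst') v
  have h5 := ns_mulVec Aᴴ v
  rw [Matrix.l2_opNorm_conjTranspose] at h5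
  have h6 := ns_pos v hv0
  have h7 : ns v ^ 2 ≤ (4 * n ^ 2 / γ * (‖XX M‖ * ns v)) * (‖A‖ ^ 2 * ns v) :=
    le_trans h3 (mul_le_mul h4 h5 (ns_nonneg _) (by positivity))
  have h8 : (4 * n ^ 2 / γ * (‖XX M‖ * ns v)) * (‖A‖ ^ 2 * ns v)
      = (4 * n ^ 2 * ‖A‖ ^ 2 * ‖XX M‖ / γ) * ns v ^ 2 := by ring
  rw [h8] at h7
  have h9 : 1 ≤ 4 * n ^ 2 * ‖A‖ ^ 2 * ‖XX M‖ / γ := by
    have : 1 * ns v ^ 2 ≤ (4 * n ^ 2 * ‖A‖ ^ 2 * ‖XX M‖ / γ) * ns v ^ 2 := by linarith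
    exact le_of_mul_le_mul_right this (by positivity)
  rwa [one_le_div hγ] at h9

end Pool.Agent.V11114.Cost
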