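import Mathlib

set_option autoImplicit false

namespace Pool.Agent.V11114.DR

open Filter Topology Metric

variable {E : Type*} [NormedAddCommGroup E] [InnerProductSpace ℝ E]

/-- `P` is the nearest point projection onto `C` -/
def IsProj (C : Set E) (P : E → E) : Prop := ∀ x, P x ∈ C ∧ ∀ y ∈ C, dist x (P x) ≤ dist x y

/-- Douglas-Rachford operator -/
noncomputable def DR (PA PB : E → E) (x : E) : E :=
  (1 / 2 : ℝ) • (x + ((2 : ℝ) • PB ((2 : ℝ) • PA x - x) - ((2 : ℝ) • PA x - x)))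

theorem DR_eq (PA PB : E → E) (x : E) :
    DR PA PB x = x - PA x + PB ((2 : ℝ) • PA x - x) := by
  unfold DR
  module

/-- variational inequality -/
theorem proj_vi {C : Set E} (hC : Convex ℝ C) {P : E → E} (hP : IsProj C P) (x q : E) (hq : q ∈ C) :
    inner ℝ (x - P x) (q - P x) ≤ 0 := by
  obtain ⟨h1, h2⟩ := hP x
  by_contra hcon
  push Not at hcon
  set α := inner ℝ (x - P x) (q - P x) with hα
  have key : ∀ t : ℝ, 0 < t → t ≤ 1 → 2 * α ≤ t * ‖q - P x‖ ^ 2 := by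
    intro t ht ht1
    have hmem : P x + t • (q - P x) ∈ C := hC.add_smul_sub_mem h1 hq ⟨ht.le, ht1⟩
    have h3 := h2 _ hmem
    rw [dist_eq_norm, dist_eq_norm] at h3
    have h4 : ‖x - P x‖ ^ 2 ≤ ‖x - (P x + t • (q - P x))‖ ^ 2 := by gcongr
    have h5 : x - (P x + t • (q - P x)) = (x - P x) - t • (q - P x) := by abel
    rw [h5, norm_sub_sq_real (x - P x), inner_smul_right, ← hα, norm_smul,
      Real.norm_of_nonneg ht.le] at h4
    have h6 : 2 * (t * α) ≤ t ^ 2 * ‖q - P x‖ ^ 2 := by nlinarith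
    have h7 : t * (2 * α) ≤ t * (t * ‖q - P x‖ ^ 2) := by nlinarith
    exact le_of_mul_le_mul_left h7 ht
  set β := ‖q - P x‖ ^ 2 with hβ
  have hβ0 : 0 ≤ β := by positivity
  have h8 := key (min 1 (α / (β + 1))) (lt_min one_pos (by positivity)) (min_le_left _ _)
  have h9 : min 1 (α / (β + 1)) * β ≤ α / (β + 1) * β := by
    gcongr
    exact min_le_right _ _
  have h10 : α / (β + 1) * β ≤ α := by
    rw [div_mul_eq_mul_div, div_le_iff₀ (by positivity)]
    nlinarith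
  linarith

theorem proj_firm {C : Set E} (hC : Convex ℝ C) {P : E → E} (hP : IsProj C P) (x y : E) :
    ‖P x - P y‖ ^ 2 ≤ inner ℝ (x - y) (P x - P y) := by
  have h1 := proj_vi hC hP x (P y) (hP y).1
  have h2 := proj_vi hC hP y (P x) (hP x).1
  have h3 : inner ℝ (x - y) (P x - P y) - ‖P x - P y‖ ^ 2
      = -(inner ℝ (x - P x) (P y - P x)) - inner ℝ (y - P y) (P x - P y) := by
    rw [← real_inner_self_eq_norm_sq]
    simp only [inner_sub_left, inner_sub_right]
    rw [real_inner_comm (P x) (P y)]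
    ring
  linarith

theorem refl_nonexp {C : Set E} (hC : Convex ℝ C) {P : E → E} (hP : IsProj C P) (x y : E) :
    ‖((2 : ℝ) • P x - x) - ((2 : ℝ) • P y - y)‖ ^ 2 ≤ ‖x - y‖ ^ 2 := by
  have h1 := proj_firm hC hP x y
  have h2 : ((2 : ℝ) • P x - x) - ((2 : ℝ) • P y - y) = (2 : ℝ) • (P x - P y) - (x - y) := by
    module
  rw [h2, norm_sub_sq_real, inner_smul_left, norm_smul, real_inner_comm]
  simp only [Real.norm_ofNat, conj_trivial]
  nlinarith

theorem DR_firm {A B : Set E} (hA : Convex ℝ A) (hB : Convex ℝ B) {PA PB : E → E}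
    (hPA : IsProj A PA) (hPB : IsProj B PB) (x y : E) :
    ‖DR PA PB x - DR PA PB y‖ ^ 2 + ‖(x - DR PA PB x) - (y - DR PA PB y)‖ ^ 2
      ≤ ‖x - y‖ ^ 2 := by
  set RA : E → E := fun x => (2 : ℝ) • PA x - x with hRA
  set N : E → E := fun x => (2 : ℝ) • PB (RA x) - RA x with hN
  have h1 : ‖N x - N y‖ ^ 2 ≤ ‖x - y‖ ^ 2 :=
    le_trans (refl_nonexp hB hPB (RA x) (RA y)) (refl_nonexp hA hPA x y)
  have h2 : DR PA PB x - DR PA PB y = (1 / 2 : ℝ) • ((x - y) + (N x - N y)) := by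
    show (1 / 2 : ℝ) • (x + N x) - (1 / 2 : ℝ) • (y + N y) = _
    module
  have h3 : (x - DR PA PB x) - (y - DR PA PB y) = (1 / 2 : ℝ) • ((x - y) - (N x - N y)) := by
    show (x - (1 / 2 : ℝ) • (x + N x)) - (y - (1 / 2 : ℝ) • (y + N y)) = _
    module
  rw [h2, h3, norm_smul, norm_smul, mul_pow, mul_pow, norm_add_sq_real (x - y),
    norm_sub_sq_real (x - y)]
  norm_num
  nlinarith

/-- Krasnoselskii-Mann for a firmly nonexpansive map with a fixed point -/
theorem km [FiniteDimensional ℝ E] (T : E → E)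
    (hT : ∀ x y, ‖T x - T y‖ ^ 2 + ‖(x - T x) - (y - T y)‖ ^ 2 ≤ ‖x - y‖ ^ 2)
    (c : E) (hc : T c = c) (x : E) : ∃ L, Tendsto (fun n : ℕ => T^[n] x) atTop (𝓝 L) := by
  have hne : ∀ x y, ‖T x - T y‖ ≤ ‖x - y‖ := by
    intro x y
    have := hT x y
    have h2 : 0 ≤ ‖(x - T x) - (y - T y)‖ ^ 2 := by positivity
    exact (pow_le_pow_iff_left₀ (norm_nonneg _) (norm_nonneg _) two_ne_zero).mp (by linarith)
  have hcont : Continuous T := by
    have : LipschitzWith 1 T := LipschitzWith.of_dist_le_mul fun x y => by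
      rw [dist_eq_norm, dist_eq_norm]; simpa using hne x y
    exact this.continuous
  set s : ℕ → E := fun n => T^[n] x with hs
  have hstep : ∀ n, s (n + 1) = T (s n) := fun n => Function.iterate_succ_apply' T n x
  have hmono : ∀ c, T c = c → Antitone fun n => ‖s n - c‖ := by
    intro c hc
    refine antitone_nat_of_succ_le fun n => ?_
    have := hne (s n) c
    rw [hc] at this
    show ‖s (n + 1) - c‖ ≤ _
    rw [hstep]
    exact this
  -- bounded
  have hb : ∀ n, s n ∈ closedBall c ‖s 0 - c‖ := by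
    intro n
    rw [mem_closedBall, dist_eq_norm]
    exact hmono c hc (Nat.zero_le n)
  obtain ⟨L, -, φ, hφ, hL⟩ := (isCompact_closedBall c ‖s 0 - c‖).tendsto_subseq hb
  -- differences tend to 0
  have hdiff : Tendsto (fun n => ‖s n - T (s n)‖ ^ 2) atTop (𝓝 0) := by
    have h1 : ∀ n, ‖s n - T (s n)‖ ^ 2 ≤ ‖s n - c‖ ^ 2 - ‖s (n + 1) - c‖ ^ 2 := by
      intro n
      have := hT (s n) c
      rw [hc, sub_self, sub_zero] at this
      rw [hstep]
      linarith
    have h2 : ∃ l, Tendsto (fun n => ‖s n - c‖) atTop (𝓝 l) :=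
      ⟨_, tendsto_atTop_ciInf (hmono c hc) ⟨0, by rintro _ ⟨n, rfl⟩; exact norm_nonneg _⟩⟩
    obtain ⟨l, hl⟩ := h2
    have h3 : Tendsto (fun n => ‖s n - c‖ ^ 2 - ‖s (n + 1) - c‖ ^ 2) atTop (𝓝 (l ^ 2 - l ^ 2)) :=
      (hl.pow 2).sub (((tendsto_add_atTop_iff_nat 1).mpr hl).pow 2)
    rw [sub_self] at h3
    exact squeeze_zero (fun n => by positivity) h1 h3
  have hfix : T L = L := by
    have h1 : Tendsto (fun n => ‖s (φ n) - T (s (φ n))‖ ^ 2) atTop (𝓝 0) :=
      hdiff.comp hφ.tendsto_atTop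
    have h2 : Tendsto (fun n => ‖s (φ n) - T (s (φ n))‖ ^ 2) atTop (𝓝 (‖L - T L‖ ^ 2)) :=
      ((hL.sub ((hcont.tendsto L).comp hL)).norm).pow 2
    have h3 := tendsto_nhds_unique h1 h2
    have h4 : ‖L - T L‖ = 0 := by
      have : ‖L - T L‖ ^ 2 = 0 := h3.symm
      exact pow_eq_zero_iff two_ne_zero |>.mp this
    have := norm_eq_zero.mp h4
    exact (sub_eq_zero.mp this).symm
  refine ⟨L, ?_⟩
  rw [tendsto_iff_norm_sub_tendsto_zero]
  have h1 := hmono L hfix
  have h2 : Tendsto (fun n => ‖s n - L‖) atTop (𝓝 (⨅ n, ‖s n - L‖)) :=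
    tendsto_atTop_ciInf h1 ⟨0, by rintro _ ⟨n, rfl⟩; exact norm_nonneg _⟩
  have h3 : Tendsto (fun n => ‖s (φ n) - L‖) atTop (𝓝 0) := by
    have := (hL.sub_const L).norm
    simpa using this
  have h4 := tendsto_nhds_unique (h2.comp hφ.tendsto_atTop) h3
  rwa [h4] at h2

/-- formula for the projection onto a ball -/
theorem proj_ball {a : E} {r : ℝ} (hr : 0 ≤ r) {P : E → E} (hP : IsProj (closedBall a r) P) (x : E)
    (hx : r < ‖x - a‖) : P x = a + (r / ‖x - a‖) • (x - a) := by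
  obtain ⟨h1, h2⟩ := hP x
  set N := ‖x - a‖ with hN
  have hN0 : 0 < N := lt_of_le_of_lt hr hx
  set w := P x - a with hw
  have hwr : ‖w‖ ≤ r := by rw [hw, ← dist_eq_norm]; exact h1
  have hq : a + (r / N) • (x - a) ∈ closedBall a r := by
    rw [mem_closedBall, dist_eq_norm, add_sub_cancel_left, norm_smul,
      Real.norm_of_nonneg (by positivity), ← hN, div_mul_cancel₀ _ hN0.ne']
  have h3 := h2 _ hq
  rw [dist_eq_norm, dist_eq_norm] at h3
  have h4 : ‖x - (a + (r / N) • (x - a))‖ = N - r := by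
    have : x - (a + (r / N) • (x - a)) = (1 - r / N) • (x - a) := by module
    rw [this, norm_smul, Real.norm_of_nonneg, ← hN]
    · field_simp
    · rw [sub_nonneg, div_le_one hN0]; exact hx.le
  rw [h4] at h3
  have h5 : x - P x = (x - a) - w := by rw [hw]; abel
  have h6 : ‖x - P x‖ ^ 2 ≤ (N - r) ^ 2 := by gcongr
  rw [h5, norm_sub_sq_real, ← hN] at h6
  have h7 : ‖w - (r / N) • (x - a)‖ ^ 2 ≤ 0 := by
    rw [norm_sub_sq_real, inner_smul_right, norm_smul, Real.norm_of_nonneg (by positivity : 0 ≤ r / N),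
      ← hN, real_inner_comm, div_mul_cancel₀ _ hN0.ne']
    set I := inner ℝ (x - a) w with hI
    have h8 : ‖w‖ ^ 2 + 2 * N * r - r ^ 2 ≤ 2 * I := by nlinarith
    have h9 : (r / N) * (‖w‖ ^ 2 + 2 * N * r - r ^ 2) ≤ (r / N) * (2 * I) := by gcongr
    have h10 : (r / N) * (‖w‖ ^ 2 + 2 * N * r - r ^ 2)
        = (r / N) * (‖w‖ ^ 2 - r ^ 2) + 2 * r ^ 2 := by field_simp; ring
    have h11 : r / N ≤ 1 := by rw [div_le_one hN0]; exact hx.le
    have h12 : ‖w‖ ^ 2 ≤ r ^ 2 := by gcongr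
    nlinarith
  have h8 : w - (r / N) • (x - a) = 0 := by
    have : ‖w - (r / N) • (x - a)‖ = 0 := by
      have h9 : 0 ≤ ‖w - (r / N) • (x - a)‖ ^ 2 := by positivity
      exact pow_eq_zero_iff two_ne_zero |>.mp (le_antisymm h7 h9)
    exact norm_eq_zero.mp this
  have h9 : P x = a + w := by rw [hw]; abel
  rw [h9, sub_eq_zero.mp h8]

/-- projection of a point of the set -/
theorem proj_mem {C : Set E} {P : E → E} (hP : IsProj C P) (x : E) (hx : x ∈ C) : P x = x := by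
  have := (hP x).2 x hx
  rw [dist_self] at this
  exact (dist_le_zero.mp this).symm

end Pool.Agent.V11114.DR
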