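import Mathlib
import Pool.Agent.V11114.DRBalls

set_option autoImplicit false

namespace Pool.Agent.V11114.DR

open Filter Topology Metric

variable {E : Type*} [NormedAddCommGroup E] [InnerProductSpace ℝ E]

theorem one_sub_div_le (t M q : ℝ) (ht : 0 < t) (hM : 0 < M) (h : M ^ 2 = t ^ 2 + q) (hq : 0 ≤ q) :
    1 - t / M ≤ q / (2 * t ^ 2) := by
  have h1 : t ≤ M := by
    by_contra hc
    push Not at hc
    nlinarith
  have h2 : 1 - t / M = q / (M * (M + t)) := by
    have : q = (M - t) * (M + t) := by linarith [h]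
    rw [this]
    have h3 : M + t ≠ 0 := by positivity
    field_simp
  rw [h2]
  apply div_le_div_of_nonneg_left hq (by positivity)
  nlinarith

/-- the component orthogonal to `e` -/
noncomputable def perp (a e x : E) : E := (x - a) - (inner ℝ (x - a) e : ℝ) • e

set_option maxHeartbeats 1000000 in
theorem far_step {a b e : E} {r s d : ℝ} (hr : 0 ≤ r) (hs : 0 ≤ s) (he : ‖e‖ = 1)
    (hb : b = a + d • e) (hd : r + s < d) {PA PB : E → E} (hPA : IsProj (closedBall a r) PA)
    (hPB : IsProj (closedBall b s) PB) (x : E) (hx : 4 * r + 4 * s + 1 ≤ inner ℝ (x - a) e) :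
    ∃ c : ℝ, 0 ≤ c ∧ c ≤ 1 ∧ perp a e (DR PA PB x) = c • perp a e x ∧
      inner ℝ (DR PA PB x - a) e - inner ℝ (x - a) e - (d - r - s)
        ≤ (r / 2 + 2 * s) * ‖perp a e x‖ ^ 2 / (inner ℝ (x - a) e) ^ 2 := by
  have hee : inner ℝ e e = (1 : ℝ) := by rw [real_inner_self_eq_norm_sq, he]; norm_num
  set u := x - a with hu
  set z := inner ℝ u e with hz
  set y := perp a e x with hy
  have hyu : u = z • e + y := by rw [hy]; unfold perp; module
  have hye : inner ℝ y e = (0 : ℝ) := by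
    rw [hy]; unfold perp
    rw [inner_sub_left, inner_smul_left, hee]; simp
  have hnorm : ∀ α β : ℝ, ‖α • e + β • y‖ ^ 2 = α ^ 2 + β ^ 2 * ‖y‖ ^ 2 := by
    intro α β
    rw [norm_add_sq_real, norm_smul, norm_smul, inner_smul_left, inner_smul_right,
      real_inner_comm, hye, he, mul_pow, mul_pow]
    simp
  set N := ‖u‖ with hN
  have hN2 : N ^ 2 = z ^ 2 + ‖y‖ ^ 2 := by
    have := hnorm z 1
    rw [one_smul, ← hyu] at this
    rw [hN, this]; ring
  have hz1 : 1 ≤ z := by linarith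
  have hz0 : 0 < z := by linarith
  have hNz : z ≤ N := by
    have h0 : 0 ≤ N := norm_nonneg _
    by_contra hc
    push Not at hc
    have : 0 ≤ ‖y‖ ^ 2 := by positivity
    nlinarith
  have hN0 : 0 < N := by linarith
  have hrN : r / N ≤ 1 / 4 := by
    rw [div_le_div_iff₀ hN0 (by norm_num)]; linarith
  have hrN0 : 0 ≤ r / N := by positivity
  have hPAx : PA x = a + (r / N) • u := by
    rw [proj_ball hr hPA x (by rw [← hu, ← hN]; linarith)]
  set k := 1 - 2 * (r / N) with hk
  have hk1 : 1 / 2 ≤ k := by rw [hk]; linarith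
  have hk2 : k ≤ 1 := by rw [hk]; linarith
  set w := k • u + d • e with hw
  have hRA : (2 : ℝ) • PA x - x = b - w := by
    rw [hPAx, hb, hw, hk]
    have : x = a + u := by rw [hu]; abel
    rw [this]
    module
  have hww : w = (k * z + d) • e + k • y := by rw [hw, hyu]; module
  set W := ‖w‖ with hW
  have hW2 : W ^ 2 = (k * z + d) ^ 2 + k ^ 2 * ‖y‖ ^ 2 := by
    rw [hW, hww, hnorm]
  have hkz : z / 2 ≤ k * z + d := by nlinarith
  have hkz0 : 0 < k * z + d := by linarith
  have hWz : k * z + d ≤ W := by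
    have h0 : 0 ≤ W := norm_nonneg _
    by_contra hc
    push Not at hc
    have : 0 ≤ k ^ 2 * ‖y‖ ^ 2 := by positivity
    nlinarith
  have hW0 : 0 < W := by linarith
  have hsW : s / W ≤ 1 / 2 := by
    rw [div_le_div_iff₀ hW0 (by norm_num)]; linarith
  have hsW0 : 0 ≤ s / W := by positivity
  have hPBx : PB (b - w) = b - (s / W) • w := by
    have h1 : ‖(b - w) - b‖ = W := by
      rw [sub_sub_cancel_left, norm_neg]
    rw [proj_ball hs hPB (b - w) (by rw [h1]; linarith), h1]
    module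
  have hT : DR PA PB x - a = u - (r / N) • u + d • e - (s / W) • w := by
    rw [DR_eq, hRA, hPBx, hPAx, hb]
    have : x = a + u := by rw [hu]; abel
    rw [this]
    module
  have hTe : inner ℝ (DR PA PB x - a) e = z - (r / N) * z + d - (s / W) * (k * z + d) := by
    rw [hT, inner_sub_left, inner_add_left, inner_sub_left, inner_smul_left, inner_smul_left,
      inner_smul_left, hee, hww, inner_add_left, inner_smul_left, inner_smul_left, hye, hee]
    simp only [conj_trivial]
    rw [← hz]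
    ring
  have hsk : s / W * k ≤ 1 / 2 * 1 := mul_le_mul hsW hk2 (by linarith) (by norm_num)
  have hsk0 : 0 ≤ s / W * k := mul_nonneg hsW0 (by linarith)
  refine ⟨1 - r / N - (s / W) * k, ?_, ?_, ?_, ?_⟩
  · linarith
  · linarith
  · have h1 : perp a e (DR PA PB x) = (DR PA PB x - a) - (inner ℝ (DR PA PB x - a) e : ℝ) • e := rfl
    rw [h1, hTe, hT, hww, hyu]
    module
  · rw [hTe]
    have h1 := one_sub_div_le z N (‖y‖ ^ 2) hz0 hN0 hN2 (by positivity)
    have h2 := one_sub_div_le (k * z + d) W (k ^ 2 * ‖y‖ ^ 2) hkz0 hW0 hW2 (by positivity)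
    have h3 : k ^ 2 * ‖y‖ ^ 2 / (2 * (k * z + d) ^ 2) ≤ 2 * ‖y‖ ^ 2 / z ^ 2 := by
      rw [div_le_div_iff₀ (by positivity) (by positivity)]
      have h4 : (z / 2) ^ 2 ≤ (k * z + d) ^ 2 := by gcongr
      have h5 : k ^ 2 ≤ 1 := by nlinarith
      have h6 : 0 ≤ ‖y‖ ^ 2 := by positivity
      calc k ^ 2 * ‖y‖ ^ 2 * z ^ 2 ≤ 1 * ‖y‖ ^ 2 * z ^ 2 := by gcongr
        _ = 4 * ‖y‖ ^ 2 * (z / 2) ^ 2 := by ring
        _ ≤ 4 * ‖y‖ ^ 2 * (k * z + d) ^ 2 := by gcongr
        _ = _ := by ring
    have h4 : z - r / N * z + d - s / W * (k * z + d) - z - (d - r - s)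
        = r * (1 - z / N) + s * (1 - (k * z + d) / W) := by ring
    rw [h4]
    calc r * (1 - z / N) + s * (1 - (k * z + d) / W)
        ≤ r * (‖y‖ ^ 2 / (2 * z ^ 2)) + s * (2 * ‖y‖ ^ 2 / z ^ 2) := by
          gcongr
          exact h2.trans h3
      _ = _ := by
        field_simp

/-- the displacement has `e`-component at least the gap -/
theorem disp {a b e : E} {r s d : ℝ} (he : ‖e‖ = 1)
    (hb : b = a + d • e) {PA PB : E → E} (hPA : IsProj (closedBall a r) PA)
    (hPB : IsProj (closedBall b s) PB) (x : E) :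
    inner ℝ (x - DR PA PB x) e ≤ -(d - r - s) := by
  have hee : inner ℝ e e = (1 : ℝ) := by rw [real_inner_self_eq_norm_sq, he]; norm_num
  rw [DR_eq]
  set p := PA x with hp
  set q := PB ((2 : ℝ) • p - x) with hq
  have h1 : inner ℝ (p - a) e ≤ r := by
    have h2 := real_inner_le_norm (p - a) e
    rw [he, mul_one] at h2
    have h3 := (hPA x).1
    rw [mem_closedBall, dist_eq_norm] at h3
    linarith
  have h2 : -s ≤ inner ℝ (q - b) e := by
    have h2 := neg_le_of_abs_le (abs_real_inner_le_norm (q - b) e)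
    rw [he, mul_one] at h2
    have h3 := (hPB ((2 : ℝ) • p - x)).1
    rw [mem_closedBall, dist_eq_norm] at h3
    linarith
  have h3 : x - (x - p + q) = (p - a) - (q - b) - d • e := by rw [hb]; abel
  rw [h3, inner_sub_left, inner_sub_left, inner_smul_left, hee]
  simp only [conj_trivial]
  linarith

/-- minimal displacement vector -/
def IsMinDisp (T : E → E) (v : E) : Prop :=
  v ∈ closure (Set.range fun x => x - T x) ∧ ∀ w ∈ closure (Set.range fun x => x - T x), ‖v‖ ≤ ‖w‖

theorem minDisp {a b e : E} {r s d : ℝ} (hr : 0 ≤ r) (hs : 0 ≤ s) (he : ‖e‖ = 1)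
    (hb : b = a + d • e) (hd : r + s < d) {PA PB : E → E} (hPA : IsProj (closedBall a r) PA)
    (hPB : IsProj (closedBall b s) PB) (v : E) (hv : IsMinDisp (DR PA PB) v) :
    v = -((d - r - s) • e) := by
  have hee : inner ℝ e e = (1 : ℝ) := by rw [real_inner_self_eq_norm_sq, he]; norm_num
  set g := d - r - s with hg
  have hg0 : 0 < g := by linarith
  have h1 : inner ℝ v e ≤ -g := by
    have hcl : IsClosed {w : E | inner ℝ w e ≤ -g} :=
      isClosed_le (continuous_id.inner continuous_const) continuous_const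
    have hsub : (Set.range fun x => x - DR PA PB x) ⊆ {w : E | inner ℝ w e ≤ -g} := by
      rintro _ ⟨x, rfl⟩
      exact disp he hb hPA hPB x
    exact closure_minimal hsub hcl hv.1
  have h2 : -(g • e) ∈ Set.range fun x => x - DR PA PB x := by
    refine ⟨a + r • e, ?_⟩
    have h3 : PA (a + r • e) = a + r • e := by
      apply proj_mem hPA
      rw [mem_closedBall, dist_eq_norm, add_sub_cancel_left, norm_smul, he,
        Real.norm_of_nonneg hr, mul_one]
    have h4 : (2 : ℝ) • (a + r • e) - (a + r • e) = a + r • e := by module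
    have h5 : a + r • e - b = -((d - r) • e) := by rw [hb]; module
    have h6 : ‖a + r • e - b‖ = d - r := by
      rw [h5, norm_neg, norm_smul, he, mul_one, Real.norm_of_nonneg (by linarith)]
    show a + r • e - DR PA PB (a + r • e) = -(g • e)
    rw [DR_eq, h3, h4, proj_ball hs hPB (a + r • e) (by rw [h6]; linarith), h6, h5, hb, hg]
    have h7 : d - r ≠ 0 := by linarith
    have h8 : (s / (d - r)) • -((d - r) • e) = -(s • e) := by
      rw [smul_neg, smul_smul, div_mul_cancel₀ _ h7]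
    rw [h8]
    module
  have h3 : ‖v‖ ≤ g := by
    have := hv.2 _ (subset_closure h2)
    rwa [norm_neg, norm_smul, he, mul_one, Real.norm_of_nonneg hg0.le] at this
  have h4 : ‖v + g • e‖ ^ 2 ≤ 0 := by
    rw [norm_add_sq_real, inner_smul_right, norm_smul, he, mul_one, Real.norm_of_nonneg hg0.le]
    have h5 : ‖v‖ ^ 2 ≤ g ^ 2 := by gcongr
    nlinarith
  have h5 : v + g • e = 0 := by
    have h6 : 0 ≤ ‖v + g • e‖ ^ 2 := by positivity
    exact norm_eq_zero.mp (pow_eq_zero_iff two_ne_zero |>.mp (le_antisymm h4 h6))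
  exact eq_neg_of_add_eq_zero_left h5

/-- product of factors in `[0,1]` -/
theorem perp_conv (y : ℕ → E) (h : ∀ n, ∃ c : ℝ, 0 ≤ c ∧ c ≤ 1 ∧ y (n + 1) = c • y n) :
    ∃ L, Tendsto y atTop (𝓝 L) := by
  choose c hc0 hc1 hc using h
  have h1 : ∀ n, y n = (∏ i ∈ Finset.range n, c i) • y 0 := by
    intro n
    induction n with
    | zero => simp
    | succ n ih => rw [hc, ih, smul_smul, Finset.prod_range_succ, mul_comm]
  have h2 : Antitone fun n => ∏ i ∈ Finset.range n, c i := by
    refine antitone_nat_of_succ_le fun n => ?_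
    rw [Finset.prod_range_succ]
    exact mul_le_of_le_one_right (Finset.prod_nonneg fun i _ => hc0 i) (hc1 n)
  have h3 := tendsto_atTop_ciInf h2
    ⟨0, by rintro _ ⟨n, rfl⟩; exact Finset.prod_nonneg fun i _ => hc0 i⟩
  refine ⟨(⨅ n, ∏ i ∈ Finset.range n, c i) • y 0, ?_⟩
  exact (h3.smul_const (y 0)).congr fun n => (h1 n).symm

theorem perp_norm (y : ℕ → E) (h : ∀ n, ∃ c : ℝ, 0 ≤ c ∧ c ≤ 1 ∧ y (n + 1) = c • y n) (n : ℕ) :
    ‖y n‖ ≤ ‖y 0‖ := by
  induction n with
  | zero => exact le_rfl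
  | succ n ih =>
    obtain ⟨c, hc0, hc1, hc⟩ := h n
    rw [hc, norm_smul, Real.norm_of_nonneg hc0]
    exact (mul_le_of_le_one_left (norm_nonneg _) hc1).trans ih

/-- scalar sequence with summable increments -/
theorem scal_conv (f : ℕ → ℝ) (K : ℝ) (h0 : ∀ n, 0 ≤ f (n + 1) - f n)
    (h1 : ∀ n : ℕ, f (n + 1) - f n ≤ K / ((n : ℝ) + 1) ^ 2) : ∃ L, Tendsto f atTop (𝓝 L) := by
  have hs : Summable fun n : ℕ => K / ((n : ℝ) + 1) ^ 2 := by
    have h2 : Summable fun n : ℕ => 1 / ((n : ℝ)) ^ 2 := Real.summable_one_div_nat_pow.mpr one_lt_two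
    have h3 := (summable_nat_add_iff 1).mpr h2
    have h4 := h3.mul_left K
    refine h4.congr fun n => ?_
    push_cast
    ring
  have hs2 : Summable fun n => f (n + 1) - f n := Summable.of_nonneg_of_le h0 h1 hs
  obtain ⟨S, hS⟩ := hs2
  have h3 := hS.tendsto_sum_nat
  refine ⟨S + f 0, ?_⟩
  have h4 : ∀ n, (∑ i ∈ Finset.range n, (f (i + 1) - f i)) + f 0 = f n := by
    intro n
    rw [Finset.sum_range_sub]
    ring
  exact (h3.add_const (f 0)).congr h4

theorem disjoint_case {a b : E} {r s : ℝ} (hr : 0 ≤ r) (hs : 0 ≤ s) (hd : r + s < ‖b - a‖)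
    {PA PB : E → E} (hPA : IsProj (closedBall a r) PA) (hPB : IsProj (closedBall b s) PB)
    (v : E) (hv : IsMinDisp (DR PA PB) v) (x : E) :
    ∃ L, Tendsto (fun n : ℕ => (DR PA PB)^[n] x + (n : ℝ) • v) atTop (𝓝 L) := by
  set d := ‖b - a‖ with hdd
  have hd0 : 0 < d := by linarith
  set e := (1 / d) • (b - a) with he'
  have he : ‖e‖ = 1 := by
    rw [he', norm_smul, Real.norm_of_nonneg (by positivity), ← hdd, one_div,
      inv_mul_cancel₀ hd0.ne']
  have hb : b = a + d • e := by
    rw [he', smul_smul, mul_one_div, div_self hd0.ne', one_smul]; abel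
  have hvv := minDisp hr hs he hb hd hPA hPB v hv
  set g := d - r - s with hg
  have hg0 : 0 < g := by linarith
  set T := DR PA PB with hT
  set z : ℕ → ℝ := fun n => inner ℝ (T^[n] x - a) e with hz
  have hzs : ∀ n, z n + g ≤ z (n + 1) := by
    intro n
    have h1 := disp he hb hPA hPB (T^[n] x)
    have h2 : T^[n + 1] x - a = (T^[n] x - a) - (T^[n] x - T (T^[n] x)) := by
      rw [Function.iterate_succ_apply']; abel
    show z n + g ≤ inner ℝ (T^[n + 1] x - a) e
    rw [h2, inner_sub_left]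
    show z n + g ≤ z n - _
    linarith
  have hzn : ∀ n : ℕ, z 0 + n * g ≤ z n := by
    intro n
    induction n with
    | zero => simp
    | succ n ih =>
      have := hzs n
      push_cast
      linarith
  obtain ⟨m, hm⟩ : ∃ m : ℕ, 4 * r + 4 * s + 1 + g ≤ z m := by
    obtain ⟨m, hm⟩ := exists_nat_ge ((4 * r + 4 * s + 1 + g - z 0) / g)
    refine ⟨m, ?_⟩
    rw [div_le_iff₀ hg0] at hm
    have := hzn m
    linarith
  have hzm : ∀ n : ℕ, 4 * r + 4 * s + 1 + g + n * g ≤ z (n + m) := by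
    intro n
    induction n with
    | zero => simpa using hm
    | succ n ih =>
      have := hzs (n + m)
      have h2 : n + 1 + m = n + m + 1 := by ring
      rw [h2]
      push_cast
      linarith
  have hstep := fun n : ℕ => far_step hr hs he hb hd hPA hPB (T^[n + m] x)
    (le_trans (by have : (0 : ℝ) ≤ n * g := by positivity
                  linarith) (hzm n))
  set y : ℕ → E := fun n => perp a e (T^[n + m] x) with hy
  have hTs : ∀ n, T (T^[n + m] x) = T^[n + 1 + m] x := by
    intro n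
    have h1 : n + 1 + m = (n + m) + 1 := by ring
    rw [h1, Function.iterate_succ_apply']
  have hyc : ∀ n, ∃ c : ℝ, 0 ≤ c ∧ c ≤ 1 ∧ y (n + 1) = c • y n := by
    intro n
    obtain ⟨c, hc0, hc1, hc, -⟩ := hstep n
    rw [← hT, hTs] at hc
    exact ⟨c, hc0, hc1, hc⟩
  obtain ⟨Ly, hLy⟩ := perp_conv y hyc
  set f : ℕ → ℝ := fun n => z (n + m) - (n + m : ℕ) * g with hf
  have hf0 : ∀ n, 0 ≤ f (n + 1) - f n := by
    intro n
    have h1 := hzs (n + m)
    have h2 : n + 1 + m = n + m + 1 := by ring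
    simp only [hf, h2]
    push_cast
    linarith
  have hf1 : ∀ n : ℕ, f (n + 1) - f n
      ≤ ((r / 2 + 2 * s) * ‖y 0‖ ^ 2 / g ^ 2) / ((n : ℝ) + 1) ^ 2 := by
    intro n
    obtain ⟨c, -, -, -, h1⟩ := hstep n
    rw [← hT, hTs] at h1
    have h2 : f (n + 1) - f n = z (n + 1 + m) - z (n + m) - g := by
      simp only [hf]
      push_cast
      ring
    rw [h2]
    refine le_trans h1 ?_
    show (r / 2 + 2 * s) * ‖y n‖ ^ 2 / z (n + m) ^ 2 ≤ _
    rw [div_div, ← mul_pow]
    have h3 : 0 < g * ((n : ℝ) + 1) := by positivity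
    have h4 : g * ((n : ℝ) + 1) ≤ z (n + m) := by
      have := hzm n
      nlinarith
    have h5 := perp_norm y hyc n
    gcongr
  obtain ⟨Lf, hLf⟩ := scal_conv f _ hf0 hf1
  refine ⟨a + Lf • e + Ly, ?_⟩
  rw [← tendsto_add_atTop_iff_nat m]
  have h1 : ∀ n : ℕ, T^[n + m] x + ((n + m : ℕ) : ℝ) • v = a + f n • e + y n := by
    intro n
    rw [hvv]
    simp only [hy, hf, perp]
    show _ = a + (inner ℝ (T^[n + m] x - a) e - ((n + m : ℕ) : ℝ) * g) • e
      + (T^[n + m] x - a - (inner ℝ (T^[n + m] x - a) e : ℝ) • e)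
    module
  simp only [h1]
  exact (tendsto_const_nhds.add (hLf.smul_const e)).add hLy

end Pool.Agent.V11114.DR
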