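import Mathlib

set_option autoImplicit false

namespace Pool.Agent.V11114.Cliff

open Finset Equiv

/-- Alternating sum over permutations. -/
noncomputable def alt {n : ℕ} (g : Perm (Fin n) → ℝ) : ℝ :=
  ∑ π : Perm (Fin n), (((Perm.sign π : ℤˣ) : ℤ) : ℝ) * g π

theorem alt_mul_right {n : ℕ} (c : Perm (Fin n)) (g : Perm (Fin n) → ℝ) :
    alt (fun π => g (π * c)) = (((Perm.sign c : ℤˣ) : ℤ) : ℝ) * alt g := by
  unfold alt
  rw [Finset.mul_sum]
  apply Fintype.sum_equiv (Equiv.mulRight c)
  intro π
  simp only [Equiv.coe_mulRight, Perm.sign_mul, Units.val_mul, Int.cast_mul]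
  have h : (((Perm.sign c : ℤˣ) : ℤ) : ℝ) * (((Perm.sign c : ℤˣ) : ℤ) : ℝ) = 1 := by
    rcases Int.units_eq_one_or (Perm.sign c) with h | h <;> rw [h] <;> simp
  linear_combination (-(((Perm.sign π : ℤˣ) : ℤ) : ℝ) * g (π * c)) * h

theorem alt_eq_zero {n : ℕ} (c : Perm (Fin n)) (hc : Perm.sign c = -1) (g : Perm (Fin n) → ℝ)
    (hg : ∀ π, g (π * c) = g π) : alt g = 0 := by
  have h := alt_mul_right c g
  rw [hc] at h
  simp only [hg, Units.val_neg, Units.val_one, Int.cast_neg, Int.cast_one] at h
  linarith

theorem alt_add {n : ℕ} (g h : Perm (Fin n) → ℝ) :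
    alt (fun π => g π + h π) = alt g + alt h := by
  unfold alt
  rw [← Finset.sum_add_distrib]
  exact Finset.sum_congr rfl fun π _ => by ring

theorem alt_const_mul {n : ℕ} (c : ℝ) (g : Perm (Fin n) → ℝ) :
    alt (fun π => c * g π) = c * alt g := by
  unfold alt
  rw [Finset.mul_sum]
  exact Finset.sum_congr rfl fun π _ => by ring

variable {𝔄 : Type*} [Ring 𝔄] [Algebra ℝ 𝔄] {n : ℕ}

/-- The product of the `X (π l)` over the positions `l` of the list `L`. -/
def word (X : Fin n → 𝔄) (π : Perm (Fin n)) (L : List (Fin n)) : 𝔄 :=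
  (L.map fun l => X (π l)).prod

@[simp] theorem word_nil (X : Fin n → 𝔄) (π : Perm (Fin n)) : word X π [] = 1 := rfl

@[simp] theorem word_cons (X : Fin n → 𝔄) (π : Perm (Fin n)) (a : Fin n) (L : List (Fin n)) :
    word X π (a :: L) = X (π a) * word X π L := by simp [word]

@[simp] theorem word_append (X : Fin n → 𝔄) (π : Perm (Fin n)) (L M : List (Fin n)) :
    word X π (L ++ M) = word X π L * word X π M := by simp [word]

theorem word_map (X : Fin n → 𝔄) (π c : Perm (Fin n)) (L : List (Fin n)) :
    word X π (L.map c) = word X (π * c) L := by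
  simp [word, List.map_map, Function.comp_def]

theorem word_congr (X : Fin n → 𝔄) (π c : Perm (Fin n)) (L : List (Fin n))
    (h : ∀ l ∈ L, c l = l) : word X (π * c) L = word X π L := by
  unfold word
  congr 1
  apply List.map_congr_left
  intro l hl
  simp [h l hl]

theorem map_formPerm (L : List (Fin n)) (hL : L.Nodup) : L.map L.formPerm = L.rotate 1 := by
  apply List.ext_getElem
  · simp
  · intro i h1 h2
    rw [List.getElem_map, List.getElem_rotate]
    exact List.formPerm_apply_getElem L hL i (by simpa using h1)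

theorem sign_formPerm (L : List (Fin n)) (hL : L.Nodup) (h2 : 2 ≤ L.length)
    (he : Even L.length) : Perm.sign L.formPerm = -1 := by
  rw [(List.isCycle_formPerm hL h2).sign, List.support_formPerm_of_nodup L hL]
  · rw [List.toFinset_card_of_nodup hL, he.neg_one_pow]
  · intro x h
    rw [h] at h2
    simp at h2

/-- Vanishing of alternating sums by cyclicity. -/
theorem alt_cyc (τ : 𝔄 →ₗ[ℝ] ℝ) (hτ : ∀ a b, τ (a * b) = τ (b * a)) (E : 𝔄)
    (X : Fin n → 𝔄) (hX : ∀ j, E * X j = X j * E) (L : List (Fin n)) (hL : L.Nodup)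
    (h2 : 2 ≤ L.length) (he : Even L.length) :
    alt (fun π => τ (E * word X π L)) = 0 := by
  apply alt_eq_zero L.formPerm (sign_formPerm L hL h2 he)
  intro π
  rw [← word_map, map_formPerm L hL]
  cases L with
  | nil => simp at h2
  | cons a L' =>
    rw [List.rotate_cons_succ, List.rotate_zero, word_append, word_cons, word_cons, word_nil,
      mul_one]
    rw [← mul_assoc, hτ (E * word X π L') (X (π a)), ← mul_assoc, ← hX, mul_assoc]

/-- Derivative of a word: `X i * X j` is the derivative of `X j`. -/
def dword (X : Fin n → 𝔄) (π : Perm (Fin n)) (i : Fin n) : List (Fin n) → 𝔄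
  | [] => 0
  | a :: L => X i * X (π a) * word X π L + X (π a) * dword X π i L

theorem alt_dword (τ : 𝔄 →ₗ[ℝ] ℝ) (hτ : ∀ a b, τ (a * b) = τ (b * a)) (E : 𝔄)
    (X : Fin (n + 1) → 𝔄) (hX : ∀ j, E * X j = X j * E) (L : List (Fin (n + 1))) :
    ∀ P : List (Fin (n + 1)), (P ++ 0 :: L).Nodup → 2 ≤ (P ++ 0 :: L).length →
      Even (P ++ 0 :: L).length →
      alt (fun π => τ (E * (word X π P * dword X π (π 0) L))) = 0 := by
  induction L with
  | nil =>
    intro P _ _ _
    simp [dword, alt]
  | cons a L ih =>
    intro P h1 h2 h3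
    have e : ∀ π : Perm (Fin (n + 1)), τ (E * (word X π P * dword X π (π 0) (a :: L)))
        = τ (E * word X π (P ++ 0 :: a :: L))
          + τ (E * (word X π (P ++ [a]) * dword X π (π 0) L)) := by
      intro π
      rw [← map_add]
      congr 1
      simp only [dword, word_append, word_cons, word_nil, mul_one]
      noncomm_ring
    simp only [e]
    rw [alt_add, alt_cyc τ hτ E X hX _ h1 h2 h3, zero_add]
    have hperm : (P ++ 0 :: a :: L).Perm ((P ++ [a]) ++ 0 :: L) := by
      rw [List.append_assoc]
      apply List.Perm.append_left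
      exact List.Perm.swap _ _ _
    apply ih
    · exact hperm.nodup_iff.mp h1
    · rw [← hperm.length_eq]; exact h2
    · rw [← hperm.length_eq]; exact h3

/-! Products of anticommuting elements. -/

theorem ofFn_swap (m : ℕ) : ∀ (G : Fin (m + 1) → 𝔄) (_ : ∀ i j, i ≠ j → G i * G j = -(G j * G i))
    (i : Fin m), (List.ofFn (G ∘ swap i.castSucc i.succ)).prod = -(List.ofFn G).prod := by
  induction m with
  | zero => intro _ _ i; exact i.elim0
  | succ m ih =>
    intro G hG i
    induction i using Fin.cases with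
    | zero =>
      rw [List.ofFn_succ, List.ofFn_succ, List.ofFn_succ (f := G), List.ofFn_succ]
      simp only [List.prod_cons, Function.comp]
      have h0 : (swap (Fin.castSucc (0 : Fin (m + 1))) (Fin.succ 0)) 0 = 1 := by simp
      have h1 : (swap (Fin.castSucc (0 : Fin (m + 1))) (Fin.succ 0)) (Fin.succ 0) = 0 := by simp
      rw [h0, h1]
      have h2 : ∀ j : Fin m, (swap (Fin.castSucc (0 : Fin (m + 1))) (Fin.succ 0)) j.succ.succ
          = j.succ.succ := by
        intro j
        apply swap_apply_of_ne_of_ne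
        · exact Fin.succ_ne_zero _
        · intro h
          exact Fin.succ_ne_zero j (Fin.succ_injective _ h)
      simp only [h2]
      have h3 := hG 1 0 (by simp)
      rw [← mul_assoc, h3]
      have h4 : (Fin.succ 0 : Fin (m + 2)) = 1 := rfl
      rw [h4]
      noncomm_ring
    | succ i =>
      rw [List.ofFn_succ, List.ofFn_succ (f := G)]
      simp only [List.prod_cons, Function.comp]
      have h0 : (swap (Fin.castSucc (Fin.succ i)) (Fin.succ (Fin.succ i))) 0 = 0 := by
        apply swap_apply_of_ne_of_ne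
        · rw [Fin.castSucc_succ]; exact (Fin.succ_ne_zero _).symm
        · exact (Fin.succ_ne_zero _).symm
      rw [h0]
      have h1 : ∀ j : Fin (m + 1), (swap (Fin.castSucc (Fin.succ i)) (Fin.succ (Fin.succ i))) j.succ
          = ((swap i.castSucc i.succ) j).succ := by
        intro j
        rw [Fin.castSucc_succ, swap_apply_def, swap_apply_def]
        simp only [Fin.succ_inj]
        split_ifs <;> rfl
      simp only [h1]
      have h2 := ih (fun j => G j.succ) (fun a b hab => hG _ _ (fun h => hab (Fin.succ_injective _ h))) i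
      have h3 : (fun j => G ((swap i.castSucc i.succ) j).succ)
          = ((fun j => G j.succ) ∘ swap i.castSucc i.succ) := rfl
      rw [h3, h2]
      noncomm_ring

theorem ofFn_perm (G : Fin n → 𝔄) (hG : ∀ i j, i ≠ j → G i * G j = -(G j * G i))
    (π : Perm (Fin n)) :
    (List.ofFn (G ∘ π)).prod = (((Perm.sign π : ℤˣ) : ℤ) : ℝ) • (List.ofFn G).prod := by
  cases n with
  | zero =>
    have : π = 1 := Subsingleton.elim _ _
    subst this
    simp
  | succ m =>
    have hmem : π ∈ Submonoid.closure (Set.range fun i : Fin m => swap i.castSucc i.succ) := by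
      rw [Perm.mclosure_swap_castSucc_succ]; trivial
    revert G
    induction hmem using Submonoid.closure_induction with
    | mem x hx =>
      intro G hG
      obtain ⟨i, rfl⟩ := hx
      rw [ofFn_swap m G hG i]
      rw [Perm.sign_swap (Fin.castSucc_lt_succ).ne]
      simp
    | one => intro G _; simp
    | mul x y _ _ hx hy =>
      intro G hG
      have e : (List.ofFn (G ∘ (x * y))) = List.ofFn ((G ∘ x) ∘ y) := rfl
      rw [e, hy (G ∘ x) (fun i j hij => hG _ _ (fun h => hij (x.injective h))), hx G hG, smul_smul]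
      congr 1
      rw [Perm.sign_mul]
      push_cast
      ring

end Pool.Agent.V11114.Cliff
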