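import Mathlib
import Pool.Agent.V11114.Cliff1

set_option autoImplicit false

namespace Pool.Agent.V11114.Cliff

open Finset Equiv

variable {𝔄 : Type*} [Ring 𝔄] [Algebra ℝ 𝔄] {n : ℕ}

/-- `y · G`. -/
def vec (G : Fin n → 𝔄) (y : Fin n → ℝ) : 𝔄 := ∑ j, y j • G j

/-- `|y|²`. -/
def qq (y : Fin n → ℝ) : ℝ := ∑ j, y j ^ 2

theorem vec_anti (G : Fin n → 𝔄) (hsq : ∀ i, G i * G i = 1)
    (hanti : ∀ i j, i ≠ j → G i * G j = -(G j * G i)) (y : Fin n → ℝ) (i : Fin n) :
    G i * vec G y = (2 * y i) • (1 : 𝔄) - vec G y * G i := by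
  rw [eq_sub_iff_add_eq]
  unfold vec
  rw [Finset.mul_sum, Finset.sum_mul, ← Finset.sum_add_distrib,
    Finset.sum_eq_single_of_mem i (Finset.mem_univ i)]
  · rw [mul_smul_comm, smul_mul_assoc, hsq, ← add_smul, two_mul]
  · intro j _ hj
    rw [mul_smul_comm, smul_mul_assoc, hanti i j (Ne.symm hj), smul_neg, neg_add_cancel]

theorem vec_sq (G : Fin n → 𝔄) (hsq : ∀ i, G i * G i = 1)
    (hanti : ∀ i j, i ≠ j → G i * G j = -(G j * G i)) (y : Fin n → ℝ) :
    vec G y * vec G y = qq y • (1 : 𝔄) := by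
  have h1 : vec G y * vec G y = ∑ j, y j • (G j * vec G y) := by
    conv_lhs => enter [1]; unfold vec
    rw [Finset.sum_mul]
    exact Finset.sum_congr rfl fun j _ => by rw [smul_mul_assoc]
  have h2 : ∑ j, y j • (G j * vec G y) = (2 * qq y) • (1 : 𝔄) - vec G y * vec G y := by
    simp only [vec_anti G hsq hanti, smul_sub, Finset.sum_sub_distrib, smul_smul]
    congr 1
    · rw [← Finset.sum_smul]
      congr 1
      unfold qq
      rw [Finset.mul_sum]
      exact Finset.sum_congr rfl fun j _ => by ring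
    · have : ∀ j, y j • (vec G y * G j) = vec G y * (y j • G j) := fun j => by
        rw [mul_smul_comm]
      simp only [this]
      rw [← Finset.mul_sum]
      rfl
  rw [h2] at h1
  have h3 : (2 : ℝ) • (vec G y * vec G y) = (2 : ℝ) • (qq y • (1 : 𝔄)) := by
    rw [two_smul, smul_smul]
    nth_rewrite 1 [h1]
    rw [sub_add_cancel]
  exact smul_right_injective 𝔄 (two_ne_zero (α := ℝ)) h3

/-- the auxiliary alternating sums -/
noncomputable def HH (τ : 𝔄 →ₗ[ℝ] ℝ) (E : 𝔄) (G : Fin (n + 1) → 𝔄) (y : Fin (n + 1) → ℝ)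
    (P L : List (Fin (n + 1))) : ℝ :=
  alt (fun π => y (π 0) * τ (E * (word G π P * word (fun j => vec G y * G j) π L)))

theorem HH_step (τ : 𝔄 →ₗ[ℝ] ℝ) (E : 𝔄) (G : Fin (n + 1) → 𝔄) (hsq : ∀ i, G i * G i = 1)
    (hanti : ∀ i j, i ≠ j → G i * G j = -(G j * G i)) (y : Fin (n + 1) → ℝ)
    (P L : List (Fin (n + 1))) (a b : Fin (n + 1)) (hnd : (0 :: (P ++ a :: b :: L)).Nodup) :
    HH τ E G y P (a :: b :: L) = - qq y * HH τ E G y (P ++ [a, b]) L := by
  unfold HH
  have e : ∀ π : Perm (Fin (n + 1)),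
      y (π 0) * τ (E * (word G π P * word (fun j => vec G y * G j) π (a :: b :: L)))
      = 2 * (y (π 0) * y (π a) * τ (E * (word G π P * (vec G y * G (π b) *
          word (fun j => vec G y * G j) π L))))
        + (- qq y) * (y (π 0) * τ (E * (word G π (P ++ [a, b]) *
          word (fun j => vec G y * G j) π L))) := by
    intro π
    have h1 : vec G y * G (π a) * (vec G y * G (π b))
        = (2 * y (π a)) • (vec G y * G (π b)) - qq y • (G (π a) * G (π b)) := by
      calc vec G y * G (π a) * (vec G y * G (π b))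
          = vec G y * (G (π a) * vec G y) * G (π b) := by noncomm_ring
        _ = vec G y * ((2 * y (π a)) • (1 : 𝔄) - vec G y * G (π a)) * G (π b) := by
            rw [vec_anti G hsq hanti]
        _ = (2 * y (π a)) • (vec G y * G (π b)) - (vec G y * vec G y) * G (π a) * G (π b) := by
            rw [mul_sub, sub_mul, mul_smul_comm, mul_one, smul_mul_assoc]
            noncomm_ring
        _ = _ := by rw [vec_sq G hsq hanti, smul_mul_assoc, one_mul, smul_mul_assoc]
    have h2 : word (fun j => vec G y * G j) π (a :: b :: L)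
        = (2 * y (π a)) • (vec G y * G (π b) * word (fun j => vec G y * G j) π L)
          - qq y • (G (π a) * G (π b) * word (fun j => vec G y * G j) π L) := by
      rw [word_cons, word_cons, ← mul_assoc, h1, sub_mul, smul_mul_assoc, smul_mul_assoc]
    rw [h2, mul_sub, mul_sub, map_sub, mul_smul_comm, mul_smul_comm, map_smul, mul_smul_comm,
      mul_smul_comm, map_smul, word_append, word_cons, word_cons, word_nil, mul_one]
    simp only [smul_eq_mul, mul_assoc]
    ring
  simp only [e]
  rw [alt_add, alt_const_mul, alt_const_mul]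
  have hz : alt (fun π => y (π 0) * y (π a) * τ (E * (word G π P * (vec G y * G (π b) *
          word (fun j => vec G y * G j) π L)))) = 0 := by
    rw [List.nodup_cons] at hnd
    obtain ⟨h0, hnd⟩ := hnd
    simp only [List.mem_append, List.mem_cons, not_or] at h0
    obtain ⟨h0P, h0a, h0b, h0L⟩ := h0
    rw [List.nodup_append] at hnd
    obtain ⟨_, hnd2, hdisj⟩ := hnd
    rw [List.nodup_cons] at hnd2
    obtain ⟨haL, hnd3⟩ := hnd2
    simp only [List.mem_cons, not_or] at haL
    have hsw : ∀ l, l ≠ 0 → l ≠ a → (swap 0 a) l = l := fun l h1 h2 =>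
      swap_apply_of_ne_of_ne h1 h2
    apply alt_eq_zero (swap 0 a) (Perm.sign_swap h0a)
    intro π
    have hP : word G (π * swap 0 a) P = word G π P := by
      apply word_congr
      intro l hl
      apply hsw
      · rintro rfl; exact h0P hl
      · rintro rfl; exact hdisj l hl l (by simp) rfl
    have hL' : word (fun j => vec G y * G j) (π * swap 0 a) L
        = word (fun j => vec G y * G j) π L := by
      apply word_congr
      intro l hl
      apply hsw
      · rintro rfl; exact h0L hl
      · rintro rfl; exact haL.2 hl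
    have hb : (π * swap 0 a) b = π b := by
      rw [Perm.mul_apply, hsw b (Ne.symm h0b) (Ne.symm haL.1)]
    rw [hP, hL', hb]
    simp only [Perm.mul_apply, swap_apply_left, swap_apply_right]
    ring
  rw [hz, mul_zero, zero_add]

theorem word_anti (G : Fin n → 𝔄) (g : 𝔄) (π : Perm (Fin n)) (L : List (Fin n))
    (h : ∀ l ∈ L, g * G (π l) = -(G (π l) * g)) :
    g * word G π L = ((-1 : ℝ) ^ L.length) • (word G π L * g) := by
  induction L with
  | nil => simp
  | cons a L ih =>
    rw [word_cons, ← mul_assoc, h a (by simp), neg_mul, mul_assoc, ih (fun l hl => h l (by simp [hl])),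
      List.length_cons, pow_succ, mul_smul_comm, mul_neg_one, neg_smul, mul_assoc]

theorem missing (τ : 𝔄 →ₗ[ℝ] ℝ) (hτ : ∀ a b, τ (a * b) = τ (b * a)) (E g W : 𝔄)
    (hg : g * g = 1) (hE : E * g = -(g * E)) (hW : g * W = W * g) : τ (E * W) = 0 := by
  have h1 : τ (E * W) = - τ (E * W) := by
    calc τ (E * W) = τ ((E * W * g) * g) := by rw [mul_assoc (E * W), hg, mul_one]
      _ = τ (g * (E * W * g)) := hτ _ _
      _ = τ ((g * E) * (W * g)) := by congr 1; noncomm_ring
      _ = τ (-(E * g) * (g * W)) := by rw [hE, neg_neg, hW]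
      _ = - τ (E * (g * g) * W) := by rw [← map_neg]; congr 1; noncomm_ring
      _ = - τ (E * W) := by rw [hg, mul_one]
  linarith

theorem exists_perm (L : List (Fin n)) (hL : L.Nodup) (hlen : L.length = n) :
    ∃ c : Perm (Fin n), L = List.ofFn (fun i => c i) := by
  have hinj : Function.Injective (fun m : Fin n => L.get (m.cast hlen.symm)) := by
    intro a b h
    have := List.nodup_iff_injective_get.mp hL h
    exact Fin.cast_injective _ this
  refine ⟨Equiv.ofBijective _ (Finite.injective_iff_bijective.mp hinj), ?_⟩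
  apply List.ext_getElem
  · simp [hlen]
  · intro i h1 h2
    simp

theorem word_perm (G : Fin n → 𝔄) (hanti : ∀ i j, i ≠ j → G i * G j = -(G j * G i))
    (L : List (Fin n)) (hL : L.Nodup) (hlen : L.length = n) :
    ∃ c : Perm (Fin n), ∀ π : Perm (Fin n),
      word G π L = (((Perm.sign (π * c) : ℤˣ) : ℤ) : ℝ) • (List.ofFn G).prod := by
  obtain ⟨c, hc⟩ := exists_perm L hL hlen
  refine ⟨c, fun π => ?_⟩
  rw [← ofFn_perm G hanti]
  unfold word
  congr 1
  conv_lhs => rw [hc]
  rw [List.map_ofFn]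
  rfl

/-- sum of squares over permutations -/
noncomputable def SS (y : Fin (n + 1) → ℝ) : ℝ := ∑ π : Perm (Fin (n + 1)), y (π 0) ^ 2

theorem HH_final (τ : 𝔄 →ₗ[ℝ] ℝ) (hτ : ∀ a b, τ (a * b) = τ (b * a)) (E : 𝔄)
    (G : Fin (n + 1) → 𝔄) (hsq : ∀ i, G i * G i = 1)
    (hanti : ∀ i j, i ≠ j → G i * G j = -(G j * G i)) (hE : ∀ i, E * G i = -(G i * E))
    (P : List (Fin (n + 1))) (l : Fin (n + 1)) (hnd : (0 :: (P ++ [l])).Nodup)
    (hlen : (P ++ [l]).length = n) (hn : Even (n + 1)) :
    ∃ σ : ℝ, σ ^ 2 = 1 ∧ ∀ y, HH τ E G y P [l] = σ * τ (E * (List.ofFn G).prod) * SS y := by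
  have hperm : (0 :: (P ++ [l])).Perm (P ++ [0, l]) := by
    have : P ++ [0, l] = P ++ 0 :: [l] := rfl
    rw [this]
    exact (List.perm_middle).symm
  have hnd' : (P ++ [0, l]).Nodup := hperm.nodup_iff.mp hnd
  have hlen' : (P ++ [0, l]).length = n + 1 := by
    rw [← hperm.length_eq, List.length_cons, hlen]
  obtain ⟨c, hc⟩ := word_perm G hanti (P ++ [0, l]) hnd' hlen'
  refine ⟨(((Perm.sign c : ℤˣ) : ℤ) : ℝ), ?_, ?_⟩
  · rcases Int.units_eq_one_or (Perm.sign c) with h | h <;> rw [h] <;> simp
  intro y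
  rw [List.nodup_cons] at hnd
  obtain ⟨h0, hnd1⟩ := hnd
  simp only [List.mem_append, List.mem_singleton, not_or] at h0
  have key : ∀ π : Perm (Fin (n + 1)),
      τ (E * (word G π P * word (fun j => vec G y * G j) π [l]))
        = y (π 0) * τ (E * word G π (P ++ [0, l])) := by
    intro π
    have hvec : vec G y = ∑ m, y (π m) • G (π m) := by
      unfold vec
      exact (Equiv.sum_comp π (fun j => y j • G j)).symm
    have h1 : word G π P * word (fun j => vec G y * G j) π [l]
        = ∑ m, y (π m) • (word G π (P ++ [m, l])) := by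
      rw [word_cons, word_nil, mul_one]
      conv_lhs => rw [hvec]
      rw [Finset.sum_mul, Finset.mul_sum]
      refine Finset.sum_congr rfl fun m _ => ?_
      rw [smul_mul_assoc, mul_smul_comm, word_append, word_cons, word_cons, word_nil, mul_one]
    rw [h1, Finset.mul_sum, map_sum, Finset.sum_eq_single_of_mem 0 (Finset.mem_univ _)]
    · rw [mul_smul_comm, map_smul, smul_eq_mul]
    · intro m _ hm
      rw [mul_smul_comm, map_smul]
      have h2 : τ (E * word G π (P ++ [m, l])) = 0 := by
        apply missing τ hτ E (G (π 0)) _ (hsq _) (hE _)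
        rw [word_anti G (G (π 0)) π (P ++ [m, l])]
        · have : (P ++ [m, l]).length = n + 1 := by
            rw [List.length_append] at hlen ⊢
            simp only [List.length_cons, List.length_nil] at hlen ⊢
            omega
          rw [this, hn.neg_one_pow, one_smul]
        · intro l' hl'
          apply hanti
          intro h
          have h3 := π.injective h
          subst h3
          simp only [List.mem_append, List.mem_cons, List.not_mem_nil, or_false] at hl'
          rcases hl' with h | h | h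
          · exact h0.1 h
          · exact hm h.symm
          · exact h0.2 h
      rw [h2, smul_zero]
  unfold HH
  simp only [key, hc]
  unfold alt SS
  rw [Finset.mul_sum]
  refine Finset.sum_congr rfl fun π _ => ?_
  beta_reduce
  rw [mul_smul_comm, map_smul, smul_eq_mul, Perm.sign_mul, Units.val_mul, Int.cast_mul]
  have h : (((Perm.sign π : ℤˣ) : ℤ) : ℝ) * (((Perm.sign π : ℤˣ) : ℤ) : ℝ) = 1 := by
    rcases Int.units_eq_one_or (Perm.sign π) with h | h <;> rw [h] <;> simp
  linear_combination (y (π 0) ^ 2 * (((Perm.sign c : ℤˣ) : ℤ) : ℝ)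
    * τ (E * (List.ofFn G).prod)) * h

theorem HH_formula (τ : 𝔄 →ₗ[ℝ] ℝ) (hτ : ∀ a b, τ (a * b) = τ (b * a)) (E : 𝔄)
    (G : Fin (n + 1) → 𝔄) (hsq : ∀ i, G i * G i = 1)
    (hanti : ∀ i j, i ≠ j → G i * G j = -(G j * G i)) (hE : ∀ i, E * G i = -(G i * E))
    (hn : Even (n + 1)) (s : ℕ) : ∀ (P L : List (Fin (n + 1))), L.length = 2 * s + 1 →
    (0 :: (P ++ L)).Nodup → (P ++ L).length = n →
    ∃ σ : ℝ, σ ^ 2 = 1 ∧ ∀ y, HH τ E G y P L
      = σ * (- qq y) ^ s * τ (E * (List.ofFn G).prod) * SS y := by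
  induction s with
  | zero =>
    intro P L hL hnd hlen
    obtain ⟨l, rfl⟩ : ∃ l, L = [l] := List.length_eq_one_iff.mp (by simpa using hL)
    obtain ⟨σ, h1, h2⟩ := HH_final τ hτ E G hsq hanti hE P l hnd hlen hn
    exact ⟨σ, h1, fun y => by rw [h2, pow_zero, mul_one]⟩
  | succ s ih =>
    intro P L hL hnd hlen
    match L, hL with
    | a :: b :: L', hL' =>
      have hL'' : L'.length = 2 * s + 1 := by
        simp only [List.length_cons] at hL'
        omega
      have e : P ++ a :: b :: L' = (P ++ [a, b]) ++ L' := by simp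
      obtain ⟨σ, h1, h2⟩ := ih (P ++ [a, b]) L' hL'' (by rw [← e]; exact hnd)
        (by rw [← e]; exact hlen)
      refine ⟨σ, h1, fun y => ?_⟩
      rw [HH_step τ E G hsq hanti y P L' a b hnd, h2]
      ring

end Pool.Agent.V11114.Cliff
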