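import Mathlib
import Pool.Agent.V11114.Cliff2

set_option autoImplicit false

namespace Pool.Agent.V11114.Cliff

open Finset Equiv MeasureTheory Topology

/-- bump profile -/
noncomputable def bb (t : ℝ) : ℝ := max 0 ((t - 1) * (2 - t))

theorem bb_cont : Continuous bb := by unfold bb; fun_prop

theorem bb_nonneg (t : ℝ) : 0 ≤ bb t := le_max_left _ _

theorem bb_zero (t : ℝ) (h : t ≤ 1) : bb t = 0 := by
  unfold bb
  apply max_eq_left
  nlinarith

theorem bb_zero' (t : ℝ) (h : 2 ≤ t) : bb t = 0 := by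
  unfold bb
  apply max_eq_left
  nlinarith

/-- primitive of the bump profile -/
noncomputable def psi (t : ℝ) : ℝ := ∫ u in t..2, bb u

theorem psi_deriv (t : ℝ) : HasDerivAt psi (- bb t) t :=
  intervalIntegral.integral_hasDerivAt_left (bb_cont.intervalIntegrable _ _)
    (bb_cont.stronglyMeasurableAtFilter _ _) bb_cont.continuousAt

theorem psi_zero (t : ℝ) (h : 2 ≤ t) : psi t = 0 := by
  unfold psi
  rw [intervalIntegral.integral_congr (g := fun _ => (0 : ℝ))]
  · simp
  · intro u hu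
    rw [Set.uIcc_of_ge h] at hu
    exact bb_zero' u hu.1

theorem psi_cont : Continuous psi :=
  continuous_iff_continuousAt.mpr fun t => (psi_deriv t).continuousAt

variable {n : ℕ}

theorem qq_cont : Continuous (qq : (Fin n → ℝ) → ℝ) := by
  unfold qq; fun_prop

theorem qq_nonneg (y : Fin n → ℝ) : 0 ≤ qq y := Finset.sum_nonneg fun _ _ => sq_nonneg _

theorem hcs (f : (Fin n → ℝ) → ℝ) (hf : ∀ y, 2 ≤ qq y → f y = 0) : HasCompactSupport f := by
  apply HasCompactSupport.intro (isCompact_closedBall (0 : Fin n → ℝ) 2)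
  intro y hy
  apply hf
  rw [mem_closedBall_zero_iff, not_le] at hy
  by_contra hq
  push Not at hq
  have : ‖y‖ ≤ 2 := by
    rw [pi_norm_le_iff_of_nonneg (by norm_num)]
    intro i
    rw [Real.norm_eq_abs]
    have h1 : y i ^ 2 ≤ qq y :=
      Finset.single_le_sum (f := fun j => y j ^ 2) (fun _ _ => sq_nonneg _) (Finset.mem_univ i)
    apply abs_le_of_sq_le_sq _ (by norm_num)
    linarith
  linarith

theorem support_sub (f : (Fin n → ℝ) → ℝ) (hf : ∀ y, 2 ≤ qq y → f y = 0) :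
    Function.support f ⊆ Metric.closedBall (0 : Fin n → ℝ) 2 := by
  intro y hy
  by_contra hy'
  apply hy
  apply hf
  rw [mem_closedBall_zero_iff, not_le] at hy'
  by_contra hq
  push Not at hq
  have : ‖y‖ ≤ 2 := by
    rw [pi_norm_le_iff_of_nonneg (by norm_num)]
    intro i
    rw [Real.norm_eq_abs]
    have h1 : y i ^ 2 ≤ qq y :=
      Finset.single_le_sum (f := fun j => y j ^ 2) (fun _ _ => sq_nonneg _) (Finset.mem_univ i)
    apply abs_le_of_sq_le_sq _ (by norm_num)
    linarith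
  linarith

theorem phi_lineDeriv (y : Fin n → ℝ) (i : Fin n) :
    HasLineDerivAt ℝ (fun y => psi (qq y)) (-2 * y i * bb (qq y)) y (Pi.single i 1) := by
  unfold HasLineDerivAt
  have h1 : HasDerivAt (fun t : ℝ => qq (y + t • (Pi.single i 1 : Fin n → ℝ))) (2 * y i) 0 := by
    unfold qq
    have h2 : ∀ j : Fin n, HasDerivAt
        (fun t : ℝ => (y + t • (Pi.single i 1 : Fin n → ℝ)) j ^ 2)
        (2 * y j * (Pi.single i 1 : Fin n → ℝ) j) 0 := by
      intro j
      have h3 : HasDerivAt (fun t : ℝ => y j + t * (Pi.single i 1 : Fin n → ℝ) j)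
          ((Pi.single i 1 : Fin n → ℝ) j) 0 := by
        simpa using ((hasDerivAt_id (0 : ℝ)).mul_const ((Pi.single i 1 : Fin n → ℝ) j)).const_add
          (y j)
      have h4 := h3.fun_pow 2
      simpa using h4
    have h5 := HasDerivAt.fun_sum (u := Finset.univ) (fun j _ => h2 j)
    have h6 : ∑ j : Fin n, 2 * y j * (Pi.single i 1 : Fin n → ℝ) j = 2 * y i := by
      rw [Finset.sum_eq_single_of_mem i (Finset.mem_univ i)]
      · simp
      · intro j _ hj
        simp [Pi.single_eq_of_ne hj]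
    rw [h6] at h5
    exact h5
  have h0 : qq (y + (0 : ℝ) • (Pi.single i 1 : Fin n → ℝ)) = qq y := by simp
  have h7 := HasDerivAt.comp (0 : ℝ) (h₂ := psi) (by rw [h0]; exact psi_deriv (qq y)) h1
  have h8 : -bb (qq y) * (2 * y i) = -2 * y i * bb (qq y) := by ring
  rw [h8] at h7
  exact h7

section ring

variable {𝔄 : Type*} [NormedRing 𝔄] [NormedAlgebra ℝ 𝔄]

theorem word_deriv (X : ℝ → Fin n → 𝔄) (i : Fin n)
    (hX : ∀ j, HasDerivAt (fun t => X t j) (X 0 i * X 0 j) 0) (π : Perm (Fin n))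
    (L : List (Fin n)) :
    HasDerivAt (fun t => word (X t) π L) (dword (X 0) π i L) 0 := by
  induction L with
  | nil =>
    simp only [word_nil, dword]
    exact hasDerivAt_const _ _
  | cons a L ih =>
    simp only [word_cons, dword]
    exact (hX (π a)).fun_mul ih

theorem word_cont {P : Type*} [TopologicalSpace P] (X : P → Fin n → 𝔄) (p : P)
    (hX : ∀ j, ContinuousAt (fun p => X p j) p) (π : Perm (Fin n))
    (L : List (Fin n)) : ContinuousAt (fun p => word (X p) π L) p := by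
  induction L with
  | nil =>
    simp only [word_nil]
    exact continuousAt_const
  | cons a L ih =>
    simp only [word_cons]
    exact (hX (π a)).mul ih

theorem dword_cont {P : Type*} [TopologicalSpace P] (X : P → Fin n → 𝔄) (p : P)
    (hX : ∀ j, ContinuousAt (fun p => X p j) p) (π : Perm (Fin n)) (i : Fin n)
    (L : List (Fin n)) : ContinuousAt (fun p => dword (X p) π i L) p := by
  induction L with
  | nil =>
    simp only [dword]
    exact continuousAt_const
  | cons a L ih =>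
    simp only [dword]
    exact (((hX i).mul (hX (π a))).mul (word_cont X p hX π L)).add ((hX (π a)).mul ih)

/-- `ε B - y·G` -/
def TT (B : 𝔄) (G : Fin n → 𝔄) (ε : ℝ) (y : Fin n → ℝ) : 𝔄 := ε • B - vec G y

theorem vec_smul (G : Fin n → 𝔄) (c : ℝ) (y : Fin n → ℝ) : vec G (c • y) = c • vec G y := by
  unfold vec
  rw [Finset.smul_sum]
  exact Finset.sum_congr rfl fun j _ => by rw [Pi.smul_apply, smul_smul, smul_eq_mul]

theorem vec_add (G : Fin n → 𝔄) (x y : Fin n → ℝ) : vec G (x + y) = vec G x + vec G y := by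
  unfold vec
  rw [← Finset.sum_add_distrib]
  exact Finset.sum_congr rfl fun j _ => by rw [Pi.add_apply, add_smul]

theorem vec_single (G : Fin n → 𝔄) (i : Fin n) : vec G (Pi.single i 1) = G i := by
  unfold vec
  rw [Finset.sum_eq_single_of_mem i (Finset.mem_univ i)]
  · simp
  · intro j _ hj
    simp [Pi.single_eq_of_ne hj]

theorem qq_pos_of_ne (y : Fin n → ℝ) (hy : y ≠ 0) : 0 < qq y := by
  obtain ⟨i, hi⟩ := Function.ne_iff.mp hy
  have h1 : y i ^ 2 ≤ qq y :=
    Finset.single_le_sum (f := fun j => y j ^ 2) (fun _ _ => sq_nonneg _) (Finset.mem_univ i)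
  have : 0 < y i ^ 2 := by
    have : y i ≠ 0 := hi
    positivity
  linarith

theorem vec_inv (G : Fin n → 𝔄) (hsq : ∀ i, G i * G i = 1)
    (hanti : ∀ i j, i ≠ j → G i * G j = -(G j * G i)) (y : Fin n → ℝ) (hy : qq y ≠ 0) :
    ∃ u : 𝔄ˣ, (u : 𝔄) = - vec G y ∧ (↑u⁻¹ : 𝔄) = -((qq y)⁻¹ • vec G y) := by
  have h1 : (- vec G y) * (-((qq y)⁻¹ • vec G y)) = 1 := by
    rw [neg_mul_neg, mul_smul_comm, vec_sq G hsq hanti, smul_smul, inv_mul_cancel₀ hy, one_smul]
  have h2 : (-((qq y)⁻¹ • vec G y)) * (- vec G y) = 1 := by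
    rw [neg_mul_neg, smul_mul_assoc, vec_sq G hsq hanti, smul_smul, inv_mul_cancel₀ hy, one_smul]
  exact ⟨⟨_, _, h1, h2⟩, rfl, rfl⟩

theorem TT_unit (B : 𝔄) (G : Fin n → 𝔄) (hsq : ∀ i, G i * G i = 1)
    (hanti : ∀ i j, i ≠ j → G i * G j = -(G j * G i)) (hinv : ∀ x, IsUnit (B - vec G x))
    (ε : ℝ) (y : Fin n → ℝ) (h : ε ≠ 0 ∨ y ≠ 0) : IsUnit (TT B G ε y) := by
  by_cases hε : ε = 0
  · have hy : y ≠ 0 := by tauto
    obtain ⟨u, hu, _⟩ := vec_inv G hsq hanti y (qq_pos_of_ne y hy).ne'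
    unfold TT
    rw [hε, zero_smul, zero_sub, ← hu]
    exact u.isUnit
  · have h1 : TT B G ε y = (Units.mk0 ε hε) • (B - vec G (ε⁻¹ • y)) := by
      unfold TT
      rw [Units.smul_def, Units.val_mk0, smul_sub, vec_smul, smul_smul, mul_inv_cancel₀ hε,
        one_smul]
    rw [h1]
    exact (hinv _).smul _

/-- resolvent -/
noncomputable def RR (B : 𝔄) (G : Fin n → 𝔄) (ε : ℝ) (y : Fin n → ℝ) : 𝔄 :=
  Ring.inverse (TT B G ε y)

/-- letters -/
noncomputable def XX (B : 𝔄) (G : Fin n → 𝔄) (ε : ℝ) (y : Fin n → ℝ) (j : Fin n) : 𝔄 :=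
  RR B G ε y * G j

theorem XX_comm (E B : 𝔄) (G : Fin n → 𝔄) (hE : ∀ i, E * G i = -(G i * E))
    (hEB : E * B = -(B * E)) (ε : ℝ) (y : Fin n → ℝ) (h : IsUnit (TT B G ε y)) (j : Fin n) :
    E * XX B G ε y j = XX B G ε y j * E := by
  have h1 : E * TT B G ε y = -(TT B G ε y * E) := by
    unfold TT vec
    rw [mul_sub, sub_mul, mul_smul_comm, hEB, smul_mul_assoc, Finset.mul_sum, Finset.sum_mul]
    have : ∀ i, E * y i • G i = -(y i • G i * E) := by
      intro i
      rw [mul_smul_comm, hE, smul_mul_assoc, smul_neg]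
    simp only [this, Finset.sum_neg_distrib, smul_neg]
    abel
  have h2 : RR B G ε y * TT B G ε y = 1 := Ring.inverse_mul_cancel _ h
  have h3 : TT B G ε y * RR B G ε y = 1 := Ring.mul_inverse_cancel _ h
  have h4 : E * RR B G ε y = -(RR B G ε y * E) := by
    calc E * RR B G ε y = (RR B G ε y * TT B G ε y) * E * RR B G ε y := by rw [h2, one_mul]
      _ = RR B G ε y * (TT B G ε y * E) * RR B G ε y := by noncomm_ring
      _ = -(RR B G ε y * E * (TT B G ε y * RR B G ε y)) := by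
          have : TT B G ε y * E = -(E * TT B G ε y) := by rw [h1, neg_neg]
          rw [this]; noncomm_ring
      _ = _ := by rw [h3, mul_one]
  unfold XX
  calc E * (RR B G ε y * G j) = (E * RR B G ε y) * G j := by rw [mul_assoc]
    _ = -(RR B G ε y * (E * G j)) := by rw [h4]; noncomm_ring
    _ = _ := by rw [hE]; noncomm_ring

variable [CompleteSpace 𝔄]

theorem XX_deriv (B : 𝔄) (G : Fin n → 𝔄) (ε : ℝ) (y : Fin n → ℝ) (h : IsUnit (TT B G ε y))
    (i j : Fin n) :
    HasDerivAt (fun t : ℝ => XX B G ε (y + t • (Pi.single i 1 : Fin n → ℝ)) j)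
      (XX B G ε y i * XX B G ε y j) 0 := by
  obtain ⟨u, hu⟩ := h
  have h1 : ∀ t : ℝ, TT B G ε (y + t • (Pi.single i 1 : Fin n → ℝ)) = TT B G ε y - t • G i := by
    intro t
    unfold TT
    rw [vec_add, vec_smul, vec_single]
    abel
  have h2 : HasDerivAt (fun t : ℝ => TT B G ε (y + t • (Pi.single i 1 : Fin n → ℝ))) (- G i) 0 := by
    simp only [h1]
    have := ((hasDerivAt_id (0 : ℝ)).smul_const (G i)).const_sub (TT B G ε y)
    simpa using this
  have h3 : HasFDerivAt Ring.inverse (-ContinuousLinearMap.mulLeftRight ℝ 𝔄 ↑u⁻¹ ↑u⁻¹)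
      (TT B G ε (y + (0 : ℝ) • (Pi.single i 1 : Fin n → ℝ))) := by
    rw [h1, zero_smul, sub_zero, ← hu]
    exact hasFDerivAt_ringInverse u
  have h4 := h3.comp_hasDerivAt (0 : ℝ) h2
  have h5 : (-ContinuousLinearMap.mulLeftRight ℝ 𝔄 ↑u⁻¹ ↑u⁻¹) (-G i)
      = RR B G ε y * G i * RR B G ε y := by
    have : (↑u⁻¹ : 𝔄) = RR B G ε y := by
      unfold RR
      rw [← hu, Ring.inverse_unit]
    rw [this]
    simp
  rw [h5] at h4
  have h6 := h4.mul_const (G j)
  have h7 : RR B G ε y * G i * RR B G ε y * G j = XX B G ε y i * XX B G ε y j := by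
    unfold XX
    noncomm_ring
  rw [h7] at h6
  exact h6

theorem XX_cont (B : 𝔄) (G : Fin n → 𝔄) (p : ℝ × (Fin n → ℝ)) (h : IsUnit (TT B G p.1 p.2))
    (j : Fin n) : ContinuousAt (fun p : ℝ × (Fin n → ℝ) => XX B G p.1 p.2 j) p := by
  obtain ⟨u, hu⟩ := h
  have h1 : ContinuousAt (fun p : ℝ × (Fin n → ℝ) => TT B G p.1 p.2) p := by
    unfold TT vec
    fun_prop
  have h2 : ContinuousAt Ring.inverse (TT B G p.1 p.2) := by
    rw [← hu]
    exact NormedRing.inverse_continuousAt u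
  have h3 : ContinuousAt (fun p : ℝ × (Fin n → ℝ) => Ring.inverse (TT B G p.1 p.2)) p :=
    ContinuousAt.comp (f := fun p : ℝ × (Fin n → ℝ) => TT B G p.1 p.2) h2 h1
  exact h3.mul continuousAt_const

end ring

end Pool.Agent.V11114.Cliff
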