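import Mathlib
import Pool.Agent.V11114.Cliff3

set_option autoImplicit false

namespace Pool.Agent.V11114.Cliff

open Finset Equiv MeasureTheory Topology

variable {𝔄 : Type*} [NormedRing 𝔄] [NormedAlgebra ℝ 𝔄] [CompleteSpace 𝔄] {n : ℕ}

/-- the list `1, …, n` in `Fin (n+1)` -/
def tl (n : ℕ) : List (Fin (n + 1)) := (List.finRange n).map Fin.succ

theorem tl_length : (tl n).length = n := by simp [tl]

theorem zero_tl : 0 :: tl n = List.finRange (n + 1) := by
  rw [List.finRange_succ]; rfl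

theorem zero_tl_nodup : (0 :: tl n).Nodup := by
  rw [zero_tl]; exact List.nodup_finRange _

/-- trace of the word -/
noncomputable def WW (τ : 𝔄 →L[ℝ] ℝ) (E B : 𝔄) (G : Fin (n + 1) → 𝔄) (π : Perm (Fin (n + 1)))
    (ε : ℝ) (y : Fin (n + 1) → ℝ) : ℝ := τ (E * word (XX B G ε y) π (tl n))

/-- derivative of `WW` in direction `π 0` -/
noncomputable def DW (τ : 𝔄 →L[ℝ] ℝ) (E B : 𝔄) (G : Fin (n + 1) → 𝔄) (π : Perm (Fin (n + 1)))
    (ε : ℝ) (y : Fin (n + 1) → ℝ) : ℝ := τ (E * dword (XX B G ε y) π (π 0) (tl n))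

/-- summand -/
noncomputable def ff (τ : 𝔄 →L[ℝ] ℝ) (E B : 𝔄) (G : Fin (n + 1) → 𝔄) (π : Perm (Fin (n + 1)))
    (ε : ℝ) (y : Fin (n + 1) → ℝ) : ℝ := (-2 * y (π 0) * bb (qq y)) * WW τ E B G π ε y

/-- total -/
noncomputable def FF (τ : 𝔄 →L[ℝ] ℝ) (E B : 𝔄) (G : Fin (n + 1) → 𝔄)
    (ε : ℝ) (y : Fin (n + 1) → ℝ) : ℝ := alt (fun π => ff τ E B G π ε y)

theorem WW_contAt (τ : 𝔄 →L[ℝ] ℝ) (E B : 𝔄) (G : Fin (n + 1) → 𝔄) (π : Perm (Fin (n + 1)))
    (p : ℝ × (Fin (n + 1) → ℝ)) (h : IsUnit (TT B G p.1 p.2)) :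
    ContinuousAt (fun p : ℝ × (Fin (n + 1) → ℝ) => WW τ E B G π p.1 p.2) p := by
  unfold WW
  have h1 := word_cont (fun p : ℝ × (Fin (n + 1) → ℝ) => XX B G p.1 p.2) p
    (fun j => XX_cont B G p h j) π (tl n)
  exact τ.continuous.continuousAt.comp (continuousAt_const.mul h1)

theorem DW_contAt (τ : 𝔄 →L[ℝ] ℝ) (E B : 𝔄) (G : Fin (n + 1) → 𝔄) (π : Perm (Fin (n + 1)))
    (p : ℝ × (Fin (n + 1) → ℝ)) (h : IsUnit (TT B G p.1 p.2)) :
    ContinuousAt (fun p : ℝ × (Fin (n + 1) → ℝ) => DW τ E B G π p.1 p.2) p := by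
  unfold DW
  have h1 := dword_cont (fun p : ℝ × (Fin (n + 1) → ℝ) => XX B G p.1 p.2) p
    (fun j => XX_cont B G p h j) π (π 0) (tl n)
  exact τ.continuous.continuousAt.comp (continuousAt_const.mul h1)

theorem ff_cont (τ : 𝔄 →L[ℝ] ℝ) (E B : 𝔄) (G : Fin (n + 1) → 𝔄) (hsq : ∀ i, G i * G i = 1)
    (hanti : ∀ i j, i ≠ j → G i * G j = -(G j * G i)) (hinv : ∀ x, IsUnit (B - vec G x))
    (π : Perm (Fin (n + 1))) :
    Continuous (fun p : ℝ × (Fin (n + 1) → ℝ) => ff τ E B G π p.1 p.2) := by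
  rw [continuous_iff_continuousAt]
  intro p
  by_cases hp : p.1 ≠ 0 ∨ p.2 ≠ 0
  · have h1 := WW_contAt τ E B G π p (TT_unit B G hsq hanti hinv _ _ hp)
    have h2 : Continuous (fun p : ℝ × (Fin (n + 1) → ℝ) => (-2 * p.2 (π 0) * bb (qq p.2))) := by
      have := bb_cont.comp (qq_cont.comp (continuous_snd (X := ℝ) (Y := Fin (n + 1) → ℝ)))
      have h3 : Continuous (fun p : ℝ × (Fin (n + 1) → ℝ) => (-2 * p.2 (π 0))) := by fun_prop
      exact h3.mul this
    exact h2.continuousAt.mul h1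
  · push Not at hp
    have h1 : ∀ᶠ p' : ℝ × (Fin (n + 1) → ℝ) in 𝓝 p, qq p'.2 < 1 := by
      have h2 : Continuous (fun p : ℝ × (Fin (n + 1) → ℝ) => qq p.2) :=
        qq_cont.comp continuous_snd
      have h3 : qq p.2 < 1 := by
        rw [hp.2]; simp [qq]
      exact h2.continuousAt.eventually_lt continuousAt_const h3
    apply (continuousAt_const (y := (0 : ℝ))).congr
    filter_upwards [h1] with p' hp'
    unfold ff
    rw [bb_zero _ hp'.le]
    simp

theorem FF_cont (τ : 𝔄 →L[ℝ] ℝ) (E B : 𝔄) (G : Fin (n + 1) → 𝔄) (hsq : ∀ i, G i * G i = 1)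
    (hanti : ∀ i j, i ≠ j → G i * G j = -(G j * G i)) (hinv : ∀ x, IsUnit (B - vec G x)) :
    Continuous (fun p : ℝ × (Fin (n + 1) → ℝ) => FF τ E B G p.1 p.2) := by
  unfold FF alt
  apply continuous_finsetSum
  intro π _
  exact continuous_const.mul (ff_cont τ E B G hsq hanti hinv π)

theorem parts (τ : 𝔄 →L[ℝ] ℝ) (E B : 𝔄) (G : Fin (n + 1) → 𝔄) (hsq : ∀ i, G i * G i = 1)
    (hanti : ∀ i j, i ≠ j → G i * G j = -(G j * G i)) (hinv : ∀ x, IsUnit (B - vec G x))
    (π : Perm (Fin (n + 1))) (ε : ℝ) (hε : ε ≠ 0) :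
    Integrable (fun y => psi (qq y) * DW τ E B G π ε y) ∧
    Integrable (fun y => ff τ E B G π ε y) ∧
    ∫ y, ff τ E B G π ε y = - ∫ y, psi (qq y) * DW τ E B G π ε y := by
  have hu : ∀ y, IsUnit (TT B G ε y) := fun y => TT_unit B G hsq hanti hinv ε y (Or.inl hε)
  have hc : ∀ y : Fin (n + 1) → ℝ, ContinuousAt (fun y => ((ε, y) : ℝ × (Fin (n + 1) → ℝ))) y :=
    fun y => by fun_prop
  have cW : Continuous (fun y => WW τ E B G π ε y) := by
    rw [continuous_iff_continuousAt]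
    intro y
    exact ContinuousAt.comp (f := fun y => ((ε, y) : ℝ × (Fin (n + 1) → ℝ)))
      (WW_contAt τ E B G π (ε, y) (hu y)) (hc y)
  have cD : Continuous (fun y => DW τ E B G π ε y) := by
    rw [continuous_iff_continuousAt]
    intro y
    exact ContinuousAt.comp (f := fun y => ((ε, y) : ℝ × (Fin (n + 1) → ℝ)))
      (DW_contAt τ E B G π (ε, y) (hu y)) (hc y)
  have cphi : Continuous (fun y : Fin (n + 1) → ℝ => psi (qq y)) := psi_cont.comp qq_cont
  have cf : Continuous (fun y : Fin (n + 1) → ℝ => ff τ E B G π ε y) := by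
    unfold ff
    have h3 : Continuous (fun p : (Fin (n + 1) → ℝ) => (-2 * p (π 0))) := by fun_prop
    exact (h3.mul (bb_cont.comp qq_cont)).mul cW
  have i1 : Integrable (fun y => psi (qq y) * DW τ E B G π ε y) :=
    (cphi.mul cD).integrable_of_hasCompactSupport (hcs _ fun y hy => by
      show psi (qq y) * _ = 0
      rw [psi_zero _ hy, zero_mul])
  have i2 : Integrable (fun y => ff τ E B G π ε y) :=
    cf.integrable_of_hasCompactSupport (hcs _ fun y hy => by
      unfold ff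
      rw [bb_zero' _ hy, mul_zero, zero_mul])
  have i3 : Integrable (fun y => psi (qq y) * WW τ E B G π ε y) :=
    (cphi.mul cW).integrable_of_hasCompactSupport (hcs _ fun y hy => by
      show psi (qq y) * _ = 0
      rw [psi_zero _ hy, zero_mul])
  refine ⟨i1, i2, ?_⟩
  have h := integral_bilinear_hasLineDerivAt_right_eq_neg_left_of_integrable
    (μ := (volume : Measure (Fin (n + 1) → ℝ)))
    (f := fun y => psi (qq y)) (f' := fun y => -2 * y (π 0) * bb (qq y))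
    (g := fun y => WW τ E B G π ε y) (g' := fun y => DW τ E B G π ε y)
    (v := Pi.single (π 0) 1) (B := ContinuousLinearMap.mul ℝ ℝ)
    i2 i1 i3 (fun y _ => phi_lineDeriv y (π 0)) (fun y _ => by
      unfold HasLineDerivAt WW DW
      have h1 := word_deriv (fun t => XX B G ε (y + t • (Pi.single (π 0) 1 : Fin (n + 1) → ℝ)))
        (π 0) (fun j => by
          have := XX_deriv B G ε y (hu y) (π 0) j
          simpa using this) π (tl n)
      have h2 := (τ.hasFDerivAt.comp_hasDerivAt (0 : ℝ) (h1.const_mul E))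
      simpa [Function.comp_def] using h2)
  simp only [ContinuousLinearMap.mul_apply'] at h
  rw [h, neg_neg]
  rfl

theorem FF_int_ne (τ : 𝔄 →L[ℝ] ℝ) (hτ : ∀ a b, τ (a * b) = τ (b * a)) (E B : 𝔄)
    (G : Fin (n + 1) → 𝔄) (hsq : ∀ i, G i * G i = 1)
    (hanti : ∀ i j, i ≠ j → G i * G j = -(G j * G i)) (hinv : ∀ x, IsUnit (B - vec G x))
    (hE : ∀ i, E * G i = -(G i * E)) (hEB : E * B = -(B * E)) (hn : Even (n + 1))
    (ε : ℝ) (hε : ε ≠ 0) : ∫ y, FF τ E B G ε y = 0 := by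
  have hu : ∀ y, IsUnit (TT B G ε y) := fun y => TT_unit B G hsq hanti hinv ε y (Or.inl hε)
  have hP := fun π => parts τ E B G hsq hanti hinv π ε hε
  unfold FF alt
  rw [integral_finset_sum _ (fun π _ => (hP π).2.1.const_mul _)]
  have h1 : ∀ π : Perm (Fin (n + 1)),
      ∫ y, (((Perm.sign π : ℤˣ) : ℤ) : ℝ) * ff τ E B G π ε y
        = - ∫ y, (((Perm.sign π : ℤˣ) : ℤ) : ℝ) * (psi (qq y) * DW τ E B G π ε y) := by
    intro π
    rw [integral_const_mul, (hP π).2.2, integral_const_mul, mul_neg]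
  simp only [h1]
  rw [Finset.sum_neg_distrib, ← integral_finset_sum _ (fun π _ => (hP π).1.const_mul _)]
  have h2 : ∀ y, ∑ π : Perm (Fin (n + 1)), (((Perm.sign π : ℤˣ) : ℤ) : ℝ)
      * (psi (qq y) * DW τ E B G π ε y) = 0 := by
    intro y
    have h3 := alt_dword (τ : 𝔄 →ₗ[ℝ] ℝ) hτ E (XX B G ε y)
      (fun j => XX_comm E B G hE hEB ε y (hu y) j) (tl n) []
      (by rw [List.nil_append]; exact zero_tl_nodup)
      (by
        rw [List.nil_append, List.length_cons, tl_length]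
        rcases hn with ⟨k, hk⟩
        omega)
      (by rw [List.nil_append, List.length_cons, tl_length]; exact hn)
    simp only [word_nil, one_mul] at h3
    unfold alt at h3
    calc ∑ π : Perm (Fin (n + 1)), (((Perm.sign π : ℤˣ) : ℤ) : ℝ)
          * (psi (qq y) * DW τ E B G π ε y)
        = psi (qq y) * ∑ π : Perm (Fin (n + 1)), (((Perm.sign π : ℤˣ) : ℤ) : ℝ)
          * DW τ E B G π ε y := by
            rw [Finset.mul_sum]
            exact Finset.sum_congr rfl fun π _ => by ring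
      _ = 0 := by
            unfold DW
            have h4 : ∑ π : Perm (Fin (n + 1)), (((Perm.sign π : ℤˣ) : ℤ) : ℝ)
              * τ (E * dword (XX B G ε y) π (π 0) (tl n)) = 0 := h3
            rw [h4, mul_zero]
  simp only [h2]
  simp

theorem FF_zero_of (τ : 𝔄 →L[ℝ] ℝ) (E B : 𝔄) (G : Fin (n + 1) → 𝔄) (ε : ℝ)
    (y : Fin (n + 1) → ℝ) (h : 2 ≤ qq y) : FF τ E B G ε y = 0 := by
  unfold FF alt ff
  rw [bb_zero' _ h]
  simp

theorem FF_int_zero (τ : 𝔄 →L[ℝ] ℝ) (hτ : ∀ a b, τ (a * b) = τ (b * a)) (E B : 𝔄)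
    (G : Fin (n + 1) → 𝔄) (hsq : ∀ i, G i * G i = 1)
    (hanti : ∀ i j, i ≠ j → G i * G j = -(G j * G i)) (hinv : ∀ x, IsUnit (B - vec G x))
    (hE : ∀ i, E * G i = -(G i * E)) (hEB : E * B = -(B * E)) (hn : Even (n + 1)) :
    ∫ y, FF τ E B G 0 y = 0 := by
  have h1 : Continuous (fun ε => ∫ y in Metric.closedBall (0 : Fin (n + 1) → ℝ) 2,
      FF τ E B G ε y) :=
    continuous_parametric_integral_of_continuous (FF_cont τ E B G hsq hanti hinv)
      (isCompact_closedBall _ _)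
  have h2 : ∀ ε, ∫ y in Metric.closedBall (0 : Fin (n + 1) → ℝ) 2, FF τ E B G ε y
      = ∫ y, FF τ E B G ε y := by
    intro ε
    apply setIntegral_eq_integral_of_forall_compl_eq_zero
    intro y hy
    by_contra h
    exact hy (support_sub _ (fun y hy => FF_zero_of τ E B G ε y hy) h)
  have h3 : (fun ε => ∫ y in Metric.closedBall (0 : Fin (n + 1) → ℝ) 2, FF τ E B G ε y)
      = fun _ => 0 := by
    apply h1.ext_on (dense_compl_singleton (0 : ℝ)) continuous_const
    intro ε hε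
    show ∫ y in Metric.closedBall (0 : Fin (n + 1) → ℝ) 2, FF τ E B G ε y = 0
    rw [h2]
    exact FF_int_ne τ hτ E B G hsq hanti hinv hE hEB hn ε hε
  rw [← h2]
  exact congrFun h3 0

theorem FF_at_zero (τ : 𝔄 →L[ℝ] ℝ) (E B : 𝔄) (G : Fin (n + 1) → 𝔄)
    (hsq : ∀ i, G i * G i = 1)
    (hanti : ∀ i j, i ≠ j → G i * G j = -(G j * G i)) (y : Fin (n + 1) → ℝ) :
    FF τ E B G 0 y = -2 * bb (qq y) * (-(qq y)⁻¹) ^ n
      * HH (τ : 𝔄 →ₗ[ℝ] ℝ) E G y [] (tl n) := by
  by_cases hq : qq y = 0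
  · unfold FF alt ff
    rw [bb_zero (qq y) (by rw [hq]; norm_num)]
    simp
  obtain ⟨u, hu1, hu2⟩ := vec_inv G hsq hanti y hq
  have h1 : RR B G 0 y = -((qq y)⁻¹ • vec G y) := by
    unfold RR TT
    rw [zero_smul, zero_sub, ← hu1, Ring.inverse_unit, hu2]
  have h2 : ∀ (π : Perm (Fin (n + 1))) (L : List (Fin (n + 1))),
      word (XX B G 0 y) π L = ((-(qq y)⁻¹) ^ L.length) • word (fun j => vec G y * G j) π L := by
    intro π L
    induction L with
    | nil => simp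
    | cons a L ih =>
      rw [word_cons, word_cons, ih, List.length_cons]
      unfold XX
      rw [h1, neg_mul, smul_mul_assoc, ← neg_smul, smul_mul_smul_comm, pow_succ]
      congr 1
      ring
  unfold FF HH ff WW
  rw [← alt_const_mul]
  congr 1
  funext π
  rw [h2, tl_length, mul_smul_comm, map_smul, word_nil, one_mul, smul_eq_mul]
  simp only [ContinuousLinearMap.coe_coe]
  ring

theorem main (τ : 𝔄 →L[ℝ] ℝ) (hτ : ∀ a b, τ (a * b) = τ (b * a)) (E B : 𝔄)
    (G : Fin (n + 1) → 𝔄) (hsq : ∀ i, G i * G i = 1)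
    (hanti : ∀ i j, i ≠ j → G i * G j = -(G j * G i))
    (hE : ∀ i, E * G i = -(G i * E)) (hEB : E * B = -(B * E)) (hn : Even (n + 1))
    (htop : τ (E * (List.ofFn G).prod) ≠ 0) : ∃ x, ¬ IsUnit (B - vec G x) := by
  by_contra hcon
  push Not at hcon
  have hinv : ∀ x, IsUnit (B - vec G x) := hcon
  have h0 := FF_int_zero τ hτ E B G hsq hanti hinv hE hEB hn
  obtain ⟨s, hs⟩ : ∃ s, n = 2 * s + 1 := by
    obtain ⟨k, hk⟩ := hn
    exact ⟨k - 1, by omega⟩
  obtain ⟨σ, hσ, hH⟩ := HH_formula (τ : 𝔄 →ₗ[ℝ] ℝ) hτ E G hsq hanti hE hn s [] (tl n)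
    (by rw [tl_length, hs]) (by rw [List.nil_append]; exact zero_tl_nodup)
    (by rw [List.nil_append, tl_length])
  set C : ℝ := 2 * (-1) ^ s * σ * τ (E * (List.ofFn G).prod) with hC
  have hσ0 : σ ≠ 0 := by
    rintro rfl
    norm_num at hσ
  have hC0 : C ≠ 0 := by
    rw [hC]
    have : ((-1 : ℝ)) ^ s ≠ 0 := pow_ne_zero _ (by norm_num)
    positivity
  have hF : ∀ y, FF τ E B G 0 y = C * (bb (qq y) * ((qq y)⁻¹) ^ n * qq y ^ s * SS y) := by
    intro y
    rw [FF_at_zero τ E B G hsq hanti y, hH y, hC]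
    have e1 : (-(qq y)⁻¹) ^ n = - ((qq y)⁻¹) ^ n := by
      apply Odd.neg_pow
      exact ⟨s, hs⟩
    have e2 : (- qq y) ^ s = (-1) ^ s * qq y ^ s := by
      rw [neg_pow]
    rw [e1, e2]
    simp only [ContinuousLinearMap.coe_coe]
    ring
  set g : (Fin (n + 1) → ℝ) → ℝ := fun y => bb (qq y) * ((qq y)⁻¹) ^ n * qq y ^ s * SS y with hg
  have hg2 : ∀ y, g y = C⁻¹ * FF τ E B G 0 y := by
    intro y
    rw [hF y, ← mul_assoc, inv_mul_cancel₀ hC0, one_mul]
  have gc : Continuous g := by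
    have : g = fun y => C⁻¹ * FF τ E B G 0 y := funext hg2
    rw [this]
    have h1 := FF_cont τ E B G hsq hanti hinv
    exact continuous_const.mul (h1.comp (continuous_const.prodMk continuous_id))
  have gsup : HasCompactSupport g := hcs g fun y hy => by
    rw [hg2, FF_zero_of τ E B G 0 y hy, mul_zero]
  have gnn : 0 ≤ g := by
    intro y
    have hS : 0 ≤ SS y := Finset.sum_nonneg fun _ _ => sq_nonneg _
    have h1 := qq_nonneg y
    have h2 := bb_nonneg (qq y)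
    simp only [hg, Pi.zero_apply]
    positivity
  have gne : g (Pi.single 0 (Real.sqrt (3 / 2))) ≠ 0 := by
    have q1 : qq (Pi.single (0 : Fin (n + 1)) (Real.sqrt (3 / 2)) : Fin (n + 1) → ℝ) = 3 / 2 := by
      unfold qq
      rw [Finset.sum_eq_single_of_mem 0 (Finset.mem_univ _)]
      · rw [Pi.single_eq_same, Real.sq_sqrt (by norm_num)]
      · intro j _ hj
        rw [Pi.single_eq_of_ne hj]
        norm_num
    have s1 : 3 / 2 ≤ SS (Pi.single (0 : Fin (n + 1)) (Real.sqrt (3 / 2)) : Fin (n + 1) → ℝ) := by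
      unfold SS
      have := Finset.single_le_sum (f := fun π : Perm (Fin (n + 1)) =>
        (Pi.single (0 : Fin (n + 1)) (Real.sqrt (3 / 2)) : Fin (n + 1) → ℝ) (π 0) ^ 2)
        (fun _ _ => sq_nonneg _) (Finset.mem_univ 1)
      refine le_trans ?_ this
      simp only [Perm.one_apply, Pi.single_eq_same]
      rw [Real.sq_sqrt (by norm_num)]
    have b1 : bb (3 / 2) = 1 / 4 := by
      unfold bb
      norm_num
    simp only [hg]
    rw [q1, b1]
    have : 0 < SS (Pi.single (0 : Fin (n + 1)) (Real.sqrt (3 / 2)) : Fin (n + 1) → ℝ) := by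
      linarith
    positivity
  have hpos := gc.integral_pos_of_hasCompactSupport_nonneg_nonzero (μ := volume) gsup gnn gne
  have : ∫ y, g y = 0 := by
    simp only [hg2]
    rw [integral_const_mul, h0, mul_zero]
  linarith

end Pool.Agent.V11114.Cliff
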