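import Mathlib
import Pool.Agent.V11114.Cliff4

set_option autoImplicit false

namespace Pool.Agent.V11114.Cliff

open Finset Equiv

section alg
variable {𝔄 : Type*} [Ring 𝔄]

theorem prod_rev (L : List 𝔄) (h : ∀ g ∈ L, g * g = 1) : L.reverse.prod * L.prod = 1 := by
  induction L with
  | nil => simp
  | cons a L ih =>
    rw [List.reverse_cons, List.prod_append, List.prod_singleton, List.prod_cons]
    calc L.reverse.prod * a * (a * L.prod) = L.reverse.prod * (a * a) * L.prod := by noncomm_ring
      _ = 1 := by rw [h a (by simp), mul_one, ih (fun g hg => h g (by simp [hg]))]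

theorem prod_rev' (L : List 𝔄) (h : ∀ g ∈ L, g * g = 1) : L.prod * L.reverse.prod = 1 := by
  have := prod_rev L.reverse (fun g hg => h g (by simpa using hg))
  rwa [List.reverse_reverse] at this

theorem anti_list (g : 𝔄) (L : List 𝔄) (h : ∀ l ∈ L, g * l = -(l * g)) :
    g * L.prod = (-1) ^ L.length * (L.prod * g) := by
  induction L with
  | nil => simp
  | cons a L ih =>
    rw [List.prod_cons, ← mul_assoc, h a (by simp), neg_mul, mul_assoc,
      ih (fun l hl => h l (by simp [hl])), List.length_cons, pow_succ]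
    have hc : a * (-1) ^ L.length = (-1) ^ L.length * a :=
      ((Commute.neg_one_right a).pow_right L.length).eq
    calc -(a * ((-1) ^ L.length * (L.prod * g))) = -((a * (-1) ^ L.length) * (L.prod * g)) := by
          rw [mul_assoc]
      _ = _ := by rw [hc]; noncomm_ring

theorem comm_list (g : 𝔄) (L : List 𝔄) (h : ∀ l ∈ L, g * l = l * g) :
    g * L.prod = L.prod * g := by
  induction L with
  | nil => simp
  | cons a L ih =>
    rw [List.prod_cons, ← mul_assoc, h a (by simp), mul_assoc,
      ih (fun l hl => h l (by simp [hl])), mul_assoc]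

theorem anti_top {N : Type*} [DecidableEq N] (G : N → 𝔄)
    (hanti : ∀ i j, i ≠ j → G i * G j = -(G j * G i)) (j : N) (L : List N) (hj : j ∈ L)
    (hL : L.Nodup) :
    G j * (L.map G).prod = (-1) ^ (L.length + 1) * ((L.map G).prod * G j) := by
  induction L with
  | nil => simp at hj
  | cons a L ih =>
    rw [List.nodup_cons] at hL
    rw [List.map_cons, List.prod_cons]
    have hc : ∀ k : ℕ, ∀ b : 𝔄, b * (-1) ^ k = (-1) ^ k * b := fun k b =>
      ((Commute.neg_one_right b).pow_right k).eq
    by_cases hja : j = a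
    · subst hja
      have h1 : G j * (L.map G).prod = (-1) ^ (L.map G).length * ((L.map G).prod * G j) := by
        apply anti_list
        intro l hl
        obtain ⟨m, hm, rfl⟩ := List.mem_map.mp hl
        apply hanti
        rintro rfl
        exact hL.1 hm
      rw [List.length_map] at h1
      have h2 : ((-1 : 𝔄)) ^ (L.length + 1 + 1) = (-1) ^ L.length := by
        rw [pow_succ, pow_succ, mul_assoc, neg_mul_neg, mul_one, mul_one]
      rw [List.length_cons, h2]
      conv_lhs => rw [h1, ← mul_assoc, hc]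
      simp only [mul_assoc]
    · have hjL : j ∈ L := by
        rcases List.mem_cons.mp hj with h | h
        · exact absurd h hja
        · exact h
      rw [← mul_assoc, hanti j a hja, neg_mul, mul_assoc, ih hjL hL.2, List.length_cons,
        pow_succ _ (L.length + 1)]
      calc -(G a * ((-1) ^ (L.length + 1) * ((L.map G).prod * G j)))
          = -((G a * (-1) ^ (L.length + 1)) * ((L.map G).prod * G j)) := by rw [mul_assoc]
        _ = _ := by rw [hc]; noncomm_ring

end alg

variable {𝔄 : Type*} [NormedRing 𝔄] [NormedAlgebra ℝ 𝔄] [CompleteSpace 𝔄] {n : ℕ}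

theorem main2 (τ : 𝔄 →L[ℝ] ℝ) (hτ : ∀ a b, τ (a * b) = τ (b * a)) (hτ1 : τ 1 ≠ 0)
    (a G : Fin (n + 1) → 𝔄) (hsq : ∀ i, G i * G i = 1)
    (hanti : ∀ i j, i ≠ j → G i * G j = -(G j * G i))
    (ha : ∀ i j, a i * G j = G j * a i) (hn : Even (n + 1)) :
    ∃ x : Fin (n + 1) → ℝ, ¬ IsUnit (∑ j, a j * G j - ∑ j, x j • G j) := by
  set P := (List.ofFn G).prod with hP
  set E := (List.ofFn G).reverse.prod with hE
  have hmem : ∀ g ∈ List.ofFn G, g * g = 1 := by
    intro g hg
    obtain ⟨i, rfl⟩ := (List.mem_ofFn' _ _).mp hg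
    exact hsq i
  have hEP : E * P = 1 := prod_rev _ hmem
  have hPE : P * E = 1 := prod_rev' _ hmem
  have hGP : ∀ j, G j * P = -(P * G j) := by
    intro j
    have := anti_top G hanti j (List.finRange (n + 1)) (List.mem_finRange j)
      (List.nodup_finRange _)
    rw [← List.ofFn_eq_map, List.length_finRange, (Even.add_one hn).neg_one_pow] at this
    rw [hP, this]
    noncomm_ring
  have hEG : ∀ j, E * G j = -(G j * E) := by
    intro j
    calc E * G j = E * G j * (P * E) := by rw [hPE, mul_one]
      _ = E * (G j * P) * E := by noncomm_ring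
      _ = -((E * P) * (G j * E)) := by rw [hGP]; noncomm_ring
      _ = _ := by rw [hEP, one_mul]
  have haE : ∀ i, E * a i = a i * E := by
    intro i
    rw [hE]
    symm
    apply comm_list
    intro l hl
    rw [List.mem_reverse] at hl
    obtain ⟨j, rfl⟩ := (List.mem_ofFn' _ _).mp hl
    exact ha i j
  have hEB : E * (∑ j, a j * G j) = -((∑ j, a j * G j) * E) := by
    rw [Finset.mul_sum, Finset.sum_mul, ← Finset.sum_neg_distrib]
    refine Finset.sum_congr rfl fun j _ => ?_
    rw [← mul_assoc, haE, mul_assoc, hEG]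
    noncomm_ring
  exact main τ hτ E (∑ j, a j * G j) G hsq hanti hEG hEB hn (by rw [← hP, hEP]; exact hτ1)

open scoped Matrix.Norms.Operator in
theorem matrix_case {N : Type*} [Fintype N] [DecidableEq N] [Nonempty N] {n : ℕ}
    (hn : Even (n + 1)) (a G : Fin (n + 1) → Matrix N N ℂ) (hsq : ∀ i, G i * G i = 1)
    (hanti : ∀ i j, i ≠ j → G i * G j = -(G j * G i))
    (ha : ∀ i j, a i * G j = G j * a i) :
    ∃ x : Fin (n + 1) → ℝ, (∑ j, a j * G j - ∑ j, x j • G j).det = 0 := by
  have hc : CompleteSpace (Matrix N N ℂ) := FiniteDimensional.complete ℝ _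
  set τ : Matrix N N ℂ →ₗ[ℝ] ℝ :=
    Complex.reLm ∘ₗ (Matrix.traceLinearMap N ℝ ℂ) with hτd
  have hτ : ∀ a b, τ (a * b) = τ (b * a) := by
    intro a b
    simp only [hτd, LinearMap.comp_apply, Matrix.traceLinearMap_apply]
    rw [Matrix.trace_mul_comm]
  have hτ1 : τ 1 ≠ 0 := by
    simp only [hτd, LinearMap.comp_apply, Matrix.traceLinearMap_apply]
    rw [Matrix.trace_one]
    simp
  obtain ⟨x, hx⟩ := main2 (LinearMap.toContinuousLinearMap τ) hτ hτ1 a G hsq hanti ha hn
  refine ⟨x, ?_⟩
  by_contra h
  apply hx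
  rw [Matrix.isUnit_iff_isUnit_det]
  exact isUnit_iff_ne_zero.mpr h

end Pool.Agent.V11114.Cliff
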