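import Mathlib

/-!
The space of mm-spaces with the concentration topology is not sigma-compact (MP_bb77e0_gt).

Proof idea.  For an mm-space `Y`, a natural number `N` and `η > 0` say `Sep Y N η` if there are
`N` functions in `Lip_1(Y)` whose pairwise Ky Fan distances modulo constants exceed `η`.
For fixed `Y` and `η` this fails for large `N`; and the set of `Y` for which it fails for some
`η' < ε` is open for the observable distance.  Hence on a compact set `K_k` it fails for a
uniform `N_k`, at the scale `ε_k = 2^{-(k+4)}`.  The discrete mm-space made of blocks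
`{0,1}^{N_k}` of total mass `2^{-(k+1)}` violates all of these, so it is in no `K_k`.
-/

namespace Pool.Agent.Results.MP_bb77e0_gt.ConcentrationNotSigmaCompact

open MeasureTheory Set Filter Topology ENNReal

/-- An mm-space: a complete separable metric space with a Borel probability measure. -/
structure MMSpace where
  carrier : Type
  [metric : MetricSpace carrier]
  [complete : CompleteSpace carrier]
  [separable : TopologicalSpace.SeparableSpace carrier]
  [meas : MeasurableSpace carrier]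
  [borel : BorelSpace carrier]
  μ : Measure carrier
  [prob : IsProbabilityMeasure μ]

attribute [instance] MMSpace.metric MMSpace.complete MMSpace.separable MMSpace.meas
  MMSpace.borel MMSpace.prob

/-- The interval `I = [0,1)`. -/
abbrev I : Type := Ico (0:ℝ) 1

/-- Lebesgue measure `L^1` on `I = [0,1)`. -/
noncomputable def leb : Measure I := Measure.comap Subtype.val (volume : Measure ℝ)

/-- Parameters of an mm-space: Borel maps `φ : I → X` with `φ_* L^1 = μ_X`. -/
def Param (X : MMSpace) : Type :=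
  {φ : I → X.carrier // Measurable φ ∧ Measure.map φ leb = X.μ}

/-- The Ky Fan metric `inf {ε ≥ 0 : L^1(|f - g| > ε) ≤ ε}`. -/
noncomputable def kyFan (f g : I → ℝ) : ℝ≥0∞ :=
  sInf {ε : ℝ≥0∞ | leb {t | ε < ENNReal.ofReal |f t - g t|} ≤ ε}

/-- Hausdorff distance of two sets of functions for the Ky Fan metric. -/
noncomputable def hausd (A B : Set (I → ℝ)) : ℝ≥0∞ :=
  max (⨆ a ∈ A, ⨅ b ∈ B, kyFan a b) (⨆ b ∈ B, ⨅ a ∈ A, kyFan a b)

/-- `{f ∘ φ : f ∈ Lip_1(X)}`. -/
def pull (X : MMSpace) (φ : I → X.carrier) : Set (I → ℝ) :=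
  {h | ∃ f : X.carrier → ℝ, LipschitzWith 1 f ∧ h = f ∘ φ}

/-- The observable distance `d_conc`. -/
noncomputable def dconc (X Y : MMSpace) : ℝ≥0∞ :=
  ⨅ (φ : Param X) (ψ : Param Y), hausd (pull X φ.1) (pull Y ψ.1)

/-- The concentration topology: the topology of the (pseudo)metric `d_conc`. -/
instance : TopologicalSpace MMSpace where
  IsOpen U := ∀ X ∈ U, ∃ ε : ℝ≥0∞, 0 < ε ∧ ∀ Y, dconc X Y < ε → Y ∈ U
  isOpen_univ := fun _ _ => ⟨1, one_pos, fun _ _ => trivial⟩
  isOpen_inter := by
    rintro s t hs ht X ⟨h1, h2⟩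
    obtain ⟨ε1, p1, q1⟩ := hs X h1
    obtain ⟨ε2, p2, q2⟩ := ht X h2
    exact ⟨min ε1 ε2, lt_min p1 p2, fun Y hY => ⟨q1 Y (hY.trans_le (min_le_left _ _)),
      q2 Y (hY.trans_le (min_le_right _ _))⟩⟩
  isOpen_sUnion := by
    rintro S hS X ⟨s, hs, hX⟩
    obtain ⟨ε, p, q⟩ := hS s hs X hX
    exact ⟨ε, p, fun Y hY => ⟨s, hs, q Y hY⟩⟩

/-- mm-isomorphism: an isometry `f : supp μ_X → supp μ_Y` with `f_* μ_X = μ_Y`. -/
def MMIso (X Y : MMSpace) : Prop :=
  ∃ f : X.μ.support → Y.μ.support, Isometry f ∧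
    Measure.map f (Measure.comap Subtype.val X.μ) = Measure.comap Subtype.val Y.μ

/-- The set `𝒳` of mm-isomorphism classes, with the concentration topology (the quotient
topology, whose open sets are exactly the sets open for `d_conc`). -/
abbrev XX : Type 1 := Quot MMIso

lemma isOpen_iff (U : Set MMSpace) :
    IsOpen U ↔ ∀ X ∈ U, ∃ ε : ℝ≥0∞, 0 < ε ∧ ∀ Y, dconc X Y < ε → Y ∈ U := Iff.rfl

/-- `N` functions in `Lip_1(Y)` with pairwise Ky Fan distance modulo constants `> η`. -/
def Sep (Y : MMSpace) (N : ℕ) (η : ℝ) : Prop :=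
  ∃ g : Fin N → Y.carrier → ℝ, (∀ i, LipschitzWith 1 (g i)) ∧
    ∀ i j, i ≠ j → ∀ c : ℝ, ENNReal.ofReal η < Y.μ {y | η < |g i y - g j y - c|}

lemma Sep.mono {Y : MMSpace} {N N' : ℕ} {η : ℝ} (h : Sep Y N' η) (hN : N ≤ N') : Sep Y N η := by
  obtain ⟨g, h1, h2⟩ := h
  refine ⟨fun i => g (Fin.castLE hN i), fun i => h1 _, ?_⟩
  intro i j hij c
  exact h2 _ _ (fun h => hij (Fin.castLE_injective hN h)) c

lemma kyFan_lt {f g : I → ℝ} {δ : ℝ} (h : kyFan f g < ENNReal.ofReal δ) :
    leb {t | δ < |f t - g t|} ≤ ENNReal.ofReal δ := by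
  unfold kyFan at h
  rw [sInf_lt_iff] at h
  obtain ⟨ε, hε, hlt⟩ := h
  refine le_trans (measure_mono ?_) (le_trans hε hlt.le)
  intro t ht
  simp only [mem_setOf_eq] at *
  exact hlt.trans_le (ENNReal.ofReal_le_ofReal ht.le)

lemma transfer {X Y : MMSpace} {N : ℕ} {η δ : ℝ} (hη : 0 < η) (hδ : 0 < δ)
    (hd : dconc X Y < ENNReal.ofReal δ) (hs : Sep Y N (η + 2 * δ)) : Sep X N η := by
  unfold dconc at hd
  rw [iInf_lt_iff] at hd
  obtain ⟨φ, hd⟩ := hd
  rw [iInf_lt_iff] at hd
  obtain ⟨ψ, hd⟩ := hd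
  have hd2 := (max_lt_iff.mp hd).2
  obtain ⟨g, hg1, hg2⟩ := hs
  have hex : ∀ i, ∃ f : X.carrier → ℝ, LipschitzWith 1 f ∧
      kyFan (f ∘ φ.1) (g i ∘ ψ.1) < ENNReal.ofReal δ := by
    intro i
    have h1 : (⨅ a ∈ pull X φ.1, kyFan a (g i ∘ ψ.1)) < ENNReal.ofReal δ := by
      refine lt_of_le_of_lt ?_ hd2
      exact le_iSup₂ (f := fun b (_ : b ∈ pull Y ψ.1) => ⨅ a ∈ pull X φ.1, kyFan a b)
        (g i ∘ ψ.1) ⟨g i, hg1 i, rfl⟩
    rw [iInf_lt_iff] at h1
    obtain ⟨a, h1⟩ := h1
    rw [iInf_lt_iff] at h1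
    obtain ⟨⟨f, hf, rfl⟩, h1⟩ := h1
    exact ⟨f, hf, h1⟩
  choose f hf1 hf2 using hex
  refine ⟨f, hf1, ?_⟩
  intro i j hij c
  by_contra hcon
  push Not at hcon
  have hY := hg2 i j hij c
  have mY : MeasurableSet {y | η + 2 * δ < |g i y - g j y - c|} := by
    apply measurableSet_lt measurable_const
    exact (((hg1 i).continuous.sub (hg1 j).continuous).sub continuous_const).abs.measurable
  have mX : MeasurableSet {x | η < |f i x - f j x - c|} := by
    apply measurableSet_lt measurable_const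
    exact (((hf1 i).continuous.sub (hf1 j).continuous).sub continuous_const).abs.measurable
  rw [← ψ.2.2, Measure.map_apply ψ.2.1 mY] at hY
  rw [← φ.2.2, Measure.map_apply φ.2.1 mX] at hcon
  have hsub : ψ.1 ⁻¹' {y | η + 2 * δ < |g i y - g j y - c|} ⊆
      (φ.1 ⁻¹' {x | η < |f i x - f j x - c|} ∪ {t | δ < |(f i ∘ φ.1) t - (g i ∘ ψ.1) t|})
        ∪ {t | δ < |(f j ∘ φ.1) t - (g j ∘ ψ.1) t|} := by
    intro t ht
    simp only [mem_preimage, mem_setOf_eq] at ht
    by_contra hh
    simp only [mem_union, mem_preimage, mem_setOf_eq, Function.comp_apply, not_or, not_lt] at hh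
    obtain ⟨⟨h1, h2⟩, h3⟩ := hh
    have e : g i (ψ.1 t) - g j (ψ.1 t) - c = (f i (φ.1 t) - f j (φ.1 t) - c)
        - (f i (φ.1 t) - g i (ψ.1 t)) + (f j (φ.1 t) - g j (ψ.1 t)) := by ring
    have h4 : |g i (ψ.1 t) - g j (ψ.1 t) - c| ≤ |f i (φ.1 t) - f j (φ.1 t) - c|
        + |f i (φ.1 t) - g i (ψ.1 t)| + |f j (φ.1 t) - g j (ψ.1 t)| := by
      rw [e]
      exact (abs_add_le _ _).trans (add_le_add (abs_sub _ _) le_rfl)
    linarith
  have hle : leb (ψ.1 ⁻¹' {y | η + 2 * δ < |g i y - g j y - c|})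
      ≤ ENNReal.ofReal η + ENNReal.ofReal δ + ENNReal.ofReal δ := by
    refine (measure_mono hsub).trans ((measure_union_le _ _).trans ?_)
    refine add_le_add ((measure_union_le _ _).trans (add_le_add hcon (kyFan_lt (hf2 i)))) ?_
    exact kyFan_lt (hf2 j)
  rw [← ENNReal.ofReal_add hη.le hδ.le, ← ENNReal.ofReal_add (by linarith) hδ.le] at hle
  have : η + δ + δ = η + 2 * δ := by ring
  rw [this] at hle
  exact absurd hY (not_lt.mpr hle)

lemma finite_capacity (Y : MMSpace) {η : ℝ} (hη : 0 < η) : ∃ N, ¬ Sep Y N η := by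
  have hne : Nonempty Y.carrier := by
    by_contra h
    rw [not_nonempty_iff] at h
    have h1 : Y.μ univ = 1 := measure_univ
    have h2 : (univ : Set Y.carrier) = ∅ := Set.eq_empty_of_isEmpty _
    rw [h2, measure_empty] at h1
    exact zero_ne_one h1
  set x := TopologicalSpace.denseSeq Y.carrier with hx
  set A : ℕ → Set Y.carrier := fun K => ⋃ k ∈ Finset.range K, Metric.ball (x k) (η / 4) with hA
  have hAmono : Monotone A := by
    intro K K' hK
    apply iUnion_subset; intro k
    apply iUnion_subset; intro hk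
    intro y hy
    simp only [hA, mem_iUnion]
    exact ⟨k, Finset.mem_range.mpr ((Finset.mem_range.mp hk).trans_le hK), hy⟩
  have hAunion : ⋃ K, A K = univ := by
    apply eq_univ_of_forall
    intro y
    obtain ⟨k, hk⟩ := (TopologicalSpace.denseRange_denseSeq Y.carrier).exists_dist_lt y
      (show 0 < η / 4 by linarith)
    simp only [hA, mem_iUnion]
    exact ⟨k + 1, k, Finset.mem_range.mpr (Nat.lt_succ_self k), by rw [Metric.mem_ball]; exact hk⟩
  have htend : Tendsto (fun K => Y.μ (A K)) atTop (𝓝 (Y.μ (⋃ K, A K))) :=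
    tendsto_measure_iUnion_atTop hAmono
  rw [hAunion, measure_univ] at htend
  have hlt : (1 : ℝ≥0∞) - ENNReal.ofReal η < 1 := by
    apply ENNReal.sub_lt_self ENNReal.one_ne_top one_ne_zero
    exact (ENNReal.ofReal_pos.mpr hη).ne'
  obtain ⟨K, hK⟩ := (htend.eventually (lt_mem_nhds hlt)).exists
  have mA : MeasurableSet (A K) := by
    simp only [hA]
    exact Finset.measurableSet_biUnion _ (fun k _ => Metric.isOpen_ball.measurableSet)
  have hcompl : Y.μ (A K)ᶜ ≤ ENNReal.ofReal η := by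
    rw [prob_compl_eq_one_sub mA, tsub_le_iff_right]
    have := hK.le
    rw [tsub_le_iff_right] at this
    rw [add_comm]; exact this
  -- codes
  set M : ℤ := ⌈(∑ k ∈ Finset.range K, dist (x k) (x 0)) / (η / 4)⌉ + 1 with hM
  set codes : Finset (Fin K → ℤ) := Fintype.piFinset (fun _ => Finset.Icc (-M) M) with hcodes
  refine ⟨codes.card + 1, ?_⟩
  rintro ⟨g, hg1, hg2⟩
  set code : Fin (codes.card + 1) → (Fin K → ℤ) :=
    fun i k => ⌊(g i (x k) - g i (x 0)) / (η / 4)⌋ with hcode
  have h4 : 0 < η / 4 := by linarith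
  have hmaps : ∀ i ∈ (Finset.univ : Finset (Fin (codes.card + 1))), code i ∈ codes := by
    intro i _
    rw [hcodes, Fintype.mem_piFinset]
    intro k
    have hb : |g i (x k) - g i (x 0)| ≤ ∑ k ∈ Finset.range K, dist (x k) (x 0) := by
      have h1 : |g i (x k) - g i (x 0)| ≤ dist (x k) (x 0) := by
        have := (hg1 i).dist_le_mul (x k) (x 0)
        rw [Real.dist_eq] at this
        simpa using this
      refine h1.trans ?_
      exact Finset.single_le_sum (f := fun k => dist (x k) (x 0)) (fun _ _ => dist_nonneg)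
        (Finset.mem_range.mpr k.2)
    have hb2 := abs_le.mp hb
    set S := ∑ k ∈ Finset.range K, dist (x k) (x 0) with hS
    have hc : S / (η / 4) ≤ (⌈S / (η / 4)⌉ : ℝ) := Int.le_ceil _
    rw [Finset.mem_Icc]
    constructor
    · rw [hcode]
      simp only
      rw [Int.le_floor, hM]
      push_cast
      have : -(S / (η / 4)) ≤ (g i (x k) - g i (x 0)) / (η / 4) := by
        rw [← neg_div]; exact div_le_div_of_nonneg_right hb2.1 h4.le
      linarith
    · rw [hcode]
      simp only
      have h5 : (g i (x k) - g i (x 0)) / (η / 4) ≤ S / (η / 4) :=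
        div_le_div_of_nonneg_right hb2.2 h4.le
      have h6 : ((⌊(g i (x k) - g i (x 0)) / (η / 4)⌋ : ℤ) : ℝ) ≤ (M : ℝ) := by
        refine (Int.floor_le _).trans ?_
        rw [hM]; push_cast; linarith
      exact_mod_cast h6
  obtain ⟨i, _, j, _, hij, heq⟩ := Finset.exists_ne_map_eq_of_card_lt_of_maps_to
    (s := (Finset.univ : Finset (Fin (codes.card + 1)))) (t := codes)
    (by simp) hmaps
  have hlt2 := hg2 i j hij (g i (x 0) - g j (x 0))
  have hsub : {y | η < |g i y - g j y - (g i (x 0) - g j (x 0))|} ⊆ (A K)ᶜ := by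
    intro y hy hyA
    simp only [mem_setOf_eq] at hy
    simp only [hA, mem_iUnion] at hyA
    obtain ⟨k, hk, hyk⟩ := hyA
    rw [Metric.mem_ball] at hyk
    have e1 := congrFun heq ⟨k, Finset.mem_range.mp hk⟩
    simp only [hcode] at e1
    have e2 := Int.abs_sub_lt_one_of_floor_eq_floor e1
    rw [← sub_div, abs_div, abs_of_pos h4, div_lt_one h4] at e2
    have l1 : |g i y - g i (x k)| ≤ dist y (x k) := by
      have := (hg1 i).dist_le_mul y (x k)
      rw [Real.dist_eq] at this
      simpa using this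
    have l2 : |g j y - g j (x k)| ≤ dist y (x k) := by
      have := (hg1 j).dist_le_mul y (x k)
      rw [Real.dist_eq] at this
      simpa using this
    have e3 : g i y - g j y - (g i (x 0) - g j (x 0)) = (g i y - g i (x k)) - (g j y - g j (x k))
        + (g i (x k) - g i (x 0) - (g j (x k) - g j (x 0))) := by ring
    have l3 : |g i y - g j y - (g i (x 0) - g j (x 0))| ≤ |g i y - g i (x k)|
        + |g j y - g j (x k)| + |g i (x k) - g i (x 0) - (g j (x k) - g j (x 0))| := by
      rw [e3]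
      exact (abs_add_le _ _).trans (add_le_add (abs_sub _ _) le_rfl)
    linarith
  exact absurd hlt2 (not_lt.mpr ((measure_mono hsub).trans hcompl))

/-- the open sets used in the proof -/
def UU (N : ℕ) (ε : ℝ) : Set MMSpace := {Y | ∃ η, 0 < η ∧ η < ε ∧ ¬ Sep Y N η}

lemma UU_open (N : ℕ) (ε : ℝ) : IsOpen (UU N ε) := by
  rw [isOpen_iff]
  rintro Y ⟨η, h0, h1, h2⟩
  have hδ : 0 < (ε - η) / 4 := by linarith
  refine ⟨ENNReal.ofReal ((ε - η) / 4), ENNReal.ofReal_pos.mpr hδ, ?_⟩
  intro Z hZ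
  refine ⟨η + 2 * ((ε - η) / 4), by linarith, by linarith, ?_⟩
  intro hs
  exact h2 (transfer h0 hδ hZ hs)

lemma UU_mono {N N' : ℕ} (h : N ≤ N') (ε : ℝ) : UU N ε ⊆ UU N' ε := by
  rintro Y ⟨η, h0, h1, h2⟩
  exact ⟨η, h0, h1, fun hs => h2 (hs.mono h)⟩

lemma UU_cover {ε : ℝ} (hε : 0 < ε) (Y : MMSpace) : ∃ N, Y ∈ UU N ε := by
  obtain ⟨N, hN⟩ := finite_capacity Y (show 0 < ε / 2 by linarith)
  exact ⟨N, ε / 2, by linarith, by linarith, hN⟩

/-! ### The diagonal space -/

/-- fair coin -/
noncomputable def ν : Measure Bool := (2⁻¹ : ℝ≥0∞) • (Measure.dirac true + Measure.dirac false)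

instance : IsProbabilityMeasure ν := by
  constructor
  simp only [ν, Measure.smul_apply, Measure.add_apply, measure_univ, smul_eq_mul]
  rw [one_add_one_eq_two]
  exact ENNReal.inv_mul_cancel two_ne_zero ENNReal.ofNat_ne_top

lemma ν_true : ν {true} = 2⁻¹ := by
  simp [ν]

lemma ν_false : ν {false} = 2⁻¹ := by
  simp [ν]

/-- encoding of block `k` -/
def enc (N : ℕ → ℕ) (k : ℕ) (b : Fin (N k) → Bool) : ℕ := Nat.pair k (Encodable.encode b)

lemma enc_inj (N : ℕ → ℕ) (k : ℕ) : Function.Injective (enc N k) := by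
  intro b b' h
  unfold enc at h
  have := (Nat.pair_eq_pair.mp h).2
  exact Encodable.encode_injective this

lemma enc_meas (N : ℕ → ℕ) (k : ℕ) : Measurable (enc N k) := measurable_of_finite _

noncomputable def μN (N : ℕ → ℕ) : Measure ℕ :=
  Measure.sum (fun k => ((2⁻¹ : ℝ≥0∞) ^ (k + 1)) •
    Measure.map (enc N k) (Measure.pi (fun _ : Fin (N k) => ν)))

instance (N : ℕ → ℕ) : IsProbabilityMeasure (μN N) := by
  constructor
  unfold μN
  rw [Measure.sum_apply _ MeasurableSet.univ]
  have : ∀ k, (((2⁻¹ : ℝ≥0∞) ^ (k + 1)) •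
      Measure.map (enc N k) (Measure.pi (fun _ : Fin (N k) => ν))) univ = (2⁻¹ : ℝ≥0∞) ^ (k + 1) := by
    intro k
    rw [Measure.smul_apply, Measure.map_apply (enc_meas N k) MeasurableSet.univ, preimage_univ,
      measure_univ, smul_eq_mul, mul_one]
  simp_rw [this]
  rw [ENNReal.tsum_geometric_add_one, ENNReal.one_sub_inv_two, inv_inv]
  exact ENNReal.inv_mul_cancel two_ne_zero ENNReal.ofNat_ne_top

/-- the diagonal mm-space -/
noncomputable def diag (N : ℕ → ℕ) : MMSpace where
  carrier := ℕ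
  μ := μN N

open Classical in
/-- the test functions -/
noncomputable def gg (N : ℕ → ℕ) (k : ℕ) (i : Fin (N k)) (n : ℕ) : ℝ :=
  if ∃ b, enc N k b = n ∧ b i = true then 1 else 0

lemma gg_enc (N : ℕ → ℕ) (k : ℕ) (i : Fin (N k)) (b : Fin (N k) → Bool) :
    gg N k i (enc N k b) = if b i = true then 1 else 0 := by
  unfold gg
  congr 1
  apply propext
  constructor
  · rintro ⟨b', h1, h2⟩
    rw [← enc_inj N k h1]; exact h2
  · intro h; exact ⟨b, rfl, h⟩

lemma gg_lip (N : ℕ → ℕ) (k : ℕ) (i : Fin (N k)) : LipschitzWith 1 (gg N k i) := by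
  apply LipschitzWith.of_dist_le_mul
  intro m n
  rcases eq_or_ne m n with h | h
  · subst h; simp
  · have h1 : (1:ℝ) ≤ dist m n := by
      rw [Nat.dist_eq]
      have : (1:ℤ) ≤ |(m:ℤ) - n| := Int.one_le_abs (sub_ne_zero.mpr (by exact_mod_cast h))
      exact_mod_cast this
    have h2 : dist (gg N k i m) (gg N k i n) ≤ 1 := by
      unfold gg
      split_ifs <;> simp [Real.dist_eq]
    simpa using h2.trans h1

lemma block_measure (N : ℕ → ℕ) (k : ℕ) {i j : Fin (N k)} (hij : i ≠ j) (S : Set ℕ)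
    (hS : ∀ b : Fin (N k) → Bool, b i = true → b j = false → enc N k b ∈ S) :
    (2⁻¹ : ℝ≥0∞) ^ (k + 3) ≤ μN N S := by
  have h1 : (((2⁻¹ : ℝ≥0∞) ^ (k + 1)) •
      Measure.map (enc N k) (Measure.pi (fun _ : Fin (N k) => ν))) S ≤ μN N S :=
    Measure.le_sum (fun k => ((2⁻¹ : ℝ≥0∞) ^ (k + 1)) •
      Measure.map (enc N k) (Measure.pi (fun _ : Fin (N k) => ν))) k S
  refine le_trans ?_ h1
  rw [Measure.smul_apply, Measure.map_apply (enc_meas N k) (MeasurableSet.of_discrete), smul_eq_mul]
  have h2 : (2⁻¹ : ℝ≥0∞) * 2⁻¹ ≤ Measure.pi (fun _ : Fin (N k) => ν) (enc N k ⁻¹' S) := by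
    set s : Fin (N k) → Set Bool := fun l => if l = i then {true} else if l = j then {false}
      else univ with hs
    have hsub : Set.pi univ s ⊆ enc N k ⁻¹' S := by
      intro b hb
      apply hS b
      · have := hb i (mem_univ i)
        simp only [hs, if_true, mem_singleton_iff] at this
        exact this
      · have := hb j (mem_univ j)
        simp only [hs, if_neg hij.symm, if_true, mem_singleton_iff] at this
        exact this
    refine le_trans (le_of_eq ?_) (measure_mono hsub)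
    rw [Measure.pi_pi, Finset.prod_eq_mul i j hij]
    · simp only [hs, if_true, if_neg hij.symm, ν_true, ν_false]
    · intro c _ hc
      simp only [hs, if_neg hc.1, if_neg hc.2, measure_univ]
    · intro h; exact absurd (Finset.mem_univ _) h
    · intro h; exact absurd (Finset.mem_univ _) h
  calc (2⁻¹ : ℝ≥0∞) ^ (k + 3) = (2⁻¹ : ℝ≥0∞) ^ (k + 1) * (2⁻¹ * 2⁻¹) := by ring
    _ ≤ _ := by gcongr

lemma diag_sep (N : ℕ → ℕ) (k : ℕ) {η : ℝ} (h0 : 0 < η) (h1 : η < (1 / 2) ^ (k + 4)) :
    Sep (diag N) (N k) η := by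
  refine ⟨fun i => gg N k i, fun i => gg_lip N k i, ?_⟩
  intro i j hij c
  have hη1 : η < 1 := h1.trans_le (pow_le_one₀ (by norm_num) (by norm_num))
  have hlt : ENNReal.ofReal η < (2⁻¹ : ℝ≥0∞) ^ (k + 3) := by
    have e : (2⁻¹ : ℝ≥0∞) ^ (k + 3) = ENNReal.ofReal ((1 / 2) ^ (k + 3)) := by
      rw [ENNReal.ofReal_pow (by norm_num)]
      congr 1
      rw [one_div, ENNReal.ofReal_inv_of_pos (by norm_num)]
      simp
    rw [e, ENNReal.ofReal_lt_ofReal_iff (by positivity)]
    refine h1.trans_le ?_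
    exact pow_le_pow_of_le_one (by norm_num) (by norm_num) (by omega)
  refine lt_of_lt_of_le hlt ?_
  show (2⁻¹ : ℝ≥0∞) ^ (k + 3) ≤ μN N {y | η < |gg N k i y - gg N k j y - c|}
  rcases le_total c 0 with hc | hc
  · apply block_measure N k hij
    intro b hbi hbj
    simp only [mem_setOf_eq]
    rw [gg_enc, gg_enc, hbi, hbj]
    simp only [if_true, Bool.false_eq_true, if_false]
    rw [abs_of_nonneg (by linarith)]
    linarith
  · apply block_measure N k hij.symm
    intro b hbj hbi
    simp only [mem_setOf_eq]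
    rw [gg_enc, gg_enc, hbi, hbj]
    simp only [if_true, Bool.false_eq_true, if_false]
    rw [abs_of_nonpos (by linarith)]
    linarith

/-- The key diagonal argument. -/
lemma diagonal (K : ℕ → Set MMSpace) (hcov : ⋃ k, K k = univ)
    (hb : ∀ k, ∃ N, K k ⊆ UU N ((1 / 2) ^ (k + 4))) : False := by
  choose N hN using hb
  have hmem : diag N ∈ ⋃ k, K k := by rw [hcov]; trivial
  rw [mem_iUnion] at hmem
  obtain ⟨k, hk⟩ := hmem
  obtain ⟨η, h0, h1, h2⟩ := hN k hk
  exact h2 (diag_sep N k h0 h1)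

lemma compact_bound {K : Set MMSpace} (hK : IsCompact K) {ε : ℝ} (hε : 0 < ε) :
    ∃ N, K ⊆ UU N ε := by
  obtain ⟨t, ht⟩ := hK.elim_finite_subcover (fun N => UU N ε) (fun N => UU_open N ε)
    (fun Y _ => mem_iUnion.mpr (UU_cover hε Y))
  refine ⟨t.sup id, ?_⟩
  intro Y hY
  have := ht hY
  rw [mem_iUnion₂] at this
  obtain ⟨N, hN, hYN⟩ := this
  exact UU_mono (Finset.le_sup (f := id) hN) ε hYN

lemma comap_val_apply {α : Type} [MeasurableSpace α] {μ : Measure α} {s : Set α}
    (hs : MeasurableSet s) {T : Set s} (hT : MeasurableSet T) :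
    (Measure.comap Subtype.val μ) T = μ (Subtype.val '' T) :=
  Measure.comap_apply _ Subtype.val_injective
    (fun _ h => (MeasurableEmbedding.subtype_coe hs).measurableSet_image.mpr h) _ hT

lemma measurableSet_gt {Y : MMSpace} {N : ℕ} {g : Fin N → Y.carrier → ℝ}
    (hg : ∀ i, LipschitzWith 1 (g i)) (i j : Fin N) (c η : ℝ) :
    MeasurableSet {y | η < |g i y - g j y - c|} := by
  apply measurableSet_lt measurable_const
  exact (((hg i).continuous.sub (hg j).continuous).sub continuous_const).abs.measurable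

lemma iso_pull {X Y : MMSpace} (h : MMIso X Y) {N : ℕ} {η : ℝ} (hs : Sep Y N η) : Sep X N η := by
  classical
  obtain ⟨f, hf, hmap⟩ := h
  obtain ⟨g, hg1, hg2⟩ := hs
  have hsX : MeasurableSet X.μ.support := Measure.isClosed_support.measurableSet
  have hsY : MeasurableSet Y.μ.support := Measure.isClosed_support.measurableSet
  have hfm : Measurable f := hf.continuous.measurable
  have hext : ∀ i, ∃ k : X.carrier → ℝ, LipschitzWith 1 k ∧
      ∀ x : X.μ.support, k x = g i (f x) := by
    intro i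
    have hl : LipschitzOnWith 1 (fun x : X.carrier => if hx : x ∈ X.μ.support then
        g i (f ⟨x, hx⟩) else 0) X.μ.support := by
      apply LipschitzOnWith.of_dist_le_mul
      intro x hx y hy
      simp only [dif_pos hx, dif_pos hy]
      have h1 := (hg1 i).dist_le_mul (f ⟨x, hx⟩) (f ⟨y, hy⟩)
      have h2 : dist (f ⟨x, hx⟩ : Y.carrier) (f ⟨y, hy⟩) = dist x y := by
        have := hf.dist_eq ⟨x, hx⟩ ⟨y, hy⟩
        simpa [Subtype.dist_eq] using this
      rw [h2] at h1
      exact h1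
    obtain ⟨k, hk1, hk2⟩ := hl.extend_real
    refine ⟨k, hk1, fun x => ?_⟩
    rw [← hk2 x.2]
    simp
  choose k hk1 hk2 using hext
  refine ⟨k, hk1, ?_⟩
  intro i j hij c
  refine lt_of_lt_of_le (hg2 i j hij c) ?_
  set S := {y | η < |g i y - g j y - c|} with hS
  have mS : MeasurableSet S := measurableSet_gt hg1 i j c η
  have e1 : Y.μ S ≤ Y.μ (S ∩ Y.μ.support) := by
    have : S ⊆ (S ∩ Y.μ.support) ∪ (Y.μ.support)ᶜ := by
      intro y hy
      by_cases h : y ∈ Y.μ.support
      · left; exact ⟨hy, h⟩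
      · right; exact h
    calc Y.μ S ≤ Y.μ ((S ∩ Y.μ.support) ∪ (Y.μ.support)ᶜ) := measure_mono this
      _ ≤ Y.μ (S ∩ Y.μ.support) + Y.μ (Y.μ.support)ᶜ := measure_union_le _ _
      _ = _ := by rw [Measure.measure_compl_support, add_zero]
  have e2 : Y.μ (S ∩ Y.μ.support) = (Measure.comap Subtype.val Y.μ)
      (Subtype.val ⁻¹' S : Set Y.μ.support) := by
    rw [comap_val_apply hsY (measurable_subtype_coe mS), Subtype.image_preimage_coe, inter_comm]
  rw [← hmap, Measure.map_apply hfm (measurable_subtype_coe mS),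
    comap_val_apply hsX (hfm (measurable_subtype_coe mS))] at e2
  refine e1.trans (e2.le.trans (measure_mono ?_))
  rintro _ ⟨x, hx, rfl⟩
  simp only [mem_preimage, hS, mem_setOf_eq] at hx ⊢
  rw [hk2, hk2]; exact hx

lemma iso_push {X Y : MMSpace} (h : MMIso X Y) {N : ℕ} {η : ℝ} (hs : Sep X N η) : Sep Y N η := by
  classical
  obtain ⟨f, hf, hmap⟩ := h
  obtain ⟨g, hg1, hg2⟩ := hs
  have hsX : MeasurableSet X.μ.support := Measure.isClosed_support.measurableSet
  have hsY : MeasurableSet Y.μ.support := Measure.isClosed_support.measurableSet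
  have hfm : Measurable f := hf.continuous.measurable
  have hext : ∀ i, ∃ k : Y.carrier → ℝ, LipschitzWith 1 k ∧
      ∀ x : X.μ.support, k (f x) = g i x := by
    intro i
    have hl : LipschitzOnWith 1 (fun y : Y.carrier => if hy : ∃ x : X.μ.support, (f x : Y.carrier) = y
        then g i (hy.choose) else 0) (range fun x : X.μ.support => (f x : Y.carrier)) := by
      apply LipschitzOnWith.of_dist_le_mul
      intro y hy z hz
      have hy' : ∃ x : X.μ.support, (f x : Y.carrier) = y := hy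
      have hz' : ∃ x : X.μ.support, (f x : Y.carrier) = z := hz
      simp only [dif_pos hy', dif_pos hz']
      have h1 := (hg1 i).dist_le_mul (hy'.choose : X.carrier) (hz'.choose : X.carrier)
      have h2 : dist (hy'.choose : X.carrier) (hz'.choose : X.carrier) = dist y z := by
        have := hf.dist_eq hy'.choose hz'.choose
        rw [Subtype.dist_eq, Subtype.dist_eq, hy'.choose_spec, hz'.choose_spec] at this
        exact this.symm
      rw [h2] at h1
      exact h1
    obtain ⟨k, hk1, hk2⟩ := hl.extend_real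
    refine ⟨k, hk1, fun x => ?_⟩
    have hmem : (f x : Y.carrier) ∈ range fun x : X.μ.support => (f x : Y.carrier) := ⟨x, rfl⟩
    rw [← hk2 hmem]
    have hy' : ∃ x' : X.μ.support, (f x' : Y.carrier) = f x := ⟨x, rfl⟩
    simp only [dif_pos hy']
    congr 1
    exact congrArg Subtype.val (hf.injective (Subtype.ext hy'.choose_spec))
  choose k hk1 hk2 using hext
  refine ⟨k, hk1, ?_⟩
  intro i j hij c
  refine lt_of_lt_of_le (hg2 i j hij c) ?_
  set S := {x | η < |g i x - g j x - c|} with hS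
  set S' := {y | η < |k i y - k j y - c|} with hS'
  have mS : MeasurableSet S := measurableSet_gt hg1 i j c η
  have mS' : MeasurableSet S' := measurableSet_gt hk1 i j c η
  have e1 : X.μ S ≤ X.μ (S ∩ X.μ.support) := by
    have : S ⊆ (S ∩ X.μ.support) ∪ (X.μ.support)ᶜ := by
      intro y hy
      by_cases h : y ∈ X.μ.support
      · left; exact ⟨hy, h⟩
      · right; exact h
    calc X.μ S ≤ X.μ ((S ∩ X.μ.support) ∪ (X.μ.support)ᶜ) := measure_mono this
      _ ≤ X.μ (S ∩ X.μ.support) + X.μ (X.μ.support)ᶜ := measure_union_le _ _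
      _ = _ := by rw [Measure.measure_compl_support, add_zero]
  have e2 : X.μ (S ∩ X.μ.support) = (Measure.comap Subtype.val X.μ)
      (Subtype.val ⁻¹' S : Set X.μ.support) := by
    rw [comap_val_apply hsX (measurable_subtype_coe mS), Subtype.image_preimage_coe, inter_comm]
  have e3 : (Measure.comap Subtype.val X.μ) (Subtype.val ⁻¹' S : Set X.μ.support)
      ≤ (Measure.comap Subtype.val X.μ) (f ⁻¹' (Subtype.val ⁻¹' S')) := by
    apply measure_mono
    intro x hx
    simp only [mem_preimage, hS, hS', mem_setOf_eq] at hx ⊢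
    rw [hk2, hk2]; exact hx
  rw [← Measure.map_apply hfm (measurable_subtype_coe mS'), hmap,
    comap_val_apply hsY (measurable_subtype_coe mS'), Subtype.image_preimage_coe] at e3
  exact e1.trans (e2.le.trans (e3.trans (measure_mono inter_subset_right)))

/-- the open sets used in the proof, in the space of isomorphism classes -/
def UUq (N : ℕ) (ε : ℝ) : Set XX :=
  {q | Quot.lift (fun Y => Y ∈ UU N ε) (fun _ _ h => propext
    ⟨fun ⟨η, h0, h1, h2⟩ => ⟨η, h0, h1, fun hs => h2 (iso_pull h hs)⟩,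
     fun ⟨η, h0, h1, h2⟩ => ⟨η, h0, h1, fun hs => h2 (iso_push h hs)⟩⟩) q}

lemma UUq_open (N : ℕ) (ε : ℝ) : IsOpen (UUq N ε) := by
  rw [← isQuotientMap_quot_mk.isOpen_preimage]
  exact UU_open N ε

lemma compact_bound_q {K : Set XX} (hK : IsCompact K) {ε : ℝ} (hε : 0 < ε) :
    ∃ N, Quot.mk MMIso ⁻¹' K ⊆ UU N ε := by
  obtain ⟨t, ht⟩ := hK.elim_finite_subcover (fun N => UUq N ε) (fun N => UUq_open N ε)
    (by
      intro q _
      induction q using Quot.ind with
      | mk Y =>
        obtain ⟨N, hN⟩ := UU_cover hε Y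
        exact mem_iUnion.mpr ⟨N, hN⟩)
  refine ⟨t.sup id, ?_⟩
  intro Y hY
  have := ht hY
  rw [mem_iUnion₂] at this
  obtain ⟨N, hN, hYN⟩ := this
  exact UU_mono (Finset.le_sup (f := id) hN) ε hYN

/-- Sequential compactness of a set of mm-spaces for `d_conc`. -/
def SeqCompactConc (K : Set MMSpace) : Prop :=
  ∀ Y : ℕ → MMSpace, (∀ n, Y n ∈ K) → ∃ Z ∈ K, ∃ s : ℕ → ℕ, StrictMono s ∧
    Tendsto (fun n => dconc Z (Y (s n))) atTop (𝓝 0)

lemma seq_bound {K : Set MMSpace} (hK : SeqCompactConc K) {ε : ℝ} (hε : 0 < ε) :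
    ∃ N, K ⊆ UU N ε := by
  by_contra hcon
  push Not at hcon
  have hex : ∀ N, ∃ Y ∈ K, Y ∉ UU N ε := fun N => not_subset.mp (hcon N)
  choose Y hY1 hY2 using hex
  obtain ⟨Z, hZ, s, hs, hlim⟩ := hK Y hY1
  obtain ⟨N0, hN0⟩ := UU_cover hε Z
  obtain ⟨δ, hδ, hball⟩ := (isOpen_iff _).mp (UU_open N0 ε) Z hN0
  have hev : ∀ᶠ n in atTop, dconc Z (Y (s n)) < δ := hlim.eventually (gt_mem_nhds hδ)
  have hev2 : ∀ᶠ n in atTop, N0 ≤ s n := hs.tendsto_atTop.eventually (eventually_ge_atTop N0)
  obtain ⟨n, h1, h2⟩ := (hev.and hev2).exists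
  exact hY2 (s n) (UU_mono h2 ε (hball _ h1))

/-- **Main theorem.** The space `𝒳` of mm-isomorphism classes of mm-spaces with the concentration
topology is not `σ`-compact.  The same holds for the topological space of all mm-spaces (before
passing to isomorphism classes) and for its Kolmogorov quotient; moreover the class of all
mm-spaces is not a countable union of sets that are sequentially compact for `d_conc`. -/
theorem result :
    ¬ SigmaCompactSpace XX ∧
    ¬ SigmaCompactSpace MMSpace ∧ ¬ SigmaCompactSpace (SeparationQuotient MMSpace) ∧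
    ¬ ∃ K : ℕ → Set MMSpace, (∀ k, SeqCompactConc (K k)) ∧ ⋃ k, K k = univ := by
  have h1 : ∀ K : ℕ → Set MMSpace, (∀ k, IsCompact (K k)) → ⋃ k, K k = univ → False :=
    fun K hK hcov => diagonal K hcov (fun k => compact_bound (hK k) (by positivity))
  refine ⟨?_, ?_, ?_, ?_⟩
  · intro h
    refine diagonal (fun k => Quot.mk MMIso ⁻¹' compactCovering XX k) ?_
      (fun k => compact_bound_q (isCompact_compactCovering XX k) (by positivity))
    rw [← preimage_iUnion, iUnion_compactCovering, preimage_univ]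
  · intro h
    exact h1 (compactCovering MMSpace) (fun k => isCompact_compactCovering MMSpace k)
      (iUnion_compactCovering MMSpace)
  · intro h
    refine h1 (fun k => SeparationQuotient.mk ⁻¹' compactCovering (SeparationQuotient MMSpace) k)
      (fun k => ?_) ?_
    · rw [SeparationQuotient.isInducing_mk.isCompact_iff,
        image_preimage_eq _ SeparationQuotient.surjective_mk]
      exact isCompact_compactCovering _ k
    · rw [← preimage_iUnion, iUnion_compactCovering, preimage_univ]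
  · rintro ⟨K, hK, hcov⟩
    exact diagonal K hcov (fun k => seq_bound (hK k) (by positivity))

end Pool.Agent.Results.MP_bb77e0_gt.ConcentrationNotSigmaCompact
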