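import Mathlib

set_option autoImplicit false

namespace Pool.Agent.V11114.Kreiss

open Finset

/-- Schur test for matrices acting on Euclidean space. -/
theorem schur {N : ℕ} (M : Matrix (Fin N) (Fin N) ℂ) (k : Fin N → Fin N → ℝ) (p : Fin N → ℝ)
    (C : ℝ) (hC : 0 ≤ C) (hp : ∀ j, 0 < p j) (hk : ∀ m j, ‖M m j‖ ≤ k m j)
    (h1 : ∀ m, ∑ j, k m j * p j ≤ C * p m) (h2 : ∀ j, ∑ m, k m j * p m ≤ C * p j) :
    ‖Matrix.toEuclideanCLM (𝕜 := ℂ) (n := Fin N) M‖ ≤ C := by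
  have hk0 : ∀ m j, 0 ≤ k m j := fun m j => (norm_nonneg _).trans (hk m j)
  apply ContinuousLinearMap.opNorm_le_bound _ hC
  intro x
  rw [← sq_le_sq₀ (norm_nonneg _) (by positivity), mul_pow, EuclideanSpace.norm_sq_eq,
    EuclideanSpace.norm_sq_eq]
  have hrow : ∀ m, ‖(Matrix.toEuclideanCLM (𝕜 := ℂ) (n := Fin N) M x) m‖ ^ 2
      ≤ C * p m * ∑ j, k m j * (‖x j‖ ^ 2 / p j) := by
    intro m
    have e : (Matrix.toEuclideanCLM (𝕜 := ℂ) (n := Fin N) M x) m = ∑ j, M m j * x j := by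
      rw [Matrix.ofLp_toEuclideanCLM]
      rfl
    rw [e]
    have s1 : ‖∑ j, M m j * x j‖ ≤ ∑ j, k m j * ‖x j‖ := by
      refine (norm_sum_le _ _).trans (Finset.sum_le_sum fun j _ => ?_)
      rw [norm_mul]
      exact mul_le_mul_of_nonneg_right (hk m j) (norm_nonneg _)
    have s2 : (∑ j, k m j * ‖x j‖) ^ 2
        ≤ (∑ j, k m j * p j) * ∑ j, k m j * (‖x j‖ ^ 2 / p j) := by
      have := Finset.sum_sq_le_sum_mul_sum_of_sq_eq_mul (s := Finset.univ)
        (r := fun j => k m j * ‖x j‖) (f := fun j => k m j * p j)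
        (g := fun j => k m j * (‖x j‖ ^ 2 / p j))
        (fun j _ => mul_nonneg (hk0 m j) (hp j).le)
        (fun j _ => mul_nonneg (hk0 m j) (div_nonneg (sq_nonneg _) (hp j).le))
        (fun j _ => by have := (hp j).ne'; field_simp)
      exact this
    calc ‖∑ j, M m j * x j‖ ^ 2 ≤ (∑ j, k m j * ‖x j‖) ^ 2 :=
          pow_le_pow_left₀ (norm_nonneg _) s1 2
      _ ≤ _ := s2
      _ ≤ _ := mul_le_mul_of_nonneg_right (h1 m) (Finset.sum_nonneg fun j _ =>
          mul_nonneg (hk0 m j) (div_nonneg (sq_nonneg _) (hp j).le))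
  calc ∑ m, ‖(Matrix.toEuclideanCLM (𝕜 := ℂ) (n := Fin N) M x) m‖ ^ 2
      ≤ ∑ m, C * p m * ∑ j, k m j * (‖x j‖ ^ 2 / p j) := Finset.sum_le_sum fun m _ => hrow m
    _ = ∑ j, C * (‖x j‖ ^ 2 / p j) * ∑ m, k m j * p m := by
        simp only [Finset.mul_sum]
        rw [Finset.sum_comm]
        refine Finset.sum_congr rfl fun j _ => Finset.sum_congr rfl fun m _ => ?_
        ring
    _ ≤ ∑ j, C * (‖x j‖ ^ 2 / p j) * (C * p j) := by
        refine Finset.sum_le_sum fun j _ => mul_le_mul_of_nonneg_left (h2 j) ?_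
        exact mul_nonneg hC (div_nonneg (sq_nonneg _) (hp j).le)
    _ = C ^ 2 * ∑ j, ‖x j‖ ^ 2 := by
        rw [Finset.mul_sum]
        refine Finset.sum_congr rfl fun j _ => ?_
        have := (hp j).ne'
        field_simp

/-- `∑_{a=1}^A a^{-β} ≤ A^{1-β}/(1-β)`. -/
theorem sum_rpow {β : ℝ} (hβ0 : 0 ≤ β) (hβ1 : β < 1) (A : ℕ) :
    ∑ a ∈ range A, ((a : ℝ) + 1) ^ (-β) ≤ (A : ℝ) ^ (1 - β) / (1 - β) := by
  have h1 : 0 < 1 - β := by linarith
  induction A with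
  | zero =>
    simp only [Finset.range_zero, Finset.sum_empty]
    positivity
  | succ A ih =>
    rw [Finset.sum_range_succ]
    have key : (1 - β) * ((A : ℝ) + 1) ^ (-β) ≤ ((A : ℝ) + 1) ^ (1 - β) - (A : ℝ) ^ (1 - β) := by
      have hA : (0 : ℝ) < (A : ℝ) + 1 := by positivity
      have hx : (-1 : ℝ) ≤ -(1 / ((A : ℝ) + 1)) := by
        rw [neg_le_neg_iff, div_le_one hA]
        have : (0 : ℝ) ≤ A := Nat.cast_nonneg A
        linarith
      have hb := _root_.rpow_one_add_le_one_add_mul_self hx h1.le (by linarith)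
      have e1 : (A : ℝ) = ((A : ℝ) + 1) * (1 + -(1 / ((A : ℝ) + 1))) := by field_simp; ring
      have hpos : 0 ≤ 1 + -(1 / ((A : ℝ) + 1)) := by linarith
      have e2 : (A : ℝ) ^ (1 - β) = ((A : ℝ) + 1) ^ (1 - β)
          * (1 + -(1 / ((A : ℝ) + 1))) ^ (1 - β) := by
        conv_lhs => rw [e1]
        exact Real.mul_rpow hA.le hpos
      have e3 : ((A : ℝ) + 1) ^ (-β) = ((A : ℝ) + 1) ^ (1 - β) * (1 / ((A : ℝ) + 1)) := by
        rw [show -β = (1 - β) - 1 by ring, Real.rpow_sub hA, Real.rpow_one]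
        ring
      rw [e2, e3]
      have hp : 0 < ((A : ℝ) + 1) ^ (1 - β) := Real.rpow_pos_of_pos hA _
      nlinarith
    have key2 : ((A : ℝ) + 1) ^ (-β)
        ≤ (((A : ℝ) + 1) ^ (1 - β) - (A : ℝ) ^ (1 - β)) / (1 - β) := by
      rw [le_div_iff₀ h1]; linarith
    push_cast
    calc _ ≤ (A : ℝ) ^ (1 - β) / (1 - β)
          + (((A : ℝ) + 1) ^ (1 - β) - (A : ℝ) ^ (1 - β)) / (1 - β) := add_le_add ih key2
      _ = _ := by ring

/-- The main sum estimate. The index `a` runs over `0, …, A-1` and stands for `a + 1`. -/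
theorem sum_main {β δ : ℝ} (hβ0 : 0 ≤ β) (hβ1 : β < 1) (hδ : 0 < δ) (A : ℕ) :
    δ * ∑ a ∈ range A, ((A : ℝ) / ((a : ℝ) + 1)) ^ β * ((1 + δ)⁻¹) ^ (A - a)
      ≤ 1 + 4 * β / (1 - β) := by
  have h1 : 0 < 1 - β := by linarith
  rcases Nat.eq_zero_or_pos A with rfl | hA
  · simp only [Finset.range_zero, Finset.sum_empty, mul_zero]; positivity
  have hAr : (0 : ℝ) < A := by exact_mod_cast hA
  -- geometric part
  have geo : ∀ B : ℕ, δ * ∑ a ∈ range B, ((1 + δ)⁻¹) ^ (B - a) ≤ 1 := by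
    intro B
    have : δ * ∑ a ∈ range B, ((1 + δ)⁻¹) ^ (B - a) = 1 - ((1 + δ)⁻¹) ^ B := by
      induction B with
      | zero => simp
      | succ B ih =>
        rw [Finset.sum_range_succ]
        have e : ∑ a ∈ range B, ((1 + δ)⁻¹) ^ (B + 1 - a)
            = (1 + δ)⁻¹ * ∑ a ∈ range B, ((1 + δ)⁻¹) ^ (B - a) := by
          rw [Finset.mul_sum]
          refine Finset.sum_congr rfl fun a ha => ?_
          have : a < B := Finset.mem_range.mp ha
          rw [show B + 1 - a = (B - a) + 1 by omega, pow_succ]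
          ring
        rw [e, show B + 1 - B = 1 by omega, pow_one, pow_succ, mul_add,
          show δ * ((1 + δ)⁻¹ * ∑ a ∈ range B, ((1 + δ)⁻¹) ^ (B - a))
            = (1 + δ)⁻¹ * (δ * ∑ a ∈ range B, ((1 + δ)⁻¹) ^ (B - a)) by ring, ih]
        have : (1 + δ) ≠ 0 := by positivity
        field_simp
        ring
    rw [this]
    have : 0 ≤ ((1 + δ)⁻¹) ^ B := by positivity
    linarith
  -- each term
  have term : ∀ a ∈ range A, δ * ((((A : ℝ) / ((a : ℝ) + 1)) ^ β - 1) * ((1 + δ)⁻¹) ^ (A - a))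
      ≤ (2 / (A : ℝ)) * ((((A : ℝ) / ((a : ℝ) + 1)) ^ β - 1) + β) := by
    intro a ha
    have haA : a < A := Finset.mem_range.mp ha
    have ha0 : (0 : ℝ) < (a : ℝ) + 1 := by positivity
    have haAr : (a : ℝ) + 1 ≤ A := by exact_mod_cast haA
    set s : ℕ := A - a with hs
    have hs1 : 1 ≤ s := by omega
    have hsr : (s : ℝ) = (A : ℝ) - a := by rw [hs, Nat.cast_sub haA.le]
    have hspos : (0 : ℝ) < s := by exact_mod_cast hs1
    have hbern : 1 + (s : ℝ) * δ ≤ (1 + δ) ^ s := one_add_mul_le_pow (by linarith) s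
    have hδs : δ * ((1 + δ)⁻¹) ^ s ≤ 1 / s := by
      rw [inv_pow, ← div_eq_mul_inv, div_le_div_iff₀ (by positivity) hspos]
      nlinarith
    have hone : 1 ≤ (A : ℝ) / ((a : ℝ) + 1) := by rw [le_div_iff₀ ha0]; linarith
    have hx0 : 0 ≤ ((A : ℝ) / ((a : ℝ) + 1)) ^ β - 1 := by
      have := Real.one_le_rpow hone hβ0
      linarith
    have step1 : δ * ((((A : ℝ) / ((a : ℝ) + 1)) ^ β - 1) * ((1 + δ)⁻¹) ^ s)
        ≤ (((A : ℝ) / ((a : ℝ) + 1)) ^ β - 1) * (1 / s) := by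
      calc _ = (((A : ℝ) / ((a : ℝ) + 1)) ^ β - 1) * (δ * ((1 + δ)⁻¹) ^ s) := by ring
        _ ≤ _ := mul_le_mul_of_nonneg_left hδs hx0
    refine step1.trans ?_
    by_cases hcase : 2 * (a + 1) ≤ A
    · have hc : 2 * ((a : ℝ) + 1) ≤ A := by exact_mod_cast hcase
      have h2 : 1 / (s : ℝ) ≤ 2 / A := by
        rw [div_le_div_iff₀ hspos hAr, hsr]; linarith
      have h3 : (((A : ℝ) / ((a : ℝ) + 1)) ^ β - 1) * (1 / s)
          ≤ (((A : ℝ) / ((a : ℝ) + 1)) ^ β - 1) * (2 / A) := mul_le_mul_of_nonneg_left h2 hx0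
      have h4 : 0 ≤ (2 / (A : ℝ)) * β := by positivity
      nlinarith
    · have hc : (A : ℝ) < 2 * ((a : ℝ) + 1) := by
        have : A < 2 * (a + 1) := by omega
        exact_mod_cast this
      have hb := _root_.rpow_one_add_le_one_add_mul_self
        (show (-1 : ℝ) ≤ (A : ℝ) / ((a : ℝ) + 1) - 1 by linarith) hβ0 hβ1.le
      rw [add_sub_cancel] at hb
      have h5 : ((A : ℝ) / ((a : ℝ) + 1)) ^ β - 1 ≤ β * (((A : ℝ) - (a + 1)) / ((a : ℝ) + 1)) := by
        have e : (A : ℝ) / ((a : ℝ) + 1) - 1 = ((A : ℝ) - (a + 1)) / ((a : ℝ) + 1) := by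
          field_simp
        rw [← e]; linarith
      have h6 : (((A : ℝ) / ((a : ℝ) + 1)) ^ β - 1) * (1 / s)
          ≤ β * (((A : ℝ) - (a + 1)) / ((a : ℝ) + 1)) * (1 / s) :=
        mul_le_mul_of_nonneg_right h5 (by positivity)
      have h7 : β * (((A : ℝ) - (a + 1)) / ((a : ℝ) + 1)) * (1 / s) ≤ β * (2 / A) := by
        rw [mul_assoc]
        apply mul_le_mul_of_nonneg_left _ hβ0
        rw [div_mul_div_comm, mul_one, div_le_div_iff₀ (by positivity) hAr, hsr]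
        have : 0 ≤ (A : ℝ) - a := by linarith
        nlinarith
      have h8 : 0 ≤ (2 / (A : ℝ)) * (((A : ℝ) / ((a : ℝ) + 1)) ^ β - 1) := by positivity
      nlinarith
  have hsum : ∑ a ∈ range A, ((A : ℝ) / ((a : ℝ) + 1)) ^ β ≤ A / (1 - β) := by
    have e : ∀ a : ℕ, ((A : ℝ) / ((a : ℝ) + 1)) ^ β = (A : ℝ) ^ β * ((a : ℝ) + 1) ^ (-β) := by
      intro a
      rw [Real.div_rpow hAr.le (by positivity), Real.rpow_neg (by positivity)]
      rfl
    simp only [e]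
    rw [← Finset.mul_sum]
    calc (A : ℝ) ^ β * ∑ a ∈ range A, ((a : ℝ) + 1) ^ (-β)
        ≤ (A : ℝ) ^ β * ((A : ℝ) ^ (1 - β) / (1 - β)) :=
          mul_le_mul_of_nonneg_left (sum_rpow hβ0 hβ1 A) (by positivity)
      _ = A / (1 - β) := by
          rw [← mul_div_assoc, ← Real.rpow_add hAr]
          congr 1
          rw [show β + (1 - β) = 1 by ring, Real.rpow_one]
  calc δ * ∑ a ∈ range A, ((A : ℝ) / ((a : ℝ) + 1)) ^ β * ((1 + δ)⁻¹) ^ (A - a)
      = δ * ∑ a ∈ range A, ((1 + δ)⁻¹) ^ (A - a)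
        + ∑ a ∈ range A, δ * ((((A : ℝ) / ((a : ℝ) + 1)) ^ β - 1) * ((1 + δ)⁻¹) ^ (A - a)) := by
        rw [Finset.mul_sum, Finset.mul_sum, ← Finset.sum_add_distrib]
        refine Finset.sum_congr rfl fun a _ => ?_
        ring
    _ ≤ 1 + ∑ a ∈ range A, (2 / (A : ℝ)) * ((((A : ℝ) / ((a : ℝ) + 1)) ^ β - 1) + β) :=
        add_le_add (geo A) (Finset.sum_le_sum term)
    _ = 1 + (2 / (A : ℝ)) * ((∑ a ∈ range A, ((A : ℝ) / ((a : ℝ) + 1)) ^ β) - A + A * β) := by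
        rw [← Finset.mul_sum, Finset.sum_add_distrib, Finset.sum_sub_distrib]
        simp
    _ ≤ 1 + (2 / (A : ℝ)) * (A / (1 - β) - A + A * β) := by
        have : 0 ≤ 2 / (A : ℝ) := by positivity
        have := mul_le_mul_of_nonneg_left hsum this
        nlinarith
    _ ≤ 1 + 4 * β / (1 - β) := by
        have e : (2 / (A : ℝ)) * (A / (1 - β) - A + A * β) = 2 * (β / (1 - β) + β) := by
          field_simp; ring
        rw [e]
        have : β ≤ β / (1 - β) := by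
          rw [le_div_iff₀ h1]; nlinarith
        have e2 : 4 * β / (1 - β) = 4 * (β / (1 - β)) := by ring
        rw [e2]; linarith

end Pool.Agent.V11114.Kreiss
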