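import Mathlib
import Pool.Agent.V11114.Kreiss

set_option autoImplicit false

namespace Pool.Agent.V11114.Kreiss

open Finset

/-- first weight -/
noncomputable def xx (β : ℝ) (m : ℕ) : ℝ := ((m : ℝ) + 1) ^ (β / 2)

/-- second weight -/
noncomputable def yy (β : ℝ) (N m : ℕ) : ℝ := ((N : ℝ) - m) ^ (β / 2)

/-- weights -/
noncomputable def ww (β : ℝ) (N m : ℕ) : ℝ := xx β m / yy β N m

/-- Schur test function -/
noncomputable def pp (β : ℝ) (N m : ℕ) : ℝ := 1 / (xx β m * yy β N m)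

theorem xx_pos (β : ℝ) (m : ℕ) : 0 < xx β m := Real.rpow_pos_of_pos (by positivity) _

theorem yy_pos (β : ℝ) {N m : ℕ} (h : m < N) : 0 < yy β N m := by
  apply Real.rpow_pos_of_pos
  have : (m : ℝ) < N := by exact_mod_cast h
  linarith

theorem ww_pos (β : ℝ) {N m : ℕ} (h : m < N) : 0 < ww β N m := div_pos (xx_pos β m) (yy_pos β h)

theorem pp_pos (β : ℝ) {N m : ℕ} (h : m < N) : 0 < pp β N m := by
  have h1 := xx_pos β m
  have h2 := yy_pos β h
  unfold pp
  positivity

theorem id1 (β : ℝ) {N m j : ℕ} (hm : m < N) (hj : j < N) :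
    ww β N m / ww β N j * pp β N j = (((m : ℝ) + 1) / ((j : ℝ) + 1)) ^ β * pp β N m := by
  have e : (((m : ℝ) + 1) / ((j : ℝ) + 1)) ^ β = (xx β m / xx β j) ^ 2 := by
    unfold xx
    rw [← Real.div_rpow (by positivity) (by positivity), ← Real.rpow_natCast, ← Real.rpow_mul
      (by positivity)]
    congr 1
    push_cast
    ring
  rw [e]
  unfold ww pp
  have h1 := (xx_pos β m).ne'
  have h2 := (xx_pos β j).ne'
  have h3 := (yy_pos β hm).ne'
  have h4 := (yy_pos β hj).ne'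
  field_simp

theorem id2 (β : ℝ) {N m j : ℕ} (hm : m < N) (hj : j < N) :
    ww β N m / ww β N j * pp β N m = (((N : ℝ) - j) / ((N : ℝ) - m)) ^ β * pp β N j := by
  have hm' : (0 : ℝ) < (N : ℝ) - m := by
    have : (m : ℝ) < N := by exact_mod_cast hm
    linarith
  have hj' : (0 : ℝ) < (N : ℝ) - j := by
    have : (j : ℝ) < N := by exact_mod_cast hj
    linarith
  have e : (((N : ℝ) - j) / ((N : ℝ) - m)) ^ β = (yy β N j / yy β N m) ^ 2 := by
    unfold yy
    rw [← Real.div_rpow hj'.le hm'.le, ← Real.rpow_natCast, ← Real.rpow_mul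
      (by positivity)]
    congr 1
    push_cast
    ring
  rw [e]
  unfold ww pp
  have h1 := (xx_pos β m).ne'
  have h2 := (xx_pos β j).ne'
  have h3 := (yy_pos β hm).ne'
  have h4 := (yy_pos β hj).ne'
  field_simp

/-- kernel -/
noncomputable def kk (β δ : ℝ) (N m j : ℕ) : ℝ :=
  if j ≤ m then ww β N m / ww β N j * ((1 + δ)⁻¹) ^ (m - j + 1) else 0

theorem row_sum {β δ : ℝ} (hβ0 : 0 ≤ β) (hβ1 : β < 1) (hδ : 0 < δ) {N m : ℕ} (hm : m < N) :
    ∑ j ∈ range N, kk β δ N m j * pp β N j ≤ (1 + 4 * β / (1 - β)) / δ * pp β N m := by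
  have e : ∑ j ∈ range N, kk β δ N m j * pp β N j
      = (∑ a ∈ range (m + 1), (((m + 1 : ℕ) : ℝ) / ((a : ℝ) + 1)) ^ β
        * ((1 + δ)⁻¹) ^ (m + 1 - a)) * pp β N m := by
    rw [Finset.sum_mul]
    symm
    apply Finset.sum_subset_zero_on_sdiff (f := fun (a : ℕ) => (((m + 1 : ℕ) : ℝ) / ((a : ℝ) + 1)) ^ β
        * ((1 + δ)⁻¹) ^ (m + 1 - a) * pp β N m) (g := fun (j : ℕ) => kk β δ N m j * pp β N j)
    · intro a ha
      simp only [Finset.mem_range] at ha ⊢
      omega
    · intro a ha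
      simp only [Finset.mem_sdiff, Finset.mem_range, not_lt] at ha
      simp only [kk]
      rw [if_neg (by omega), zero_mul]
    · intro a ha
      have ha' : a < m + 1 := Finset.mem_range.mp ha
      simp only [kk]
      rw [if_pos (by omega)]
      have h1 := id1 β hm (show a < N by omega)
      rw [show m + 1 - a = m - a + 1 by omega]
      push_cast
      linear_combination (-((1 + δ)⁻¹) ^ (m - a + 1)) * h1
  rw [e]
  apply mul_le_mul_of_nonneg_right _ (pp_pos β hm).le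
  rw [le_div_iff₀ hδ, mul_comm]
  exact sum_main hβ0 hβ1 hδ (m + 1)

theorem col_sum {β δ : ℝ} (hβ0 : 0 ≤ β) (hβ1 : β < 1) (hδ : 0 < δ) {N j : ℕ} (hj : j < N) :
    ∑ m ∈ range N, kk β δ N m j * pp β N m ≤ (1 + 4 * β / (1 - β)) / δ * pp β N j := by
  rw [← Finset.sum_range_reflect]
  have e : ∑ b ∈ range N, kk β δ N (N - 1 - b) j * pp β N (N - 1 - b)
      = (∑ b ∈ range (N - j), (((N - j : ℕ) : ℝ) / ((b : ℝ) + 1)) ^ β
        * ((1 + δ)⁻¹) ^ (N - j - b)) * pp β N j := by
    rw [Finset.sum_mul]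
    symm
    apply Finset.sum_subset_zero_on_sdiff (f := fun (b : ℕ) => (((N - j : ℕ) : ℝ) / ((b : ℝ) + 1)) ^ β
        * ((1 + δ)⁻¹) ^ (N - j - b) * pp β N j)
        (g := fun (b : ℕ) => kk β δ N (N - 1 - b) j * pp β N (N - 1 - b))
    · intro a ha
      simp only [Finset.mem_range] at ha ⊢
      omega
    · intro a ha
      simp only [Finset.mem_sdiff, Finset.mem_range, not_lt] at ha
      simp only [kk]
      rw [if_neg (by omega), zero_mul]
    · intro b hb
      have hb' : b < N - j := Finset.mem_range.mp hb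
      simp only [kk]
      rw [if_pos (by omega)]
      have h1 := id2 β (show N - 1 - b < N by omega) hj
      have e1 : ((N : ℝ) - ((N - 1 - b : ℕ) : ℝ)) = (b : ℝ) + 1 := by
        rw [Nat.cast_sub (by omega), Nat.cast_sub (by omega)]
        push_cast
        ring
      have e2 : ((N - j : ℕ) : ℝ) = (N : ℝ) - j := by rw [Nat.cast_sub hj.le]
      rw [e1] at h1
      rw [e2, show N - 1 - b - j + 1 = N - j - b by omega]
      linear_combination (-((1 + δ)⁻¹) ^ (N - j - b)) * h1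
  rw [e]
  apply mul_le_mul_of_nonneg_right _ (pp_pos β hj).le
  rw [le_div_iff₀ hδ, mul_comm]
  exact sum_main hβ0 hβ1 hδ (N - j)

/-- The weighted shift. -/
noncomputable def MM (β : ℝ) (N : ℕ) : Matrix (Fin N) (Fin N) ℂ :=
  Matrix.of fun m j => if (m : ℕ) = j + 1 then ((ww β N m / ww β N j : ℝ) : ℂ) else 0

/-- The resolvent. -/
noncomputable def RR (β : ℝ) (N : ℕ) (z : ℂ) : Matrix (Fin N) (Fin N) ℂ :=
  Matrix.of fun m j => if (j : ℕ) ≤ m then ((ww β N m / ww β N j : ℝ) : ℂ) *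
    (z⁻¹) ^ ((m : ℕ) - j + 1) else 0

theorem res_mul (β : ℝ) (N : ℕ) (z : ℂ) (hz : z ≠ 0) :
    (z • (1 : Matrix (Fin N) (Fin N) ℂ) - MM β N) * RR β N z = 1 := by
  rw [Matrix.sub_mul, Matrix.smul_mul, Matrix.one_mul]
  ext m j
  rw [Matrix.sub_apply, Matrix.smul_apply, Matrix.mul_apply, smul_eq_mul]
  have hwj : (ww β N j) ≠ 0 := (ww_pos β j.2).ne'
  have hwm : (ww β N m) ≠ 0 := (ww_pos β m.2).ne'
  rcases Nat.eq_zero_or_pos (m : ℕ) with hm | hm
  · have hsum : ∑ l, MM β N m l * RR β N z l j = 0 := by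
      apply Finset.sum_eq_zero
      intro l _
      simp only [MM, Matrix.of_apply]
      rw [if_neg (by omega), zero_mul]
    rw [hsum, sub_zero]
    simp only [RR, Matrix.of_apply, Matrix.one_apply]
    by_cases hmj : m = j
    · subst hmj
      rw [if_pos le_rfl, if_pos rfl, div_self hwm]
      simp [hz]
    · have : ¬ ((j : ℕ) ≤ m) := fun h => hmj (Fin.ext (by omega))
      rw [if_neg this, if_neg hmj, mul_zero]
  · let l₀ : Fin N := ⟨m - 1, by omega⟩
    have hl₀ : (l₀ : ℕ) = m - 1 := rfl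
    have hwl : (ww β N (l₀ : ℕ)) ≠ 0 := (ww_pos β l₀.2).ne'
    have hsum : ∑ l, MM β N m l * RR β N z l j = MM β N m l₀ * RR β N z l₀ j := by
      apply Finset.sum_eq_single_of_mem l₀ (Finset.mem_univ _)
      intro l _ hl
      simp only [MM, Matrix.of_apply]
      rw [if_neg, zero_mul]
      intro h
      apply hl
      apply Fin.ext
      omega
    rw [hsum]
    simp only [MM, RR, Matrix.of_apply, Matrix.one_apply]
    rw [if_pos (show (m : ℕ) = (l₀ : ℕ) + 1 by omega)]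
    by_cases hmj : m = j
    · subst hmj
      rw [if_pos le_rfl, if_pos rfl, if_neg (by omega), mul_zero, sub_zero, div_self hwm]
      simp [hz]
    · rw [if_neg hmj]
      by_cases hle : (j : ℕ) ≤ m
      · have hle' : (j : ℕ) ≤ (l₀ : ℕ) := by
          have : (j : ℕ) ≠ m := fun h => hmj (Fin.ext h.symm)
          omega
        rw [if_pos hle, if_pos hle', show (m : ℕ) - j + 1 = ((l₀ : ℕ) - j + 1) + 1 by omega,
          pow_succ]
        push_cast
        have h1 : ((ww β N j : ℝ) : ℂ) ≠ 0 := by exact_mod_cast hwj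
        have h2 : ((ww β N (l₀ : ℕ) : ℝ) : ℂ) ≠ 0 := by exact_mod_cast hwl
        field_simp
        ring
      · rw [if_neg hle, if_neg (by omega)]
        ring

theorem pow_entry (β : ℝ) (N : ℕ) (hN : 0 < N) (n : ℕ) (hn : n < N) :
    (MM β N ^ n) ⟨n, hn⟩ ⟨0, hN⟩ = ((ww β N n / ww β N 0 : ℝ) : ℂ) := by
  induction n with
  | zero =>
    have := (ww_pos β hN).ne'
    simp [this]
  | succ n ih =>
    rw [pow_succ', Matrix.mul_apply]
    have hn' : n < N := by omega
    rw [Finset.sum_eq_single_of_mem (⟨n, hn'⟩ : Fin N) (Finset.mem_univ _)]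
    · rw [ih hn']
      simp only [MM, Matrix.of_apply, if_true]
      have h1 : ((ww β N n : ℝ) : ℂ) ≠ 0 := by exact_mod_cast (ww_pos β hn').ne'
      have h2 : ((ww β N 0 : ℝ) : ℂ) ≠ 0 := by exact_mod_cast (ww_pos β hN).ne'
      push_cast
      field_simp
    · intro l _ hl
      simp only [MM, Matrix.of_apply]
      rw [if_neg, zero_mul]
      intro h
      apply hl
      apply Fin.ext
      simp only
      omega

theorem ww_ratio {β : ℝ} {N : ℕ} (hN : 1 ≤ N) :
    ww β N (N - 1) / ww β N 0 = (N : ℝ) ^ β := by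
  have hNr : (0 : ℝ) < N := by exact_mod_cast hN
  have e1 : ((N - 1 : ℕ) : ℝ) = (N : ℝ) - 1 := by rw [Nat.cast_sub hN]; simp
  unfold ww xx yy
  rw [e1]
  simp only [Nat.cast_zero, zero_add, sub_zero, sub_add_cancel, sub_sub_cancel, Real.one_rpow,
    div_one, one_div, div_inv_eq_mul]
  rw [← Real.rpow_add hNr]
  congr 1
  ring

theorem exists_matrix {β : ℝ} (hβ0 : 0 ≤ β) (hβ1 : β < 1) (N : ℕ) (hN : 1 ≤ N) :
    ∃ A : EuclideanSpace ℂ (Fin N) →L[ℂ] EuclideanSpace ℂ (Fin N),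
      (∀ z : ℂ, 1 < ‖z‖ → z ∈ resolventSet ℂ A ∧
        (‖z‖ - 1) * ‖resolvent A z‖ ≤ 1 + 4 * β / (1 - β)) ∧
      ∃ n : ℕ, (N : ℝ) ^ β ≤ ‖A ^ n‖ := by
  let Φ := Matrix.toEuclideanCLM (𝕜 := ℂ) (n := Fin N)
  have hβ2 : 0 < 1 - β := by linarith
  refine ⟨Φ (MM β N), ?_, N - 1, ?_⟩
  · intro z hz
    have hz0 : z ≠ 0 := by
      rintro rfl
      simp at hz
      linarith
    have h1 := res_mul β N z hz0
    have h2 : RR β N z * (z • (1 : Matrix (Fin N) (Fin N) ℂ) - MM β N) = 1 :=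
      mul_eq_one_comm.mp h1
    have e : (algebraMap ℂ (EuclideanSpace ℂ (Fin N) →L[ℂ] EuclideanSpace ℂ (Fin N))) z
        - Φ (MM β N) = Φ (z • (1 : Matrix (Fin N) (Fin N) ℂ) - MM β N) := by
      rw [map_sub, map_smul, map_one, Algebra.algebraMap_eq_smul_one]
    let u : (EuclideanSpace ℂ (Fin N) →L[ℂ] EuclideanSpace ℂ (Fin N))ˣ :=
      ⟨Φ (z • (1 : Matrix (Fin N) (Fin N) ℂ) - MM β N), Φ (RR β N z),
        by rw [← map_mul, h1, map_one], by rw [← map_mul, h2, map_one]⟩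
    have hu : (u : EuclideanSpace ℂ (Fin N) →L[ℂ] EuclideanSpace ℂ (Fin N))
        = (algebraMap ℂ _) z - Φ (MM β N) := e.symm
    have hres : resolvent (Φ (MM β N)) z = Φ (RR β N z) := by
      rw [resolvent, ← hu, Ring.inverse_unit]
      rfl
    refine ⟨?_, ?_⟩
    · rw [resolventSet, Set.mem_ofPred_eq, ← hu]
      exact u.isUnit
    · rw [hres]
      set δ := ‖z‖ - 1 with hδ
      have hδ0 : 0 < δ := by rw [hδ]; linarith
      have hzδ : ‖z‖ = 1 + δ := by rw [hδ]; ring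
      have hb : ‖Φ (RR β N z)‖ ≤ (1 + 4 * β / (1 - β)) / δ := by
        apply schur (RR β N z) (fun m j => kk β δ N m j) (fun j => pp β N j) _
          (by positivity) (fun j => pp_pos β j.2)
        · intro m j
          simp only [RR, kk, Matrix.of_apply]
          split_ifs with h
          · rw [norm_mul, norm_pow, norm_inv, hzδ, Complex.norm_real, Real.norm_of_nonneg
              (div_nonneg (ww_pos β m.2).le (ww_pos β j.2).le)]
          · simp
        · intro m
          rw [Fin.sum_univ_eq_sum_range (fun j => kk β δ N m j * pp β N j) N]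
          exact row_sum hβ0 hβ1 hδ0 m.2
        · intro j
          rw [Fin.sum_univ_eq_sum_range (fun m => kk β δ N m j * pp β N m) N]
          exact col_sum hβ0 hβ1 hδ0 j.2
      calc δ * ‖Φ (RR β N z)‖ ≤ δ * ((1 + 4 * β / (1 - β)) / δ) :=
            mul_le_mul_of_nonneg_left hb hδ0.le
        _ = 1 + 4 * β / (1 - β) := by field_simp
  · rw [← map_pow]
    let i0 : Fin N := ⟨0, hN⟩
    let i1 : Fin N := ⟨N - 1, by omega⟩
    have hent := pow_entry β N hN (N - 1) (by omega)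
    rw [ww_ratio hN] at hent
    have h1 : ‖(Φ (MM β N ^ (N - 1)) (EuclideanSpace.single i0 (1 : ℂ))) i1‖
        ≤ ‖Φ (MM β N ^ (N - 1)) (EuclideanSpace.single i0 (1 : ℂ))‖ :=
      PiLp.norm_apply_le _ _
    have h2 : (Φ (MM β N ^ (N - 1)) (EuclideanSpace.single i0 (1 : ℂ))) i1
        = (MM β N ^ (N - 1)) i1 i0 := by
      rw [Matrix.ofLp_toEuclideanCLM]
      simp
    have h3 : ‖Φ (MM β N ^ (N - 1)) (EuclideanSpace.single i0 (1 : ℂ))‖
        ≤ ‖Φ (MM β N ^ (N - 1))‖ := by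
      have := (Φ (MM β N ^ (N - 1))).le_opNorm (EuclideanSpace.single i0 (1 : ℂ))
      simpa using this
    have h4 : ‖(MM β N ^ (N - 1)) i1 i0‖ = (N : ℝ) ^ β := by
      rw [hent, Complex.norm_real, Real.norm_of_nonneg (by positivity)]
    rw [h2, h4] at h1
    exact h1.trans h3

end Pool.Agent.V11114.Kreiss
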